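import Pool.Agent.Lib.MP_98125f_al.JG.Spec

set_option autoImplicit false

namespace JG.AC1M

open JG

theorem specAC1 (hNRM : SpecNRM) : SpecAC1 := by
  classical
  intro G Y _ _ hR S m
  obtain ⟨ψ, hψ0, hψ1, hψS⟩ := hR S (1 / (2 * ((m : ℝ) + 1))) (by positivity)
  obtain ⟨P, hP⟩ : ∃ P : Finset Y, P = ψ.support := ⟨_, rfl⟩
  have hsum : ∑ y ∈ P, ψ y = 1 := by rw [hP]; exact hψ1
  have hPne : P.Nonempty := by
    rw [Finset.nonempty_iff_ne_empty]
    intro h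
    rw [h] at hsum
    simp at hsum
  have hPmem : ∀ y, ψ y ≠ 0 → y ∈ P := by
    intro y hy
    rw [hP]
    exact Finsupp.mem_support_iff.2 hy
  have hp1 : 1 ≤ P.card := hPne.card_pos
  obtain ⟨N, hN⟩ : ∃ N : ℕ, N = 2 * (m + 1) * P.card := ⟨_, rfl⟩
  have hNr : (N : ℝ) = 2 * ((m : ℝ) + 1) * P.card := by rw [hN]; push_cast; ring
  obtain ⟨k, hk⟩ : ∃ k : Y → ℕ, ∀ y, k y = ⌊(N : ℝ) * ψ y⌋₊ := ⟨_, fun _ => rfl⟩
  have hkle : ∀ y, (k y : ℝ) ≤ (N : ℝ) * ψ y := by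
    intro y
    rw [hk]
    exact Nat.floor_le (mul_nonneg (Nat.cast_nonneg _) (hψ0 y))
  have hkgt : ∀ y, (N : ℝ) * ψ y - 1 < (k y : ℝ) := by
    intro y
    rw [hk]
    exact Nat.sub_one_lt_floor _
  obtain ⟨F, hF⟩ : ∃ F : Finset (Y × ℕ), F = (P.sigma (fun y => Finset.range (k y))).map
      (Equiv.sigmaEquivProd Y ℕ).toEmbedding := ⟨_, rfl⟩
  have hFmem : ∀ z : Y × ℕ, z ∈ F ↔ z.2 < k z.1 := by
    rintro ⟨y, j⟩
    rw [hF]
    constructor
    · intro h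
      obtain ⟨⟨a, b⟩, hab, he⟩ := Finset.mem_map.1 h
      have he' : (a, b) = (y, j) := he
      obtain ⟨rfl, rfl⟩ := Prod.mk.inj he'
      exact Finset.mem_range.1 (Finset.mem_sigma.1 hab).2
    · intro h
      refine Finset.mem_map.2 ⟨⟨y, j⟩, Finset.mem_sigma.2 ⟨?_, Finset.mem_range.2 h⟩, rfl⟩
      apply hPmem
      intro h0
      have h1 : k y = 0 := by rw [hk, h0]; simp
      simp only at h
      omega
  have hFcard : F.card = ∑ y ∈ P, k y := by
    rw [hF, Finset.card_map, Finset.card_sigma]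
    simp
  have hFlow : (N : ℝ) - P.card ≤ F.card := by
    rw [hFcard]
    push_cast
    calc (N : ℝ) - P.card = ∑ y ∈ P, ((N : ℝ) * ψ y - 1) := by
          rw [Finset.sum_sub_distrib, ← Finset.mul_sum, hsum]; simp
      _ ≤ ∑ y ∈ P, (k y : ℝ) := Finset.sum_le_sum (fun y _ => (hkgt y).le)
  have hm0 : (0 : ℝ) ≤ m := Nat.cast_nonneg _
  have hpr : (1 : ℝ) ≤ P.card := by exact_mod_cast hp1
  refine ⟨F, ?_, ?_⟩
  · rw [← Finset.card_pos]
    have h1 : (0 : ℝ) < F.card := by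
      refine lt_of_lt_of_le ?_ hFlow
      rw [hNr]
      nlinarith [mul_nonneg hm0 (by linarith : (0 : ℝ) ≤ (P.card : ℝ))]
    exact_mod_cast h1
  · intro s hs
    obtain ⟨B, hB⟩ : ∃ B : Finset (Y × ℕ), B = (P.sigma (fun y => Finset.Ico (k (s • y)) (k y))).map
      (Equiv.sigmaEquivProd Y ℕ).toEmbedding := ⟨_, rfl⟩
    have hsub : {z : Y × ℕ | z ∈ F ∧ ((s • z.1, z.2) : Y × ℕ) ∉ F} ⊆ (B : Set (Y × ℕ)) := by
      rintro ⟨y, j⟩ ⟨h1, h2⟩
      have h1' := (hFmem _).1 h1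
      have h2' : ¬ (j < k (s • y)) := fun h => h2 ((hFmem _).2 h)
      simp only at h1'
      rw [Finset.mem_coe, hB]
      refine Finset.mem_map.2 ⟨⟨y, j⟩, Finset.mem_sigma.2 ⟨?_, Finset.mem_Ico.2 ⟨Nat.le_of_not_lt h2', h1'⟩⟩, rfl⟩
      apply hPmem
      intro h0
      have h3 : k y = 0 := by rw [hk, h0]; simp
      omega
    have hncard : Set.ncard {z : Y × ℕ | z ∈ F ∧ ((s • z.1, z.2) : Y × ℕ) ∉ F} ≤
        ∑ y ∈ P, (k y - k (s • y)) := by
      refine (Set.ncard_le_ncard hsub (Finset.finite_toSet B)).trans ?_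
      rw [Set.ncard_coe_finset, hB, Finset.card_map, Finset.card_sigma]
      simp
    have hterm : ∀ y ∈ P, (((k y - k (s • y) : ℕ)) : ℝ) ≤ (N : ℝ) * |ψ y - ψ (s • y)| + 1 := by
      intro y _
      by_cases h : k (s • y) ≤ k y
      · rw [Nat.cast_sub h]
        have h1 := hkle y
        have h2 := hkgt (s • y)
        have h3 : (N : ℝ) * (ψ y - ψ (s • y)) ≤ (N : ℝ) * |ψ y - ψ (s • y)| :=
          mul_le_mul_of_nonneg_left (le_abs_self _) (Nat.cast_nonneg _)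
        nlinarith
      · have h1 : k y - k (s • y) = 0 := by omega
        rw [h1]
        have h2 : (0 : ℝ) ≤ (N : ℝ) * |ψ y - ψ (s • y)| := by positivity
        push_cast
        linarith
    obtain ⟨f, hf⟩ : ∃ f : Y →₀ ℝ, f = Finsupp.mapDomain (fun y => s • y) ψ - ψ := ⟨_, rfl⟩
    have hfs : ∀ y, f (s • y) = ψ y - ψ (s • y) := by
      intro y
      rw [hf, Finsupp.sub_apply]
      congr 1
      exact Finsupp.mapDomain_apply (MulAction.injective s) ψ y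
    have hnf : nrm f ≤ 1 / (2 * ((m : ℝ) + 1)) := by rw [hf]; exact hψS s hs
    have hl1 : ∑ y ∈ P, |ψ y - ψ (s • y)| ≤ nrm f := by
      rw [hNRM.eq f (P.image (fun y => s • y) ∪ f.support)
        (fun x hx => Finset.mem_union_right _ (Finsupp.mem_support_iff.2 hx))]
      calc ∑ y ∈ P, |ψ y - ψ (s • y)| = ∑ y ∈ P, |f (s • y)| := by
            refine Finset.sum_congr rfl (fun y _ => ?_)
            rw [hfs]
        _ = ∑ x ∈ P.image (fun y => s • y), |f x| := by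
            rw [Finset.sum_image]
            intro a _ b _ hab
            exact MulAction.injective s hab
        _ ≤ _ := Finset.sum_le_sum_of_subset_of_nonneg Finset.subset_union_left
            (fun x _ _ => abs_nonneg _)
    have hbad : ((Set.ncard {z : Y × ℕ | z ∈ F ∧ ((s • z.1, z.2) : Y × ℕ) ∉ F} : ℕ) : ℝ) ≤
        (N : ℝ) * (1 / (2 * ((m : ℝ) + 1))) + P.card := by
      calc ((Set.ncard {z : Y × ℕ | z ∈ F ∧ ((s • z.1, z.2) : Y × ℕ) ∉ F} : ℕ) : ℝ)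
          ≤ ((∑ y ∈ P, (k y - k (s • y)) : ℕ) : ℝ) := by exact_mod_cast hncard
        _ = ∑ y ∈ P, (((k y - k (s • y) : ℕ)) : ℝ) := by push_cast; rfl
        _ ≤ ∑ y ∈ P, ((N : ℝ) * |ψ y - ψ (s • y)| + 1) := Finset.sum_le_sum hterm
        _ = (N : ℝ) * ∑ y ∈ P, |ψ y - ψ (s • y)| + P.card := by
            rw [Finset.sum_add_distrib, ← Finset.mul_sum]; simp
        _ ≤ _ := by
            have := mul_le_mul_of_nonneg_left (hl1.trans hnf) (Nat.cast_nonneg N : (0 : ℝ) ≤ N)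
            linarith
    have hfin : ((m * Set.ncard {z : Y × ℕ | z ∈ F ∧ ((s • z.1, z.2) : Y × ℕ) ∉ F} : ℕ) : ℝ) ≤
        (F.card : ℝ) := by
      push_cast
      refine (mul_le_mul_of_nonneg_left hbad hm0).trans (le_trans ?_ hFlow)
      rw [hNr]
      have h1 : 2 * ((m : ℝ) + 1) * P.card * (1 / (2 * ((m : ℝ) + 1))) = P.card := by
        field_simp
      rw [h1]
      nlinarith
    exact_mod_cast hfin

end JG.AC1M
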