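import Pool.Agent.Lib.MP_98125f_al.JG.Spec

/-! # MP_98125f_al, JG, AC2: selection of an orbit (helper94) -/

set_option autoImplicit false
set_option linter.deprecated false

namespace JG.AC2M

open Filter Topology Hyperreal Pool.Agent.Lib.MP98125f

open scoped Classical

theorem specAC2 (hAC1 : SpecAC1) : SpecAC2 := by
  intro G Y _ _ hR S m
  obtain ⟨F, hF, hbad⟩ := hAC1 G Y hR S (m * (S.card + 1))
  obtain ⟨κ, hκ⟩ : ∃ κ : Y × ℕ → MulAction.orbitRel.Quotient G Y × ℕ,
      κ = fun z => (Quotient.mk _ z.1, z.2) := ⟨_, rfl⟩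
  have hκs : ∀ (s : G) (z : Y × ℕ), κ (s • z.1, z.2) = κ z := by
    intro s z
    rw [hκ]
    refine Prod.ext ?_ rfl
    exact Quotient.sound (MulAction.orbitRel_apply.2 ⟨s, rfl⟩)
  obtain ⟨B, hB⟩ : ∃ B : G → Finset (Y × ℕ),
      B = fun s => F.filter fun z => ((s • z.1, z.2) : Y × ℕ) ∉ F := ⟨_, rfl⟩
  have hBc : ∀ s ∈ S, m * (S.card + 1) * (B s).card ≤ F.card := by
    intro s hs
    have h := hbad s hs
    have e : {z : Y × ℕ | z ∈ F ∧ ((s • z.1, z.2) : Y × ℕ) ∉ F} = ↑(B s) := by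
      ext z
      simp [hB]
    rwa [e, Set.ncard_coe_finset] at h
  have hsum : ∑ s ∈ S, m * (B s).card ≤ F.card := by
    have h1 : (S.card + 1) * ∑ s ∈ S, m * (B s).card ≤ S.card * F.card := by
      rw [Finset.mul_sum]
      calc ∑ s ∈ S, (S.card + 1) * (m * (B s).card) ≤ ∑ _s ∈ S, F.card :=
            Finset.sum_le_sum fun s hs => by
              have := hBc s hs
              nlinarith
        _ = S.card * F.card := by rw [Finset.sum_const, smul_eq_mul]
    nlinarith [Nat.zero_le F.card]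
  have hsplit : ∀ A : Finset (Y × ℕ), A ⊆ F →
      A.card = ∑ c ∈ F.image κ, (A.filter fun z => κ z = c).card := by
    intro A hA
    exact Finset.card_eq_sum_card_fiberwise fun z hz => Finset.mem_image_of_mem κ (hA hz)
  obtain ⟨c, hc, hcle⟩ : ∃ c ∈ F.image κ,
      ∑ s ∈ S, m * ((B s).filter fun z => κ z = c).card ≤ (F.filter fun z => κ z = c).card := by
    by_contra hcon
    push Not at hcon
    have h1 : F.card < ∑ c ∈ F.image κ, ∑ s ∈ S, m * ((B s).filter fun z => κ z = c).card := by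
      rw [hsplit F subset_rfl]
      exact Finset.sum_lt_sum_of_nonempty (hF.image κ) hcon
    rw [Finset.sum_comm] at h1
    have h2 : ∑ s ∈ S, ∑ c ∈ F.image κ, m * ((B s).filter fun z => κ z = c).card =
        ∑ s ∈ S, m * (B s).card := by
      refine Finset.sum_congr rfl fun s _ => ?_
      rw [← Finset.mul_sum, ← hsplit (B s) (by rw [hB]; exact Finset.filter_subset _ _)]
    omega
  obtain ⟨F0, hF0⟩ : ∃ F0 : Finset (Y × ℕ), F0 = F.filter fun z => κ z = c := ⟨_, rfl⟩
  have hmem : ∀ z, z ∈ F0 ↔ z ∈ F ∧ κ z = c := fun z => by rw [hF0]; simp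
  have hsnd : ∀ z ∈ F0, z.2 = c.2 := fun z hz => by
    have := ((hmem z).1 hz).2
    rw [← this, hκ]
  have hinj : Set.InjOn Prod.fst (F0 : Set (Y × ℕ)) := by
    intro z hz w hw h
    exact Prod.ext h ((hsnd z hz).trans (hsnd w hw).symm)
  obtain ⟨z0, hz0, hz0c⟩ := Finset.mem_image.1 hc
  have hz0F : z0 ∈ F0 := (hmem z0).2 ⟨hz0, hz0c⟩
  refine ⟨z0.1, F0.image Prod.fst, ⟨z0.1, Finset.mem_image_of_mem _ hz0F⟩, ?_, ?_⟩
  · intro y hy
    obtain ⟨z, hz, rfl⟩ := Finset.mem_image.1 hy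
    have h1 : κ z = κ z0 := ((hmem z).1 hz).2.trans hz0c.symm
    rw [hκ] at h1
    have h2 := congrArg Prod.fst h1
    exact MulAction.orbitRel_apply.1 (Quotient.exact h2)
  · intro s hs
    rw [Finset.card_image_of_injOn hinj]
    have h1 : {y : Y | y ∈ F0.image Prod.fst ∧ s • y ∉ F0.image Prod.fst} ⊆
        ↑(((B s).filter fun z => κ z = c).image Prod.fst) := by
      rintro y ⟨hy, hsy⟩
      obtain ⟨z, hz, rfl⟩ := Finset.mem_image.1 hy
      refine Finset.mem_coe.2 (Finset.mem_image.2 ⟨z, ?_, rfl⟩)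
      rw [Finset.mem_filter]
      refine ⟨?_, ((hmem z).1 hz).2⟩
      rw [hB]
      refine Finset.mem_filter.2 ⟨((hmem z).1 hz).1, fun hcon => hsy ?_⟩
      refine Finset.mem_image.2 ⟨(s • z.1, z.2), (hmem _).2 ⟨hcon, ?_⟩, rfl⟩
      rw [hκs, ((hmem z).1 hz).2]
    have h2 : Set.ncard {y : Y | y ∈ F0.image Prod.fst ∧ s • y ∉ F0.image Prod.fst} ≤
        ((B s).filter fun z => κ z = c).card := by
      refine (Set.ncard_le_ncard h1 (Finset.finite_toSet _)).trans ?_
      rw [Set.ncard_coe_finset]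
      exact Finset.card_image_le
    calc m * Set.ncard {y : Y | y ∈ F0.image Prod.fst ∧ s • y ∉ F0.image Prod.fst} ≤
          m * ((B s).filter fun z => κ z = c).card := Nat.mul_le_mul_left _ h2
      _ ≤ ∑ s ∈ S, m * ((B s).filter fun z => κ z = c).card :=
          Finset.single_le_sum (f := fun s => m * ((B s).filter fun z => κ z = c).card)
            (fun _ _ => Nat.zero_le _) hs
      _ ≤ F0.card := by rw [hF0]; exact hcle

end JG.AC2M
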