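import Pool.Agent.Lib.MP_98125f_al.JG.Spec

/-! # MP_98125f_al, JG, AC3: from an orbit to the group (helper94) -/

set_option autoImplicit false
set_option linter.deprecated false

namespace JG.AC3M

open Filter Topology Hyperreal Pool.Agent.Lib.MP98125f

open scoped Classical

theorem specAC3 : SpecAC3 := by
  intro G Y _ _ S m y0 F hA hF horb hS
  have hch : ∀ y : Y, ∃ g : G, y ∈ F → g • y0 = y := by
    intro y
    by_cases hy : y ∈ F
    · obtain ⟨g, hg⟩ := horb y hy
      exact ⟨g, fun _ => hg⟩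
    · exact ⟨1, fun h => absurd h hy⟩
  choose a ha using hch
  obtain ⟨hh, hhdef⟩ : ∃ hh : G → Y → MulAction.stabilizer G y0, ∀ s y,
      (a (s • y))⁻¹ * s * a y ∈ MulAction.stabilizer G y0 →
      (hh s y : G) = (a (s • y))⁻¹ * s * a y := by
    refine ⟨fun s y => if h : (a (s • y))⁻¹ * s * a y ∈ MulAction.stabilizer G y0 then ⟨_, h⟩
      else 1, fun s y h => ?_⟩
    simp only [dif_pos h]
  obtain ⟨K, hK, hKb⟩ := hA ((S ×ˢ F).image fun p => hh p.1 p.2) (2 * m)
  have hst : ∀ k : MulAction.stabilizer G y0, (k : G) • y0 = y0 := fun k => k.2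
  obtain ⟨f, hf⟩ : ∃ f : Y × MulAction.stabilizer G y0 → G, f = fun p => a p.1 * (p.2 : G) :=
    ⟨_, rfl⟩
  have hact : ∀ p : Y × MulAction.stabilizer G y0, p.1 ∈ F → f p • y0 = p.1 := fun p hp => by
    rw [hf]
    show (a p.1 * (p.2 : G)) • y0 = p.1
    rw [mul_smul, hst, ha p.1 hp]
  have hinj : Set.InjOn f ((F ×ˢ K : Finset _) : Set (Y × MulAction.stabilizer G y0)) := by
    intro p hp q hq h
    have hp1 := (Finset.mem_product.1 (Finset.mem_coe.1 hp)).1
    have hq1 := (Finset.mem_product.1 (Finset.mem_coe.1 hq)).1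
    have h1 : p.1 = q.1 := by rw [← hact p hp1, ← hact q hq1, h]
    refine Prod.ext h1 (Subtype.ext ?_)
    have h2 : a p.1 * (p.2 : G) = a q.1 * (q.2 : G) := by
      have := h
      rw [hf] at this
      exact this
    rw [h1] at h2
    exact mul_left_cancel h2
  refine ⟨(F ×ˢ K).image f, (hF.product hK).image f, fun s hs => ?_⟩
  rw [Finset.card_image_of_injOn hinj, Finset.card_product]
  obtain ⟨P1, hP1⟩ : ∃ P1 : Finset (Y × MulAction.stabilizer G y0),
      P1 = (F.filter fun y => s • y ∉ F) ×ˢ K := ⟨_, rfl⟩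
  obtain ⟨P2, hP2⟩ : ∃ P2 : Finset (Y × MulAction.stabilizer G y0),
      P2 = (F ×ˢ K).filter fun p => hh s p.1 * p.2 ∉ K := ⟨_, rfl⟩
  have hsub : {x : G | x ∈ (F ×ˢ K).image f ∧ s * x ∉ (F ×ˢ K).image f} ⊆
      ↑((P1 ∪ P2).image f) := by
    rintro x ⟨hx, hsx⟩
    obtain ⟨p, hp, rfl⟩ := Finset.mem_image.1 hx
    obtain ⟨hp1, hp2⟩ := Finset.mem_product.1 hp
    refine Finset.mem_coe.2 (Finset.mem_image.2 ⟨p, ?_, rfl⟩)
    rw [Finset.mem_union]
    by_cases hsy : s • p.1 ∈ F
    · right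
      rw [hP2]
      refine Finset.mem_filter.2 ⟨hp, fun hcon => hsx ?_⟩
      refine Finset.mem_image.2 ⟨(s • p.1, hh s p.1 * p.2), Finset.mem_product.2 ⟨hsy, hcon⟩, ?_⟩
      have hmem : (a (s • p.1))⁻¹ * s * a p.1 ∈ MulAction.stabilizer G y0 := by
        rw [MulAction.mem_stabilizer_iff, mul_smul, mul_smul, ha p.1 hp1, inv_smul_eq_iff,
          ha (s • p.1) hsy]
      rw [hf]
      show a (s • p.1) * ((hh s p.1 * p.2 : MulAction.stabilizer G y0) : G) =
        s * (a p.1 * (p.2 : G))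
      rw [Subgroup.coe_mul, hhdef s p.1 hmem]
      group
    · left
      rw [hP1]
      exact Finset.mem_product.2 ⟨Finset.mem_filter.2 ⟨hp1, hsy⟩, hp2⟩
  have hcard : Set.ncard {x : G | x ∈ (F ×ˢ K).image f ∧ s * x ∉ (F ×ˢ K).image f} ≤
      P1.card + P2.card := by
    refine (Set.ncard_le_ncard hsub (Finset.finite_toSet _)).trans ?_
    rw [Set.ncard_coe_finset]
    exact Finset.card_image_le.trans (Finset.card_union_le _ _)
  have h1 : 2 * m * P1.card ≤ F.card * K.card := by
    rw [hP1, Finset.card_product, ← mul_assoc]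
    refine Nat.mul_le_mul_right _ ?_
    have h := hS s hs
    have e : {y : Y | y ∈ F ∧ s • y ∉ F} = ↑(F.filter fun y => s • y ∉ F) := by
      ext y
      simp
    rwa [e, Set.ncard_coe_finset] at h
  have h2 : 2 * m * P2.card ≤ F.card * K.card := by
    have e : P2.card = ∑ y ∈ F, (K.filter fun k => hh s y * k ∉ K).card := by
      rw [hP2, Finset.card_filter, Finset.sum_product]
      exact Finset.sum_congr rfl fun y _ => by rw [Finset.card_filter]
    rw [e, Finset.mul_sum]
    calc ∑ y ∈ F, 2 * m * (K.filter fun k => hh s y * k ∉ K).card ≤ ∑ _y ∈ F, K.card := by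
          refine Finset.sum_le_sum fun y hy => ?_
          have h := hKb (hh s y) (Finset.mem_image.2 ⟨(s, y), Finset.mem_product.2 ⟨hs, hy⟩, rfl⟩)
          have e : {k : MulAction.stabilizer G y0 | k ∈ K ∧ hh s y * k ∉ K} =
              ↑(K.filter fun k => hh s y * k ∉ K) := by
            ext k
            simp
          rwa [e, Set.ncard_coe_finset] at h
      _ = F.card * K.card := by rw [Finset.sum_const, smul_eq_mul]
  have h3 : m * Set.ncard {x : G | x ∈ (F ×ˢ K).image f ∧ s * x ∉ (F ×ˢ K).image f} ≤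
      m * (P1.card + P2.card) := Nat.mul_le_mul_left _ hcard
  nlinarith

end JG.AC3M
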