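import Pool.Agent.Lib.MP_98125f_al.JG.Spec

/-!
# MP_98125f_al, module ACT: amenability from an action
-/

set_option autoImplicit false

namespace JG.ACTM

open JG Pool.Agent.Lib.MP98125f

theorem specACT (hAC2 : SpecAC2) (hAC3 : SpecAC3) : SpecACT := by
  intro G Y _ _ hR hst S m
  obtain ⟨y0, F, hF, horb, hS⟩ := hAC2 G Y hR S (2 * m)
  exact hAC3 G Y S m y0 F (hst y0) hF horb hS

end JG.ACTM
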