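import Pool.Agent.Lib.MP_98125f_al.JG.Spec

/-! Module ALL: if a parameter belongs to all the sets `AK` then the space is good. -/

set_option autoImplicit false
set_option linter.deprecated false

namespace JG.ALLM

open Filter Topology Hyperreal Pool.Agent.Lib.MP98125f

/-- Elements of the subring generated by `K` and `x` are values of polynomials. -/
theorem subring_val (K : Subfield ℝ) (d : ℕ) (x : Fin d → ℝ) (v : ℝ)
    (hv : v ∈ Subring.closure ((K : Set ℝ) ∪ Set.range x)) :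
    ∃ p : MvPolynomial (Fin d) K, MvPolynomial.aeval x p = v := by
  have h : Subring.closure ((K : Set ℝ) ∪ Set.range x) ≤
      (MvPolynomial.aeval x : MvPolynomial (Fin d) K →ₐ[K] ℝ).toRingHom.range := by
    rw [Subring.closure_le]
    rintro v (hv | ⟨i, rfl⟩)
    · exact ⟨MvPolynomial.C ⟨v, hv⟩, MvPolynomial.aeval_C x _⟩
    · exact ⟨MvPolynomial.X i, MvPolynomial.aeval_X x i⟩
  obtain ⟨p, hp⟩ := h hv
  exact ⟨p, hp⟩

/-- Elements of the field generated by `K` and `x` are quotients of values of polynomials. -/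
theorem field_val (K : Subfield ℝ) (d : ℕ) (x : Fin d → ℝ) (v : ℝ) (hv : v ∈ KX K x) :
    ∃ p q : MvPolynomial (Fin d) K, MvPolynomial.aeval x q ≠ 0 ∧
      v = MvPolynomial.aeval x p / MvPolynomial.aeval x q := by
  obtain ⟨a, ha, b, hb, hab⟩ := Subfield.mem_closure_iff.1 hv
  obtain ⟨p, hp⟩ := subring_val K d x a ha
  obtain ⟨q, hq⟩ := subring_val K d x b hb
  by_cases h0 : b = 0
  · refine ⟨0, 1, ?_, ?_⟩
    · rw [map_one]
      exact one_ne_zero
    · rw [map_zero, zero_div, ← hab, h0, div_zero]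
  · refine ⟨p, q, ?_, ?_⟩
    · rw [hq]
      exact h0
    · rw [hp, hq, hab]

/-- A common denominator. -/
theorem common_den (K : Subfield ℝ) (d : ℕ) (x : Fin d → ℝ) (T : Finset ℝ) :
    (∀ v ∈ T, v ∈ KX K x) → ∃ s : MvPolynomial (Fin d) K, MvPolynomial.aeval x s ≠ 0 ∧
      ∀ v ∈ T, ∃ p : MvPolynomial (Fin d) K,
        v = MvPolynomial.aeval x p / MvPolynomial.aeval x s := by
  classical
  induction T using Finset.induction_on with
  | empty =>
    intro _
    refine ⟨1, ?_, fun v hv => absurd hv (Finset.notMem_empty v)⟩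
    rw [map_one]
    exact one_ne_zero
  | insert a T ha ih =>
    intro h
    obtain ⟨s, hs, hT⟩ := ih (fun v hv => h v (Finset.mem_insert_of_mem hv))
    obtain ⟨p, q, hq, hpq⟩ := field_val K d x a (h a (Finset.mem_insert_self _ _))
    refine ⟨s * q, by rw [map_mul]; exact mul_ne_zero hs hq, ?_⟩
    intro v hv
    rcases Finset.mem_insert.1 hv with hv | hv
    · refine ⟨s * p, ?_⟩
      rw [map_mul, map_mul, hv, hpq, mul_div_mul_left _ _ hs]
    · obtain ⟨r, hr⟩ := hT v hv
      refine ⟨r * q, ?_⟩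
      rw [map_mul, map_mul, hr, mul_div_mul_right _ _ hq]

theorem specALL : SpecALL := by
  classical
  intro K d x h e
  apply Amen.of_local_injective (PTg (SP (KX K x) e) (Set.Ico (0 : ℝ) 1)).subtype
    Subtype.val_injective
  intro S m
  have h1 : ∀ s : PTg (SP (KX K x) e) (Set.Ico (0 : ℝ) 1), ∃ B : Finset ℝ, Trans B s.1 :=
    fun s => s.2.1
  choose B hB using h1
  have hc' : ∀ v : ℝ, ∃ c : Fin 3 → ℝ, v ∈ SP (KX K x) e →
      (∀ i, c i ∈ KX K x) ∧ v = ∑ i, c i * e i := by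
    intro v
    by_cases hv : v ∈ SP (KX K x) e
    · obtain ⟨c, hc1, hc2⟩ := hv
      exact ⟨c, fun _ => ⟨hc1, hc2⟩⟩
    · exact ⟨0, fun h => absurd h hv⟩
  choose c hc using hc'
  let D : Finset ℝ := S.biUnion (fun s => (hB s).finite_range.toFinset)
  have hD : ∀ v ∈ D, v ∈ SP (KX K x) e := by
    intro v hv
    obtain ⟨s, _, hs⟩ := Finset.mem_biUnion.1 hv
    rw [Set.Finite.mem_toFinset] at hs
    obtain ⟨y, rfl⟩ := hs
    exact s.2.2.1 y
  obtain ⟨s0, hs0, hT⟩ := common_den K d x (D.biUnion (fun v => Finset.univ.image (c v))) (by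
    intro w hw
    obtain ⟨v, hv, hw⟩ := Finset.mem_biUnion.1 hw
    obtain ⟨i, _, rfl⟩ := Finset.mem_image.1 hw
    exact (hc v (hD v hv)).1 i)
  have hf' : ∀ v : ℝ, ∃ f : Fin 3 → MvPolynomial (Fin d) K, v ∈ D →
      evK K d s0 f (x, e) = v := by
    intro v
    by_cases hv : v ∈ D
    · have h2 : ∀ i : Fin 3, ∃ p : MvPolynomial (Fin d) K,
          c v i = MvPolynomial.aeval x p / MvPolynomial.aeval x s0 := fun i =>
        hT (c v i) (Finset.mem_biUnion.2 ⟨v, hv,
          Finset.mem_image_of_mem _ (Finset.mem_univ i)⟩)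
      choose f hf using h2
      refine ⟨f, fun _ => ?_⟩
      have h3 : evK K d s0 f (x, e) =
          (∑ i, MvPolynomial.aeval x (f i) * e i) / MvPolynomial.aeval x s0 := rfl
      rw [h3, Finset.sum_div]
      refine Eq.trans ?_ (hc v (hD v hv)).2.symm
      refine Finset.sum_congr rfl fun i _ => ?_
      rw [hf i]
      ring
    · exact ⟨0, fun h => absurd h hv⟩
  choose f hf using hf'
  let eq := S.equivFin
  let g : Fin S.card → Equiv.Perm ℝ :=
    fun j => ((eq.symm j).1 : PTg (SP (KX K x) e) (Set.Ico (0 : ℝ) 1)).1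
  obtain ⟨F', hF', h3⟩ := h s0 S.card (S.sup (fun s => (B s).card)) (D.image f) m e g (by
    intro j
    refine ⟨(eq.symm j).1.2.2.2, ⟨B (eq.symm j).1, ?_, hB _⟩, fun y => ?_⟩
    · exact Finset.le_sup (f := fun s => (B s).card) (eq.symm j).2
    · have h4 : g j y - y ∈ D := by
        refine Finset.mem_biUnion.2 ⟨(eq.symm j).1, (eq.symm j).2, ?_⟩
        rw [Set.Finite.mem_toFinset]
        exact ⟨y, rfl⟩
      exact ⟨f (g j y - y), Finset.mem_image_of_mem _ h4, (hf _ h4).symm⟩)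
  refine ⟨F', hF', fun s hs => ?_⟩
  have h4 := h3 (eq ⟨s, hs⟩)
  have h5 : g (eq ⟨s, hs⟩) = s.1 := by simp [g]
  rw [ncard_filter, h5] at h4
  exact h4

end JG.ALLM
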