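import Pool.Agent.Lib.MP_98125f_al.JG.SpecE

/-!
MP_98125f_al, JG, module APX: rational approximations of the elements of a finite dimensional space.
-/

set_option autoImplicit false
set_option linter.deprecated false

namespace JG.APXM

open Filter Topology

/-- Rational approximations of a real number. -/
lemma rat_seq (x : ℝ) : ∃ r : ℕ → ℚ, Tendsto (fun n => ((r n : ℚ) : ℝ)) atTop (𝓝 x) := by
  have h : ∀ n : ℕ, ∃ q : ℚ, x < (q : ℝ) ∧ (q : ℝ) < x + 1 / ((n : ℝ) + 1) := by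
    intro n
    apply exists_rat_btwn
    have : (0 : ℝ) < 1 / ((n : ℝ) + 1) := by positivity
    linarith
  choose r hr using h
  refine ⟨r, ?_⟩
  have h0 : Tendsto (fun n : ℕ => x + 1 / ((n : ℝ) + 1)) atTop (𝓝 (x + 0)) :=
    tendsto_const_nhds.add tendsto_one_div_add_atTop_nhds_zero_nat
  rw [add_zero] at h0
  exact tendsto_of_tendsto_of_tendsto_of_le_of_le tendsto_const_nhds h0
    (fun n => (hr n).1.le) (fun n => (hr n).2.le)

theorem specAPX : SpecAPX := by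
  intro V h1 hfin
  set b := Module.finBasis ℚ V with hb
  have hr : ∀ i, ∃ r : ℕ → ℚ, Tendsto (fun n => ((r n : ℚ) : ℝ)) atTop (𝓝 ((b i : V) : ℝ)) :=
    fun i => rat_seq _
  choose r hr using hr
  let ψ : ℕ → V →ₗ[ℚ] ℚ := fun n => b.constr ℚ (fun i => r i n)
  have hψ : ∀ v : V, Tendsto (fun n => ((ψ n v : ℚ) : ℝ)) atTop (𝓝 (v : ℝ)) := by
    intro v
    have e1 : ∀ n, ((ψ n v : ℚ) : ℝ) = ∑ i, ((b.repr v i : ℚ) : ℝ) * ((r i n : ℚ) : ℝ) := by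
      intro n
      show (((b.constr ℚ (fun i => r i n)) v : ℚ) : ℝ) = _
      rw [Module.Basis.constr_apply_fintype, Rat.cast_sum]
      refine Finset.sum_congr rfl (fun i _ => ?_)
      rw [smul_eq_mul, Rat.cast_mul]
      rfl
    have e2 : (v : ℝ) = ∑ i, ((b.repr v i : ℚ) : ℝ) * ((b i : V) : ℝ) := by
      have h := b.sum_repr v
      have h2 : ((∑ i, b.repr v i • b i : V) : ℝ) = (v : ℝ) := by rw [h]
      rw [← h2, Submodule.coe_sum]
      refine Finset.sum_congr rfl (fun i _ => ?_)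
      rw [Submodule.coe_smul, Rat.smul_def]
    rw [funext e1, e2]
    exact tendsto_finsetSum _ (fun i _ => (hr i).const_mul _)
  have hone := hψ ⟨1, h1⟩
  have hev : ∀ᶠ n in atTop, ((ψ n ⟨1, h1⟩ : ℚ) : ℝ) ≠ 0 :=
    hone.eventually_ne (by show (1 : ℝ) ≠ 0; exact one_ne_zero)
  obtain ⟨N, hN⟩ := eventually_atTop.1 hev
  refine ⟨fun n => (ψ (n + N) ⟨1, h1⟩)⁻¹ • ψ (n + N), ?_, ?_⟩
  · intro n
    have h0 : ψ (n + N) ⟨1, h1⟩ ≠ 0 := by
      intro h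
      apply hN (n + N) (by omega)
      rw [h, Rat.cast_zero]
    show (ψ (n + N) ⟨1, h1⟩)⁻¹ • (ψ (n + N) ⟨1, h1⟩) = 1
    rw [smul_eq_mul, inv_mul_cancel₀ h0]
  · intro v
    have e3 : ∀ n, (((((ψ (n + N) ⟨1, h1⟩)⁻¹ • ψ (n + N)) v : ℚ)) : ℝ) =
        ((ψ (n + N) ⟨1, h1⟩ : ℚ) : ℝ)⁻¹ * ((ψ (n + N) v : ℚ) : ℝ) := by
      intro n
      show ((((ψ (n + N) ⟨1, h1⟩)⁻¹ • (ψ (n + N) v) : ℚ)) : ℝ) = _
      rw [smul_eq_mul, Rat.cast_mul, Rat.cast_inv]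
    rw [funext e3]
    have h2 : Tendsto (fun n => ((ψ (n + N) ⟨1, h1⟩ : ℚ) : ℝ)) atTop (𝓝 (1 : ℝ)) :=
      hone.comp (tendsto_add_atTop_nat N)
    have h3 : Tendsto (fun n => ((ψ (n + N) v : ℚ) : ℝ)) atTop (𝓝 (v : ℝ)) :=
      (hψ v).comp (tendsto_add_atTop_nat N)
    have h4 := (h2.inv₀ one_ne_zero).mul h3
    rw [inv_one, one_mul] at h4
    exact h4

end JG.APXM
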