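import Pool.Agent.Lib.MP_98125f_al.JG.Spec

/-!
MP_98125f_al, JG: module BLK, existence of a system of blocks.
-/

set_option autoImplicit false
set_option linter.deprecated false

namespace JG.BLKM

open Filter Topology Hyperreal Pool.Agent.Lib.MP98125f

theorem NB_add {δ x y : ℝ*} (h : NB δ x y) (t : ℝ*) : NB δ (x + t) (y + t) := by
  obtain ⟨n, hn⟩ := h
  refine ⟨n, ?_⟩
  have h1 : x + t - (y + t) = x - y := by ring
  rw [h1]
  exact hn

/-- the relation `NB` -/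
def s1 (δ : ℝ*) : Setoid ℝ* where
  r := NB δ
  iseqv := ⟨NB.refl δ, fun h => h.symm, fun h h' => h.trans h'⟩

/-- the relation `NB` modulo `V` -/
def s2 (V : Submodule ℚ ℝ*) (δ : ℝ*) : Setoid ℝ* where
  r z z' := ∃ t ∈ V, NB δ (z + t) z'
  iseqv := by
    refine ⟨?_, ?_, ?_⟩
    · intro z
      refine ⟨0, V.zero_mem, ?_⟩
      rw [add_zero]
      exact NB.refl δ z
    · rintro z z' ⟨t, ht, h⟩
      refine ⟨-t, V.neg_mem ht, ?_⟩
      have h1 := (NB_add h (-t)).symm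
      rw [add_neg_cancel_right] at h1
      exact h1
    · rintro z z' z'' ⟨t, ht, h⟩ ⟨t', ht', h'⟩
      refine ⟨t + t', V.add_mem ht ht', ?_⟩
      have h1 := (NB_add h t').trans h'
      rw [add_assoc] at h1
      exact h1

/-- a choice of centres, constant on the classes of `NB`, and equal modulo `V` on related points -/
theorem exists_centre (V : Submodule ℚ ℝ*) (δ : ℝ*) : ∃ c : ℝ* → ℝ*,
    (∀ z, NB δ (c z) z) ∧ (∀ z z', NB δ z z' → c z = c z') ∧
      ∀ z z', (∃ t ∈ V, NB δ (z + t) z') → c z' - c z ∈ V := by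
  let ρ1 : ℝ* → ℝ* := fun z => (Quotient.mk (s1 δ) z).out
  let ρ2 : ℝ* → ℝ* := fun z => (Quotient.mk (s2 V δ) z).out
  have h1 : ∀ z, NB δ (ρ1 z) z := fun z => @Quotient.mk_out ℝ* (s1 δ) z
  have h2 : ∀ z, ∃ t ∈ V, NB δ (ρ2 z + t) z := fun z => @Quotient.mk_out ℝ* (s2 V δ) z
  have e1 : ∀ z z', NB δ z z' → ρ1 z = ρ1 z' := by
    intro z z' h
    change (Quotient.mk (s1 δ) z).out = (Quotient.mk (s1 δ) z').out
    rw [show Quotient.mk (s1 δ) z = Quotient.mk (s1 δ) z' from @Quotient.sound ℝ* (s1 δ) z z' h]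
  have e2 : ∀ z z', (∃ t ∈ V, NB δ (z + t) z') → ρ2 z = ρ2 z' := by
    intro z z' h
    change (Quotient.mk (s2 V δ) z).out = (Quotient.mk (s2 V δ) z').out
    rw [show Quotient.mk (s2 V δ) z = Quotient.mk (s2 V δ) z' from
      @Quotient.sound ℝ* (s2 V δ) z z' h]
  choose t ht htn using h2
  have e3 : ∀ z, ρ2 (ρ1 z) = ρ2 z := by
    intro z
    apply e2
    refine ⟨0, V.zero_mem, ?_⟩
    rw [add_zero]
    exact h1 z
  refine ⟨fun z => ρ2 z + t (ρ1 z), ?_, ?_, ?_⟩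
  · intro z
    have h3 := htn (ρ1 z)
    rw [e3] at h3
    exact h3.trans (h1 z)
  · intro z z' h
    have h3 : ρ2 z = ρ2 z' := e2 z z' ⟨0, V.zero_mem, by rw [add_zero]; exact h⟩
    change ρ2 z + t (ρ1 z) = ρ2 z' + t (ρ1 z')
    rw [h3, e1 z z' h]
  · intro z z' h
    have h3 : ρ2 z = ρ2 z' := e2 z z' h
    have h4 : ρ2 z' + t (ρ1 z') - (ρ2 z + t (ρ1 z)) = t (ρ1 z') - t (ρ1 z) := by
      rw [h3]
      ring
    change ρ2 z' + t (ρ1 z') - (ρ2 z + t (ρ1 z)) ∈ V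
    rw [h4]
    exact V.sub_mem (ht _) (ht _)

theorem specBLK : SpecBLK := by
  classical
  intro V δ hδ Z n
  obtain ⟨c, hc1, hc2, hc3⟩ := exists_centre V δ
  choose m hm using hc1
  let C : Finset ℝ* := Z.image c
  let e := C.equivFin
  have hC : ∀ i : Fin C.card, ∃ z ∈ Z, c z = (e.symm i).1 := by
    intro i
    exact Finset.mem_image.mp (e.symm i).2
  have hn : ∀ z, NB δ (c z) z := fun z => ⟨m z, hm z⟩
  refine ⟨C.card, n + Z.sup m + 1, fun i => (e.symm i).1, ⟨by omega, ?_, ?_⟩, ?_⟩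
  · intro i j hij h
    obtain ⟨z, hz, hzi⟩ := hC i
    obtain ⟨z', hz', hzj⟩ := hC j
    rw [← hzi, ← hzj] at h
    have h1 : NB δ z z' := ((hn z).symm.trans h).trans (hn z')
    have h2 := hc2 z z' h1
    rw [hzi, hzj] at h2
    exact hij (e.symm.injective (Subtype.ext h2))
  · rintro i j ⟨t, ht, h⟩
    obtain ⟨z, hz, hzi⟩ := hC i
    obtain ⟨z', hz', hzj⟩ := hC j
    rw [← hzi, ← hzj] at h
    have h1 : NB δ (z + t) z' := ((NB_add (hn z) t).symm.trans h).trans (hn z')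
    have h2 := hc3 z z' ⟨t, ht, h1⟩
    rw [hzi, hzj] at h2
    exact h2
  · intro z hz
    have hmem : c z ∈ C := Finset.mem_image_of_mem c hz
    refine ⟨e ⟨c z, hmem⟩, ?_⟩
    intro y hy
    have he : (e.symm (e ⟨c z, hmem⟩)).1 = c z := by rw [Equiv.symm_apply_apply]
    beta_reduce
    rw [he]
    have h1 : |y - c z| ≤ n * δ + m z * δ := by
      have h2 : |y - c z| ≤ |y - z| + |z - c z| := abs_sub_le y z (c z)
      have h3 : |z - c z| ≤ m z * δ := by
        rw [abs_sub_comm]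
        exact hm z
      linarith
    have h4 : ((m z : ℕ) : ℝ*) ≤ ((Z.sup m : ℕ) : ℝ*) := by
      exact_mod_cast Finset.le_sup hz
    have h5 : |y - c z| < ((n + Z.sup m + 1 : ℕ) : ℝ*) * δ := by
      push_cast
      nlinarith
    obtain ⟨h6, h7⟩ := abs_lt.mp h5
    constructor
    · linarith
    · linarith

end JG.BLKM
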