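import Pool.Agent.Lib.MP_98125f_al.JG.Spec

/-!
# CNJ: the group near finitely many points is a group of interval exchanges again
-/

set_option autoImplicit false
set_option linter.deprecated false

namespace JG

namespace CNJM

open Filter Topology Hyperreal Pool.Agent.Lib.MP98125f

/-! ### transport of permutations along an injection -/

/-- restriction to an invariant set -/
def restr {α : Type} (W : Set α) (G : Subgroup (Equiv.Perm α))
    (hG : ∀ g ∈ G, ∀ y, g y ∈ W ↔ y ∈ W) : G →* Equiv.Perm W where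
  toFun g := g.1.subtypePerm (fun y => hG g.1 g.2 y)
  map_one' := by ext y; rfl
  map_mul' := by intro a b; ext y; rfl

theorem inv_set {α : Type} {W : Set α} {g : Equiv.Perm α} (hg : ∀ y ∉ W, g y = y) (y : α) :
    g y ∈ W ↔ y ∈ W := by
  constructor
  · intro h
    by_contra hc
    rw [hg y hc] at h
    exact hc h
  · intro h
    by_contra hc
    have h1 := g.injective (hg _ hc)
    rw [h1] at hc
    exact hc h

open Classical in
theorem conj_exists {α β : Type} (W : Set α) (Θ : α → β) (hΘ : Set.InjOn Θ W)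
    (G : Subgroup (Equiv.Perm α)) (hG : ∀ g ∈ G, ∀ y ∉ W, g y = y) :
    ∃ φ : G →* Equiv.Perm β, Function.Injective φ ∧
      (∀ g : G, ∀ y ∈ W, φ g (Θ y) = Θ (g.1 y)) ∧ ∀ g : G, ∀ x ∉ Θ '' W, φ g x = x := by
  have hW : ∀ g ∈ G, ∀ y, g y ∈ W ↔ y ∈ W := fun g hg y => inv_set (hG g hg) y
  set f : W ≃ {x // x ∈ Θ '' W} := Equiv.Set.imageOfInjOn Θ W hΘ with hf
  have hfv : ∀ y : W, ((f y : {x // x ∈ Θ '' W}) : β) = Θ y.1 := fun y => rfl
  set φ : G →* Equiv.Perm β := (Equiv.Perm.extendDomainHom f).comp (restr W G hW) with hφ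
  have h1 : ∀ g : G, ∀ y ∈ W, φ g (Θ y) = Θ (g.1 y) := by
    intro g y hy
    have := Equiv.Perm.extendDomain_apply_image (restr W G hW g) f ⟨y, hy⟩
    exact this
  have h2 : ∀ g : G, ∀ x ∉ Θ '' W, φ g x = x := by
    intro g x hx
    exact Equiv.Perm.extendDomain_apply_not_subtype (restr W G hW g) f hx
  refine ⟨φ, ?_, h1, h2⟩
  rw [injective_iff_map_eq_one]
  intro g hg
  apply Subtype.ext
  apply Equiv.ext
  intro y
  by_cases hy : y ∈ W
  · have h3 := h1 g y hy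
    rw [hg] at h3
    exact (hΘ hy ((hW g.1 g.2 y).mpr hy) h3).symm
  · exact hG g.1 g.2 y hy

/-! ### the blocks -/

/-- `y` is in the block `i` -/
def In {M : ℕ} (N : ℕ) (δ : ℝ*) (c : Fin M → ℝ*) (i : Fin M) (y : ℝ*) : Prop :=
  c i - N * δ ≤ y ∧ y < c i + N * δ

/-- the union of the blocks -/
def WW {M : ℕ} (N : ℕ) (δ : ℝ*) (c : Fin M → ℝ*) : Set ℝ* := {y | ∃ i, In N δ c i y}

open Classical in
/-- the collecting map -/
noncomputable def Th {M : ℕ} (N : ℕ) (δ : ℝ*) (c : Fin M → ℝ*) (Q : ℝ*) (y : ℝ*) : ℝ* :=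
  if h : ∃ i, In N δ c i y then
    (y - c h.choose + N * δ + 2 * N * δ * ((h.choose : Fin M) : ℕ)) / Q else 0

section blocks

variable {V : Submodule ℚ ℝ*} {δ Q : ℝ*} {M N : ℕ} {c : Fin M → ℝ*}

theorem near_of_abs {δ x y : ℝ*} {n : ℕ} (h : |x - y| ≤ n * δ) : NB δ x y := ⟨n, h⟩

theorem In.abs {i : Fin M} {y : ℝ*} (h : In N δ c i y) : |y - c i| ≤ N * δ := by
  rw [abs_le]
  constructor <;> linarith [h.1, h.2]

theorem In.unique (hB : Blk V δ M N c) {i j : Fin M} {y : ℝ*} (hi : In N δ c i y)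
    (hj : In N δ c j y) : i = j := by
  by_contra hne
  apply hB.far i j hne
  refine ⟨2 * N, ?_⟩
  rw [abs_le]
  push_cast
  constructor <;> linarith [hi.1, hi.2, hj.1, hj.2]

theorem Th_eq (hB : Blk V δ M N c) (hQ : 0 < Q) {i : Fin M} {y : ℝ*} (hi : In N δ c i y) :
    Q * Th N δ c Q y = y - c i + N * δ + 2 * N * δ * ((i : ℕ) : ℝ*) := by
  have h : ∃ i, In N δ c i y := ⟨i, hi⟩
  have h1 : h.choose = i := In.unique hB h.choose_spec hi
  unfold Th
  rw [dif_pos h, h1]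
  field_simp

theorem pos (hB : Blk V δ M N c) (hδ : 0 < δ) : 0 < 2 * (N : ℝ*) * δ := by
  have h : (0 : ℝ*) < N := by exact_mod_cast hB.pos
  positivity

theorem Th_bd (hB : Blk V δ M N c) (hQ : 0 < Q) {i : Fin M} {y : ℝ*}
    (hi : In N δ c i y) : 2 * N * δ * ((i : ℕ) : ℝ*) ≤ Q * Th N δ c Q y ∧
      Q * Th N δ c Q y < 2 * N * δ * (((i : ℕ) : ℝ*) + 1) := by
  rw [Th_eq hB hQ hi]
  constructor <;> linarith [hi.1, hi.2]

theorem idx_le (hB : Blk V δ M N c) (hδ : 0 < δ) (hQ : 0 < Q) {i j : Fin M} {y z : ℝ*}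
    (hi : In N δ c i y) (hj : In N δ c j z) (h : Th N δ c Q y ≤ Th N δ c Q z) :
    (i : ℕ) ≤ (j : ℕ) := by
  by_contra hc
  have h1 : ((j : ℕ) : ℝ*) + 1 ≤ ((i : ℕ) : ℝ*) := by
    have : (j : ℕ) + 1 ≤ (i : ℕ) := by omega
    exact_mod_cast this
  have h2 := (Th_bd hB hQ hi).1
  have h3 := (Th_bd hB hQ hj).2
  have h4 := mul_le_mul_of_nonneg_left h1 (pos hB hδ).le
  have h5 := mul_le_mul_of_nonneg_left h hQ.le
  linarith

theorem Th_inj (hB : Blk V δ M N c) (hδ : 0 < δ) (hQ : 0 < Q) :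
    Set.InjOn (Th N δ c Q) (WW N δ c) := by
  rintro y ⟨i, hi⟩ z ⟨j, hj⟩ h
  have h1 := idx_le hB hδ hQ hi hj h.le
  have h2 := idx_le hB hδ hQ hj hi h.ge
  have h3 : i = j := Fin.ext (le_antisymm h1 h2)
  subst h3
  have h4 := Th_eq hB hQ hi
  have h5 := Th_eq hB hQ hj
  rw [h] at h4
  linarith

theorem Th_lt_M (hB : Blk V δ M N c) (hδ : 0 < δ) (hQ : 0 < Q) {y : ℝ*}
    (hy : y ∈ WW N δ c) : 0 ≤ Q * Th N δ c Q y ∧ Q * Th N δ c Q y < 2 * N * δ * (M : ℝ*) := by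
  obtain ⟨i, hi⟩ := hy
  have h1 := Th_bd hB hQ hi
  have h2 : ((i : ℕ) : ℝ*) + 1 ≤ (M : ℝ*) := by
    have : (i : ℕ) + 1 ≤ M := i.2
    exact_mod_cast this
  have h3 : (0 : ℝ*) ≤ ((i : ℕ) : ℝ*) := Nat.cast_nonneg _
  have h4 := pos hB hδ
  have h5 := mul_le_mul_of_nonneg_left h2 h4.le
  have h6 := mul_nonneg h4.le h3
  constructor <;> linarith

/-- surjectivity -/
theorem Th_surj (hB : Blk V δ M N c) (hδ : 0 < δ) (hQ : 0 < Q) {x : ℝ*} (h0 : 0 ≤ x)
    (h1 : Q * x < 2 * N * δ * (M : ℝ*)) : ∃ y ∈ WW N δ c, Th N δ c Q y = x := by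
  classical
  have hex : ∃ n : ℕ, Q * x < 2 * N * δ * (n : ℝ*) := ⟨M, h1⟩
  have hs := Nat.find_spec hex
  set n := Nat.find hex with hn
  have hnM : n ≤ M := Nat.find_min' hex h1
  have hn0 : n ≠ 0 := by
    intro h
    rw [h] at hs
    have := mul_nonneg hQ.le h0
    simp only [Nat.cast_zero, mul_zero] at hs
    linarith
  obtain ⟨k, hk⟩ : ∃ k, n = k + 1 := ⟨n - 1, by omega⟩
  have hlow : 2 * N * δ * (k : ℝ*) ≤ Q * x := by
    by_contra hc
    have := Nat.find_min' hex (not_le.mp hc)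
    omega
  rw [hk] at hs
  push_cast at hs
  have hkM : k < M := by omega
  set y := Q * x - 2 * N * δ * (k : ℝ*) + c ⟨k, hkM⟩ - N * δ with hy
  have hin : In N δ c ⟨k, hkM⟩ y := by
    constructor
    · rw [hy]
      linarith
    · rw [hy]
      linarith
  refine ⟨y, ⟨_, hin⟩, ?_⟩
  have h2 := Th_eq hB hQ hin
  have h3 : Q * Th N δ c Q y = Q * x := by
    rw [h2, hy]
    ring
  exact mul_left_cancel₀ hQ.ne' h3

/-- integer multiples -/
theorem int_mem (hδV : δ ∈ V) (m : ℤ) : (m : ℝ*) * δ ∈ V := by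
  have := V.toAddSubgroup.zsmul_mem hδV m
  rwa [zsmul_eq_mul] at this

theorem disp_V (hB : Blk V δ M N c) (hQ : 0 < Q) (hδV : δ ∈ V) {y z : ℝ*} (hyz : z - y ∈ V)
    {i j : Fin M} (hi : In N δ c i y) (hj : In N δ c j z) :
    Q * (Th N δ c Q z - Th N δ c Q y) ∈ V := by
  have h1 : c j - c i ∈ V := by
    apply hB.rel i j
    refine ⟨z - y, hyz, 2 * N, ?_⟩
    rw [abs_le]
    push_cast
    constructor <;> linarith [hi.1, hi.2, hj.1, hj.2]
  have h2 : Q * (Th N δ c Q z - Th N δ c Q y) =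
      (z - y) - (c j - c i) + ((2 * (N : ℤ) * ((j : ℕ) - (i : ℕ) : ℤ) : ℤ) : ℝ*) * δ := by
    rw [mul_sub, Th_eq hB hQ hi, Th_eq hB hQ hj]
    push_cast
    ring
  rw [h2]
  exact V.add_mem (V.sub_mem hyz h1) (int_mem hδV _)

end blocks

/-- the transported permutation has finitely many breakpoints -/
theorem trans_conj {V : Submodule ℚ ℝ*} {δ Q : ℝ*} {M N : ℕ} {c : Fin M → ℝ*}
    (hB : Blk V δ M N c) (hδ : 0 < δ) (hQ : 0 < Q) {g g' : Equiv.Perm ℝ*}
    (hg : ∀ y ∉ WW N δ c, g y = y) {D : Finset ℝ*} (hD : Trans D g)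
    (h1 : ∀ y ∈ WW N δ c, g' (Th N δ c Q y) = Th N δ c Q (g y))
    (h2 : ∀ x ∉ Th N δ c Q '' WW N δ c, g' x = x) : ∃ B : Finset ℝ*, Trans B g' := by
  classical
  set K : ℝ* := 2 * N * δ * (M : ℝ*) with hK
  refine ⟨insert 0 (insert (K / Q) ((D ∪ Finset.univ.image (fun i => c i - N * δ)).image
    (Th N δ c Q))), ?_⟩
  intro x x' hxx hno
  have hn0 : ¬ (x < 0 ∧ 0 ≤ x') := hno 0 (Finset.mem_insert_self _ _)
  have hnK : ¬ (x < K / Q ∧ K / Q ≤ x') :=
    hno _ (Finset.mem_insert_of_mem (Finset.mem_insert_self _ _))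
  have hnD : ∀ b ∈ D, ¬ (x < Th N δ c Q b ∧ Th N δ c Q b ≤ x') := fun b hb =>
    hno _ (Finset.mem_insert_of_mem (Finset.mem_insert_of_mem
      (Finset.mem_image_of_mem _ (Finset.mem_union_left _ hb))))
  have hnc : ∀ i, ¬ (x < Th N δ c Q (c i - N * δ) ∧ Th N δ c Q (c i - N * δ) ≤ x') := fun i =>
    hno _ (Finset.mem_insert_of_mem (Finset.mem_insert_of_mem
      (Finset.mem_image_of_mem _ (Finset.mem_union_right _
        (Finset.mem_image_of_mem _ (Finset.mem_univ i))))))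
  -- points of the image
  have hout : ∀ u : ℝ*, (u < 0 ∨ K / Q ≤ u) → g' u = u := by
    intro u hu
    apply h2
    rintro ⟨y, hy, rfl⟩
    obtain ⟨h3, h4⟩ := Th_lt_M hB hδ hQ hy
    rcases hu with hu | hu
    · have := mul_neg_of_pos_of_neg hQ hu
      linarith
    · rw [div_le_iff₀ hQ] at hu
      rw [mul_comm] at h4
      linarith
  by_cases hx0 : x < 0
  · have hx'0 : x' < 0 := by
      by_contra hc
      exact hn0 ⟨hx0, not_lt.mp hc⟩
    rw [hout x (Or.inl hx0), hout x' (Or.inl hx'0), sub_self, sub_self]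
  by_cases hxK : K / Q ≤ x
  · rw [hout x (Or.inr hxK), hout x' (Or.inr (hxK.trans hxx)), sub_self, sub_self]
  have hx'K : x' < K / Q := by
    by_contra hc
    exact hnK ⟨not_le.mp hxK, not_lt.mp hc⟩
  have hx0' := not_lt.mp hx0
  obtain ⟨y, hyW, rfl⟩ := Th_surj (x := x) hB hδ hQ hx0' (by
    have := not_le.mp hxK
    rw [lt_div_iff₀ hQ, mul_comm] at this
    exact this)
  obtain ⟨y', hyW', rfl⟩ := Th_surj (x := x') hB hδ hQ (hx0'.trans hxx) (by
    rw [lt_div_iff₀ hQ, mul_comm] at hx'K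
    exact hx'K)
  obtain ⟨i, hi⟩ := hyW
  obtain ⟨i', hi'⟩ := hyW'
  have hii := idx_le hB hδ hQ hi hi' hxx
  -- the same block
  have hpos := pos hB hδ
  have heq : i = i' := by
    by_contra hne
    have hlt : (i : ℕ) + 1 ≤ (i' : ℕ) := by
      have : (i : ℕ) ≠ (i' : ℕ) := fun h => hne (Fin.ext h)
      omega
    have hin : In N δ c i' (c i' - N * δ) := by
      constructor
      · exact le_rfl
      · linarith
    have h3 := Th_eq hB hQ hin
    have h4 := (Th_bd hB hQ hi).2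
    have h5 := (Th_bd hB hQ hi').1
    have h6 : ((i : ℕ) : ℝ*) + 1 ≤ ((i' : ℕ) : ℝ*) := by exact_mod_cast hlt
    have h7 := mul_le_mul_of_nonneg_left h6 hpos.le
    apply hnc i'
    constructor
    · refine lt_of_mul_lt_mul_left ?_ hQ.le
      linarith
    · refine le_of_mul_le_mul_left ?_ hQ
      linarith
  subst heq
  have e1 := Th_eq hB hQ hi
  have e2 := Th_eq hB hQ hi'
  have hyy : y ≤ y' := by
    have := mul_le_mul_of_nonneg_left hxx hQ.le
    linarith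
  have hgd : g y' - y' = g y - y := by
    apply hD y y' hyy
    intro b hb hcon
    have hbin : In N δ c i b := ⟨by linarith [hi.1, hcon.1], by linarith [hi'.2, hcon.2]⟩
    have e3 := Th_eq hB hQ hbin
    apply hnD b hb
    constructor
    · refine lt_of_mul_lt_mul_left ?_ hQ.le
      linarith [hcon.1]
    · refine le_of_mul_le_mul_left ?_ hQ
      linarith [hcon.2]
  have hgW : g y ∈ WW N δ c := (inv_set hg y).mpr ⟨i, hi⟩
  have hgW' : g y' ∈ WW N δ c := (inv_set hg y').mpr ⟨i, hi'⟩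
  obtain ⟨j, hj⟩ := hgW
  obtain ⟨j', hj'⟩ := hgW'
  have hjj : j = j' := by
    by_contra hne
    apply hB.far j j' hne
    refine ⟨4 * N, ?_⟩
    rw [abs_le]
    push_cast
    constructor <;> linarith [hj.1, hj.2, hj'.1, hj'.2, hi.1, hi.2, hi'.1, hi'.2]
  subst hjj
  have e4 := Th_eq hB hQ hj
  have e5 := Th_eq hB hQ hj'
  rw [h1 y ⟨i, hi⟩, h1 y' ⟨i, hi'⟩]
  apply mul_left_cancel₀ hQ.ne'
  rw [mul_sub, mul_sub]
  linarith

end CNJM

open Filter Topology Hyperreal Pool.Agent.Lib.MP98125f CNJM in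
/-- **CNJ** -/
theorem CNJM.specCNJ : SpecCNJ := by
  intro V δ hδV hδ hinf M N c hB T hT hAm
  set Q : ℝ* := ((2 * N * M + 1 : ℕ) : ℝ*) * δ with hQd
  have hQ : 0 < Q := by
    have : (0 : ℝ*) < ((2 * N * M + 1 : ℕ) : ℝ*) := by exact_mod_cast Nat.succ_pos _
    exact mul_pos this hδ
  have hQe : Q = 2 * N * δ * (M : ℝ*) + δ := by
    rw [hQd]
    push_cast
    ring
  -- the group
  set G : Subgroup (Equiv.Perm ℝ*) := PTg V.toAddSubgroup (WW N δ c) with hG
  have hle : Subgroup.closure (T : Set (Equiv.Perm ℝ*)) ≤ G := by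
    rw [Subgroup.closure_le]
    intro h hh
    obtain ⟨h1, h2, h3⟩ := hT h hh
    refine ⟨h2, h1, fun x hx => ?_⟩
    by_contra hc
    exact hx (h3 x hc)
  refine Amen.of_le hle ?_
  obtain ⟨φ, hinj, h1, h2⟩ := conj_exists (WW N δ c) (Th N δ c Q) (Th_inj hB hδ hQ) G
    (fun g hg => hg.2.2)
  have hmem : ∀ g : G, φ g ∈ PTg (scl Q (infp V)).toAddSubgroup JJ := by
    intro g
    obtain ⟨⟨D, hD⟩, hdisp, hsup⟩ := g.2
    refine ⟨trans_conj hB hδ hQ hsup hD (h1 g) (h2 g), fun x => ?_, fun x hx => ?_⟩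
    · by_cases hx : x ∈ Th N δ c Q '' WW N δ c
      · obtain ⟨y, hy, rfl⟩ := hx
        rw [h1 g y hy]
        have hgy : g.1 y ∈ WW N δ c := (inv_set hsup y).mpr hy
        have b1 := Th_lt_M hB hδ hQ hy
        have b2 := Th_lt_M hB hδ hQ hgy
        obtain ⟨i, hi⟩ := hy
        obtain ⟨j, hj⟩ := hgy
        refine ⟨disp_V hB hQ hδV (hdisp y) hi hj, ?_⟩
        have h3 : |Q * (Th N δ c Q (g.1 y) - Th N δ c Q y)| ≤
            ((2 * N * M + 1 : ℕ) : ℝ*) * δ := by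
          rw [← hQd, abs_le, mul_sub]
          constructor <;> linarith
        change Infinitesimal (Q * (Th N δ c Q (g.1 y) - Th N δ c Q y))
        rw [infinitesimal_def]
        intro r hr
        have h4 := natMul_lt_of_infinitesimal hinf (2 * N * M + 1) r hr
        have h5 := abs_le.1 h3
        constructor <;> linarith [h5.1, h5.2]
      · rw [h2 g x hx, sub_self]
        exact AddSubgroup.zero_mem _
    · apply h2 g
      rintro ⟨y, hy, rfl⟩
      obtain ⟨b1, b2⟩ := Th_lt_M hB hδ hQ hy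
      apply hx
      constructor
      · exact nonneg_of_mul_nonneg_right b1 hQ
      · refine lt_of_mul_lt_mul_left ?_ hQ.le
        linarith
  exact Amen.of_injective (φ.codRestrict _ hmem) (fun a b hab => hinj (congrArg Subtype.val hab)) hAm

end JG
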