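import Pool.Agent.Lib.MP_98125f_al.JG.Spec

/-!
# MP_98125f_al, module CNT: counting the points of a box
-/

set_option autoImplicit false
set_option linter.deprecated false

namespace JG.CNTM

open JG

lemma key (β : Fin 3 → ℝ) (i : Fin 3) (hi : β i ≠ 0) (K : ℕ) (hK : 1 / |β i| + 1 ≤ K) (p x : ℝ)
    (n : Fin 3 → ℤ) (x0 : 0 ≤ x) (x1 : x < 1) (hx : x = p + ∑ l, (n l : ℝ) * β l) :
    ∃ t : ℤ, -(K : ℤ) ≤ t ∧ t ≤ K ∧
      x = p + ∑ l, ((Function.update n i 0 l : ℤ) : ℝ) * β l +
        ((⌊-(p + ∑ l, ((Function.update n i 0 l : ℤ) : ℝ) * β l) / β i⌋ + t : ℤ) : ℝ) * β i := by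
  have e1 : ∑ l, (n l : ℝ) * β l =
      ∑ l, ((Function.update n i 0 l : ℤ) : ℝ) * β l + (n i : ℝ) * β i := by
    rw [← Finset.sum_erase_add _ _ (Finset.mem_univ i),
      ← Finset.sum_erase_add (Finset.univ) (fun l => ((Function.update n i 0 l : ℤ) : ℝ) * β l)
        (Finset.mem_univ i)]
    have e2 : ∑ l ∈ Finset.univ.erase i, ((Function.update n i 0 l : ℤ) : ℝ) * β l =
        ∑ l ∈ Finset.univ.erase i, (n l : ℝ) * β l := by
      refine Finset.sum_congr rfl fun l hl => ?_
      rw [Function.update_of_ne (Finset.ne_of_mem_erase hl)]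
    rw [e2, Function.update_self, Int.cast_zero, zero_mul, add_zero]
  set s : ℝ := p + ∑ l, ((Function.update n i 0 l : ℤ) : ℝ) * β l with hs
  have e3 : x = s + (n i : ℝ) * β i := by
    rw [hx, e1, hs]
    ring
  refine ⟨n i - ⌊-s / β i⌋, ?_, ?_, ?_⟩
  · have h1 : |(n i : ℝ) - (-s / β i)| ≤ 1 / |β i| := by
      have : (n i : ℝ) - (-s / β i) = x / β i := by
        rw [e3]
        field_simp
        ring
      rw [this, abs_div]
      exact div_le_div_of_nonneg_right (by rw [abs_of_nonneg x0]; exact x1.le) (abs_nonneg _)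
    have h2 : ((⌊-s / β i⌋ : ℤ) : ℝ) ≤ -s / β i := Int.floor_le _
    have h4 := (abs_le.1 h1).1
    have h5 : (-(K : ℤ) : ℝ) ≤ ((n i - ⌊-s / β i⌋ : ℤ) : ℝ) := by
      push_cast
      linarith
    exact_mod_cast h5
  · have h1 : |(n i : ℝ) - (-s / β i)| ≤ 1 / |β i| := by
      have : (n i : ℝ) - (-s / β i) = x / β i := by
        rw [e3]
        field_simp
        ring
      rw [this, abs_div]
      exact div_le_div_of_nonneg_right (by rw [abs_of_nonneg x0]; exact x1.le) (abs_nonneg _)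
    have h3 : -s / β i < ((⌊-s / β i⌋ : ℤ) : ℝ) + 1 := Int.lt_floor_add_one _
    have h4 := (abs_le.1 h1).2
    have h5 : ((n i - ⌊-s / β i⌋ : ℤ) : ℝ) ≤ ((K : ℤ) : ℝ) := by
      push_cast
      linarith
    exact_mod_cast h5
  · rw [e3]
    push_cast
    ring

/-- Module CNT. -/
theorem specCNT : SpecCNT := by
  classical
  intro β P
  by_cases hβ : ∀ i, β i = 0
  · refine ⟨P.card, fun r => ?_⟩
    have hsub : Bx β P r ⊆ (P : Set ℝ) := by
      rintro x ⟨_, _, p, hp, n, _, hx⟩
      have h0 : ∑ i, (n i : ℝ) * β i = 0 := Finset.sum_eq_zero fun i _ => by rw [hβ i, mul_zero]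
      rw [h0, add_zero] at hx
      rw [hx]
      exact hp
    refine ⟨P.finite_toSet.subset hsub, ?_⟩
    calc (Bx β P r).ncard ≤ (P : Set ℝ).ncard := Set.ncard_le_ncard hsub P.finite_toSet
      _ = P.card := Set.ncard_coe_finset P
      _ ≤ P.card * (r + 1) ^ 2 := Nat.le_mul_of_pos_right _ (by positivity)
  · push Not at hβ
    obtain ⟨i, hi⟩ := hβ
    obtain ⟨K, hK⟩ := exists_nat_ge (1 / |β i| + 1)
    refine ⟨P.card * 4 * (2 * K + 1), fun r => ?_⟩
    set A : Finset (Fin 3 → ℤ) :=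
      Fintype.piFinset fun l => if l = i then ({0} : Finset ℤ) else Finset.Icc (-(r : ℤ)) r with hA
    set F : ℝ × (Fin 3 → ℤ) × ℤ → ℝ := fun q => q.1 + ∑ l, (q.2.1 l : ℝ) * β l +
      ((⌊-(q.1 + ∑ l, (q.2.1 l : ℝ) * β l) / β i⌋ + q.2.2 : ℤ) : ℝ) * β i with hF
    set E : Finset ℝ := (P ×ˢ A ×ˢ Finset.Icc (-(K : ℤ)) K).image F with hE
    have hsub : Bx β P r ⊆ (E : Set ℝ) := by
      rintro x ⟨x0, x1, p, hp, n, hn, hx⟩
      obtain ⟨t, t0, t1, ht⟩ := key β i hi K hK p x n x0 x1 hx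
      rw [Finset.mem_coe, hE, Finset.mem_image]
      refine ⟨(p, Function.update n i 0, t), ?_, ht.symm⟩
      rw [Finset.mem_product, Finset.mem_product, Finset.mem_Icc]
      refine ⟨hp, ?_, t0, t1⟩
      rw [hA, Fintype.mem_piFinset]
      intro l
      by_cases hl : l = i
      · subst hl
        rw [if_pos rfl]
        show Function.update n l 0 l ∈ _
        rw [Function.update_self, Finset.mem_singleton]
      · rw [if_neg hl]
        show Function.update n i 0 l ∈ _
        rw [Function.update_of_ne hl, Finset.mem_Icc]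
        exact abs_le.1 (hn l)
    have hAc : A.card = (2 * r + 1) ^ 2 := by
      rw [hA, Fintype.card_piFinset]
      have h1 : ∀ l : Fin 3, (if l = i then ({0} : Finset ℤ) else Finset.Icc (-(r : ℤ)) r).card =
          if l = i then 1 else 2 * r + 1 := by
        intro l
        split_ifs
        · rfl
        · rw [Int.card_Icc]
          omega
      rw [Finset.prod_congr rfl fun l _ => h1 l]
      fin_cases i <;> simp [Fin.prod_univ_three] <;> ring
    have hEc : E.card ≤ P.card * 4 * (2 * K + 1) * (r + 1) ^ 2 := by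
      calc E.card ≤ (P ×ˢ A ×ˢ Finset.Icc (-(K : ℤ)) K).card := Finset.card_image_le
        _ = P.card * ((2 * r + 1) ^ 2 * (2 * K + 1)) := by
          rw [Finset.card_product, Finset.card_product, hAc, Int.card_Icc]
          have : ((K : ℤ) + 1 - -(K : ℤ)).toNat = 2 * K + 1 := by omega
          rw [this]
        _ ≤ P.card * ((4 * (r + 1) ^ 2) * (2 * K + 1)) := by
          refine Nat.mul_le_mul_left _ (Nat.mul_le_mul_right _ ?_)
          have h4 : 4 * (r + 1) ^ 2 = (2 * r + 2) ^ 2 := by ring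
          rw [h4]
          exact Nat.pow_le_pow_left (by omega) 2
        _ = P.card * 4 * (2 * K + 1) * (r + 1) ^ 2 := by ring
    refine ⟨E.finite_toSet.subset hsub, ?_⟩
    calc (Bx β P r).ncard ≤ (E : Set ℝ).ncard := Set.ncard_le_ncard hsub E.finite_toSet
      _ = E.card := Set.ncard_coe_finset E
      _ ≤ _ := hEc

end JG.CNTM
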