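import Pool.Agent.Lib.MP_98125f_al.JG.Spec

/-! CTG: counting the products of at most `n` elements with few discontinuities. -/

set_option autoImplicit false
set_option linter.deprecated false

namespace JG.CTGM

open JG Filter Topology Pool.Agent.Lib.MP98125f

/-- the sums of at most `n` elements of `A` -/
noncomputable def An (A : Finset ℝ) (n : ℕ) : Finset ℝ :=
  Finset.univ.image (fun c : A → Fin (n + 1) => ∑ a, ((c a : ℕ) : ℝ) * (a : ℝ))

lemma An_card (A : Finset ℝ) (n : ℕ) : (An A n).card ≤ (n + 1) ^ A.card := by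
  unfold An
  refine Finset.card_image_le.trans ?_
  simp

lemma mem_An_of {A : Finset ℝ} {n : ℕ} (c : A → ℕ) (hc : ∀ a, c a ≤ n) :
    ∑ a, (c a : ℝ) * (a : ℝ) ∈ An A n := by
  unfold An
  rw [Finset.mem_image]
  exact ⟨fun a => ⟨c a, Nat.lt_succ_of_le (hc a)⟩, Finset.mem_univ _, rfl⟩

lemma coe_mul_apply (g h : PTA) (x : ℝ) : (g * h).1 x = g.1 (h.1 x) := rfl

lemma disp (A : Finset ℝ) (T : Finset PTA) (hA : ∀ g ∈ T, ∀ x, g.1 x - x ∈ A) :
    ∀ l : List PTA, (∀ g ∈ l, g ∈ T) → ∀ x, ∃ c : A → ℕ, (∀ a, c a ≤ l.length) ∧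
      l.prod.1 x - x = ∑ a, (c a : ℝ) * (a : ℝ) := by
  classical
  intro l
  induction l with
  | nil =>
    intro _ x
    refine ⟨fun _ => 0, fun _ => Nat.zero_le _, ?_⟩
    simp
  | cons g l ih =>
    intro hl x
    obtain ⟨c, hc, hs⟩ := ih (fun h hh => hl h (List.mem_cons_of_mem _ hh)) x
    have hg := hA g (hl g List.mem_cons_self) (l.prod.1 x)
    refine ⟨fun a => c a + if a = ⟨_, hg⟩ then 1 else 0, fun a => ?_, ?_⟩
    · have := hc a
      simp only [List.length_cons]
      split_ifs <;> omega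
    · rw [List.prod_cons, coe_mul_apply]
      simp only [Nat.cast_add, add_mul, Finset.sum_add_distrib, ite_mul, one_mul, zero_mul,
        Nat.cast_ite, Nat.cast_one, Nat.cast_zero, Finset.sum_ite_eq', Finset.mem_univ, if_true]
      rw [← hs]
      ring

lemma disc (lv : PTA →* Equiv.Perm ℝ) (A B₀ : Finset ℝ) (T : Finset PTA)
    (hA : ∀ g ∈ T, ∀ x, g.1 x - x ∈ A) (hB : ∀ g ∈ T, ∀ x, lv g x ≠ g.1 x → x ∈ B₀) :
    ∀ l : List PTA, (∀ g ∈ l, g ∈ T) → ∀ x, lv l.prod x ≠ l.prod.1 x →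
      ∃ b ∈ B₀, ∃ c : A → ℕ, (∀ a, c a ≤ l.length) ∧ x = b - ∑ a, (c a : ℝ) * (a : ℝ) := by
  intro l
  induction l with
  | nil =>
    intro _ x hx
    exact absurd (by simp) hx
  | cons g l ih =>
    intro hl x hx
    have hl' : ∀ h ∈ l, h ∈ T := fun h hh => hl h (List.mem_cons_of_mem _ hh)
    by_cases h1 : lv l.prod x = l.prod.1 x
    · obtain ⟨c, hc, hs⟩ := disp A T hA l hl' x
      refine ⟨l.prod.1 x, ?_, c, fun a => (hc a).trans (by simp), ?_⟩
      · apply hB g (hl g List.mem_cons_self)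
        intro h2
        apply hx
        rw [List.prod_cons, coe_mul_apply, map_mul, Equiv.Perm.mul_apply, h1, h2]
      · rw [← hs]
        ring
    · obtain ⟨b, hb, c, hc, hs⟩ := ih hl' x h1
      exact ⟨b, hb, c, fun a => (hc a).trans (by simp), hs⟩

lemma outside (T : Finset PTA) (hT : ∀ g ∈ T, ∀ x ∉ Set.Ico (0 : ℝ) 1, g.1 x = x) :
    ∀ l : List PTA, (∀ g ∈ l, g ∈ T) → ∀ x ∉ Set.Ico (0 : ℝ) 1, l.prod.1 x = x := by
  intro l
  induction l with
  | nil =>
    intro _ x _
    simp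
  | cons g l ih =>
    intro hl x hx
    rw [List.prod_cons, coe_mul_apply,
      ih (fun h hh => hl h (List.mem_cons_of_mem _ hh)) x hx]
    exact hT g (hl g List.mem_cons_self) x hx

/-- an element is determined by its displacements at the breakpoints -/
lemma det {B : Finset ℝ} {g h : Equiv.Perm ℝ} (hg : Trans B g) (hh : Trans B h)
    (hg0 : ∀ x ∉ Set.Ico (0 : ℝ) 1, g x = x) (hh0 : ∀ x ∉ Set.Ico (0 : ℝ) 1, h x = x)
    (hB : ∀ x ∈ B, g x = h x) : g = h := by
  classical
  ext x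
  rcases lt_or_ge x 0 with hx | hx
  · rw [hg0 x (fun h => absurd h.1 (not_le.2 hx)), hh0 x (fun h => absurd h.1 (not_le.2 hx))]
  · have hm1 : (-1 : ℝ) ∉ Set.Ico (0 : ℝ) 1 := by
      intro h
      have := h.1
      linarith
    rcases (B.filter (fun b => -1 < b ∧ b ≤ x)).eq_empty_or_nonempty with he | hne
    · have hno : ∀ b ∈ B, ¬ (-1 < b ∧ b ≤ x) := by
        intro b hb hcon
        have : b ∈ B.filter (fun b => -1 < b ∧ b ≤ x) := Finset.mem_filter.2 ⟨hb, hcon⟩
        rw [he] at this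
        exact absurd this (Finset.notMem_empty b)
      have h1 := hg (-1) x (by linarith) hno
      have h2 := hh (-1) x (by linarith) hno
      rw [hg0 _ hm1] at h1
      rw [hh0 _ hm1] at h2
      linarith
    · obtain ⟨b₀, hmax, hle⟩ : ∃ b₀ ∈ B.filter (fun b => -1 < b ∧ b ≤ x),
          ∀ b ∈ B.filter (fun b => -1 < b ∧ b ≤ x), b ≤ b₀ :=
        ⟨_, Finset.max'_mem _ hne, fun b hb => Finset.le_max' _ b hb⟩
      rw [Finset.mem_filter] at hmax
      have hno : ∀ b ∈ B, ¬ (b₀ < b ∧ b ≤ x) := by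
        intro b hb hcon
        have h3 := hle b (Finset.mem_filter.2 ⟨hb, hmax.2.1.trans hcon.1, hcon.2⟩)
        exact absurd hcon.1 (not_lt.2 h3)
      have h1 := hg b₀ x hmax.2.2 hno
      have h2 := hh b₀ x hmax.2.2 hno
      have h3 := hB b₀ hmax.1
      rw [h3] at h1
      linarith

lemma list_mem {α : Type} (D : Finset α) (M : ℕ) (hM : D.card ≤ M) (y : α) :
    y ∈ D ↔ ∃ i : Fin M, D.toList[(i : ℕ)]? = some y := by
  constructor
  · intro hy
    have h1 : y ∈ D.toList := Finset.mem_toList.2 hy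
    obtain ⟨j, hj⟩ := List.mem_iff_getElem?.1 h1
    have h2 : j < D.toList.length := by
      by_contra hcon
      rw [List.getElem?_eq_none (not_lt.1 hcon)] at hj
      exact absurd hj (by simp)
    rw [Finset.length_toList] at h2
    exact ⟨⟨j, lt_of_lt_of_le h2 hM⟩, hj⟩
  · rintro ⟨i, hi⟩
    exact Finset.mem_toList.1 (List.mem_iff_getElem?.2 ⟨i, hi⟩)

/-- Counting. -/
theorem specCTG (hDSC : SpecDSC) : SpecCTG := by
  intro lv hlv T M hT hM
  classical
  choose Bg hBg hTr using hDSC lv hlv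
  obtain ⟨B₀, hB₀⟩ : ∃ B₀ : Finset ℝ, ∀ g ∈ T, ∀ x, lv g x ≠ g.1 x → x ∈ B₀ :=
    ⟨T.biUnion Bg, fun g hg x hx => Finset.mem_biUnion.2 ⟨g, hg, (hBg g x).2 hx⟩⟩
  obtain ⟨A, hA⟩ : ∃ A : Finset ℝ, ∀ g ∈ T, ∀ x, g.1 x - x ∈ A :=
    ⟨T.biUnion (fun g => (Trans.finite_range (hTr g)).toFinset), fun g hg x =>
      Finset.mem_biUnion.2 ⟨g, hg, (Set.Finite.mem_toFinset _).2 ⟨x, rfl⟩⟩⟩
  let D : PTA → Finset (ℝ × ℝ) := fun g => (Bg g).image (fun x => (x, g.1 x - x))
  let P : ℕ → Finset (ℝ × ℝ) := fun n =>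
    ((B₀ ×ˢ An A n).image (fun p : ℝ × ℝ => p.1 - p.2)) ×ˢ (An A n)
  have hDcard : ∀ n, ∀ g ∈ Bl T n, (D g).card ≤ M := by
    intro n g hg
    refine Finset.card_image_le.trans ?_
    have h1 : {x | lv g x ≠ g.1 x} = (Bg g : Set ℝ) := by
      ext x
      exact (hBg g x).symm
    have h2 := hM n g hg
    rw [h1, Set.ncard_coe_finset] at h2
    exact h2
  have hDP : ∀ n, ∀ g ∈ Bl T n, D g ⊆ P n := by
    intro n g hg y hy
    obtain ⟨l, hl, hlT, rfl⟩ := hg
    obtain ⟨x, hx, rfl⟩ := Finset.mem_image.1 hy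
    have hx' := (hBg _ x).1 hx
    obtain ⟨b, hb, c, hc, hs⟩ := disc lv A B₀ T hA hB₀ l hlT x hx'
    obtain ⟨c', hc', hs'⟩ := disp A T hA l hlT x
    refine Finset.mem_product.2 ⟨?_, ?_⟩
    · refine Finset.mem_image.2 ⟨(b, ∑ a, (c a : ℝ) * (a : ℝ)), ?_, hs.symm⟩
      exact Finset.mem_product.2 ⟨hb, mem_An_of c (fun a => (hc a).trans hl)⟩
    · show l.prod.1 x - x ∈ An A n
      rw [hs']
      exact mem_An_of c' (fun a => (hc' a).trans hl)
  have hPcard : ∀ n, (P n).card + 1 ≤ (B₀.card + 1) * (n + 1) ^ (2 * A.card) := by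
    intro n
    have h1 := An_card A n
    have h2 : (P n).card ≤ B₀.card * (n + 1) ^ (2 * A.card) := by
      show (((B₀ ×ˢ An A n).image (fun p : ℝ × ℝ => p.1 - p.2)) ×ˢ (An A n)).card ≤ _
      rw [Finset.card_product]
      have h3 : ((B₀ ×ˢ An A n).image (fun p : ℝ × ℝ => p.1 - p.2)).card ≤
          B₀.card * (n + 1) ^ A.card := by
        refine Finset.card_image_le.trans ?_
        rw [Finset.card_product]
        exact Nat.mul_le_mul_left _ h1
      calc _ ≤ (B₀.card * (n + 1) ^ A.card) * (n + 1) ^ A.card := Nat.mul_le_mul h3 h1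
        _ = _ := by ring
    have h4 : 1 ≤ (n + 1) ^ (2 * A.card) := Nat.one_le_pow _ _ (Nat.succ_pos _)
    calc (P n).card + 1 ≤ B₀.card * (n + 1) ^ (2 * A.card) + (n + 1) ^ (2 * A.card) :=
          Nat.add_le_add h2 h4
      _ = _ := by ring
  have hinj : ∀ n, ∀ g ∈ Bl T n, ∀ h ∈ Bl T n, D g = D h → g = h := by
    intro n g hg h hh hgh
    have hg0 : ∀ x ∉ Set.Ico (0 : ℝ) 1, g.1 x = x := by
      obtain ⟨l, _, hlT, rfl⟩ := hg
      exact outside T hT l hlT
    have hh0 : ∀ x ∉ Set.Ico (0 : ℝ) 1, h.1 x = x := by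
      obtain ⟨l, _, hlT, rfl⟩ := hh
      exact outside T hT l hlT
    have hBB : Bg g = Bg h := by
      have h1 : (D g).image Prod.fst = Bg g := by
        show ((Bg g).image (fun x => (x, g.1 x - x))).image Prod.fst = Bg g
        rw [Finset.image_image]
        exact Finset.image_id
      have h2 : (D h).image Prod.fst = Bg h := by
        show ((Bg h).image (fun x => (x, h.1 x - x))).image Prod.fst = Bg h
        rw [Finset.image_image]
        exact Finset.image_id
      rw [← h1, ← h2, hgh]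
    apply Subtype.ext
    refine det (hTr g) (hBB ▸ hTr h) hg0 hh0 ?_
    intro x hx
    have h1 : (x, g.1 x - x) ∈ D h := by
      rw [← hgh]
      exact Finset.mem_image.2 ⟨x, hx, rfl⟩
    obtain ⟨x', _, hx'⟩ := Finset.mem_image.1 h1
    have h2 : x' = x := congrArg Prod.fst hx'
    have h3 : h.1 x' - x' = g.1 x - x := congrArg Prod.snd hx'
    rw [h2] at h3
    linarith
  let F : PTA → (Fin M → Option (ℝ × ℝ)) := fun g i => (D g).toList[(i : ℕ)]?
  have hcount : ∀ n, (Bl T n).ncard ≤ ((P n).card + 1) ^ M := by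
    intro n
    have h1 := Set.ncard_le_ncard_of_injOn (s := Bl T n)
      (t := (Fintype.piFinset (fun _ : Fin M => insert none ((P n).image some)) :
        Finset (Fin M → Option (ℝ × ℝ)))) F ?_ ?_ (Finset.finite_toSet _)
    · rw [Set.ncard_coe_finset, Fintype.card_piFinset, Finset.prod_const, Finset.card_univ,
        Fintype.card_fin] at h1
      refine h1.trans (Nat.pow_le_pow_left ?_ M)
      refine (Finset.card_insert_le _ _).trans ?_
      exact Nat.add_le_add_right Finset.card_image_le 1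
    · intro g hg
      rw [Finset.mem_coe, Fintype.mem_piFinset]
      intro i
      show (D g).toList[(i : ℕ)]? ∈ _
      rcases hy : (D g).toList[(i : ℕ)]? with _ | y
      · exact Finset.mem_insert_self _ _
      · refine Finset.mem_insert_of_mem (Finset.mem_image.2 ⟨y, ?_, rfl⟩)
        apply hDP n g hg
        exact Finset.mem_toList.1 (List.mem_iff_getElem?.2 ⟨i, hy⟩)
    · intro g hg h hh hgh
      apply hinj n g hg h hh
      ext y
      rw [list_mem (D g) M (hDcard n g hg), list_mem (D h) M (hDcard n h hh)]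
      constructor
      · rintro ⟨i, hi⟩
        refine ⟨i, ?_⟩
        have := congrFun hgh i
        change (D g).toList[(i : ℕ)]? = (D h).toList[(i : ℕ)]? at this
        rw [← this]
        exact hi
      · rintro ⟨i, hi⟩
        refine ⟨i, ?_⟩
        have := congrFun hgh i
        change (D g).toList[(i : ℕ)]? = (D h).toList[(i : ℕ)]? at this
        rw [this]
        exact hi
  refine ⟨(B₀.card + 1) ^ M, 2 * A.card * M, fun n => (hcount n).trans ?_⟩
  refine (Nat.pow_le_pow_left (hPcard n) M).trans (le_of_eq ?_)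
  rw [mul_pow, ← pow_mul]

end JG.CTGM
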