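import Pool.Agent.Lib.MP_98125f_al.JG.SpecG

/-!
MP_98125f_al, JG, module DIG: spaces of dimension d + 1 with a well approximable linear form.
-/

set_option autoImplicit false
set_option linter.deprecated false

namespace JG.DIGM

open Filter Topology Pool.Agent.Lib.MP98125f

/-- A positive lower bound for finitely many positive numbers. -/
lemma low {ι : Type*} (s : Finset ι) (g : ι → ℝ) (hg : ∀ i, 0 < g i) :
    ∃ c : ℝ, 0 < c ∧ ∀ i ∈ s, c ≤ g i := by
  classical
  induction s using Finset.induction_on with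
  | empty => exact ⟨1, one_pos, fun i hi => absurd hi (Finset.notMem_empty i)⟩
  | insert a s ha ih =>
    obtain ⟨c, hc, h⟩ := ih
    refine ⟨min c (g a), lt_min hc (hg a), ?_⟩
    intro i hi
    rcases Finset.mem_insert.1 hi with rfl | hi
    · exact min_le_right _ _
    · exact (min_le_left _ _).trans (h i hi)

/-- The integer vectors of norm at most `M`. -/
noncomputable def box (d M : ℕ) : Finset (Fin (d + 1) → ℤ) := Fintype.piFinset fun _ => Finset.Icc (-(M : ℤ)) M

lemma mem_box {d M : ℕ} {n : Fin (d + 1) → ℤ} (h : nmG n ≤ M) : n ∈ box d M := by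
  unfold box
  rw [Fintype.mem_piFinset]
  intro i
  have h1 : (n i).natAbs ≤ nmG n :=
    Finset.le_sup (f := fun i => (n i).natAbs) (Finset.mem_univ i)
  have h2 : (n i).natAbs ≤ M := h1.trans h
  rw [Finset.mem_Icc]
  omega

theorem specDIG (hNBG : SpecNBG) : SpecDIG := by
  classical
  intro d hG
  obtain ⟨c, hc⟩ := exists_surjective_nat (ℕ × ℕ × ℕ × Finset (Fin (d + 1) → ℚ))
  have hη : ∀ (n : Fin (d + 1) → ℤ) (j M : ℕ), ∃ η : ℝ, 0 < η ∧ (n ≠ 0 → ∀ a : Fin (d + 1) → ℝ,
      (∀ i, |a i| ≤ M) → (∃ i, 1 / (M : ℝ) ≤ |a i|) → 0 < M →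
      |∑ i, (n i : ℝ) * a i| < η →
      a ∈ ASet (evG (d + 1)) (c j).1 (c j).2.1 (c j).2.2.2 (c j).2.2.1) := by
    intro n j M
    by_cases hn : n = 0
    · exact ⟨1, one_pos, fun h => absurd hn h⟩
    · obtain ⟨η, h0, h1⟩ := hNBG d hG n (c j).1 (c j).2.1 (c j).2.2.1 M (c j).2.2.2 hn
      exact ⟨η, h0, fun _ => h1⟩
  choose g hg0 hg using hη
  have hf : ∀ M : ℕ, ∃ t : ℝ, 0 < t ∧
      ∀ p ∈ (box d M) ×ˢ (Finset.range (M + 1)), t ≤ g p.1 p.2 M :=
    fun M => low ((box d M) ×ˢ (Finset.range (M + 1)))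
      (fun p : (Fin (d + 1) → ℤ) × ℕ => g p.1 p.2 M) (fun p => hg0 p.1 p.2 M)
  choose f hf0 hf using hf
  refine ⟨f, hf0, ?_⟩
  intro a hinf
  have hspan : ∀ v ∈ (Submodule.span ℚ (Set.range a)).toAddSubgroup,
      ∃ q : Fin (d + 1) → ℚ, (evG (d + 1)) q a = v := by
    intro v hv
    have hv' : v ∈ Submodule.span ℚ (Set.range a) := hv
    obtain ⟨q, hq⟩ := (Submodule.mem_span_range_iff_exists_fun ℚ).1 hv'
    refine ⟨q, ?_⟩
    show ∑ i, (q i : ℝ) * a i = v
    rw [← hq]
    exact Finset.sum_congr rfl (fun i _ => (Rat.smul_def _ _).symm)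
  by_cases ha : a = 0
  · refine Amen.of_le (PTg_mono ?_ _) (hG (fun _ => 0))
    intro v hv
    obtain ⟨q, hq⟩ := hspan v hv
    have hv0 : v = 0 := by
      rw [← hq, ha]
      show ∑ i, (q i : ℝ) * (0 : Fin (d + 1) → ℝ) i = 0
      simp
    rw [hv0]
    exact AddSubgroup.zero_mem _
  · have hi : ∃ i, a i ≠ 0 := by
      by_contra h
      apply ha
      funext i
      by_contra h1
      exact h ⟨i, h1⟩
    obtain ⟨i₀, hi₀⟩ := hi
    have hpos : 0 < |a i₀| := abs_pos.2 hi₀
    apply amen_of_forall_ASet (evG (d + 1)) hspan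
    intro k N F m
    obtain ⟨j, hj⟩ := hc (k, N, m, F)
    obtain ⟨K₁, hK₁⟩ := exists_nat_ge (∑ i, |a i|)
    obtain ⟨K₂, hK₂⟩ := exists_nat_ge (1 / |a i₀|)
    set K := max j (max K₁ K₂) with hK
    have hex : ∃ n : Fin (d + 1) → ℤ, |∑ i, (n i : ℝ) * a i| < f (nmG n) ∧ K < nmG n := by
      by_contra h
      push Not at h
      apply hinf
      apply (box d K).finite_toSet.subset
      intro n hn
      exact mem_box (h n hn)
    obtain ⟨n, hn, hKn⟩ := hex
    have hn0 : n ≠ 0 := by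
      intro h0
      have h1 : nmG n = 0 := by
        rw [h0]
        unfold nmG
        simp
      omega
    have hjM : j < nmG n + 1 := by
      have : j ≤ K := le_max_left _ _
      omega
    have hK₁M : K₁ ≤ nmG n := by
      have h1 : K₁ ≤ K := (le_max_left _ _).trans (le_max_right _ _)
      omega
    have hK₂M : K₂ ≤ nmG n := by
      have h1 : K₂ ≤ K := (le_max_right _ _).trans (le_max_right _ _)
      omega
    have hMpos : 0 < nmG n := by omega
    have hMR : (0 : ℝ) < (nmG n : ℝ) := by exact_mod_cast hMpos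
    have hle := hf (nmG n) (n, j) (Finset.mem_product.2
      ⟨mem_box le_rfl, Finset.mem_range.2 hjM⟩)
    have hmain := hg n j (nmG n) hn0 a (by
      intro i
      have h1 : |a i| ≤ ∑ i, |a i| :=
        Finset.single_le_sum (f := fun i => |a i|) (fun i _ => abs_nonneg _) (Finset.mem_univ i)
      have h2 : (K₁ : ℝ) ≤ (nmG n : ℝ) := by exact_mod_cast hK₁M
      linarith) ⟨i₀, by
        have h2 : (K₂ : ℝ) ≤ (nmG n : ℝ) := by exact_mod_cast hK₂M
        have h3 : 1 / |a i₀| ≤ (nmG n : ℝ) := hK₂.trans h2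
        rw [div_le_iff₀ hpos] at h3
        rw [div_le_iff₀ hMR]
        linarith⟩ hMpos (lt_of_lt_of_le hn hle)
    rw [hj] at hmain
    exact hmain

end JG.DIGM
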