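import Pool.Agent.Lib.MP_98125f_al.JG.SpecH

/-!
MP_98125f_al, JG, module DIH: spaces with chains of good approximations.
-/

set_option autoImplicit false
set_option linter.deprecated false

namespace JG.DIHM

open Filter Topology Pool.Agent.Lib.MP98125f

/-- A positive lower bound for finitely many positive numbers. -/
lemma low {ι : Type*} (s : Finset ι) (g : ι → ℝ) (hg : ∀ i, 0 < g i) :
    ∃ c : ℝ, 0 < c ∧ ∀ i ∈ s, c ≤ g i := by
  classical
  induction s using Finset.induction_on with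
  | empty => exact ⟨1, one_pos, fun i hi => absurd hi (Finset.notMem_empty i)⟩
  | insert a s ha ih =>
    obtain ⟨c, hc, h⟩ := ih
    refine ⟨min c (g a), lt_min hc (hg a), ?_⟩
    intro i hi
    rcases Finset.mem_insert.1 hi with rfl | hi
    · exact min_le_right _ _
    · exact (min_le_left _ _).trans (h i hi)

/-- The integer vectors of norm at most `M`. -/
noncomputable def box (d M : ℕ) : Finset (Fin d → ℤ) :=
  Fintype.piFinset fun _ => Finset.Icc (-(M : ℤ)) M

lemma mem_box {d M : ℕ} {n : Fin d → ℤ} (h : nmG n ≤ M) : n ∈ box d M := by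
  unfold box
  rw [Fintype.mem_piFinset]
  intro i
  have h1 : (n i).natAbs ≤ nmG n :=
    Finset.le_sup (f := fun i => (n i).natAbs) (Finset.mem_univ i)
  have h2 : (n i).natAbs ≤ M := h1.trans h
  rw [Finset.mem_Icc]
  omega

lemma chn_mono {d k : ℕ} {η η' : ℝ} (h : η ≤ η') {n : Fin (k + 1) → Fin d → ℤ} {a : Fin d → ℝ}
    (hc : Chn η k n a) : Chn η' k n a :=
  ⟨hc.1, fun j => lt_of_lt_of_le (hc.2 j) (mul_le_mul_of_nonneg_right h (abs_nonneg _))⟩

theorem specDIH (hNBH : SpecNBH) : SpecDIH := by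
  classical
  intro c k hG
  obtain ⟨C, hC⟩ := exists_surjective_nat (ℕ × ℕ × ℕ × Finset (Fin (c + k) → ℚ))
  have hη : ∀ (n : Fin (k + 1) → Fin (c + k) → ℤ) (j : ℕ), ∃ η : ℝ, 0 < η ∧
      ∀ a : Fin (c + k) → ℝ, Chn η k n a →
      a ∈ ASet (evG (c + k)) (C j).1 (C j).2.1 (C j).2.2.2 (C j).2.2.1 := fun n j =>
    hNBH c k hG n (C j).1 (C j).2.1 (C j).2.2.1 (C j).2.2.2
  choose g hg0 hg using hη
  have hf : ∀ M : ℕ, ∃ t : ℝ, 0 < t ∧
      ∀ p ∈ (Fintype.piFinset fun _ : Fin (k + 1) => box (c + k) M) ×ˢ (Finset.range (M + 1)),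
        t ≤ g p.1 p.2 :=
    fun M => low _ (fun p : (Fin (k + 1) → Fin (c + k) → ℤ) × ℕ => g p.1 p.2)
      (fun p => hg0 p.1 p.2)
  choose f hf0 hf using hf
  refine ⟨f, hf0, ?_⟩
  intro a hinf
  have hspan : ∀ v ∈ (Submodule.span ℚ (Set.range a)).toAddSubgroup,
      ∃ q : Fin (c + k) → ℚ, evG (c + k) q a = v := by
    intro v hv
    have hv' : v ∈ Submodule.span ℚ (Set.range a) := hv
    obtain ⟨q, hq⟩ := (Submodule.mem_span_range_iff_exists_fun ℚ).1 hv'
    refine ⟨q, ?_⟩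
    show ∑ i, (q i : ℝ) * a i = v
    rw [← hq]
    exact Finset.sum_congr rfl (fun i _ => (Rat.smul_def _ _).symm)
  apply amen_of_forall_ASet (evG (c + k)) hspan
  intro l N F m
  obtain ⟨j, hj⟩ := hC (l, N, m, F)
  obtain ⟨M, hM, hjM⟩ := hinf.exists_gt j
  obtain ⟨n, hn, hch⟩ := hM
  have hle := hf M (n, j) (Finset.mem_product.2
    ⟨Fintype.mem_piFinset.2 fun i => mem_box (hn i), Finset.mem_range.2 (by omega)⟩)
  have hmain := hg n j a (chn_mono hle hch)
  rw [hj] at hmain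
  exact hmain

end JG.DIHM
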