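import Pool.Agent.Lib.MP_98125f_al.JG.Spec

/-! # Module DNS: good independent parameters are dense -/

set_option autoImplicit false
set_option linter.deprecated false

namespace JG.DNSM

open Filter Topology Hyperreal Pool.Agent.Lib.MP98125f

theorem countable_KX (K : Subfield ℝ) [hK : Countable K] {d : ℕ} (x : Fin d → ℝ) :
    Countable (KX K x) := by
  unfold KX
  rw [← Cardinal.mk_le_aleph0_iff]
  refine (Subfield.cardinalMk_closure_le_max _).trans (max_le ?_ le_rfl)
  rw [Cardinal.mk_le_aleph0_iff, Set.countable_coe_iff]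
  exact (Set.countable_coe_iff.1 hK).union (Set.countable_range x)

theorem KX_cons (K : Subfield ℝ) {d : ℕ} (x : Fin d → ℝ) (y : ℝ) :
    Subfield.closure ((KX K x : Set ℝ) ∪ {y}) = KX K (Fin.cons y x : Fin (d + 1) → ℝ) := by
  unfold KX
  rw [Fin.range_cons]
  apply le_antisymm
  · rw [Subfield.closure_le]
    rintro z (hz | hz)
    · refine (Subfield.closure_mono ?_) hz
      rintro w (hw | hw)
      · exact Or.inl hw
      · exact Or.inr (Set.mem_insert_of_mem _ hw)
    · rw [Set.mem_singleton_iff] at hz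
      rw [hz]
      exact Subfield.subset_closure (Or.inr (Set.mem_insert _ _))
  · rw [Subfield.closure_le]
    rintro z (hz | hz | hz)
    · exact Subfield.subset_closure (Or.inl (Subfield.subset_closure (Or.inl hz)))
    · rw [hz]
      exact Subfield.subset_closure (Or.inr rfl)
    · exact Subfield.subset_closure (Or.inl (Subfield.subset_closure (Or.inr hz)))

theorem aeval_mem (K : Subfield ℝ) {d : ℕ} (x : Fin d → ℝ) (p : MvPolynomial (Fin d) K) :
    (MvPolynomial.aeval x : MvPolynomial (Fin d) K →ₐ[K] ℝ) p ∈ KX K x := by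
  induction p using MvPolynomial.induction_on with
  | C a =>
    rw [MvPolynomial.algHom_C]
    exact Subfield.subset_closure (Or.inl a.2)
  | add p q hp hq =>
    rw [map_add]
    exact (KX K x).add_mem hp hq
  | mul_X p i hp =>
    rw [map_mul, MvPolynomial.aeval_X]
    exact (KX K x).mul_mem hp (Subfield.subset_closure (Or.inr ⟨i, rfl⟩))

/-- the values, in the field generated by the parameters -/
noncomputable def val (K : Subfield ℝ) {d : ℕ} (x : Fin d → ℝ) :
    MvPolynomial (Fin d) K →+* KX K x :=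
  ((MvPolynomial.aeval x : MvPolynomial (Fin d) K →ₐ[K] ℝ) :
    MvPolynomial (Fin d) K →+* ℝ).codRestrict (KX K x) (aeval_mem K x)

theorem val_coe (K : Subfield ℝ) {d : ℕ} (x : Fin d → ℝ) (p : MvPolynomial (Fin d) K) :
    ((val K x p : KX K x) : ℝ) = (MvPolynomial.aeval x : MvPolynomial (Fin d) K →ₐ[K] ℝ) p := rfl

theorem aeval_cons (K : Subfield ℝ) {d : ℕ} (x : Fin d → ℝ) (y : ℝ)
    (p : MvPolynomial (Fin (d + 1)) K) :
    (MvPolynomial.aeval (Fin.cons y x : Fin (d + 1) → ℝ) :
      MvPolynomial (Fin (d + 1)) K →ₐ[K] ℝ) p =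
      Polynomial.eval₂ ((MvPolynomial.aeval x : MvPolynomial (Fin d) K →ₐ[K] ℝ) :
        MvPolynomial (Fin d) K →+* ℝ) y (MvPolynomial.finSuccEquiv K d p) := by
  have h : (MvPolynomial.aeval (Fin.cons y x : Fin (d + 1) → ℝ) :
      MvPolynomial (Fin (d + 1)) K →ₐ[K] ℝ) =
      (Polynomial.eval₂AlgHom (MvPolynomial.aeval x : MvPolynomial (Fin d) K →ₐ[K] ℝ) y
        (fun _ => Commute.all _ _)).comp (MvPolynomial.finSuccEquiv K d).toAlgHom := by
    apply MvPolynomial.algHom_ext
    intro i
    refine Fin.cases ?_ (fun j => ?_) i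
    · simp [MvPolynomial.finSuccEquiv_X_zero]
    · simp [MvPolynomial.finSuccEquiv_X_succ]
  rw [h]
  rfl

theorem AI_cons (K : Subfield ℝ) {d : ℕ} (x : Fin d → ℝ) (y : ℝ) (hx : AI K x)
    (hy : ¬ IsAlgebraic (KX K x) y) : AI K (Fin.cons y x : Fin (d + 1) → ℝ) := by
  intro p hp
  rw [aeval_cons] at hp
  have hinj : Function.Injective (val K x) := by
    rw [injective_iff_map_eq_zero]
    intro q hq
    apply hx q
    rw [← val_coe, hq]
    rfl
  have h1 : Polynomial.aeval y ((MvPolynomial.finSuccEquiv K d p).map (val K x)) = 0 := by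
    rw [Polynomial.aeval_def, Polynomial.eval₂_map]
    exact hp
  have h2 : (MvPolynomial.finSuccEquiv K d p).map (val K x) = 0 := by
    by_contra h3
    exact hy ⟨_, h3, h1⟩
  have h3 : MvPolynomial.finSuccEquiv K d p = 0 :=
    (Polynomial.map_eq_zero_iff hinj).1 h2
  exact (map_eq_zero_iff _ (MvPolynomial.finSuccEquiv K d).injective).1 h3

theorem specDNS (hONE : SpecONE) : SpecDNS := by
  intro d
  induction d with
  | zero =>
    intro K _ hK
    have : {x : Fin 0 → ℝ | AI K x ∧ G3 (KX K x)} = Set.univ := by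
      ext x
      simp only [Set.mem_ofPred_eq, Set.mem_univ, iff_true]
      constructor
      · intro p hp
        have h1 : p = MvPolynomial.C (p.coeff 0) := MvPolynomial.eq_C_of_isEmpty p
        rw [h1] at hp ⊢
        rw [MvPolynomial.algHom_C] at hp
        have h2 : p.coeff 0 = 0 := by
          apply Subtype.ext
          exact hp
        rw [h2, map_zero]
      · unfold KX
        rw [Set.range_eq_empty, Set.union_empty, Subfield.closure_eq]
        exact hK
    rw [this]
    exact dense_univ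
  | succ d ih =>
    intro K hKc hK
    rw [dense_iff_inter_open]
    intro U hU ⟨x, hxU⟩
    obtain ⟨r, hr, hball⟩ := Metric.isOpen_iff.1 hU x hxU
    obtain ⟨x', ⟨hx'i, hx'g⟩, hx'b⟩ := (ih K hKc hK).exists_mem_open
      (Metric.isOpen_ball : IsOpen (Metric.ball (Fin.tail x : Fin d → ℝ) r))
      ⟨Fin.tail x, Metric.mem_ball_self hr⟩
    have hc : Countable (KX K x') := countable_KX K x'
    have hres := hONE (KX K x') hc hx'g
    have hnot : ∀ᶠ y in residual ℝ, ¬ IsAlgebraic (KX K x') y := by
      have hcA : {y : ℝ | IsAlgebraic (KX K x') y}.Countable := Algebraic.countable _ _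
      have h1 : ∀ a ∈ {y : ℝ | IsAlgebraic (KX K x') y}, ∀ᶠ y in residual ℝ, y ≠ a := by
        intro a _
        exact residual_of_dense_open isOpen_compl_singleton (dense_compl_singleton a)
      have h2 := (eventually_countable_ball hcA).2 h1
      filter_upwards [h2] with y hy hyV
      exact hy y hyV rfl
    have hd1 : Dense {y : ℝ | G3 (Subfield.closure ((KX K x' : Set ℝ) ∪ {y})) ∧
        ¬ IsAlgebraic (KX K x') y} := dense_of_mem_residual (hres.and hnot)
    obtain ⟨y0, ⟨hy0g, hy0V⟩, hy0b⟩ := hd1.exists_mem_open Metric.isOpen_ball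
      (⟨x 0, Metric.mem_ball_self hr⟩ : (Metric.ball (x 0) r).Nonempty)
    refine ⟨Fin.cons y0 x', ?_, ?_, ?_⟩
    · apply hball
      rw [Metric.mem_ball, dist_pi_lt_iff hr]
      intro i
      refine Fin.cases ?_ (fun j => ?_) i
      · simpa using hy0b
      · rw [Metric.mem_ball, dist_pi_lt_iff hr] at hx'b
        simpa [Fin.tail] using hx'b j
    · exact AI_cons K x' y0 hx'i hy0V
    · rw [← KX_cons]
      exact hy0g

end JG.DNSM
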