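import Pool.Agent.Lib.MP_98125f_al.JG.Spec

/-! Module DSC: the true discontinuities. -/

set_option autoImplicit false
set_option linter.deprecated false

namespace JG.DSCM

open Filter Topology Hyperreal Pool.Agent.Lib.MP98125f

theorem key (lv : PTA →* Equiv.Perm ℝ) (hlv : LVP lv) (g : PTA) (C : Finset ℝ) (hC : Trans C g.1) :
    ∀ (n : ℕ) (x y : ℝ), x ≤ y → (C.filter (fun b => x < b ∧ b ≤ y)).card ≤ n →
      (∀ b ∈ C, x < b → b ≤ y → lv g b = g.1 b) → g.1 y - y = g.1 x - x := by
  intro n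
  induction n with
  | zero =>
    intro x y hxy hn _
    refine hC x y hxy fun b hb hb' => ?_
    have h0 : C.filter (fun b => x < b ∧ b ≤ y) = ∅ := Finset.card_eq_zero.1 (by omega)
    have h1 : b ∈ C.filter (fun b => x < b ∧ b ≤ y) := Finset.mem_filter.2 ⟨hb, hb'⟩
    rw [h0] at h1
    simp at h1
  | succ n ih =>
    intro x y hxy hn hg
    by_cases hex : ∃ b ∈ C, x < b ∧ b ≤ y
    · obtain ⟨c, hcC, hxc, hcy⟩ := hex
      have hmem : c ∈ C.filter (fun b => x < b ∧ b ≤ y) := Finset.mem_filter.2 ⟨hcC, hxc, hcy⟩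
      have hcard : ∀ D : Finset ℝ, D ⊆ C.filter (fun b => x < b ∧ b ≤ y) → c ∉ D → D.card ≤ n := by
        intro D hD hc
        have h1 : D ⊆ (C.filter (fun b => x < b ∧ b ≤ y)).erase c := fun d hd =>
          Finset.mem_erase.2 ⟨fun h => hc (h ▸ hd), hD hd⟩
        have h2 := Finset.card_le_card h1
        rw [Finset.card_erase_of_mem hmem] at h2
        omega
      -- from c to y
      have h1 : g.1 y - y = g.1 c - c := by
        refine ih c y hcy (hcard _ ?_ ?_) fun b hb h1 h2 => hg b hb (hxc.trans h1) h2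
        · intro b hb
          rw [Finset.mem_filter] at hb ⊢
          exact ⟨hb.1, hxc.trans hb.2.1, hb.2.2⟩
        · intro hc
          rw [Finset.mem_filter] at hc
          exact lt_irrefl _ hc.2.1
      -- a point just left of c
      have h2 : ∀ᶠ a in 𝓝[<] c, g.1 a - a = lv g c - c := hlv.ld g c
      have h3 : ∀ᶠ a in 𝓝[<] c, a ∈ Set.Ioo x c := Ioo_mem_nhdsLT hxc
      obtain ⟨a, ha, hxa, hac⟩ := (h2.and h3).exists
      have h4 : g.1 a - a = g.1 x - x := by
        refine ih x a hxa.le (hcard _ ?_ ?_) fun b hb h1 h2 => hg b hb h1 ((h2.trans hac.le).trans hcy)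
        · intro b hb
          rw [Finset.mem_filter] at hb ⊢
          exact ⟨hb.1, hb.2.1, (hb.2.2.trans hac.le).trans hcy⟩
        · intro hc
          rw [Finset.mem_filter] at hc
          exact absurd hc.2.2 (not_le.2 hac)
      rw [h1, ← h4, ha, hg c hcC hxc hcy]
    · refine hC x y hxy fun b hb hb' => hex ⟨b, hb, hb'⟩

theorem specDSC : SpecDSC := by
  classical
  intro lv hlv g
  obtain ⟨C, hC⟩ := g.2.1
  refine ⟨C.filter (fun x => lv g x ≠ g.1 x), fun x => ?_, ?_⟩
  · rw [Finset.mem_filter]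
    refine ⟨fun h => h.2, fun h => ⟨?_, h⟩⟩
    by_contra hx
    exact h (hlv.nb g C x hC hx)
  · intro x y hxy hB
    refine key lv hlv g C hC _ x y hxy le_rfl fun b hb h1 h2 => ?_
    by_contra hne
    exact hB b (Finset.mem_filter.2 ⟨hb, hne⟩) ⟨h1, h2⟩

end JG.DSCM
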