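import Pool.Agent.Lib.MP_98125f_al.JG.Spec

/-! # Module ENR: small energy. -/

set_option autoImplicit false
set_option linter.deprecated false

namespace JG.ENRM

open Filter Topology Pool.Agent.Lib.MP98125f

theorem mem_bot_rat {c : ℝ} (hc : c ∈ (⊥ : Subfield ℝ)) : ∃ q : ℚ, (q : ℝ) = c := by
  rw [Subfield.bot_eq_of_charZero] at hc
  obtain ⟨q, hq⟩ := hc
  exact ⟨q, by simpa using hq⟩

/-- a common denominator -/
theorem denom (e : Fin 3 → ℝ) (V : Finset ℝ) (hV : ∀ v ∈ V, v ∈ SP ⊥ e) :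
    ∃ (β : Fin 3 → ℝ) (C : ℕ), ∀ v ∈ V, ∃ n : Fin 3 → ℤ, (∀ i, |n i| ≤ C) ∧
      v = ∑ i, (n i : ℝ) * β i := by
  classical
  have h1 : ∀ v ∈ V, ∃ c : Fin 3 → ℚ, v = ∑ i, (c i : ℝ) * e i := by
    intro v hv
    obtain ⟨c, hc, rfl⟩ := hV v hv
    choose d hd using fun i => mem_bot_rat (hc i)
    exact ⟨d, by simp only [hd]⟩
  choose! c hc using h1
  set q : ℕ := ∏ v ∈ V, ∏ i, (c v i).den with hq
  have hdvd : ∀ v ∈ V, ∀ i, (c v i).den ∣ q := fun v hv i =>
    (Finset.dvd_prod_of_mem (fun i => (c v i).den) (Finset.mem_univ i)).trans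
      (Finset.dvd_prod_of_mem (fun v => ∏ i, (c v i).den) hv)
  have hq0 : q ≠ 0 := Finset.prod_ne_zero_iff.mpr fun v _ =>
    Finset.prod_ne_zero_iff.mpr fun i _ => (c v i).den_nz
  let n : ℝ → Fin 3 → ℤ := fun v i => (c v i).num * ((q / (c v i).den : ℕ) : ℤ)
  refine ⟨fun i => e i / q, ∑ v ∈ V, ∑ i, (n v i).natAbs, fun v hv => ⟨n v, ?_, ?_⟩⟩
  · intro i
    have h2 : (n v i).natAbs ≤ ∑ i, (n v i).natAbs :=
      Finset.single_le_sum (f := fun i => (n v i).natAbs) (fun _ _ => Nat.zero_le _)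
        (Finset.mem_univ i)
    have h3 : ∑ i, (n v i).natAbs ≤ ∑ v ∈ V, ∑ i, (n v i).natAbs :=
      Finset.single_le_sum (f := fun v => ∑ i, (n v i).natAbs) (fun _ _ => Nat.zero_le _) hv
    rw [Int.abs_eq_natAbs]
    exact_mod_cast h2.trans h3
  · conv_lhs => rw [hc v hv]
    refine Finset.sum_congr rfl fun i _ => ?_
    obtain ⟨k, hk⟩ := hdvd v hv i
    have hden : ((c v i).den : ℝ) ≠ 0 := by exact_mod_cast (c v i).den_nz
    have hqR : (q : ℝ) ≠ 0 := by exact_mod_cast hq0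
    have hk' : q / (c v i).den = k := by
      rw [hk]
      exact Nat.mul_div_cancel_left _ (c v i).den_pos
    have hkR : (q : ℝ) = (c v i).den * k := by exact_mod_cast hk
    have hc' : (c v i : ℝ) = (c v i).num / (c v i).den := by
      exact_mod_cast (Rat.num_div_den (c v i)).symm
    have hn : (n v i : ℝ) = (c v i).num * (k : ℝ) := by
      simp only [n]
      rw [hk']
      push_cast
      rfl
    rw [hn, hc']
    have hkne : (k : ℝ) ≠ 0 := by
      intro h0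
      apply hqR
      rw [hkR, h0, mul_zero]
    rw [hkR]
    field_simp

theorem Bx_mono (β : Fin 3 → ℝ) (P : Finset ℝ) {r s : ℕ} (h : r ≤ s) : Bx β P r ⊆ Bx β P s := by
  rintro x ⟨h0, h1, p, hp, n, hn, hx⟩
  exact ⟨h0, h1, p, hp, n, fun i => (hn i).trans (by exact_mod_cast h), hx⟩

/-- a displacement with coordinates at most `C` -/
theorem Bx_add (β : Fin 3 → ℝ) (P : Finset ℝ) {r C : ℕ} {x y : ℝ} (hx : x ∈ Bx β P r)
    (h0 : 0 ≤ y) (h1 : y < 1) (n : Fin 3 → ℤ) (hn : ∀ i, |n i| ≤ C)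
    (hy : y - x = ∑ i, (n i : ℝ) * β i) : y ∈ Bx β P (r + C) := by
  obtain ⟨_, _, p, hp, m, hm, hx⟩ := hx
  refine ⟨h0, h1, p, hp, m + n, ?_, ?_⟩
  · intro i
    have h2 := (abs_add_le (m i) (n i)).trans (add_le_add (hm i) (hn i))
    push_cast
    exact h2
  · have h3 : ∑ i, (((m + n) i : ℤ) : ℝ) * β i =
        ∑ i, (m i : ℝ) * β i + ∑ i, (n i : ℝ) * β i := by
      rw [← Finset.sum_add_distrib]
      refine Finset.sum_congr rfl fun i _ => ?_
      rw [Pi.add_apply]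
      push_cast
      ring
    rw [h3, ← hy]
    linarith

open Classical in
theorem specENR (hRAD : SpecRAD) (hCNT : SpecCNT) : SpecENR := by
  intro e S hS E0 η hη
  -- the displacements
  have hfin : (⋃ s ∈ S, Set.range fun x => s x - x).Finite := by
    refine Set.Finite.biUnion S.finite_toSet fun s hs => ?_
    obtain ⟨B, hB⟩ := (hS s hs).1
    exact hB.finite_range
  obtain ⟨β, C₁, hβ⟩ := denom e hfin.toFinset (by
    intro v hv
    rw [Set.Finite.mem_toFinset] at hv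
    obtain ⟨s, hs, hv⟩ := Set.mem_iUnion₂.mp hv
    obtain ⟨x, rfl⟩ := hv
    exact (hS s hs).2.1 x)
  have hdisp : ∀ s ∈ S, ∀ x, ∃ n : Fin 3 → ℤ, (∀ i, |n i| ≤ C₁) ∧
      s x - x = ∑ i, (n i : ℝ) * β i := by
    intro s hs x
    refine hβ _ ?_
    rw [Set.Finite.mem_toFinset]
    exact Set.mem_iUnion₂.mpr ⟨s, hs, x, rfl⟩
  obtain ⟨C₂, hC₂⟩ := hCNT β E0
  obtain ⟨h, R, h0, h01, hR, hsum⟩ := hRAD (max C₁ C₂) η hη
  -- movement
  have hIco : ∀ s ∈ S, ∀ x, (0 ≤ x ∧ x < 1) → (0 ≤ s x ∧ s x < 1) := fun s hs x hx =>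
    PTg.mapsTo (hS s hs) hx
  have hout : ∀ s ∈ S, ∀ x, ¬ (0 ≤ x ∧ x < 1) → s x = x := fun s hs x hx => (hS s hs).2.2 x hx
  have hfwd : ∀ s ∈ S, ∀ x r, x ∈ Bx β E0 r → s x ∈ Bx β E0 (r + C₁) := by
    intro s hs x r hx
    obtain ⟨n, hn, hd⟩ := hdisp s hs x
    have h2 := hIco s hs x ⟨hx.1, hx.2.1⟩
    exact Bx_add β E0 hx h2.1 h2.2 n hn hd
  have hbwd : ∀ s ∈ S, ∀ x r, s x ∈ Bx β E0 r → x ∈ Bx β E0 (r + C₁) := by
    intro s hs x r hx
    have hxI : 0 ≤ x ∧ x < 1 := by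
      by_contra hcon
      have h2 := hout s hs x hcon
      rw [h2] at hx
      exact hcon ⟨hx.1, hx.2.1⟩
    obtain ⟨n, hn, hd⟩ := hdisp s hs x
    refine Bx_add β E0 hx hxI.1 hxI.2 (-n) (fun i => ?_) ?_
    · rw [Pi.neg_apply, abs_neg]
      exact hn i
    · have h3 : ∑ i, (((-n) i : ℤ) : ℝ) * β i = -∑ i, (n i : ℝ) * β i := by
        rw [← Finset.sum_neg_distrib]
        refine Finset.sum_congr rfl fun i _ => ?_
        rw [Pi.neg_apply]
        push_cast
        ring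
      rw [h3, ← hd]
      ring
  -- the least radius
  let U : Set ℝ := {x | ∃ r, x ∈ Bx β E0 r}
  let N : ℝ → ℕ := fun x => if hx : x ∈ U then Nat.find hx else 0
  have hN : ∀ x ∈ U, x ∈ Bx β E0 (N x) := by
    intro x hx
    simp only [N, dif_pos hx]
    exact Nat.find_spec hx
  have hNle : ∀ x r, x ∈ Bx β E0 r → N x ≤ r := by
    intro x r hx
    have hxU : x ∈ U := ⟨r, hx⟩
    simp only [N, dif_pos hxU]
    exact Nat.find_min' hxU hx
  have hUs : ∀ s ∈ S, ∀ x, x ∈ U → s x ∈ U := fun s hs x hx => ⟨_, hfwd s hs x _ (hN x hx)⟩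
  have hE0 : ∀ x ∈ E0, (0 ≤ x ∧ x < 1) → x ∈ Bx β E0 0 := by
    intro x hx hI
    exact ⟨hI.1, hI.2, x, hx, 0, fun i => by simp, by simp⟩
  have hfinB : ∀ r, (Bx β E0 r).Finite := fun r => (hC₂ r).1
  let a : ℝ → ℝ := fun x => if x ∈ U then h (N x) else if x ∈ E0 then 1 else 0
  have ha_U : ∀ x ∈ U, a x = h (N x) := fun x hx => if_pos hx
  have hD0 : ∀ x, x ∉ (hfinB R).toFinset ∪ E0 → a x = 0 := by
    intro x hx
    rw [Finset.mem_union, not_or, Set.Finite.mem_toFinset] at hx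
    by_cases hxU : x ∈ U
    · rw [ha_U x hxU]
      apply hR
      by_contra hcon
      exact hx.1 (Bx_mono β E0 (not_le.mp hcon).le (hN x hxU))
    · simp only [a, if_neg hxU, if_neg hx.2]
  refine ⟨a, (hfinB R).toFinset ∪ E0, ?_, hD0, ?_, ?_⟩
  · intro x
    simp only [a]
    split_ifs
    · exact h01 _
    · exact ⟨zero_le_one, le_rfl⟩
    · exact ⟨le_rfl, zero_le_one⟩
  · intro x hx
    by_cases hxU : x ∈ U
    · rw [ha_U x hxU]
      have hI : 0 ≤ x ∧ x < 1 := by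
        obtain ⟨r, hr⟩ := hxU
        exact ⟨hr.1, hr.2.1⟩
      have h2 := hNle x 0 (hE0 x hx hI)
      rw [Nat.le_zero.mp h2, h0]
    · simp only [a, if_neg hxU, if_pos hx]
  · intro s hs
    refine ⟨(hfinB (R + C₁)).toFinset ∪ E0, ?_, ?_⟩
    · intro x hx
      rw [Finset.mem_union, not_or, Set.Finite.mem_toFinset] at hx
      have hx0 : a x = 0 := by
        apply hD0
        rw [Finset.mem_union, not_or, Set.Finite.mem_toFinset]
        exact ⟨fun hcon => hx.1 (Bx_mono β E0 (Nat.le_add_right _ _) hcon), hx.2⟩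
      refine ⟨hx0, ?_⟩
      by_cases hI : 0 ≤ x ∧ x < 1
      · apply hD0
        rw [Finset.mem_union, not_or, Set.Finite.mem_toFinset]
        refine ⟨fun hcon => hx.1 (hbwd s hs x R hcon), fun hcon => ?_⟩
        have h2 := hE0 (s x) hcon (hIco s hs x hI)
        exact hx.1 (hbwd s hs x R (Bx_mono β E0 (Nat.zero_le _) h2))
      · rw [hout s hs x hI]
        exact hx0
    · set D' := (hfinB (R + C₁)).toFinset ∪ E0 with hD'
      have h1 : ∑ x ∈ D', (a (s x) - a x) ^ 2 =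
          ∑ x ∈ D'.filter (fun x => x ∈ U), (h (N (s x)) - h (N x)) ^ 2 := by
        rw [Finset.sum_filter]
        refine Finset.sum_congr rfl fun x hx => ?_
        split_ifs with hxU
        · rw [ha_U x hxU, ha_U (s x) (hUs s hs x hxU)]
        · have hI : ¬ (0 ≤ x ∧ x < 1) := by
            intro hI
            rw [hD', Finset.mem_union, Set.Finite.mem_toFinset] at hx
            rcases hx with hx | hx
            · exact hxU ⟨_, hx⟩
            · exact hxU ⟨_, hE0 x hx hI⟩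
          rw [hout s hs x hI, sub_self]
          ring
      rw [h1]
      refine hsum ℝ (D'.filter fun x => x ∈ U) N (fun x => N (s x)) ?_ ?_
      · intro r
        have h2 : {x | x ∈ D'.filter (fun x => x ∈ U) ∧ N x ≤ r} ⊆ Bx β E0 r := by
          rintro x ⟨hx, hxr⟩
          have hxU : x ∈ U := (Finset.mem_filter.mp hx).2
          exact Bx_mono β E0 hxr (hN x hxU)
        calc Set.ncard {x | x ∈ D'.filter (fun x => x ∈ U) ∧ N x ≤ r}
            ≤ (Bx β E0 r).ncard := Set.ncard_le_ncard h2 (hfinB r)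
          _ ≤ C₂ * (r + 1) ^ 2 := (hC₂ r).2
          _ ≤ max C₁ C₂ * (r + 1) ^ 2 := Nat.mul_le_mul_right _ (le_max_right _ _)
      · intro x hx
        have hxU : x ∈ U := (Finset.mem_filter.mp hx).2
        have h2 := hNle _ _ (hfwd s hs x _ (hN x hxU))
        have h3 := hNle _ _ (hbwd s hs x _ (hN (s x) (hUs s hs x hxU)))
        have h4 := le_max_left C₁ C₂
        constructor <;> omega

end JG.ENRM
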