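import Pool.Agent.Lib.MP_98125f_al.JG.SpecE

/-! MP_98125f_al, JG, module EQV: the equivalence. -/

set_option autoImplicit false
set_option linter.deprecated false

namespace JG

namespace EQVM

open Filter Topology Hyperreal Pool.Agent.Lib.MP98125f

/-- EQV -/
theorem specEQV (hM2F : SpecM2F) (hI2P : SpecI2P) (hP2I : SpecP2I) (hUNI : SpecUNI)
    (hR2F : SpecR2F) (hF2A : SpecF2A) : SpecEQV := by
  constructor
  · intro h
    have hm : Mean (Subgroup.closure IetSetA) := h (Subgroup.closure IetSetA) rfl
    exact hR2F (hUNI (hI2P (hM2F _ hm)))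
  · intro hUF H hH
    have hA : Amen (Subgroup.closure IetSetA) := hP2I (hF2A hUF)
    have hH' : H = Subgroup.closure IetSetA := hH
    subst hH'
    exact hA.exists_mean

end EQVM

end JG
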