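import Pool.Agent.Lib.MP_98125f_al.JG.Spec

/-!
MP_98125f_al, JG: module EXA, transfer to a member of the sequence.
-/

set_option autoImplicit false
set_option linter.deprecated false

namespace JG.EXAM

open Filter Topology Hyperreal Pool.Agent.Lib.MP98125f

theorem specEXA : SpecEXA := by
  intro X E _ ev x hA k N F m
  classical
  by_contra hcon
  push Not at hcon
  have h1 : ∀ n, ∃ g : Fin k → Equiv.Perm ℝ, (∀ j, (∀ y ∉ Set.Ico (0 : ℝ) 1, g j y = y) ∧
    (∃ B : Finset ℝ, B.card ≤ N ∧ Trans B (g j)) ∧ ∀ y, ∃ f ∈ F, g j y - y = ev f (x n)) ∧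
    ¬ ∃ F' : Finset (Equiv.Perm ℝ), F'.Nonempty ∧
      ∀ j, m * Set.ncard {z | z ∈ F' ∧ g j * z ∉ F'} ≤ F'.card := by
    intro n
    have h2 := hcon n
    simp only [ASet, Set.mem_ofPred_eq] at h2
    push Not at h2
    obtain ⟨g, hg, h3⟩ := h2
    refine ⟨g, hg, ?_⟩
    rintro ⟨F', hF', h4⟩
    obtain ⟨j, hj⟩ := h3 F' hF'
    exact absurd (h4 j) (not_le.2 hj)
  choose g hg hbad using h1
  have hstar : ∀ j, starHom ((fun n => g n j : ℕ → Equiv.Perm ℝ) : Pool.Agent.Lib.MP98125f.GP) ∈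
      PTg (evStar ev x).range JJ := by
    intro j
    apply star_mem_PTg (fun n => g n j) N (F.image (fun f => fun n => ev f (x n)))
    · intro f hf
      obtain ⟨f', _, rfl⟩ := Finset.mem_image.1 hf
      exact ⟨f', rfl⟩
    · exact fun n => (hg n j).1
    · exact fun n => (hg n j).2.1
    · intro n y
      obtain ⟨f, hf, h2⟩ := (hg n j).2.2 y
      exact ⟨_, Finset.mem_image_of_mem _ hf, h2⟩
  obtain ⟨n, F', hF', h3⟩ := transfer hA k g hstar m
  exact hbad n ⟨F', hF', h3⟩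

end JG.EXAM
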