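import Pool.Agent.Lib.MP_98125f_al.JG.SpecE

/-!
# MP_98125f_al, module F2A: from finite permutations to interval exchanges
-/

set_option autoImplicit false
set_option linter.deprecated false

namespace JG.F2AM

open Filter Topology Hyperreal Pool.Agent.Lib.MP98125f
open JG

/-- The germ of `φ n v`. -/
noncomputable def fV {V : Submodule ℚ ℝ} (φ : ℕ → V →ₗ[ℚ] ℚ) : V →+ ℝ* where
  toFun v := ofSeq (fun n => ((φ n v : ℚ) : ℝ))
  map_zero' := by
    have : (fun n => ((φ n (0 : V) : ℚ) : ℝ)) = fun _ => (0 : ℝ) := by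
      funext n
      rw [map_zero, Rat.cast_zero]
    rw [this]
    rfl
  map_add' v w := by
    have : (fun n => ((φ n (v + w) : ℚ) : ℝ)) =
        (fun n => ((φ n v : ℚ) : ℝ)) + fun n => ((φ n w : ℚ) : ℝ) := by
      funext n
      rw [Pi.add_apply, map_add, Rat.cast_add]
    rw [this]
    rfl

theorem fV_pos {V : Submodule ℚ ℝ} (φ : ℕ → V →ₗ[ℚ] ℚ)
    (h : ∀ v : V, Tendsto (fun n => ((φ n v : ℚ) : ℝ)) atTop (𝓝 (v : ℝ))) (v : V)
    (hv : (0 : ℝ) < v) : 0 < fV φ v := by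
  have h1 : ofSeq (fun _ => (0 : ℝ)) < ofSeq (fun n => ((φ n v : ℚ) : ℝ)) :=
    ofSeq_lt_ofSeq.2 (((h v).eventually (lt_mem_nhds hv)).filter_mono Nat.hyperfilter_le_atTop)
  exact h1

/-- The group. -/
noncomputable abbrev PR : Subgroup (Equiv.Perm ℝ) :=
  PTg (⊤ : AddSubgroup ℝ) (Set.Ico (0 : ℝ) 1)

/-- Module F2A. -/
theorem specF2A (hGRD : SpecGRD) (hAPX : SpecAPX) (hSTV : SpecSTV) (hSEQ : SpecSEQ)
    (hGRM : SpecGRM) (hRST : SpecRST) : SpecF2A := by
  classical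
  intro hUF
  obtain ⟨u, hu⟩ := hGRD
  show Amen PR
  apply Amen.of_locally
  intro S
  set S' : Finset (Equiv.Perm ℝ) := S.image (PR.subtype : PR → Equiv.Perm ℝ) with hS'
  obtain ⟨V, h1, hfin, r, hr⟩ := hRST S' (by
    intro s hs
    obtain ⟨s', _, rfl⟩ := Finset.mem_image.1 hs
    exact s'.2)
  obtain ⟨φ, hφ1, hφ2⟩ := hAPX V h1 hfin
  obtain ⟨p, hp⟩ := hSTV V h1 (fV φ) (fV_pos φ hφ2)
  have hmem : ∀ x : Subgroup.closure (S : Set PR),
      (PR.subtype.comp (Subgroup.closure (S : Set PR)).subtype) x ∈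
        Subgroup.closure (S' : Set (Equiv.Perm ℝ)) := by
    intro x
    have e1 : Subgroup.closure (S' : Set (Equiv.Perm ℝ)) =
        (Subgroup.closure (S : Set PR)).map PR.subtype := by
      rw [MonoidHom.map_closure]
      congr 1
      rw [hS', Finset.coe_image]
    rw [e1]
    exact Subgroup.mem_map.2 ⟨x.1, x.2, rfl⟩
  set ι : Subgroup.closure (S : Set PR) →* Subgroup.closure (S' : Set (Equiv.Perm ℝ)) :=
    (PR.subtype.comp (Subgroup.closure (S : Set PR)).subtype).codRestrict _ hmem with hι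
  have hιi : Function.Injective ι := by
    intro x y hxy
    have h2 : ((ι x : Subgroup.closure (S' : Set (Equiv.Perm ℝ))) : Equiv.Perm ℝ) = ι y := by
      rw [hxy]
    exact Subtype.ext (Subtype.ext h2)
  refine Amen.of_local_injective (p.comp (r.comp ι)) (hp.inj.comp (hr.comp hιi)) ?_
  intro T0 m
  set T : Finset (PV V) := T0.image (r.comp ι) with hT
  have hB : ∀ g : PV V, ∃ B : Finset V, Trans B g.1 := fun g => g.2.1
  choose B hB using hB
  obtain ⟨q, hq⟩ := hSEQ V h1 φ hφ1 hφ2 (fV φ) (fun _ => rfl) p hp u hu T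
    (T.sup fun g => (B g).card)
    (fun g hg => ⟨B g, Finset.le_sup (f := fun g => (B g).card) hg, hB g⟩)
  choose c hc1 hc2 using hq
  obtain ⟨F, hF, hF2⟩ := hGRM hUF u hu T.card (T.sup fun g => (B g).card) m q
    (fun n j => c (T.equivFin.symm j).1 (T.equivFin.symm j).2 n) (fun n j => hc1 _ _ n)
  refine ⟨F, hF, fun g hg => ?_⟩
  have hgT : (r.comp ι) g ∈ T := Finset.mem_image_of_mem _ hg
  have h3 := hF2 (T.equivFin ⟨_, hgT⟩)
  have h4 : gst u q (fun n => c (T.equivFin.symm (T.equivFin ⟨_, hgT⟩)).1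
      (T.equivFin.symm (T.equivFin ⟨_, hgT⟩)).2 n) = (p.comp (r.comp ι)) g := by
    rw [← hc2, Equiv.symm_apply_apply]
    rfl
  rw [h4, ncard_filter] at h3
  exact h3

end JG.F2AM
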