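import Pool.Agent.Lib.MP_98125f_al.JG.Spec

/-!
MP_98125f_al, JG, module FIL: good parameters along a filter.
-/

set_option autoImplicit false
set_option linter.deprecated false

namespace JG.FILM

open Filter Topology Hyperreal Pool.Agent.Lib.MP98125f

/-- The value of a polynomial along a sequence. -/
noncomputable def pv {K : Subfield ℝ} {d : ℕ} (x : ℕ → Fin d → ℝ) (p : MvPolynomial (Fin d) K) :
    ℝ* := ofSeq (fun n => MvPolynomial.aeval (x n) p)

lemma pv_mem {K : Subfield ℝ} {d : ℕ} (x : ℕ → Fin d → ℝ) (p : MvPolynomial (Fin d) K) :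
    pv x p ∈ FSt K x := by
  induction p using MvPolynomial.induction_on with
  | C a =>
    have h : pv x (MvPolynomial.C a) = (((a : ℝ)) : ℝ*) := by
      have h1 : (fun n => MvPolynomial.aeval (x n) (MvPolynomial.C a : MvPolynomial (Fin d) K)) =
          fun _ : ℕ => (a : ℝ) := by
        funext n
        rw [MvPolynomial.aeval_C]
        rfl
      unfold pv
      rw [h1]
      rfl
    rw [h]
    exact Subfield.subset_closure (Or.inl ⟨a, a.2, rfl⟩)
  | add p q hp hq =>
    have h : pv x (p + q) = pv x p + pv x q := by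
      have h1 : (fun n => MvPolynomial.aeval (x n) (p + q)) =
          fun n : ℕ => MvPolynomial.aeval (x n) p + MvPolynomial.aeval (x n) q := by
        funext n
        rw [map_add]
      unfold pv
      rw [h1]
      rfl
    rw [h]
    exact (FSt K x).add_mem hp hq
  | mul_X p i hp =>
    have h : pv x (p * MvPolynomial.X i) = pv x p * ofSeq (fun n => x n i) := by
      have h1 : (fun n => MvPolynomial.aeval (x n) (p * MvPolynomial.X i)) =
          fun n : ℕ => MvPolynomial.aeval (x n) p * x n i := by
        funext n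
        rw [map_mul, MvPolynomial.aeval_X]
      unfold pv
      rw [h1]
      rfl
    rw [h]
    exact (FSt K x).mul_mem hp (Subfield.subset_closure (Or.inr ⟨i, rfl⟩))

lemma val (K : Subfield ℝ) (d : ℕ) (s : MvPolynomial (Fin d) K) (x : ℕ → Fin d → ℝ)
    (e : ℕ → Fin 3 → ℝ) (f : Fin 3 → MvPolynomial (Fin d) K) :
    evStar (evK K d s) (fun n => (x n, e n)) f =
      ∑ i, (pv x (f i) / pv x s) * ofSeq (fun n => e n i) := by
  have h1 : evStar (evK K d s) (fun n => (x n, e n)) f =
      ofSeq (fun n => MvPolynomial.aeval (x n) (f 0) / MvPolynomial.aeval (x n) s * e n 0 +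
        MvPolynomial.aeval (x n) (f 1) / MvPolynomial.aeval (x n) s * e n 1 +
        MvPolynomial.aeval (x n) (f 2) / MvPolynomial.aeval (x n) s * e n 2) := by
    have h2 : (fun n => evK K d s f (x n, e n)) =
        fun n => MvPolynomial.aeval (x n) (f 0) / MvPolynomial.aeval (x n) s * e n 0 +
        MvPolynomial.aeval (x n) (f 1) / MvPolynomial.aeval (x n) s * e n 1 +
        MvPolynomial.aeval (x n) (f 2) / MvPolynomial.aeval (x n) s * e n 2 := by
      funext n
      show (∑ i, MvPolynomial.aeval (x n) (f i) * e n i) / MvPolynomial.aeval (x n) s = _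
      rw [Fin.sum_univ_three]
      ring
    show ofSeq (fun n => evK K d s f (x n, e n)) = _
    rw [h2]
  rw [h1, Fin.sum_univ_three]
  rfl

theorem specFIL (hREC : SpecREC) (hGPF : SpecGPF) (hEXA : SpecEXA) : SpecFIL := by
  intro K d f hf hK s k N F m
  by_contra hcon
  have h1 : ∃ᶠ x in f, x ∉ AK K d s k N F m := fun h => hcon (by
    filter_upwards [h] with x hx
    exact not_not.1 hx)
  have := hf
  obtain ⟨x, hx, hbad⟩ := exists_seq_forall_of_frequently h1
  have h2 : ∀ n, ∃ e : Fin 3 → ℝ, (x n, e) ∉ ASet (evK K d s) k N F m := by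
    intro n
    have h3 : ¬ ∀ e : Fin 3 → ℝ, (x n, e) ∈ ASet (evK K d s) k N F m := hbad n
    exact not_forall.1 h3
  choose e he using h2
  obtain ⟨K0, hG, hR⟩ := hK x hx
  have h4 := hREC _ (hGPF (FSt K x) K0 hR hG (fun i => ofSeq (fun n => e n i)))
  have hle : (evStar (evK K d s) (fun n => (x n, e n))).range ≤
      (SPs (FSt K x) (fun i => ofSeq (fun n => e n i))).toAddSubgroup := by
    rintro _ ⟨g, rfl⟩
    refine ⟨fun i => pv x (g i) / pv x s, fun i => ?_, val K d s x e g⟩
    exact (FSt K x).div_mem (pv_mem x (g i)) (pv_mem x s)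
  obtain ⟨n, hn⟩ := hEXA _ _ (evK K d s) (fun n => (x n, e n))
    (Amen.of_le (PTg_mono hle _) h4) k N F m
  exact he n hn

end JG.FILM
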