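import Pool.Agent.Lib.MP_98125f_al.JG.Spec

/-!
# MP_98125f_al, module FIN: from piecewise translations to interval exchanges
-/

set_option autoImplicit false
set_option linter.deprecated false

namespace JG.FINM

open JG Pool.Agent.Lib.MP98125f

/-- A space of dimension at most 3 over `K` is contained in a space with 3 generators. -/
theorem span3 (K : Subfield ℝ) (Λ : Submodule K ℝ) (h : Module.rank K Λ ≤ 3) :
    ∃ e : Fin 3 → ℝ, ∀ v ∈ Λ, v ∈ SP K e := by
  classical
  have b := Module.Basis.ofVectorSpace K Λ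
  have h1 : Cardinal.mk (Module.Basis.ofVectorSpaceIndex K Λ) ≤ Cardinal.mk (Fin 3) := by
    rw [b.mk_eq_rank'', Cardinal.mk_fin]
    exact_mod_cast h
  obtain ⟨f⟩ := h1
  have hfin : Fintype (Module.Basis.ofVectorSpaceIndex K Λ) := Fintype.ofInjective f f.injective
  refine ⟨Function.extend f (fun i => ((b i : Λ) : ℝ)) 0, fun v hv =>
    ⟨Function.extend f (fun i => ((b.repr ⟨v, hv⟩ i : K) : ℝ)) 0, ?_, ?_⟩⟩
  · intro j
    by_cases hj : ∃ i, f i = j
    · obtain ⟨i, rfl⟩ := hj
      rw [f.injective.extend_apply]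
      exact (b.repr ⟨v, hv⟩ i).2
    · rw [Function.extend_apply' _ _ _ hj]
      exact K.zero_mem
  · have h2 : v = ∑ i, ((b.repr ⟨v, hv⟩ i : K) : ℝ) * ((b i : Λ) : ℝ) := by
      have h3 := congrArg (Submodule.subtype Λ) (b.sum_repr ⟨v, hv⟩)
      rw [map_sum] at h3
      exact h3.symm
    have h4 : ∑ j ∈ Finset.univ.map f,
        Function.extend f (fun i => ((b.repr ⟨v, hv⟩ i : K) : ℝ)) 0 j *
          Function.extend f (fun i => ((b i : Λ) : ℝ)) 0 j =
        ∑ i, ((b.repr ⟨v, hv⟩ i : K) : ℝ) * ((b i : Λ) : ℝ) := by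
      rw [Finset.sum_map]
      refine Finset.sum_congr rfl fun i _ => ?_
      rw [f.injective.extend_apply, f.injective.extend_apply]
    refine h2.trans (h4.symm.trans ?_)
    refine Finset.sum_subset (Finset.subset_univ _) ?_
    intro j _ hj
    have hj' : ¬ ∃ i, f i = j := by
      rintro ⟨i, rfl⟩
      exact hj (Finset.mem_map_of_mem f (Finset.mem_univ i))
    rw [Function.extend_apply' _ _ _ hj', Pi.zero_apply, zero_mul]

theorem PTg_mono {L L' : AddSubgroup ℝ} (h : ∀ v ∈ L, v ∈ L') (J : Set ℝ) :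
    PTg L J ≤ PTg L' J := by
  intro g hg
  exact ⟨hg.1, fun x => h _ (hg.2.1 x), hg.2.2⟩

theorem specFIN : SpecFIN := by
  intro K hK Λ hΛ H hH
  obtain ⟨e, he⟩ := span3 K Λ hΛ
  have hV : GoodV (Λ.restrictScalars ℚ) :=
    Amen.of_le (PTg_mono (fun v hv => he v hv) (Set.Ico (0 : ℝ) 1)) (hK e)
  subst hH
  exact (amen_iet hV).exists_mean

end JG.FINM
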