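import Pool.Agent.Lib.MP_98125f_al.JG.Spec

/-!
MP_98125f_al, JG, module GPF: the real parts of a 3-generated space over a field of hyperreals.
-/

set_option autoImplicit false
set_option linter.deprecated false

namespace JG.GPFM

open Filter Topology Hyperreal Pool.Agent.Lib.MP98125f

lemma isSt_sum {ι : Type} (s : Finset ι) (x : ι → ℝ*) (a : ι → ℝ) (h : ∀ i ∈ s, IsSt (x i) (a i)) :
    IsSt (∑ i ∈ s, x i) (∑ i ∈ s, a i) := by
  classical
  induction s using Finset.induction_on with
  | empty =>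
    rw [Finset.sum_empty, Finset.sum_empty]
    exact isSt_refl_real 0
  | insert i s hi ih =>
    rw [Finset.sum_insert hi, Finset.sum_insert hi]
    exact (h i (Finset.mem_insert_self i s)).add (ih fun j hj => h j (Finset.mem_insert_of_mem hj))

/-- Four standard parts are dependent. -/
lemma dep (F : Subfield ℝ*) (K : Subfield ℝ) (hR : Res F K) (e : Fin 3 → ℝ*) (δ : ℝ*)
    (hδ : 0 < δ) (r : Fin 4 → ℝ) (hr : ∀ i, ∃ t : ℝ*, δ * t ∈ SPs F e ∧ IsSt t (r i)) :
    ¬ LinearIndependent K r := by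
  choose t ht hst using hr
  have hc' : ∀ i, ∃ c : Fin 3 → ℝ*, (∀ j, c j ∈ F) ∧ δ * t i = ∑ j, c j * e j := ht
  choose c hc1 hc2 using hc'
  let C : Fin 4 → Fin 3 → F := fun i j => ⟨c i j, hc1 i j⟩
  have hnl : ¬ LinearIndependent F C := by
    intro h
    have h1 := h.fintype_card_le_finrank
    rw [Module.finrank_fin_fun, Fintype.card_fin] at h1
    omega
  rw [Fintype.not_linearIndependent_iff] at hnl
  obtain ⟨d, hd, i0, hi0⟩ := hnl
  have hrel : ∀ j, ∑ i, (d i : ℝ*) * c i j = 0 := by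
    intro j
    have h1 := congrFun hd j
    rw [Finset.sum_apply] at h1
    have h2 := congrArg (fun z : F => (z : ℝ*)) h1
    have h3 : ((∑ i, (d i • C i) j : F) : ℝ*) = ∑ i, (d i : ℝ*) * c i j := by
      rw [AddSubmonoidClass.coe_finset_sum]
      rfl
    rw [← h3]
    exact h2
  have hsum : ∑ i, (d i : ℝ*) * t i = 0 := by
    have h1 : δ * ∑ i, (d i : ℝ*) * t i = 0 := by
      calc δ * ∑ i, (d i : ℝ*) * t i = ∑ i, (d i : ℝ*) * (δ * t i) := by
            rw [Finset.mul_sum]
            exact Finset.sum_congr rfl fun i _ => by ring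
        _ = ∑ i, ∑ j, (d i : ℝ*) * c i j * e j := by
            refine Finset.sum_congr rfl fun i _ => ?_
            rw [hc2 i, Finset.mul_sum]
            exact Finset.sum_congr rfl fun j _ => by ring
        _ = ∑ j, (∑ i, (d i : ℝ*) * c i j) * e j := by
            rw [Finset.sum_comm]
            exact Finset.sum_congr rfl fun j _ => by rw [Finset.sum_mul]
        _ = 0 := by
            refine Finset.sum_eq_zero fun j _ => ?_
            rw [hrel j, zero_mul]
    rcases mul_eq_zero.1 h1 with h2 | h2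
    · exact absurd h2 hδ.ne'
    · exact h2
  obtain ⟨j, -, hj⟩ := Finset.exists_max_image Finset.univ (fun i => |(d i : ℝ*)|)
    ⟨i0, Finset.mem_univ i0⟩
  have hi0' : (d i0 : ℝ*) ≠ 0 := by
    intro h
    apply hi0
    exact Subtype.ext h
  have hj0 : 0 < |(d j : ℝ*)| := lt_of_lt_of_le (abs_pos.2 hi0') (hj i0 (Finset.mem_univ i0))
  have hdj : (d j : ℝ*) ≠ 0 := abs_pos.1 hj0
  set q : Fin 4 → ℝ* := fun i => (d i : ℝ*) / (d j : ℝ*) with hq
  have hqF : ∀ i, q i ∈ F := fun i => F.div_mem (d i).2 (d j).2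
  have hqfin : ∀ i, ¬ Infinite (q i) := by
    intro i
    apply not_infinite_of_abs_le
    rw [hq]
    show |(d i : ℝ*) / (d j : ℝ*)| ≤ 1
    rw [abs_div, div_le_one hj0]
    exact hj i (Finset.mem_univ i)
  have hqst : ∀ i, IsSt (q i) (st (q i)) := fun i => isSt_st' (hqfin i)
  have hqK : ∀ i, st (q i) ∈ K := fun i => hR (q i) (hqF i) (hqfin i)
  have hqsum : ∑ i, q i * t i = 0 := by
    have h1 : ∑ i, q i * t i = (∑ i, (d i : ℝ*) * t i) / (d j : ℝ*) := by
      rw [Finset.sum_div]
      refine Finset.sum_congr rfl fun i _ => ?_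
      rw [hq]
      show (d i : ℝ*) / (d j : ℝ*) * t i = (d i : ℝ*) * t i / (d j : ℝ*)
      ring
    rw [h1, hsum, zero_div]
  have hstsum : IsSt (∑ i, q i * t i) (∑ i, st (q i) * r i) :=
    isSt_sum _ _ _ fun i _ => (hqst i).mul (hst i)
  have hzero : ∑ i, st (q i) * r i = 0 := by
    rw [hqsum] at hstsum
    exact hstsum.unique (by simpa using isSt_refl_real 0)
  rw [Fintype.not_linearIndependent_iff]
  refine ⟨fun i => ⟨st (q i), hqK i⟩, ?_, j, ?_⟩
  · exact hzero
  · intro h
    have h1 : st (q j) = 0 := congrArg Subtype.val h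
    have h2 : q j = ((1 : ℝ) : ℝ*) := by
      rw [hq]
      show (d j : ℝ*) / (d j : ℝ*) = ((1 : ℝ) : ℝ*)
      rw [div_self hdj]
      rfl
    have h3 : IsSt (q j) 1 := by
      rw [h2]
      exact isSt_refl_real 1
    have h4 := h3.unique (hqst j)
    rw [h1] at h4
    exact one_ne_zero h4

end JG.GPFM

namespace JG.GPFM

open Filter Topology Hyperreal Pool.Agent.Lib.MP98125f

/-- A linearly independent set in the real parts has at most three elements. -/
lemma cover {K : Subfield ℝ} (b : Set ℝ)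
    (hb : ∀ r : Fin 4 → ℝ, (∀ i, r i ∈ b) → ¬ LinearIndependent K r)
    (hli : LinearIndependent K (fun x : b => (x : ℝ))) : ∃ e' : Fin 3 → ℝ, b ⊆ Set.range e' := by
  classical
  have hcard : b.encard ≤ 3 := by
    by_contra h
    rw [not_le] at h
    have h4 : (4 : ℕ∞) ≤ b.encard := by
      have := Order.add_one_le_of_lt h
      exact le_trans (by norm_num) this
    obtain ⟨s, hs, hs4⟩ := Set.exists_subset_encard_eq h4
    have hfin : s.Finite := Set.finite_of_encard_eq_coe (k := 4) (by exact_mod_cast hs4)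
    have hc : hfin.toFinset.card = 4 := by
      have h5 := hfin.encard_eq_coe_toFinset_card
      rw [hs4] at h5
      exact_mod_cast h5.symm
    let φ : Fin 4 ≃ hfin.toFinset := (Finset.equivFinOfCardEq hc).symm
    have hmem : ∀ i, (φ i : ℝ) ∈ b := fun i => hs (by
      have := (φ i).2
      rwa [Set.Finite.mem_toFinset] at this)
    apply hb (fun i => (φ i : ℝ)) hmem
    have h6 : LinearIndependent K (fun i : Fin 4 => (fun x : b => (x : ℝ)) ⟨φ i, hmem i⟩) := by
      refine hli.comp (fun i : Fin 4 => (⟨φ i, hmem i⟩ : b)) ?_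
      intro i i' h7
      apply φ.injective
      apply Subtype.ext
      exact congrArg (fun x : b => (x : ℝ)) h7
    exact h6
  have hfin : b.Finite := by
    refine Set.finite_of_encard_le_coe (k := 3) ?_
    exact_mod_cast hcard
  have hc : hfin.toFinset.card ≤ 3 := by
    have h5 := hfin.encard_eq_coe_toFinset_card
    rw [h5] at hcard
    exact_mod_cast hcard
  refine ⟨fun i => if h : (i : ℕ) < hfin.toFinset.card then
    (hfin.toFinset.equivFin.symm ⟨i, h⟩ : ℝ) else 0, ?_⟩
  intro x hx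
  have hx' : x ∈ hfin.toFinset := by rwa [Set.Finite.mem_toFinset]
  set k := hfin.toFinset.equivFin ⟨x, hx'⟩ with hk
  refine ⟨⟨k, lt_of_lt_of_le k.2 hc⟩, ?_⟩
  show (if h : (k : ℕ) < hfin.toFinset.card then
    (hfin.toFinset.equivFin.symm ⟨k, h⟩ : ℝ) else 0) = x
  rw [dif_pos k.2]
  have : hfin.toFinset.equivFin.symm ⟨k, k.2⟩ = ⟨x, hx'⟩ := by
    rw [Equiv.symm_apply_eq]
  rw [this]

theorem specGPF : SpecGPF := by
  intro F K hR hK e δ hδ
  obtain ⟨b, hb1, hb2, hb3⟩ := exists_linearIndependent K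
    ((stL (scl δ (SPs F e)).toAddSubgroup : AddSubgroup ℝ) : Set ℝ)
  obtain ⟨e', he'⟩ := cover b (fun r hr => dep F K hR e δ hδ r fun i => hb1 (hr i)) hb3
  refine Amen.of_le (PTg_mono ?_ _) (hK e')
  intro r hr
  have h1 : r ∈ Submodule.span K b := by
    rw [hb2]
    exact Submodule.subset_span hr
  have h2 : r ∈ Submodule.span K (Set.range e') := Submodule.span_mono he' h1
  rw [Submodule.mem_span_range_iff_exists_fun] at h2
  obtain ⟨c, hc⟩ := h2
  exact ⟨fun i => c i, fun i => (c i).2, by rw [← hc]; rfl⟩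

end JG.GPFM
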