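import Pool.Agent.Lib.MP_98125f_al.JG.SpecE

/-!
# MP_98125f_al, JG part E: module GRD (grid permutations act on the interval)
-/

set_option autoImplicit false

namespace JG.GRDM

open JG Pool.Agent.Lib.MP98125f

/-- the action of a grid permutation on one real number -/
noncomputable def F (q : ℕ) (g : Equiv.Perm (Fin q)) (y : ℝ) : ℝ :=
  if h : 0 ≤ y ∧ ⌊(q : ℝ) * y⌋₊ < q then
    y + (((g ⟨⌊(q : ℝ) * y⌋₊, h.2⟩ : ℕ) : ℝ) - (⌊(q : ℝ) * y⌋₊ : ℝ)) / q
  else y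

theorem F_out (q : ℕ) (g : Equiv.Perm (Fin q)) (y : ℝ) (h : ¬ (0 ≤ y ∧ ⌊(q : ℝ) * y⌋₊ < q)) :
    F q g y = y := dif_neg h

theorem pos_of {q : ℕ} (i : Fin q) : (0 : ℝ) < q := by
  exact_mod_cast Nat.lt_of_le_of_lt (Nat.zero_le _) i.2

/-- the cell of a number -/
theorem cell {q : ℕ} (i : Fin q) (y : ℝ) (h1 : ((i : ℕ) : ℝ) / q ≤ y)
    (h2 : y < (((i : ℕ) : ℝ) + 1) / q) : 0 ≤ y ∧ ⌊(q : ℝ) * y⌋₊ = i := by
  have hq := pos_of i
  have h3 : (0 : ℝ) ≤ ((i : ℕ) : ℝ) / q := div_nonneg (Nat.cast_nonneg _) hq.le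
  refine ⟨h3.trans h1, ?_⟩
  rw [div_le_iff₀ hq] at h1
  rw [lt_div_iff₀ hq] at h2
  rw [Nat.floor_eq_iff (mul_nonneg hq.le (by
    have := h3
    by_contra hc
    push Not at hc
    have h4 : y * q < 0 := mul_neg_of_neg_of_pos hc hq
    have h5 : (0 : ℝ) ≤ ((i : ℕ) : ℝ) := Nat.cast_nonneg _
    linarith))]
  constructor
  · linarith
  · linarith

theorem F_in {q : ℕ} (g : Equiv.Perm (Fin q)) (i : Fin q) (y : ℝ) (h1 : ((i : ℕ) : ℝ) / q ≤ y)
    (h2 : y < (((i : ℕ) : ℝ) + 1) / q) :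
    F q g y = y + (((g i : ℕ) : ℝ) - ((i : ℕ) : ℝ)) / q := by
  obtain ⟨h3, h4⟩ := cell i y h1 h2
  have h5 : 0 ≤ y ∧ ⌊(q : ℝ) * y⌋₊ < q := ⟨h3, by
    rw [h4]
    exact i.2⟩
  have h6 : (⟨⌊(q : ℝ) * y⌋₊, h5.2⟩ : Fin q) = i := Fin.ext h4
  unfold F
  rw [dif_pos h5, h6, h4]

/-- every number in the range is in a cell -/
theorem exists_cell {q : ℕ} {y : ℝ} (h : 0 ≤ y ∧ ⌊(q : ℝ) * y⌋₊ < q) :
    ∃ i : Fin q, (i : ℕ) = ⌊(q : ℝ) * y⌋₊ ∧ ((i : ℕ) : ℝ) / q ≤ y ∧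
      y < (((i : ℕ) : ℝ) + 1) / q := by
  have hq : (0 : ℝ) < q := by
    exact_mod_cast Nat.lt_of_le_of_lt (Nat.zero_le _) h.2
  refine ⟨⟨⌊(q : ℝ) * y⌋₊, h.2⟩, rfl, ?_, ?_⟩
  · rw [div_le_iff₀ hq, mul_comm y]
    exact Nat.floor_le (mul_nonneg hq.le h.1)
  · rw [lt_div_iff₀ hq, mul_comm y]
    exact Nat.lt_floor_add_one _

theorem F_cell {q : ℕ} (g : Equiv.Perm (Fin q)) (i : Fin q) (y : ℝ)
    (h1 : ((i : ℕ) : ℝ) / q ≤ y) (h2 : y < (((i : ℕ) : ℝ) + 1) / q) :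
    ((g i : ℕ) : ℝ) / q ≤ F q g y ∧ F q g y < (((g i : ℕ) : ℝ) + 1) / q := by
  have hq := pos_of i
  rw [F_in g i y h1 h2]
  rw [div_le_iff₀ hq] at h1 ⊢
  rw [lt_div_iff₀ hq] at h2 ⊢
  have h3 : (y + (((g i : ℕ) : ℝ) - ((i : ℕ) : ℝ)) / q) * q =
      y * q + (((g i : ℕ) : ℝ) - ((i : ℕ) : ℝ)) := by
    field_simp
  rw [h3]
  constructor
  · linarith
  · linarith

theorem F_one (q : ℕ) (y : ℝ) : F q 1 y = y := by
  by_cases h : 0 ≤ y ∧ ⌊(q : ℝ) * y⌋₊ < q
  · obtain ⟨i, _, h1, h2⟩ := exists_cell h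
    rw [F_in 1 i y h1 h2]
    simp
  · exact F_out q 1 y h

theorem F_mul (q : ℕ) (g h : Equiv.Perm (Fin q)) (y : ℝ) : F q (g * h) y = F q g (F q h y) := by
  by_cases hy : 0 ≤ y ∧ ⌊(q : ℝ) * y⌋₊ < q
  · obtain ⟨i, _, h1, h2⟩ := exists_cell hy
    obtain ⟨h3, h4⟩ := F_cell h i y h1 h2
    rw [F_in g (h i) _ h3 h4, F_in (g * h) i y h1 h2, F_in h i y h1 h2, Equiv.Perm.mul_apply]
    have hq := pos_of i
    field_simp
    ring
  · rw [F_out q _ y hy, F_out q h y hy, F_out q g y hy]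

/-- the homomorphism -/
noncomputable def ph (q : ℕ) : Equiv.Perm (Fin q) →* Function.End ℝ where
  toFun g := F q g
  map_one' := funext fun y => F_one q y
  map_mul' g h := funext fun y => F_mul q g h y

noncomputable def u (q : ℕ) : Equiv.Perm (Fin q) →* Equiv.Perm ℝ := (ph q).toHomPerm

theorem u_apply (q : ℕ) (g : Equiv.Perm (Fin q)) (y : ℝ) : u q g y = F q g y := rfl

theorem out (q : ℕ) (g : Equiv.Perm (Fin q)) (y : ℝ) (hy : y ∉ Set.Ico (0 : ℝ) 1) :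
    F q g y = y := by
  refine F_out q g y fun h => hy ⟨h.1, ?_⟩
  have hq : (0 : ℝ) < q := by
    exact_mod_cast Nat.lt_of_le_of_lt (Nat.zero_le _) h.2
  by_contra hc
  push Not at hc
  have h1 : (q : ℝ) ≤ (q : ℝ) * y := by nlinarith
  have h2 : q ≤ ⌊(q : ℝ) * y⌋₊ := Nat.le_floor h1
  exact absurd h.2 (not_lt.2 h2)

theorem inj (q : ℕ) : Function.Injective (u q) := by
  intro g h hgh
  refine Equiv.ext fun i => ?_
  have hq := pos_of i
  have h1 : ((i : ℕ) : ℝ) / q < (((i : ℕ) : ℝ) + 1) / q := by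
    rw [div_lt_div_iff_of_pos_right hq]
    linarith
  have h2 : u q g (((i : ℕ) : ℝ) / q) = u q h (((i : ℕ) : ℝ) / q) := by rw [hgh]
  rw [u_apply, u_apply, F_in g i _ le_rfl h1, F_in h i _ le_rfl h1] at h2
  have h3 := add_left_cancel h2
  rw [div_left_inj' hq.ne'] at h3
  have h4 : ((g i : ℕ) : ℝ) = ((h i : ℕ) : ℝ) := by linarith
  exact Fin.ext (by exact_mod_cast h4)

theorem tr (q : ℕ) (g : Equiv.Perm (Fin q)) (N : ℕ) (hg : IPF q N g) :
    ∃ B : Finset ℝ, B.card ≤ N + 2 ∧ Trans B (u q g) := by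
  classical
  obtain ⟨B₀, hB, hB'⟩ := hg
  refine ⟨B₀.image (fun b : Fin q => ((b : ℕ) : ℝ) / q) ∪ {0, 1}, ?_, ?_⟩
  · refine (Finset.card_union_le _ _).trans ?_
    exact Nat.add_le_add (Finset.card_image_le.trans hB) Finset.card_le_two
  · intro x y hxy hb
    rw [u_apply, u_apply]
    have hb0 := hb 0 (Finset.mem_union_right _ (by simp))
    have hb1 := hb 1 (Finset.mem_union_right _ (by simp))
    by_cases hx0 : x < 0
    · have hy0 : y < 0 := by
        by_contra hc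
        push Not at hc
        exact hb0 ⟨hx0, hc⟩
      rw [out q g x fun h => absurd h.1 (not_le.2 hx0),
        out q g y fun h => absurd h.1 (not_le.2 hy0)]
      ring
    · push Not at hx0
      by_cases hy1 : 1 ≤ y
      · have hx1 : 1 ≤ x := by
          by_contra hc
          push Not at hc
          exact hb1 ⟨hc, hy1⟩
        rw [out q g x fun h => absurd h.2 (not_lt.2 hx1),
          out q g y fun h => absurd h.2 (not_lt.2 hy1)]
        ring
      · push Not at hy1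
        rcases Nat.eq_zero_or_pos q with hq0 | hq0
        · have h1 : ∀ z : ℝ, F q g z = z := fun z => F_out q g z fun h => by
            have := h.2
            rw [hq0] at this
            exact Nat.not_lt_zero _ this
          rw [h1, h1]
          ring
        · have hq : (0 : ℝ) < q := by exact_mod_cast hq0
          have hfl : ∀ z : ℝ, 0 ≤ z → z < 1 → ⌊(q : ℝ) * z⌋₊ < q := by
            intro z hz0 hz1
            rw [Nat.floor_lt (mul_nonneg hq.le hz0)]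
            nlinarith
          obtain ⟨i, ei, i1, i2⟩ := exists_cell (q := q) ⟨hx0, hfl x hx0 (hxy.trans_lt hy1)⟩
          obtain ⟨j, ej, j1, j2⟩ := exists_cell (q := q)
            ⟨hx0.trans hxy, hfl y (hx0.trans hxy) hy1⟩
          have hij : i ≤ j := by
            rw [Fin.le_def, ei, ej]
            exact Nat.floor_le_floor (mul_le_mul_of_nonneg_left hxy hq.le)
          have hbb : ∀ b ∈ B₀, ¬ (i < b ∧ b ≤ j) := by
            rintro b hb2 ⟨h3, h4⟩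
            refine hb (((b : ℕ) : ℝ) / q) (Finset.mem_union_left _
              (Finset.mem_image.2 ⟨b, hb2, rfl⟩)) ⟨?_, ?_⟩
            · refine i2.trans_le (div_le_div_of_nonneg_right ?_ hq.le)
              have h5 : (i : ℕ) + 1 ≤ (b : ℕ) := h3
              exact_mod_cast h5
            · refine (div_le_div_of_nonneg_right ?_ hq.le).trans j1
              have h5 : (b : ℕ) ≤ (j : ℕ) := h4
              exact_mod_cast h5
          have h6 := hB' i j hij hbb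
          have h7 : ((g j : ℕ) : ℝ) - ((j : ℕ) : ℝ) = ((g i : ℕ) : ℝ) - ((i : ℕ) : ℝ) := by
            exact_mod_cast h6
          rw [F_in g i x i1 i2, F_in g j y j1 j2, h7]
          ring

theorem specGRD : SpecGRD :=
  ⟨u, inj, fun q g y hy => (u_apply q g y).trans (out q g y hy),
    fun q g i y h1 h2 => (u_apply q g y).trans (F_in g i y h1 h2), tr⟩

end JG.GRDM
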