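import Pool.Agent.Lib.MP_98125f_al.JG.SpecE

/-! # Module GRM: Foelner sets for germs of grid permutations. -/

set_option autoImplicit false
set_option linter.deprecated false

namespace JG.GRMM

open Filter Topology Hyperreal Pool.Agent.Lib.MP98125f

open Classical in
theorem specGRM : SpecGRM := by
  intro hUF u hu k N m q c hc
  obtain ⟨R, hR⟩ := hUF k N m
  choose F hF0 hFR hFm using fun n => hR (q n) (c n) (hc n)
  -- constant cardinality
  have h1 : ∀ᶠ n in hyperfilter ℕ, ∃ r ∈ (Set.Iic R : Set ℕ), (F n).card = r :=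
    Eventually.of_forall fun n => ⟨_, hFR n, rfl⟩
  rw [Ultrafilter.eventually_exists_mem_iff (Set.finite_Iic R)] at h1
  obtain ⟨r, -, hr⟩ := h1
  have hrpos : 0 < r := by
    obtain ⟨n, hn⟩ := hr.exists
    rw [← hn]
    exact Finset.card_pos.mpr (hF0 n)
  -- enumeration
  let z : ∀ n, ℕ → Equiv.Perm (Fin (q n)) := fun n i =>
    if h : i < (F n).card then (((F n).equivFin.symm ⟨i, h⟩ : F n) : Equiv.Perm (Fin (q n))) else 1
  have hzmem : ∀ n i, i < (F n).card → z n i ∈ F n := by
    intro n i hi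
    simp only [z, dif_pos hi]
    exact ((F n).equivFin.symm ⟨i, hi⟩).2
  have hzinj : ∀ n i i', i < (F n).card → i' < (F n).card → z n i = z n i' → i = i' := by
    intro n i i' hi hi' h
    simp only [z, dif_pos hi, dif_pos hi'] at h
    have h2 := (F n).equivFin.symm.injective (Subtype.ext h)
    exact congrArg Fin.val h2
  have hzsurj : ∀ n, ∀ x ∈ F n, ∃ i, i < (F n).card ∧ x = z n i := by
    intro n x hx
    refine ⟨((F n).equivFin ⟨x, hx⟩ : ℕ), ((F n).equivFin ⟨x, hx⟩).2, ?_⟩
    have h2 : ((F n).equivFin ⟨x, hx⟩ : ℕ) < (F n).card := ((F n).equivFin ⟨x, hx⟩).2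
    simp only [z, dif_pos h2]
    have h3 : (⟨((F n).equivFin ⟨x, hx⟩ : ℕ), h2⟩ : Fin (F n).card) = (F n).equivFin ⟨x, hx⟩ := rfl
    rw [h3, Equiv.symm_apply_apply]
  let Z : ℕ → Equiv.Perm ℝ* := fun i =>
    starHom ((fun n => u (q n) (z n i) : ℕ → Equiv.Perm ℝ) : Pool.Agent.Lib.MP98125f.GP)
  have hZinj : Set.InjOn Z (Finset.range r : Set ℕ) := by
    intro i hi i' hi' h
    have hi1 : i < r := Finset.mem_range.mp hi
    have hi1' : i' < r := Finset.mem_range.mp hi'
    have h2 := starHom_injective h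
    have h3 : ∀ᶠ n in hyperfilter ℕ, u (q n) (z n i) = u (q n) (z n i') := Germ.coe_eq.1 h2
    obtain ⟨n, hn1, hn2⟩ := (h3.and hr).exists
    exact hzinj n i i' (by rw [hn2]; exact hi1) (by rw [hn2]; exact hi1') (hu.inj (q n) hn1)
  refine ⟨(Finset.range r).image Z, (Finset.nonempty_range_iff.mpr hrpos.ne').image _, ?_⟩
  intro j
  rw [Finset.card_image_of_injOn hZinj, Finset.card_range]
  -- multiplication
  have hmul : ∀ i, gst u q (fun n => c n j) * Z i =
      starHom ((fun n => u (q n) (c n j * z n i) : ℕ → Equiv.Perm ℝ) :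
        Pool.Agent.Lib.MP98125f.GP) := by
    intro i
    have h5 : ((fun n => u (q n) (c n j * z n i) : ℕ → Equiv.Perm ℝ) :
        Pool.Agent.Lib.MP98125f.GP) =
        ((fun n => u (q n) (c n j) : ℕ → Equiv.Perm ℝ) : Pool.Agent.Lib.MP98125f.GP) *
        ((fun n => u (q n) (z n i) : ℕ → Equiv.Perm ℝ) : Pool.Agent.Lib.MP98125f.GP) := by
      rw [← Germ.coe_mul]
      congr 1
      funext n
      exact map_mul (u (q n)) (c n j) (z n i)
    rw [h5, map_mul]
    rfl
  set bad : Finset ℕ := (Finset.range r).filter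
    (fun i => gst u q (fun n => c n j) * Z i ∉ (Finset.range r).image Z) with hbad
  have hev : ∀ᶠ n in hyperfilter ℕ, ∀ i ∈ bad, c n j * z n i ∉ F n := by
    rw [Filter.eventually_all_finset]
    intro i hi
    rw [Ultrafilter.eventually_not]
    intro hcon
    have h6 : ∀ᶠ n in hyperfilter ℕ, ∃ i' ∈ (Set.Iio r : Set ℕ), c n j * z n i = z n i' := by
      filter_upwards [hcon, hr] with n hn1 hn2
      obtain ⟨i', hi', he⟩ := hzsurj n _ hn1
      exact ⟨i', by rw [← hn2]; exact hi', he⟩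
    rw [Ultrafilter.eventually_exists_mem_iff (Set.finite_Iio r)] at h6
    obtain ⟨i', hi', h7⟩ := h6
    have h8 := (Finset.mem_filter.mp hi).2
    apply h8
    refine Finset.mem_image.mpr ⟨i', Finset.mem_range.mpr hi', ?_⟩
    rw [hmul i]
    show starHom _ = starHom _
    congr 1
    refine Germ.coe_eq.2 ?_
    filter_upwards [h7] with n hn
    rw [hn]
  obtain ⟨n, hn1, hn2⟩ := (hev.and hr).exists
  have h9 := hFm n j
  rw [hn2] at h9
  refine le_trans (Nat.mul_le_mul_left _ ?_) h9
  have hsub : {x | x ∈ (Finset.range r).image Z ∧ gst u q (fun n => c n j) * x ∉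
      (Finset.range r).image Z} ⊆ ((bad.image Z : Finset (Equiv.Perm ℝ*)) : Set (Equiv.Perm ℝ*)) := by
    rintro x ⟨hx1, hx2⟩
    obtain ⟨i, hi, rfl⟩ := Finset.mem_image.mp hx1
    exact Finset.mem_coe.mpr (Finset.mem_image_of_mem _ (Finset.mem_filter.mpr ⟨hi, hx2⟩))
  have h10 : Set.ncard {x | x ∈ (Finset.range r).image Z ∧ gst u q (fun n => c n j) * x ∉
      (Finset.range r).image Z} ≤ bad.card := by
    refine (Set.ncard_le_ncard hsub (Finset.finite_toSet _)).trans ?_
    rw [Set.ncard_coe_finset]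
    exact Finset.card_image_le
  refine h10.trans ?_
  have hinj : Set.InjOn (z n) (bad : Set ℕ) := by
    intro i hi i' hi' h
    have hi1 : i < r := Finset.mem_range.mp (Finset.mem_filter.mp (Finset.mem_coe.mp hi)).1
    have hi1' : i' < r := Finset.mem_range.mp (Finset.mem_filter.mp (Finset.mem_coe.mp hi')).1
    exact hzinj n i i' (by rw [hn2]; exact hi1) (by rw [hn2]; exact hi1') h
  rw [← Finset.card_image_of_injOn hinj, ← Set.ncard_coe_finset]
  refine Set.ncard_le_ncard ?_ ?_
  · intro x hx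
    obtain ⟨i, hi, rfl⟩ := Finset.mem_image.mp (Finset.mem_coe.mp hx)
    have hi1 : i < r := Finset.mem_range.mp (Finset.mem_filter.mp hi).1
    exact ⟨hzmem n i (by rw [hn2]; exact hi1), hn1 i hi⟩
  · exact (F n).finite_toSet.subset fun x hx => hx.1

end JG.GRMM
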