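import Pool.Agent.Lib.MP_98125f_al.JG.Spec

/-! Module GRW: polynomial growth implies Foelner. -/

set_option autoImplicit false
set_option linter.deprecated false

namespace JG.GRWM

open Filter Topology Hyperreal Pool.Agent.Lib.MP98125f

theorem one_mem {G : Type} [Group G] (T : Finset G) (n : ℕ) : (1 : G) ∈ Bl T n :=
  ⟨[], Nat.zero_le _, by simp, rfl⟩

theorem mul_mem {G : Type} [Group G] (T : Finset G) (n : ℕ) {s x : G} (hs : s ∈ T) (hx : x ∈ Bl T n) :
    s * x ∈ Bl T (n + 1) := by
  obtain ⟨l, h1, h2, rfl⟩ := hx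
  refine ⟨s :: l, by simpa using h1, ?_, by simp⟩
  intro y hy
  rcases List.mem_cons.1 hy with rfl | hy
  · exact hs
  · exact h2 y hy

theorem mono {G : Type} [Group G] (T : Finset G) (n : ℕ) : Bl T n ⊆ Bl T (n + 1) := by
  rintro x ⟨l, h1, h2, h3⟩
  exact ⟨l, h1.trans (Nat.le_succ _), h2, h3⟩

theorem fin {G : Type} [Group G] (T : Finset G) (n : ℕ) : (Bl T n).Finite := by
  induction n with
  | zero =>
    refine (Set.finite_singleton (1 : G)).subset ?_
    rintro x ⟨l, h1, -, rfl⟩
    have : l = [] := List.length_eq_zero_iff.1 (by omega)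
    simp [this]
  | succ n ih =>
    have h : Bl T (n + 1) ⊆ {1} ∪ Set.image2 (fun s x => s * x) (T : Set G) (Bl T n) := by
      rintro x ⟨l, h1, h2, rfl⟩
      cases l with
      | nil => left; simp
      | cons s l =>
        right
        refine ⟨s, h2 s (by simp), l.prod, ⟨l, by simpa using h1, fun y hy => h2 y (by simp [hy]), rfl⟩, by simp⟩
    exact ((Set.finite_singleton _).union (T.finite_toSet.image2 _ ih)).subset h

theorem specGRW : SpecGRW := by
  classical
  intro G _ hG S m
  rcases Nat.eq_zero_or_pos m with rfl | hm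
  · exact ⟨{1}, Finset.singleton_nonempty _, fun g _ => by simp⟩
  obtain ⟨C, k, hCk⟩ := hG S
  set b : ℕ → ℕ := fun n => (Bl S n).ncard with hb
  have hb1 : 1 ≤ b 0 := by
    rw [hb]
    exact (Set.ncard_pos (fin S 0)).2 ⟨1, one_mem S 0⟩
  have hmono : ∀ n, b n ≤ b (n + 1) := fun n => Set.ncard_le_ncard (mono S n) (fin S (n + 1))
  have hex : ∃ n, m * (b (n + 1) - b n) ≤ b n := by
    by_contra hno
    push Not at hno
    set r : ℝ := ((m : ℝ) + 1) / m with hr
    have hm0 : (0 : ℝ) < m := by exact_mod_cast hm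
    have hr1 : 1 < r := by
      rw [hr, lt_div_iff₀ hm0]
      linarith
    have hstep : ∀ n, r ^ n ≤ (b n : ℝ) := by
      intro n
      induction n with
      | zero => simpa using hb1
      | succ n ih =>
        have h1 := hno n
        have h2 := hmono n
        have h3 : ((b n : ℕ) : ℝ) < m * ((b (n + 1) : ℝ) - b n) := by
          have : ((b n : ℕ) : ℝ) < ((m * (b (n + 1) - b n) : ℕ) : ℝ) := by exact_mod_cast h1
          rw [Nat.cast_mul, Nat.cast_sub h2] at this
          exact this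
        have h4 : r * (b n : ℝ) ≤ b (n + 1) := by
          rw [hr, div_mul_eq_mul_div, div_le_iff₀ hm0]
          nlinarith
        calc r ^ (n + 1) = r * r ^ n := pow_succ' r n
          _ ≤ r * (b n : ℝ) := mul_le_mul_of_nonneg_left ih (by linarith)
          _ ≤ b (n + 1) := h4
    have hlim := tendsto_pow_const_div_const_pow_of_one_lt k hr1
    have hC0 : (0 : ℝ) < 1 / ((C : ℝ) * r + 1) := by positivity
    have hev := (hlim.eventually (gt_mem_nhds hC0)).and (eventually_ge_atTop 1)
    obtain ⟨n, hn, hn1⟩ := hev.exists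
    obtain ⟨n', rfl⟩ : ∃ n', n = n' + 1 := ⟨n - 1, by omega⟩
    have h1 : (b n' : ℝ) ≤ C * ((n' : ℝ) + 1) ^ k := by exact_mod_cast hCk n'
    have h2 := hstep n'
    have hrp : (0 : ℝ) < r ^ (n' + 1) := by positivity
    rw [div_lt_iff₀ hrp, div_mul_eq_mul_div, lt_div_iff₀ (by positivity), one_mul] at hn
    push_cast at hn
    have h3 : r ^ (n' + 1) = r * r ^ n' := pow_succ' r n'
    have h4 : (0 : ℝ) < ((n' : ℝ) + 1) ^ k := by positivity
    have h5 : r * r ^ n' ≤ r * (C * ((n' : ℝ) + 1) ^ k) :=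
      mul_le_mul_of_nonneg_left (h2.trans h1) (by linarith)
    rw [h3] at hn
    nlinarith
  obtain ⟨n, hn⟩ := hex
  refine ⟨(fin S n).toFinset, ⟨1, by simpa using one_mem S n⟩, fun s hs => ?_⟩
  have hsub : Set.ncard {x | x ∈ (fin S n).toFinset ∧ s * x ∉ (fin S n).toFinset} ≤ b (n + 1) - b n := by
    have h1 : Set.ncard ((fun x => s * x) '' {x | x ∈ (fin S n).toFinset ∧ s * x ∉ (fin S n).toFinset}) ≤
        (Bl S (n + 1) \ Bl S n).ncard := by
      refine Set.ncard_le_ncard ?_ ((fin S (n + 1)).subset Set.diff_subset)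
      rintro _ ⟨x, ⟨hx1, hx2⟩, rfl⟩
      rw [Set.Finite.mem_toFinset] at hx1 hx2
      exact ⟨mul_mem S n hs hx1, hx2⟩
    rw [Set.ncard_image_of_injective _ (mul_right_injective s)] at h1
    rw [Set.ncard_diff (mono S n) (fin S n)] at h1
    exact h1
  have hcard : ((fin S n).toFinset).card = b n := (Set.ncard_eq_toFinset_card _ (fin S n)).symm
  rw [hcard]
  exact (Nat.mul_le_mul_left m hsub).trans hn

end JG.GRWM
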