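import Pool.Agent.Lib.MP_98125f_al.JG.Spec

/-!
Module HEL of JG: product measures on the finite subsets and the Hellinger distance.
-/

set_option autoImplicit false
set_option linter.deprecated false

namespace JG
namespace HELM

open Finset

variable {X : Type}

open Classical in
/-- product weight -/
noncomputable def wt (p q : X → ℝ) (D E : Finset X) : ℝ :=
  ∏ x ∈ D, if x ∈ E then p x else q x

open Classical in
/-- product weight, zero on the sets which are not contained in `D` -/
noncomputable def Fw (p q : X → ℝ) (D E : Finset X) : ℝ :=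
  if E ⊆ D then wt p q D E else 0

lemma sum_wt (p q : X → ℝ) (D : Finset X) :
    ∑ E ∈ D.powerset, wt p q D E = ∏ x ∈ D, (p x + q x) := by
  classical
  rw [Finset.prod_add]
  refine Finset.sum_congr rfl fun E hE => ?_
  have hE' : E ⊆ D := Finset.mem_powerset.mp hE
  unfold wt
  rw [Finset.prod_ite]
  congr 1
  · refine Finset.prod_congr ?_ fun _ _ => rfl
    ext x
    simp only [Finset.mem_filter]
    exact ⟨fun h => h.2, fun h => ⟨hE' h, h⟩⟩
  · refine Finset.prod_congr ?_ fun _ _ => rfl
    ext x
    simp only [Finset.mem_filter, Finset.mem_sdiff]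

lemma wt_mul (p q p' q' : X → ℝ) (D E : Finset X) :
    wt p q D E * wt p' q' D E = wt (fun x => p x * p' x) (fun x => q x * q' x) D E := by
  unfold wt
  rw [← Finset.prod_mul_distrib]
  refine Finset.prod_congr rfl fun x _ => ?_
  split_ifs <;> rfl

lemma Fw_ext (p q : X → ℝ) (D D2 : Finset X) (h : D ⊆ D2)
    (h0 : ∀ x, x ∉ D → p x = 0 ∧ q x = 1) (E : Finset X) : Fw p q D E = Fw p q D2 E := by
  classical
  unfold Fw
  by_cases hE : E ⊆ D
  · rw [if_pos hE, if_pos (hE.trans h)]
    unfold wt
    refine Finset.prod_subset h fun x _ hx => ?_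
    have hxE : x ∉ E := fun hx2 => hx (hE hx2)
    rw [if_neg hxE]
    exact (h0 x hx).2
  · rw [if_neg hE]
    by_cases hE2 : E ⊆ D2
    · rw [if_pos hE2]
      obtain ⟨x, hxE, hxD⟩ := Finset.not_subset.mp hE
      unfold wt
      refine (Finset.prod_eq_zero (hE2 hxE) ?_).symm
      rw [if_pos hxE]
      exact (h0 x hxD).1
    · rw [if_neg hE2]

lemma Fw_map (p q : X → ℝ) (D E : Finset X) (g : Equiv.Perm X) :
    Fw p q D (E.map g.symm.toEmbedding) =
      Fw (fun x => p (g.symm x)) (fun x => q (g.symm x)) (D.map g.toEmbedding) E := by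
  classical
  have hiff : E.map g.symm.toEmbedding ⊆ D ↔ E ⊆ D.map g.toEmbedding := by
    constructor
    · intro h x hx
      rw [Finset.mem_map]
      refine ⟨g.symm x, h ?_, ?_⟩
      · rw [Finset.mem_map]
        exact ⟨x, hx, rfl⟩
      · simp
    · intro h x hx
      rw [Finset.mem_map] at hx
      obtain ⟨y, hy, rfl⟩ := hx
      have h2 := h hy
      rw [Finset.mem_map] at h2
      obtain ⟨z, hz, hz2⟩ := h2
      have h3 : g.symm y = z := by
        rw [← hz2]
        simp
      simpa [h3] using hz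
  unfold Fw
  by_cases hE : E ⊆ D.map g.toEmbedding
  · rw [if_pos hE, if_pos (hiff.mpr hE)]
    unfold wt
    rw [Finset.prod_map]
    refine Finset.prod_congr rfl fun x _ => ?_
    have h1 : x ∈ E.map g.symm.toEmbedding ↔ g.toEmbedding x ∈ E := by
      rw [Finset.mem_map]
      constructor
      · rintro ⟨y, hy, rfl⟩
        simpa using hy
      · intro h
        exact ⟨g x, h, by simp⟩
    have h2 : g.symm (g.toEmbedding x) = x := by simp
    simp only [h1, h2]
  · rw [if_neg hE, if_neg (fun h => hE (hiff.mp h))]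

lemma prod_cos {ι : Type} (s : Finset ι) (t : ι → ℝ) :
    |∏ x ∈ s, Real.cos (t x)| ≤ 1 ∧
      1 - (1 / 2) * ∑ x ∈ s, t x ^ 2 ≤ ∏ x ∈ s, Real.cos (t x) := by
  classical
  induction s using Finset.induction_on with
  | empty => simp
  | insert b s hb ih =>
    obtain ⟨ih1, ih2⟩ := ih
    rw [Finset.prod_insert hb, Finset.sum_insert hb]
    have h1 := Real.abs_cos_le_one (t b)
    have h2 := Real.one_sub_sq_div_two_le_cos (x := t b)
    have h3 : ∏ x ∈ s, Real.cos (t x) ≤ 1 := (le_abs_self _).trans ih1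
    have h4 : Real.cos (t b) ≤ 1 := Real.cos_le_one _
    refine ⟨?_, ?_⟩
    · rw [abs_mul]
      exact mul_le_one₀ h1 (abs_nonneg _) ih1
    · nlinarith [mul_nonneg (sub_nonneg.mpr h3) (sub_nonneg.mpr h4)]

/-- The estimate on a fixed finite set. -/
lemma hell (D : Finset X) (θ θ' : X → ℝ) :
    (∑ E ∈ D.powerset, |wt (fun x => Real.sin (θ' x) ^ 2) (fun x => Real.cos (θ' x) ^ 2) D E -
        wt (fun x => Real.sin (θ x) ^ 2) (fun x => Real.cos (θ x) ^ 2) D E|) ^ 2 ≤
      4 * ∑ x ∈ D, (θ' x - θ x) ^ 2 := by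
  set u : Finset X → ℝ := fun E => wt (fun x => Real.sin (θ x)) (fun x => Real.cos (θ x)) D E
    with hu
  set v : Finset X → ℝ := fun E => wt (fun x => Real.sin (θ' x)) (fun x => Real.cos (θ' x)) D E
    with hv
  have hu2 : ∀ E, wt (fun x => Real.sin (θ x) ^ 2) (fun x => Real.cos (θ x) ^ 2) D E = u E * u E := by
    intro E
    rw [hu]
    simp only
    rw [wt_mul]
    simp only [← pow_two]
  have hv2 : ∀ E, wt (fun x => Real.sin (θ' x) ^ 2) (fun x => Real.cos (θ' x) ^ 2) D E =
      v E * v E := by
    intro E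
    rw [hv]
    simp only
    rw [wt_mul]
    simp only [← pow_two]
  have huu : ∑ E ∈ D.powerset, u E * u E = 1 := by
    have h1 : ∀ E ∈ D.powerset, u E * u E =
        wt (fun x => Real.sin (θ x) * Real.sin (θ x)) (fun x => Real.cos (θ x) * Real.cos (θ x))
          D E := fun E _ => wt_mul _ _ _ _ _ _
    rw [Finset.sum_congr rfl h1, sum_wt]
    refine Finset.prod_eq_one fun x _ => ?_
    have := Real.sin_sq_add_cos_sq (θ x)
    nlinarith
  have hvv : ∑ E ∈ D.powerset, v E * v E = 1 := by
    have h1 : ∀ E ∈ D.powerset, v E * v E =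
        wt (fun x => Real.sin (θ' x) * Real.sin (θ' x)) (fun x => Real.cos (θ' x) * Real.cos (θ' x))
          D E := fun E _ => wt_mul _ _ _ _ _ _
    rw [Finset.sum_congr rfl h1, sum_wt]
    refine Finset.prod_eq_one fun x _ => ?_
    have := Real.sin_sq_add_cos_sq (θ' x)
    nlinarith
  have huv : ∑ E ∈ D.powerset, u E * v E = ∏ x ∈ D, Real.cos (θ' x - θ x) := by
    have h1 : ∀ E ∈ D.powerset, u E * v E =
        wt (fun x => Real.sin (θ x) * Real.sin (θ' x)) (fun x => Real.cos (θ x) * Real.cos (θ' x))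
          D E := fun E _ => wt_mul _ _ _ _ _ _
    rw [Finset.sum_congr rfl h1, sum_wt]
    refine Finset.prod_congr rfl fun x _ => ?_
    rw [Real.cos_sub]
    ring
  obtain ⟨hP1, hP2⟩ := prod_cos D (fun x => θ' x - θ x)
  have hP3 : ∏ x ∈ D, Real.cos (θ' x - θ x) ≤ 1 := (le_abs_self _).trans hP1
  have hd : ∑ E ∈ D.powerset, |v E - u E| ^ 2 = 2 - 2 * ∏ x ∈ D, Real.cos (θ' x - θ x) := by
    have h1 : ∀ E ∈ D.powerset, |v E - u E| ^ 2 = v E * v E + u E * u E - 2 * (u E * v E) := by
      intro E _
      rw [sq_abs]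
      ring
    rw [Finset.sum_congr rfl h1, Finset.sum_sub_distrib, Finset.sum_add_distrib, ← Finset.mul_sum,
      huu, hvv, huv]
    ring
  have hs : ∑ E ∈ D.powerset, |v E + u E| ^ 2 = 2 + 2 * ∏ x ∈ D, Real.cos (θ' x - θ x) := by
    have h1 : ∀ E ∈ D.powerset, |v E + u E| ^ 2 = v E * v E + u E * u E + 2 * (u E * v E) := by
      intro E _
      rw [sq_abs]
      ring
    rw [Finset.sum_congr rfl h1, Finset.sum_add_distrib, Finset.sum_add_distrib, ← Finset.mul_sum,
      huu, hvv, huv]
    ring
  have hcs := Finset.sum_mul_sq_le_sq_mul_sq D.powerset (fun E => |v E - u E|)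
    (fun E => |v E + u E|)
  have heq : ∀ E ∈ D.powerset,
      |wt (fun x => Real.sin (θ' x) ^ 2) (fun x => Real.cos (θ' x) ^ 2) D E -
        wt (fun x => Real.sin (θ x) ^ 2) (fun x => Real.cos (θ x) ^ 2) D E| =
      |v E - u E| * |v E + u E| := by
    intro E _
    rw [hu2, hv2, ← abs_mul]
    congr 1
    ring
  rw [Finset.sum_congr rfl heq]
  refine hcs.trans ?_
  rw [hd, hs]
  set P := ∏ x ∈ D, Real.cos (θ' x - θ x) with hP
  set Sg := ∑ x ∈ D, (θ' x - θ x) ^ 2 with hSg
  have hSg0 : 0 ≤ Sg := Finset.sum_nonneg fun _ _ => sq_nonneg _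
  have hPm : -1 ≤ P := (abs_le.mp hP1).1
  have h2 : 2 - 2 * P ≤ Sg := by linarith
  have h3 : 0 ≤ 2 + 2 * P := by linarith
  have h4 : 2 + 2 * P ≤ 4 := by linarith
  calc (2 - 2 * P) * (2 + 2 * P) ≤ Sg * (2 + 2 * P) := mul_le_mul_of_nonneg_right h2 h3
    _ ≤ Sg * 4 := mul_le_mul_of_nonneg_left h4 hSg0
    _ = 4 * Sg := by ring

open Classical in
/-- the product measure as a finitely supported function -/
noncomputable def phi (p q : X → ℝ) (D : Finset X) : Finset X →₀ ℝ :=
  Finsupp.onFinset D.powerset (Fw p q D) (by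
    intro E hE
    rw [Finset.mem_powerset]
    by_contra h
    exact hE (by unfold Fw; rw [if_neg h]))

lemma phi_apply (p q : X → ℝ) (D E : Finset X) : phi p q D E = Fw p q D E := rfl

theorem specHEL (hNRM : SpecNRM) : SpecHEL := by
  classical
  intro X D E0 a ha haD haE
  set θ : X → ℝ := fun x => (Real.pi / 2) * a x with hθ
  set p : X → ℝ := fun x => Real.sin (θ x) ^ 2 with hp
  set q : X → ℝ := fun x => Real.cos (θ x) ^ 2 with hq
  have hp0 : ∀ x, 0 ≤ p x := fun x => sq_nonneg _
  have hq0 : ∀ x, 0 ≤ q x := fun x => sq_nonneg _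
  have hout : ∀ x, x ∉ D → p x = 0 ∧ q x = 1 := by
    intro x hx
    have h1 : θ x = 0 := by
      rw [hθ]
      simp only
      rw [haD x hx, mul_zero]
    refine ⟨?_, ?_⟩
    · rw [hp]
      simp only
      rw [h1]
      simp
    · rw [hq]
      simp only
      rw [h1]
      simp
  have hwt : ∀ (D E : Finset X), 0 ≤ wt p q D E := by
    intro D E
    unfold wt
    refine Finset.prod_nonneg fun x _ => ?_
    split_ifs
    · exact hp0 x
    · exact hq0 x
  refine ⟨phi p q D, ?_, ?_, ?_, ?_⟩
  · intro E
    rw [phi_apply]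
    unfold Fw
    split_ifs
    · exact hwt _ _
    · exact le_rfl
  · rw [Finsupp.sum_of_support_subset (s := D.powerset)]
    · have h1 : ∀ E ∈ D.powerset, phi p q D E = wt p q D E := by
        intro E hE
        rw [phi_apply]
        unfold Fw
        rw [if_pos (Finset.mem_powerset.mp hE)]
      rw [Finset.sum_congr rfl h1, sum_wt]
      refine Finset.prod_eq_one fun x _ => ?_
      exact Real.sin_sq_add_cos_sq (θ x)
    · exact Finsupp.support_onFinset_subset
    · intro _ _
      rfl
  · intro E hE x hx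
    by_contra hxE
    apply hE
    rw [phi_apply]
    unfold Fw
    by_cases hED : E ⊆ D
    · rw [if_pos hED]
      have hxD : x ∈ D := by
        by_contra hxD
        have h1 := haD x hxD
        rw [haE x hx] at h1
        exact one_ne_zero h1
      unfold wt
      refine Finset.prod_eq_zero hxD ?_
      rw [if_neg hxE, hq]
      simp only
      rw [hθ]
      simp only
      rw [haE x hx, mul_one, Real.cos_pi_div_two]
      simp
    · rw [if_neg hED]
  · intro g η D' hD' hη
    have hinj : Function.Injective (fun E : Finset X => E.map g.toEmbedding) :=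
      Finset.map_injective _
    set θ' : X → ℝ := fun x => θ (g.symm x) with hθ'
    set D2 : Finset X := D ∪ D.map g.toEmbedding with hD2
    have hmap : ∀ E : Finset X,
        (Finsupp.mapDomain (fun E : Finset X => E.map g.toEmbedding) (phi p q D)) E =
          Fw (fun x => Real.sin (θ' x) ^ 2) (fun x => Real.cos (θ' x) ^ 2) D2 E := by
      intro E
      have h1 : E = (fun E : Finset X => E.map g.toEmbedding) (E.map g.symm.toEmbedding) := by
        simp only
        rw [Finset.map_map]
        ext x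
        simp
      conv_lhs => rw [h1]
      rw [Finsupp.mapDomain_apply hinj, phi_apply, Fw_map]
      refine Fw_ext _ _ _ _ Finset.subset_union_right ?_ E
      intro x hx
      have hx2 : g.symm x ∉ D := by
        intro h
        apply hx
        rw [Finset.mem_map]
        exact ⟨g.symm x, h, by simp⟩
      exact hout _ hx2
    have hphi : ∀ E : Finset X, phi p q D E =
        Fw (fun x => Real.sin (θ x) ^ 2) (fun x => Real.cos (θ x) ^ 2) D2 E := by
      intro E
      rw [phi_apply]
      exact Fw_ext _ _ _ _ Finset.subset_union_left hout E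
    rw [hNRM.eq _ D2.powerset]
    · have h1 : ∀ E ∈ D2.powerset,
          |(Finsupp.mapDomain (fun E : Finset X => E.map g.toEmbedding) (phi p q D) - phi p q D) E| =
          |wt (fun x => Real.sin (θ' x) ^ 2) (fun x => Real.cos (θ' x) ^ 2) D2 E -
            wt (fun x => Real.sin (θ x) ^ 2) (fun x => Real.cos (θ x) ^ 2) D2 E| := by
        intro E hE
        rw [Finsupp.sub_apply, hmap, hphi]
        unfold Fw
        rw [if_pos (Finset.mem_powerset.mp hE), if_pos (Finset.mem_powerset.mp hE)]
      rw [Finset.sum_congr rfl h1]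
      have h2 := hell D2 θ θ'
      have h3 : ∑ x ∈ D2, (θ' x - θ x) ^ 2 ≤ (Real.pi / 2) ^ 2 * η := by
        have h4 : ∀ x ∈ D2, (θ' x - θ x) ^ 2 =
            (Real.pi / 2) ^ 2 * (a (g (g.symm x)) - a (g.symm x)) ^ 2 := by
          intro x _
          rw [hθ', hθ]
          simp only [Equiv.apply_symm_apply]
          ring
        rw [Finset.sum_congr rfl h4, ← Finset.mul_sum]
        refine mul_le_mul_of_nonneg_left ?_ (sq_nonneg _)
        have h5 : ∑ x ∈ D2, (a (g (g.symm x)) - a (g.symm x)) ^ 2 =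
            ∑ y ∈ D2.map g.symm.toEmbedding, (a (g y) - a y) ^ 2 := by
          rw [Finset.sum_map]
          rfl
        rw [h5]
        refine le_trans ?_ hη
        calc ∑ y ∈ D2.map g.symm.toEmbedding, (a (g y) - a y) ^ 2
            = ∑ y ∈ (D2.map g.symm.toEmbedding).filter (· ∈ D'), (a (g y) - a y) ^ 2 := by
              symm
              refine Finset.sum_subset (Finset.filter_subset _ _) ?_
              intro y hy hy2
              have hy3 : y ∉ D' := fun h => hy2 (Finset.mem_filter.mpr ⟨hy, h⟩)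
              rw [(hD' y hy3).1, (hD' y hy3).2]
              simp
          _ ≤ ∑ y ∈ D', (a (g y) - a y) ^ 2 := by
              refine Finset.sum_le_sum_of_subset_of_nonneg ?_ fun _ _ _ => sq_nonneg _
              intro y hy
              exact (Finset.mem_filter.mp hy).2
      have hη0 : 0 ≤ η := le_trans (Finset.sum_nonneg fun _ _ => sq_nonneg _) hη
      have h6 : (4 * Real.sqrt η) ^ 2 = 16 * η := by
        rw [mul_pow, Real.sq_sqrt hη0]
        norm_num
      refine abs_le_of_sq_le_sq' ?_ (by positivity) |>.2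
      rw [h6]
      refine h2.trans ?_
      have hpi : Real.pi ^ 2 ≤ 16 := by
        have := Real.pi_le_four
        have h0 := Real.pi_pos
        nlinarith
      calc 4 * ∑ x ∈ D2, (θ' x - θ x) ^ 2 ≤ 4 * ((Real.pi / 2) ^ 2 * η) := by linarith
        _ = Real.pi ^ 2 * η := by ring
        _ ≤ 16 * η := mul_le_mul_of_nonneg_right hpi hη0
    · intro E hE
      rw [Finset.mem_powerset]
      by_contra h
      apply hE
      rw [Finsupp.sub_apply, hmap, hphi]
      unfold Fw
      rw [if_neg h, if_neg h, sub_zero]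

end HELM
end JG
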