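import Pool.Agent.Lib.MP_98125f_al.Iet

/-!
MP_98125f_al, JG, module I2V: piecewise translations with displacements in `V` restrict to interval
exchanges with translations in `V`.
-/

set_option autoImplicit false
set_option linter.deprecated false

namespace JG.I2VM

open Filter Topology Hyperreal Pool.Agent.Lib.MP98125f

lemma iff_mem {V : Submodule ℚ ℝ} {g : Equiv.Perm ℝ}
    (hg : g ∈ PTg V.toAddSubgroup (Set.Ico (0 : ℝ) 1)) (x : ℝ) :
    g x ∈ Set.Ico (0 : ℝ) 1 ↔ x ∈ Set.Ico (0 : ℝ) 1 := by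
  have hout : ∀ y ∉ Set.Ico (0 : ℝ) 1, g y = y := hg.2.2
  constructor
  · intro h
    by_contra hx
    rw [hout x hx] at h
    exact hx h
  · intro h
    by_contra hx
    have h1 := hout (g x) hx
    have h2 : g x = x := g.injective h1
    rw [h2] at hx
    exact hx h

lemma mem_iet {V : Submodule ℚ ℝ} {g : Equiv.Perm ℝ}
    (hg : g ∈ PTg V.toAddSubgroup (Set.Ico (0 : ℝ) 1))
    (f : Equiv.Perm (Set.Ico (0 : ℝ) 1)) (hf : ∀ x, (f x).1 = g x.1) : f ∈ IetSet V := by
  classical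
  obtain ⟨B, hB⟩ := hg.1
  set E : Finset ℝ := insert 0 (insert 1 (B.filter fun b => 0 < b ∧ b < 1)) with hE
  have h0E : (0 : ℝ) ∈ E := by simp [hE]
  have h1E : (1 : ℝ) ∈ E := by simp [hE]
  have hEb : ∀ e ∈ E, 0 ≤ e ∧ e ≤ 1 := by
    intro e he
    simp only [hE, Finset.mem_insert, Finset.mem_filter] at he
    rcases he with h | h | h
    · rw [h]; norm_num
    · rw [h]; norm_num
    · exact ⟨h.2.1.le, h.2.2.le⟩
  obtain ⟨n, hn⟩ := Nat.exists_eq_succ_of_ne_zero (Finset.card_ne_zero_of_mem h0E)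
  have hn' : E.card = n + 1 := hn
  set a : Fin (n + 1) ↪o ℝ := E.orderEmbOfFin hn' with ha
  have hmem : ∀ i, a i ∈ E := fun i => Finset.orderEmbOfFin_mem E hn' i
  have hsurj : ∀ e ∈ E, ∃ i, a i = e := by
    intro e he
    have : e ∈ Set.range (E.orderEmbOfFin hn') := by
      rw [Finset.range_orderEmbOfFin]; exact he
    exact this
  have ha0 : a 0 = 0 := by
    obtain ⟨i, hi⟩ := hsurj 0 h0E
    apply le_antisymm
    · rw [← hi]; exact a.monotone (Fin.zero_le i)
    · exact (hEb _ (hmem 0)).1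
  have ha1 : a (Fin.last n) = 1 := by
    obtain ⟨i, hi⟩ := hsurj 1 h1E
    apply le_antisymm
    · exact (hEb _ (hmem _)).2
    · rw [← hi]; exact a.monotone (Fin.le_last i)
  refine ⟨n, a, a.strictMono, ha0, ha1, fun i => g (a i.castSucc) - a i.castSucc,
    fun i => hg.2.1 _, ?_⟩
  intro i x hx1 hx2
  rw [hf]
  have key := hB (a i.castSucc) x.1 hx1 (by
    rintro b hb ⟨hb1, hb2⟩
    have hb0 : 0 < b := lt_of_le_of_lt (hEb _ (hmem _)).1 hb1
    have hb3 : b < 1 := lt_of_le_of_lt hb2 x.2.2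
    have hbE : b ∈ E := by
      simp only [hE, Finset.mem_insert, Finset.mem_filter]
      exact Or.inr (Or.inr ⟨hb, hb0, hb3⟩)
    obtain ⟨j, hj⟩ := hsurj b hbE
    rw [← hj] at hb1 hb2
    have h1 : i.castSucc < j := a.lt_iff_lt.1 hb1
    have h2 : j < i.succ := a.lt_iff_lt.1 (lt_of_le_of_lt hb2 hx2)
    rw [Fin.lt_def] at h1 h2
    simp at h1 h2
    omega)
  linarith

/-- restriction to `[0,1)` -/
def res (V : Submodule ℚ ℝ) :
    PTg V.toAddSubgroup (Set.Ico (0 : ℝ) 1) →* Subgroup.closure (IetSet V) where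
  toFun g := ⟨g.1.subtypePerm (iff_mem g.2),
    Subgroup.subset_closure (mem_iet g.2 _ fun x => rfl)⟩
  map_one' := by
    apply Subtype.ext
    ext x
    rfl
  map_mul' g h := by
    apply Subtype.ext
    ext x
    rfl

lemma res_inj (V : Submodule ℚ ℝ) : Function.Injective (res V) := by
  intro g h hgh
  apply Subtype.ext
  ext x
  by_cases hx : x ∈ Set.Ico (0 : ℝ) 1
  · have h1 := congrArg (fun q : Subgroup.closure (IetSet V) => (q.1 ⟨x, hx⟩).1) hgh
    exact h1
  · rw [g.2.2.2 x hx, h.2.2.2 x hx]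

/-- the converse of `amen_iet` -/
theorem good (V : Submodule ℚ ℝ) (h : Amen (Subgroup.closure (IetSet V))) :
    Amen (PTg V.toAddSubgroup (Set.Ico (0 : ℝ) 1)) :=
  Amen.of_injective (res V) (res_inj V) h

end JG.I2VM
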