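import Pool.Agent.Lib.MP_98125f_al.JG.Spec

/-! # KER: amenability of groups supported in finitely many monads -/

set_option autoImplicit false
set_option linter.deprecated false

namespace JG.KERM

open Filter Topology Hyperreal Pool.Agent.Lib.MP98125f

variable {H : Subgroup (Equiv.Perm ℝ*)} {S : Finset (Equiv.Perm ℝ*)} {P : Finset ℝ}
  {B : Finset ℝ*} {L' : AddSubgroup ℝ*} {δ : ℝ*}

/-- Representatives of the bad classes. -/
theorem exists_reps (hδ : Infinitesimal δ)
    (hbd : ∀ t ∈ L', Infinitesimal t → ∃ n : ℕ, |t| ≤ n * δ) :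
    ∃ Z : Finset ℝ*, ∀ y, MM P y → ¬ Good P B L' δ y → ∃ z ∈ Z, NB δ y z := by
  classical
  let f : ℝ* × ℝ → ℝ* := fun q => if h : ∃ t ∈ L', IsSt (q.1 + t) q.2 then q.1 + h.choose else 0
  refine ⟨(B ×ˢ P).image f, ?_⟩
  intro y hy hng
  have h1 : ∃ b ∈ B, ∃ t ∈ L', NB δ y (b + t) := by
    by_contra hc
    push Not at hc
    exact hng ⟨hy, hc⟩
  obtain ⟨b, hb, t, ht, hn⟩ := h1
  obtain ⟨p, hp, hyp⟩ := hy
  have h2 : IsSt (b + t) p := hn.isSt hδ hyp
  have h3 : ∃ t ∈ L', IsSt (((b, p) : ℝ* × ℝ).1 + t) ((b, p) : ℝ* × ℝ).2 := ⟨t, ht, h2⟩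
  refine ⟨f (b, p), Finset.mem_image_of_mem _ (Finset.mem_product.2 ⟨hb, hp⟩), ?_⟩
  have h4 : f (b, p) = b + h3.choose := by simp only [f]; rw [dif_pos h3]
  rw [h4]
  refine hn.trans ?_
  obtain ⟨h5, h6⟩ := h3.choose_spec
  have h7 : Infinitesimal (t - h3.choose) := by
    have := h2.sub h6
    rw [sub_self] at this
    have h8 : b + t - (b + h3.choose) = t - h3.choose := by ring
    simp only [h8] at this
    exact this
  obtain ⟨k, hk⟩ := hbd _ (L'.sub_mem ht h5) h7
  refine ⟨k, ?_⟩
  have h8 : b + t - (b + h3.choose) = t - h3.choose := by ring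
  rw [h8]
  exact hk

/-- The action on classes of good points. -/
noncomputable def phi1 (D : MDat H S P B L' δ) :
    H →* Equiv.Perm (Quotient (goodSetoid P B L' δ)) :=
  MonoidHom.toHomPerm
    { toFun := fun h => (Quotient.map (fun y => (⟨h.1 y.1, y.2.apply D.ha D.hb h.2⟩ :
          {y : ℝ* // Good P B L' δ y})) (by
          intro y y' hn
          have h1 : h.1 y'.1 - y'.1 = h.1 y.1 - y.1 :=
            Good.disp D.hδ D.hSH D.ha D.hb D.hd h.2 y.1 y.2 y'.1 hn
          obtain ⟨n, hn⟩ : NB δ y.1 y'.1 := hn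
          refine (⟨n, ?_⟩ : NB δ (h.1 y.1) (h.1 y'.1))
          have : h.1 y.1 - h.1 y'.1 = y.1 - y'.1 := by linear_combination -h1
          rwa [this]))
      map_one' := by
        funext q
        induction q using Quotient.inductionOn with
        | h y => rfl
      map_mul' := by
        intro g h
        funext q
        induction q using Quotient.inductionOn with
        | h y => rfl }

theorem phi1_apply (D : MDat H S P B L' δ) (h : H) (y : {y : ℝ* // Good P B L' δ y}) :
    phi1 D h (Quotient.mk _ y) =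
      Quotient.mk _ (⟨h.1 y.1, y.2.apply D.ha D.hb h.2⟩ : {y : ℝ* // Good P B L' δ y}) := rfl

theorem finite_range_phi1 (D : MDat H S P B L' δ) : Finite (phi1 D).range := by
  classical
  have hgen : Subgroup.closure (((↑) : H → Equiv.Perm ℝ*) ⁻¹' (S : Set (Equiv.Perm ℝ*))) = ⊤ := by
    have h1 := D.hSH
    subst h1
    exact Subgroup.closure_closure_coe_preimage
  apply finite_range_of_bounded_orbits (((↑) : H → Equiv.Perm ℝ*) ⁻¹' (S : Set (Equiv.Perm ℝ*)))
    (S.finite_toSet.preimage Subtype.val_injective.injOn) hgen (phi1 D) P.card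
  intro q
  induction q using Quotient.inductionOn with
  | h y =>
    -- the map to standard parts
    let F : Quotient (goodSetoid P B L' δ) → ℝ := Quotient.lift (fun z => st z.1) (by
      intro z z' hz
      obtain ⟨p, _, hp⟩ := z.2.1
      have h1 : IsSt z'.1 p := NB.isSt D.hδ hz hp
      show st z.1 = st z'.1
      rw [hp.st_eq, h1.st_eq])
    have hmaps : ∀ q ∈ Set.range (fun g => phi1 D g (Quotient.mk _ y)), F q ∈ (P : Set ℝ) := by
      rintro _ ⟨g, rfl⟩
      obtain ⟨p, hpP, hp⟩ := (y.2.apply D.ha D.hb g.2).1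
      show st (g.1 y.1) ∈ (P : Set ℝ)
      rw [hp.st_eq]; exact hpP
    have hinj : Set.InjOn F (Set.range (fun g => phi1 D g (Quotient.mk _ y))) := by
      rintro _ ⟨g, rfl⟩ _ ⟨k, rfl⟩ hgk
      have h1 : st (g.1 y.1) = st (k.1 y.1) := hgk
      obtain ⟨p, hpP, hp⟩ := (y.2.apply D.ha D.hb g.2).1
      obtain ⟨p', hpP', hp'⟩ := (y.2.apply D.ha D.hb k.2).1
      rw [hp.st_eq, hp'.st_eq] at h1
      subst h1
      apply Quotient.sound
      show NB δ (g.1 y.1) (k.1 y.1)
      have h2 : g.1 y.1 - k.1 y.1 ∈ L' := by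
        have := L'.sub_mem (D.hb g.1 g.2 y.1) (D.hb k.1 k.2 y.1)
        have h3 : g.1 y.1 - y.1 - (k.1 y.1 - y.1) = g.1 y.1 - k.1 y.1 := by ring
        rwa [h3] at this
      have h3 : Infinitesimal (g.1 y.1 - k.1 y.1) := by
        have := hp.sub hp'
        rw [sub_self] at this
        exact this
      exact D.hbd _ h2 h3
    have himg : F '' (Set.range (fun g => phi1 D g (Quotient.mk _ y))) ⊆ (P : Set ℝ) := by
      rintro _ ⟨q, hq, rfl⟩
      exact hmaps q hq
    have hfin : (Set.range (fun g => phi1 D g (Quotient.mk _ y))).Finite :=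
      Set.Finite.of_finite_image (P.finite_toSet.subset himg) hinj
    refine ⟨hfin, ?_⟩
    rw [← Set.ncard_image_of_injOn hinj]
    refine (Set.ncard_le_ncard himg P.finite_toSet).trans ?_
    rw [Set.ncard_coe_finset]

theorem nb_of_mem_ker (D : MDat H S P B L' δ) {h : H} (hh : h ∈ (phi1 D).ker)
    (y : {y : ℝ* // Good P B L' δ y}) : NB δ y.1 (h.1 y.1) := by
  have h1 := congrArg (fun p : Equiv.Perm (Quotient (goodSetoid P B L' δ)) =>
    p (Quotient.mk _ y)) (MonoidHom.mem_ker.1 hh)
  simp only [phi1_apply, Equiv.Perm.coe_one, id] at h1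
  have h2 := Quotient.exact h1
  exact NB.symm h2

/-- Displacements of good points. -/
noncomputable def phi2 (D : MDat H S P B L' δ) :
    (phi1 D).ker →* Multiplicative ({y : ℝ* // Good P B L' δ y} → ℝ*) where
  toFun h := Multiplicative.ofAdd (fun y => h.1.1 y.1 - y.1)
  map_one' := by
    rw [← ofAdd_zero]
    congr 1
    funext y
    simp
  map_mul' := by
    intro g h
    rw [← ofAdd_add]
    congr 1
    funext y
    have h1 := nb_of_mem_ker D h.2 y
    have h2 : g.1.1 (h.1.1 y.1) - h.1.1 y.1 = g.1.1 y.1 - y.1 :=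
      Good.disp D.hδ D.hSH D.ha D.hb D.hd g.1.2 y.1 y.2 _ h1
    simp only [Subgroup.coe_mul, Pi.add_apply, Equiv.Perm.coe_mul, Function.comp]
    linear_combination h2

theorem specKER : SpecKER := by
  classical
  intro H S P B L' δ D hamen
  apply Amen.of_ker_range (phi1 D)
  · apply Amen.of_ker_comm (phi2 D) _ (fun a b => mul_comm a b)
    apply Amen.of_locally
    intro T
    let ψ : (phi2 D).ker →* Equiv.Perm ℝ* :=
      (H.subtype.comp (phi1 D).ker.subtype).comp (phi2 D).ker.subtype
    have hψ : Function.Injective ψ := by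
      intro a b hab
      exact Subtype.ext (Subtype.ext (Subtype.ext hab))
    obtain ⟨Z, hZ⟩ := exists_reps (P := P) (B := B) D.hδ D.hbd
    -- a bound for every element
    have hbound : ∀ k : (phi2 D).ker, ∃ n : ℕ, ∀ y, ψ k y ≠ y → ∃ z ∈ Z, |y - z| ≤ n * δ := by
      intro k
      obtain ⟨E, hE⟩ := D.hc _ k.1.1.2
      apply exists_bound_support D.hpos D.hδ hZ (D.ha _ k.1.1.2) hE
      intro y hy
      have h4 := MonoidHom.mem_ker.1 k.2
      have h5 := congrFun (Multiplicative.ofAdd.injective h4) ⟨y, hy⟩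
      have h6 : k.1.1.1 y - y = 0 := h5
      show k.1.1.1 y = y
      linear_combination h6
    choose N hN using hbound
    have h3 : Amen (Subgroup.closure ((T.image ψ : Finset _) : Set (Equiv.Perm ℝ*))) := by
      apply hamen Z (T.sup N)
      intro h hh
      obtain ⟨k, hkT, rfl⟩ := Finset.mem_image.1 hh
      refine ⟨D.hb _ k.1.1.2, D.hc _ k.1.1.2, fun y hy => ?_⟩
      obtain ⟨z, hz, hle⟩ := hN k y hy
      refine ⟨z, hz, hle.trans ?_⟩
      have h5 : N k ≤ T.sup N := Finset.le_sup hkT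
      have h6 : ((N k : ℕ) : ℝ*) ≤ ((T.sup N : ℕ) : ℝ*) := by exact_mod_cast h5
      exact mul_le_mul_of_nonneg_right h6 D.hpos.le
    rw [Finset.coe_image, ← MonoidHom.map_closure] at h3
    exact Amen.of_injective ((Subgroup.closure (T : Set (phi2 D).ker)).equivMapOfInjective
        ψ hψ).toMonoidHom (MulEquiv.injective _) h3
  · have := finite_range_phi1 D
    exact Amen.of_finite _

end JG.KERM
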