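import Pool.Agent.Lib.MP_98125f_al.JG.SpecG

/-!
MP_98125f_al, JG, module LCL: amenability of groups of piecewise translations is a local property.
-/

set_option autoImplicit false
set_option linter.deprecated false

namespace JG

namespace LCLM

open Filter Topology Hyperreal Pool.Agent.Lib.MP98125f

theorem three (h : G3 ⊥) : PG 3 := by
  intro e
  refine Amen.of_le (PTg_mono ?_ _) (h e)
  intro v hv
  have hv' : v ∈ Submodule.span ℚ (Set.range e) := hv
  obtain ⟨q, hq⟩ := (Submodule.mem_span_range_iff_exists_fun ℚ).1 hv'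
  refine ⟨fun i => (q i : ℝ), fun i => SubfieldClass.ratCast_mem _ _, ?_⟩
  rw [← hq]
  exact Finset.sum_congr rfl fun i _ => Rat.smul_def _ _

theorem mono (c d : ℕ) (hcd : c ≤ d) (h : PG d) : PG c := by
  intro e
  refine Amen.of_le (PTg_mono ?_ _) (h (fun i => if hi : i.val < c then e ⟨i.val, hi⟩ else 0))
  intro v hv
  refine (Submodule.span_mono ?_ : Submodule.span ℚ (Set.range e) ≤ _) hv
  rintro _ ⟨i, rfl⟩
  refine ⟨⟨i.val, lt_of_lt_of_le i.2 hcd⟩, ?_⟩
  simp

theorem all (h : ∀ d, PG d) : Amen (PTg (⊤ : AddSubgroup ℝ) (Set.Ico (0 : ℝ) 1)) := by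
  classical
  apply Amen.of_locally
  intro S
  have hfin : (⋃ s ∈ S, Set.range fun x => (s.1 : Equiv.Perm ℝ) x - x).Finite := by
    apply Set.Finite.biUnion S.finite_toSet
    intro s _
    obtain ⟨B, hB⟩ := s.2.1
    exact hB.finite_range
  obtain ⟨D, hD⟩ := hfin.exists_finset
  let e : Fin D.card → ℝ := fun i => (D.equivFin.symm i : ℝ)
  have hrange : ∀ v ∈ D, v ∈ Submodule.span ℚ (Set.range e) := by
    intro v hv
    exact Submodule.subset_span ⟨D.equivFin ⟨v, hv⟩, by simp [e]⟩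
  have hle : Subgroup.closure (S : Set (PTg (⊤ : AddSubgroup ℝ) (Set.Ico (0 : ℝ) 1))) ≤
      (PTg (Submodule.span ℚ (Set.range e)).toAddSubgroup (Set.Ico (0 : ℝ) 1)).comap
        (PTg (⊤ : AddSubgroup ℝ) (Set.Ico (0 : ℝ) 1)).subtype := by
    rw [Subgroup.closure_le]
    intro s hs
    refine ⟨s.2.1, fun x => hrange _ ((hD _).2 ?_), s.2.2.2⟩
    simp only [Set.mem_iUnion]
    exact ⟨s, hs, x, rfl⟩
  let φ : Subgroup.closure (S : Set (PTg (⊤ : AddSubgroup ℝ) (Set.Ico (0 : ℝ) 1))) →*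
      PTg (Submodule.span ℚ (Set.range e)).toAddSubgroup (Set.Ico (0 : ℝ) 1) :=
    ((PTg (⊤ : AddSubgroup ℝ) (Set.Ico (0 : ℝ) 1)).subtype.comp
      (Subgroup.closure (S : Set (PTg (⊤ : AddSubgroup ℝ) (Set.Ico (0 : ℝ) 1)))).subtype).codRestrict
      _ (fun x => hle x.2)
  apply Amen.of_injective φ _ (h D.card e)
  intro x y hxy
  apply Subtype.ext
  apply Subtype.ext
  have h1 : (φ x).1 = (φ y).1 := by rw [hxy]
  exact h1

theorem specLCL : SpecLCL where
  three := three
  mono := mono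
  all := all

end LCLM

end JG
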