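import Pool.Agent.Lib.MP_98125f_al.JG.SpecE

/-!
# Module M2F: an invariant mean gives Foelner sets (by the theorem of Hall)
-/

set_option autoImplicit false

namespace JG.M2FM

open Finset Pool.Agent.Lib.MP98125f
open scoped Pointwise

theorem mean_empty {G : Type} {m : Set G → ℝ}
    (hadd : ∀ A B : Set G, Disjoint A B → m (A ∪ B) = m A + m B) : m ∅ = 0 := by
  have h := hadd ∅ ∅ disjoint_bot_left
  rw [Set.empty_union] at h
  linarith

theorem mean_sum {G : Type} {m : Set G → ℝ}
    (hadd : ∀ A B : Set G, Disjoint A B → m (A ∪ B) = m A + m B) {κ : Type} (K : Finset κ)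
    (A : κ → Set G) (hd : ∀ k ∈ K, ∀ k' ∈ K, k ≠ k' → Disjoint (A k) (A k')) :
    m (⋃ k ∈ K, A k) = ∑ k ∈ K, m (A k) := by
  classical
  induction K using Finset.induction_on with
  | empty =>
    rw [sum_empty, ← mean_empty hadd]
    congr 1
    simp
  | insert a s ha ih =>
    rw [Finset.set_biUnion_insert, hadd, ih, Finset.sum_insert ha]
    · intro k hk k' hk' hkk
      exact hd k (mem_insert_of_mem hk) k' (mem_insert_of_mem hk') hkk
    · rw [Set.disjoint_iUnion₂_right]
      intro k hk
      exact hd a (mem_insert_self a s) k (mem_insert_of_mem hk) (by rintro rfl; exact ha hk)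

variable {G : Type} [Group G] [DecidableEq G]

theorem grow {S : Finset G} {M : ℕ}
    (h : ∀ F : Finset G, F.Nonempty → ∃ g ∈ S, F.card < M * (F.filter (fun x => g * x ∉ F)).card)
    (A : Finset G) : (M + 1) * A.card ≤ M * ((insert 1 S) * A).card := by
  rcases A.eq_empty_or_nonempty with rfl | hA
  · simp
  obtain ⟨g, hg, hlt⟩ := h A hA
  have h1 : A ∪ (A.filter (fun x => g * x ∉ A)).image (fun x => g * x) ⊆ (insert 1 S) * A := by
    intro y hy
    rw [mem_union] at hy
    rcases hy with hy | hy
    · exact mem_mul.mpr ⟨1, mem_insert_self _ _, y, hy, one_mul y⟩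
    · obtain ⟨x, hx, rfl⟩ := mem_image.mp hy
      exact mul_mem_mul (mem_insert_of_mem hg) (mem_filter.mp hx).1
  have h2 : Disjoint A ((A.filter (fun x => g * x ∉ A)).image (fun x => g * x)) := by
    rw [disjoint_left]
    intro y hy hy'
    obtain ⟨x, hx, rfl⟩ := mem_image.mp hy'
    exact (mem_filter.mp hx).2 hy
  have h3 := card_le_card h1
  rw [card_union_of_disjoint h2, card_image_of_injective _ (mul_right_injective g)] at h3
  calc (M + 1) * A.card = M * A.card + A.card := by ring
    _ ≤ M * A.card + M * (A.filter (fun x => g * x ∉ A)).card := by omega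
    _ = M * (A.card + (A.filter (fun x => g * x ∉ A)).card) := by ring
    _ ≤ _ := Nat.mul_le_mul_left _ h3

theorem grow_pow {S : Finset G} {M : ℕ}
    (h : ∀ F : Finset G, F.Nonempty → ∃ g ∈ S, F.card < M * (F.filter (fun x => g * x ∉ F)).card)
    (j : ℕ) (A : Finset G) :
    (M + 1) ^ j * A.card ≤ M ^ j * ((insert 1 S) ^ j * A).card := by
  induction j generalizing A with
  | zero => simp
  | succ j ih =>
    have h1 := ih (insert 1 S * A)
    have h2 := grow h A
    have h3 : (insert 1 S) ^ (j + 1) * A = (insert 1 S) ^ j * (insert 1 S * A) := by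
      rw [pow_succ, mul_assoc]
    rw [h3]
    calc (M + 1) ^ (j + 1) * A.card = (M + 1) ^ j * ((M + 1) * A.card) := by ring
      _ ≤ (M + 1) ^ j * (M * (insert 1 S * A).card) := Nat.mul_le_mul_left _ h2
      _ = M * ((M + 1) ^ j * (insert 1 S * A).card) := by ring
      _ ≤ M * (M ^ j * ((insert 1 S) ^ j * (insert 1 S * A)).card) := Nat.mul_le_mul_left _ h1
      _ = _ := by ring

theorem pow_ge (M j : ℕ) : M ^ j * M + j * M ^ j ≤ M * (M + 1) ^ j := by
  induction j with
  | zero => simp
  | succ j ih =>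
    calc M ^ (j + 1) * M + (j + 1) * M ^ (j + 1)
        ≤ M ^ (j + 1) * M + (j + 1) * M ^ (j + 1) + j * M ^ j := Nat.le_add_right _ _
      _ = (M + 1) * (M ^ j * M + j * M ^ j) := by ring
      _ ≤ (M + 1) * (M * (M + 1) ^ j) := Nat.mul_le_mul_left _ ih
      _ = M * (M + 1) ^ (j + 1) := by ring

theorem specM2F : SpecM2F := by
  classical
  intro G _ hm
  obtain ⟨m, hpos, huniv, hadd, hinv⟩ := hm
  by_contra hA
  rw [amen_iff] at hA
  push Not at hA
  obtain ⟨S, M, h⟩ := hA
  have hM : 0 < M := by
    obtain ⟨g, _, hlt⟩ := h {1} (singleton_nonempty 1)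
    rcases Nat.eq_zero_or_pos M with h0 | h0
    · rw [h0, zero_mul] at hlt
      omega
    · exact h0
  set K : Finset G := (insert 1 S) ^ M with hK
  have hK2 : ∀ A : Finset G, 2 * A.card ≤ (K * A).card := by
    intro A
    have h1 := grow_pow h M A
    have h2 := pow_ge M M
    have h3 : 2 * M ^ M ≤ (M + 1) ^ M := by
      have h4 : M * (2 * M ^ M) ≤ M * (M + 1) ^ M := by
        calc M * (2 * M ^ M) = M ^ M * M + M * M ^ M := by ring
          _ ≤ _ := h2
      exact Nat.le_of_mul_le_mul_left h4 hM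
    have h5 : M ^ M * (2 * A.card) ≤ M ^ M * (K * A).card := by
      calc M ^ M * (2 * A.card) = 2 * M ^ M * A.card := by ring
        _ ≤ (M + 1) ^ M * A.card := Nat.mul_le_mul_right _ h3
        _ ≤ _ := h1
    exact Nat.le_of_mul_le_mul_left h5 (Nat.pow_pos hM)
  have hall : ∃ f : G × Bool → G, Function.Injective f ∧
      ∀ x, f x ∈ (fun x : G × Bool => K.image (fun k => k * x.1)) x := by
    rw [← Finset.all_card_le_biUnion_card_iff_exists_injective]
    intro s
    have h1 : s ⊆ (s.image Prod.fst) ×ˢ (Finset.univ : Finset Bool) := by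
      intro x hx
      rw [mem_product]
      exact ⟨mem_image_of_mem _ hx, mem_univ _⟩
    have h2 : K * (s.image Prod.fst) ⊆ s.biUnion (fun x => K.image (fun k => k * x.1)) := by
      intro y hy
      obtain ⟨k, hk, z, hz, rfl⟩ := mem_mul.mp hy
      obtain ⟨x, hx, rfl⟩ := mem_image.mp hz
      exact mem_biUnion.mpr ⟨x, hx, mem_image.mpr ⟨k, hk, rfl⟩⟩
    calc s.card ≤ ((s.image Prod.fst) ×ˢ (Finset.univ : Finset Bool)).card := card_le_card h1
      _ = 2 * (s.image Prod.fst).card := by
        rw [card_product, Finset.card_univ, Fintype.card_bool, mul_comm]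
      _ ≤ (K * (s.image Prod.fst)).card := hK2 _
      _ ≤ _ := card_le_card h2
  obtain ⟨f, hf, hfK⟩ := hall
  have hR : ∀ i : Bool, m (Set.range fun x => f (x, i)) = 1 := by
    intro i
    let A : G → Set G := fun k => {x | f (x, i) = k * x}
    have hAd : ∀ k ∈ K, ∀ k' ∈ K, k ≠ k' → Disjoint (A k) (A k') := by
      intro k _ k' _ hkk
      rw [Set.disjoint_left]
      intro x hx hx'
      have hx1 : f (x, i) = k * x := hx
      have hx2 : f (x, i) = k' * x := hx'
      exact hkk (mul_right_cancel (hx1.symm.trans hx2))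
    have hAu : ⋃ k ∈ K, A k = Set.univ := by
      rw [Set.eq_univ_iff_forall]
      intro x
      obtain ⟨k, hk, hkx⟩ := mem_image.mp (hfK (x, i))
      exact Set.mem_iUnion₂.mpr ⟨k, hk, hkx.symm⟩
    have hBd : ∀ k ∈ K, ∀ k' ∈ K, k ≠ k' →
        Disjoint ((fun x => k * x) '' A k) ((fun x => k' * x) '' A k') := by
      intro k hk k' hk' hkk
      rw [Set.disjoint_left]
      rintro y ⟨x, hx, hy⟩ ⟨x', hx', hy'⟩
      have hx1 : f (x, i) = k * x := hx
      have hx2 : f (x', i) = k' * x' := hx'
      have h1 : k * x = y := hy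
      have h2 : k' * x' = y := hy'
      have h3 : (x, i) = (x', i) := hf (by rw [hx1, hx2, h1, h2])
      have h4 : x = x' := (Prod.mk.inj h3).1
      subst h4
      exact hkk (mul_right_cancel (h1.trans h2.symm))
    have hBu : ⋃ k ∈ K, (fun x => k * x) '' A k = Set.range fun x => f (x, i) := by
      ext y
      rw [Set.mem_iUnion₂]
      constructor
      · rintro ⟨k, hk, x, hx, hy⟩
        have hx1 : f (x, i) = k * x := hx
        exact ⟨x, hx1.trans hy⟩
      · rintro ⟨x, hx⟩
        obtain ⟨k, hk, hkx⟩ := mem_image.mp (hfK (x, i))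
        exact ⟨k, hk, x, hkx.symm, hkx.trans hx⟩
    rw [← hBu, mean_sum hadd K _ hBd, sum_congr rfl (fun k _ => hinv k (A k)),
      ← mean_sum hadd K A hAd, hAu, huniv]
  have hdis : Disjoint (Set.range fun x => f (x, true)) (Set.range fun x => f (x, false)) := by
    rw [Set.disjoint_left]
    rintro y ⟨x, hx⟩ ⟨x', hx'⟩
    have h1 : (x, true) = (x', false) := hf (by
      have h2 : f (x, true) = y := hx
      have h3 : f (x', false) = y := hx'
      rw [h2, h3])
    exact Bool.noConfusion (Prod.mk.inj h1).2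
  have h2 := hadd _ _ hdis
  rw [hR, hR] at h2
  have h3 := hadd (Set.range (fun x => f (x, true)) ∪ Set.range (fun x => f (x, false)))
    (Set.range (fun x => f (x, true)) ∪ Set.range (fun x => f (x, false)))ᶜ disjoint_compl_right
  rw [Set.union_compl_self, huniv, h2] at h3
  have h4 := hpos (Set.range (fun x => f (x, true)) ∪ Set.range (fun x => f (x, false)))ᶜ
  linarith

end JG.M2FM
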