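import Pool.Agent.Lib.MP_98125f_al.JG.ONE
import Pool.Agent.Lib.MP_98125f_al.JG.I2V
import Pool.Agent.Lib.MP_98125f_al.JG.M2F

/-!
MP_98125f_al, JG, module LIO: adjoining a very well approximable number to a countable good field.
-/

set_option autoImplicit false
set_option linter.deprecated false

namespace JG.LIOM

open Filter Topology Hyperreal Pool.Agent.Lib.MP98125f

/-- A positive lower bound for finitely many positive numbers. -/
lemma low {ι : Type*} (s : Finset ι) (g : ι → ℝ) (hg : ∀ i, 0 < g i) :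
    ∃ c : ℝ, 0 < c ∧ c ≤ 1 ∧ ∀ i ∈ s, c ≤ g i := by
  classical
  induction s using Finset.induction_on with
  | empty => exact ⟨1, one_pos, le_rfl, fun i hi => absurd hi (Finset.notMem_empty i)⟩
  | insert a s ha ih =>
    obtain ⟨c, hc, hc1, h⟩ := ih
    refine ⟨min c (g a), lt_min hc (hg a), (min_le_left _ _).trans hc1, ?_⟩
    intro i hi
    rcases Finset.mem_insert.1 hi with rfl | hi
    · exact min_le_right _ _
    · exact (min_le_left _ _).trans (h i hi)

/-- `K(x)` is good for very well approximable `x` if the countable field `K` is good. -/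
theorem lio (hFIL : SpecFIL) (hRSA : SpecRSA) (hALL : SpecALL) (K : Subfield ℝ) (hKc : Countable K)
    (hK : G3 K) : ∃ f : ℕ → ℝ, (∀ q, 0 < f q) ∧ ∀ x : ℝ,
      {q : ℕ | ∃ p : ℤ, 0 < |x - (p : ℝ) / q| ∧ |x - (p : ℝ) / q| < f q}.Infinite →
      G3 (Subfield.closure ((K : Set ℝ) ∪ {x})) := by
  classical
  have := ONEM.countable_mv K 1
  obtain ⟨c, hc⟩ := exists_surjective_nat
    (MvPolynomial (Fin 1) K × ℕ × ℕ × Finset (Fin 3 → MvPolynomial (Fin 1) K) × ℕ)
  have hη : ∀ (p : ℤ) (q j : ℕ), ∃ η : ℝ, 0 < η ∧ ∀ y : ℝ, 0 < |y - (p : ℝ) / q| →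
      |y - (p : ℝ) / q| < η →
      (fun _ : Fin 1 => y) ∈ AK K 1 (c j).1 (c j).2.1 (c j).2.2.1 (c j).2.2.2.1 (c j).2.2.2.2 := by
    intro p q j
    have ha : ((p : ℝ) / q) ∈ K := by
      have h1 : ((((p : ℚ) / (q : ℚ) : ℚ)) : ℝ) ∈ K := SubfieldClass.ratCast_mem K _
      push_cast at h1
      exact h1
    have h1 := ONEM.near hFIL hRSA K hK ha (c j).1 (c j).2.1 (c j).2.2.1 (c j).2.2.2.1
      (c j).2.2.2.2
    rw [Filter.Eventually, Metric.mem_nhdsWithin_iff] at h1
    obtain ⟨η, hη, h2⟩ := h1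
    refine ⟨η, hη, fun y hy1 hy2 => h2 ⟨?_, ?_⟩⟩
    · rw [Metric.mem_ball, Real.dist_eq]
      exact hy2
    · intro h3
      rw [Set.mem_singleton_iff] at h3
      rw [h3, sub_self, abs_zero] at hy1
      exact lt_irrefl _ hy1
  choose g hg0 hg using hη
  have hf : ∀ q : ℕ, ∃ t : ℝ, 0 < t ∧ t ≤ 1 ∧
      ∀ z ∈ (Finset.Icc (-((q : ℤ) * q)) ((q : ℤ) * q)) ×ˢ (Finset.range (q + 1)),
        t ≤ g z.1 q z.2 :=
    fun q => low _ (fun z : ℤ × ℕ => g z.1 q z.2) (fun z => hg0 z.1 q z.2)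
  choose f hf0 hf1 hf using hf
  refine ⟨f, hf0, fun x hx => ?_⟩
  have hall : ∀ s k N F m, (fun _ : Fin 1 => x) ∈ AK K 1 s k N F m := by
    intro s k N F m
    obtain ⟨j, hj⟩ := hc (s, k, N, F, m)
    obtain ⟨B, hB⟩ := exists_nat_ge (|x| + 1)
    obtain ⟨q, ⟨p, hp0, hp1⟩, hq⟩ := hx.exists_gt (max j B)
    have hqj : j ≤ q := (le_max_left _ _).trans hq.le
    have hqB : B ≤ q := (le_max_right _ _).trans hq.le
    have hq0 : 0 < q := by omega
    have hqr : (0 : ℝ) < q := by exact_mod_cast hq0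
    have hqBr : (B : ℝ) ≤ q := by exact_mod_cast hqB
    have h1 : |(p : ℝ) / q| ≤ q := by
      have h2 : |(p : ℝ) / q| ≤ |x| + |x - (p : ℝ) / q| := by
        have h3 : (p : ℝ) / q = x - (x - (p : ℝ) / q) := by ring
        calc |(p : ℝ) / q| = |x - (x - (p : ℝ) / q)| := by rw [← h3]
          _ ≤ |x| + |x - (p : ℝ) / q| := abs_sub _ _
      have h3 := hf1 q
      linarith
    have h2 : |(p : ℝ)| ≤ (q : ℝ) * q := by
      rw [abs_div, abs_of_pos hqr, div_le_iff₀ hqr] at h1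
      exact h1
    have h3 : p ∈ Finset.Icc (-((q : ℤ) * q)) ((q : ℤ) * q) := by
      rw [Finset.mem_Icc, ← abs_le]
      have h4 : ((|p| : ℤ) : ℝ) ≤ (((q : ℤ) * q : ℤ) : ℝ) := by
        push_cast
        exact h2
      exact_mod_cast h4
    have h4 := hf q (p, j) (Finset.mem_product.2 ⟨h3, Finset.mem_range.2 (by omega)⟩)
    have h5 := hg p q j x hp0 (lt_of_lt_of_le hp1 h4)
    rw [hj] at h5
    exact h5
  have h4 := hALL K 1 (fun _ => x) hall
  unfold KX at h4
  rwa [Set.range_const] at h4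

/-- from invariant means to `G3` -/
theorem g3_of_mean (K : Subfield ℝ) (h : ∀ Λ : Submodule K ℝ, Module.rank K Λ ≤ 3 →
    Mean (Subgroup.closure (IetSet (Λ.restrictScalars ℚ)))) : G3 K := by
  intro e
  have h1 : Module.rank K (Submodule.span K (Set.range e)) ≤ 3 := by
    have h2 := rank_span_le (R := K) (Set.range e)
    have h3 : Cardinal.mk (Set.range e) ≤ 3 := by
      have h4 := Cardinal.mk_range_le (f := e)
      rw [Cardinal.mk_fin] at h4
      exact_mod_cast h4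
    exact h2.trans h3
  have h2 := I2VM.good _ (M2FM.specM2F _ (h _ h1))
  refine Amen.of_le (PTg_mono ?_ _) h2
  rintro v ⟨c, hc, rfl⟩
  show ∑ i, c i * e i ∈ Submodule.span K (Set.range e)
  refine Submodule.sum_mem _ fun i _ => ?_
  have h3 : c i * e i = (⟨c i, hc i⟩ : K) • e i := rfl
  rw [h3]
  exact Submodule.smul_mem _ _ (Submodule.subset_span ⟨i, rfl⟩)

end JG.LIOM
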