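import Pool.Agent.Lib.MP_98125f_al.JG.Spec

/-! # Module LV: the left-continuous version of a piecewise translation. -/

set_option autoImplicit false
set_option linter.deprecated false

namespace JG.LVM

open Filter Topology Pool.Agent.Lib.MP98125f

theorem LD_unique {g : Equiv.Perm ℝ} {x t t' : ℝ} (h : LD g x t) (h' : LD g x t') : t = t' := by
  obtain ⟨a, h1, h2⟩ := (h.and h').exists
  rw [← h1, ← h2]

theorem exists_LD {B : Finset ℝ} {g : Equiv.Perm ℝ} (hB : Trans B g) (x : ℝ) :
    ∃ t, LD g x t := by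
  have h1 : ∀ᶠ a in 𝓝[<] x, ∀ b ∈ B, ¬ (a < b ∧ b < x) := by
    rw [Filter.eventually_all_finset]
    intro b _
    rcases lt_or_ge b x with h | h
    · have : ∀ᶠ a in 𝓝[<] x, b < a := mem_nhdsWithin_of_mem_nhds (Ioi_mem_nhds h)
      filter_upwards [this] with a ha hcon
      exact absurd hcon.1 (not_lt.2 ha.le)
    · exact Eventually.of_forall fun a hcon => absurd hcon.2 (not_lt.2 h)
  obtain ⟨a0, ha0, hxa0⟩ := (h1.and self_mem_nhdsWithin).exists
  replace hxa0 : a0 < x := hxa0
  refine ⟨g a0 - a0, ?_⟩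
  have h2 : ∀ᶠ a in 𝓝[<] x, a ∈ Set.Ioo a0 x := Ioo_mem_nhdsLT hxa0
  filter_upwards [h2] with a ha
  refine hB a0 a ha.1.le ?_
  intro b hb hcon
  exact ha0 b hb ⟨hcon.1, lt_of_le_of_lt hcon.2 ha.2⟩

theorem LD_nb {B : Finset ℝ} {g : Equiv.Perm ℝ} (hB : Trans B g) {x : ℝ} (hx : x ∉ B) :
    LD g x (g x - x) := by
  have h1 : ∀ᶠ a in 𝓝[<] x, ∀ b ∈ B, ¬ (a < b ∧ b ≤ x) := by
    rw [Filter.eventually_all_finset]
    intro b hb
    rcases lt_or_ge b x with h | h
    · have : ∀ᶠ a in 𝓝[<] x, b < a := mem_nhdsWithin_of_mem_nhds (Ioi_mem_nhds h)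
      filter_upwards [this] with a ha hcon
      exact absurd hcon.1 (not_lt.2 ha.le)
    · refine Eventually.of_forall fun a hcon => ?_
      have h2 : b = x := le_antisymm hcon.2 h
      exact hx (h2 ▸ hb)
  filter_upwards [h1, self_mem_nhdsWithin] with a ha hax
  exact (hB a x (le_of_lt hax) ha).symm

theorem LD_one (x : ℝ) : LD 1 x 0 :=
  Eventually.of_forall fun a => by simp

theorem LD_mul {g h : Equiv.Perm ℝ} {x t u : ℝ} (hh : LD h x t) (hg : LD g (x + t) u) :
    LD (g * h) x (t + u) := by
  have h3 : Tendsto (fun a => a + t) (𝓝[<] x) (𝓝[<] (x + t)) := by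
    apply tendsto_nhdsWithin_iff.2
    constructor
    · exact ((continuous_id.add continuous_const).tendsto x).mono_left nhdsWithin_le_nhds
    · filter_upwards [self_mem_nhdsWithin] with a ha
      have ha' : a < x := ha
      show a + t < x + t
      linarith
  filter_upwards [hh, h3.eventually hg] with a ha hb
  have h4 : h a = a + t := by rw [← ha]; ring
  simp only [Equiv.Perm.coe_mul, Function.comp]
  rw [h4]
  linarith

/-- the displacement to the left -/
noncomputable def ld (g : PTA) (x : ℝ) : ℝ := (exists_LD g.2.1.choose_spec x).choose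

theorem ld_spec (g : PTA) (x : ℝ) : LD g.1 x (ld g x) :=
  (exists_LD g.2.1.choose_spec x).choose_spec

theorem ld_eq {g : PTA} {x t : ℝ} (h : LD g.1 x t) : ld g x = t :=
  LD_unique (ld_spec g x) h

/-- the left-continuous version -/
noncomputable def lvHom : PTA →* Equiv.Perm ℝ :=
  MonoidHom.toHomPerm
    { toFun := fun g => (fun x => x + ld g x : ℝ → ℝ)
      map_one' := by
        funext x
        have h : ld (1 : PTA) x = 0 := ld_eq (LD_one x)
        change x + ld (1 : PTA) x = x
        rw [h, add_zero]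
      map_mul' := by
        intro g h
        funext x
        change x + ld (g * h) x = (x + ld h x) + ld g (x + ld h x)
        rw [ld_eq (g := g * h) (LD_mul (ld_spec h x) (ld_spec g (x + ld h x)))]
        ring }

theorem lvHom_apply (g : PTA) (x : ℝ) : lvHom g x = x + ld g x := rfl

theorem specLV : SpecLV := by
  refine ⟨lvHom, ?_, ?_⟩
  · intro g x
    rw [lvHom_apply, add_sub_cancel_left]
    exact ld_spec g x
  · intro g B x hB hx
    rw [lvHom_apply, ld_eq (LD_nb hB hx)]
    ring

end JG.LVM
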