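import Pool.Agent.Lib.MP_98125f_al.JG.Spec

/-!
# MP_98125f_al, JG, module MA

The rational case: 3-generated rational spaces of displacements give amenable groups.
-/

set_option autoImplicit false

namespace JG.MAM

open Filter Topology Pool.Agent.Lib.MP98125f JG

/-- the permutations with finite support -/
abbrev YY : Type := {σ : Equiv.Perm ℝ // {x | σ x ≠ x}.Finite}

theorem le_PTA (L : AddSubgroup ℝ) (J : Set ℝ) : PTg L J ≤ PTA := by
  intro g hg
  exact ⟨hg.1, fun _ => AddSubgroup.mem_top _, fun x hx => absurd (Set.mem_univ x) hx⟩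

/-- the inclusion -/
noncomputable def inc (L : AddSubgroup ℝ) (J : Set ℝ) : PTg L J →* PTA :=
  Subgroup.inclusion (le_PTA L J)

theorem inc_val (L : AddSubgroup ℝ) (J : Set ℝ) (g : PTg L J) : (inc L J g).1 = g.1 := rfl

theorem inc_inj (L : AddSubgroup ℝ) (J : Set ℝ) : Function.Injective (inc L J) :=
  Subgroup.inclusion_injective _

theorem fin_supp {lv : PTA →* Equiv.Perm ℝ} (hD : ∀ g : PTA, ∃ B : Finset ℝ,
      (∀ x, x ∈ B ↔ lv g x ≠ g.1 x) ∧ Trans B g.1) (g : PTA) (σ : Equiv.Perm ℝ)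
    (hσ : {x | σ x ≠ x}.Finite) : {x | (lv g * σ * g.1⁻¹) x ≠ x}.Finite := by
  obtain ⟨B, hB, -⟩ := hD g
  refine ((hσ.union B.finite_toSet).image g.1).subset ?_
  intro x hx
  refine ⟨g.1⁻¹ x, ?_, by simp⟩
  by_contra hcon
  rw [Set.mem_union, not_or] at hcon
  apply hx
  have h1 : σ (g.1⁻¹ x) = g.1⁻¹ x := by
    by_contra h
    exact hcon.1 h
  have h2 : lv g (g.1⁻¹ x) = g.1 (g.1⁻¹ x) := by
    by_contra h
    exact hcon.2 (Finset.mem_coe.2 ((hB _).2 h))
  change lv g (σ (g.1⁻¹ x)) = x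
  rw [h1, h2]
  simp

/-- the action `g • σ = lv g σ g⁻¹` -/
@[instance_reducible]
noncomputable def act (L : AddSubgroup ℝ) (J : Set ℝ) (lv : PTA →* Equiv.Perm ℝ)
    (hD : ∀ g : PTA, ∃ B : Finset ℝ, (∀ x, x ∈ B ↔ lv g x ≠ g.1 x) ∧ Trans B g.1) :
    MulAction (PTg L J) YY where
  smul g σ := ⟨lv (inc L J g) * σ.1 * (g.1)⁻¹, fin_supp hD (inc L J g) σ.1 σ.2⟩
  one_smul σ := by
    apply Subtype.ext
    change lv (inc L J 1) * σ.1 * ((1 : PTg L J).1)⁻¹ = σ.1
    rw [map_one, map_one, one_mul]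
    simp
  mul_smul g h σ := by
    apply Subtype.ext
    change lv (inc L J (g * h)) * σ.1 * ((g * h : PTg L J).1)⁻¹ =
      lv (inc L J g) * (lv (inc L J h) * σ.1 * (h.1)⁻¹) * (g.1)⁻¹
    rw [map_mul, map_mul]
    have : ((g * h : PTg L J).1)⁻¹ = (h.1)⁻¹ * (g.1)⁻¹ := by
      rw [← mul_inv_rev]; rfl
    rw [this]
    simp only [mul_assoc]

theorem nrm_inj {α β : Type} (f : α → β) (hf : Function.Injective f) (u : α →₀ ℝ) :
    nrm (Finsupp.mapDomain f u) = nrm u := by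
  unfold nrm
  rw [Finsupp.sum_mapDomain_index_inj hf]

theorem mapDomain_sub' {α β : Type} (f : α → β) (u v : α →₀ ℝ) :
    Finsupp.mapDomain f (u - v) = Finsupp.mapDomain f u - Finsupp.mapDomain f v :=
  map_sub (Finsupp.mapDomain.addMonoidHom f) u v

/-- moving a function on the permutations to the subtype -/
theorem move (w : Equiv.Perm ℝ →₀ ℝ) (hw : ∀ σ, w σ ≠ 0 → {x | σ x ≠ x}.Finite)
    (h0 : ∀ σ, 0 ≤ w σ) : ∃ ψ : YY →₀ ℝ, (∀ y, 0 ≤ ψ y) ∧
      Finsupp.mapDomain (fun y : YY => y.1) ψ = w := by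
  have hinj : Function.Injective (fun y : YY => y.1) := Subtype.val_injective
  refine ⟨w.comapDomain (fun y : YY => y.1) hinj.injOn, fun y => ?_, ?_⟩
  · rw [Finsupp.comapDomain_apply]
    exact h0 _
  · apply Finsupp.mapDomain_comapDomain _ hinj
    intro σ hσ
    rw [Finset.mem_coe, Finsupp.mem_support_iff] at hσ
    exact ⟨⟨σ, hw σ hσ⟩, rfl⟩

end JG.MAM

namespace JG.MAM

open Filter Topology Pool.Agent.Lib.MP98125f JG

theorem specMA (hACT : SpecACT) (hPSI : SpecPSI) (hHEL : SpecHEL) (hENR : SpecENR)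
    (hLV : SpecLV) (hDSC : SpecDSC) (hSTB : SpecSTB) : SpecMA := by
  classical
  obtain ⟨lv, hlv⟩ := hLV
  have hD := hDSC lv hlv
  intro e
  let _ : MulAction (PTg (SP ⊥ e) (Set.Ico (0 : ℝ) 1)) YY :=
    act (SP ⊥ e) (Set.Ico (0 : ℝ) 1) lv hD
  have hsm : ∀ (g : PTg (SP ⊥ e) (Set.Ico (0 : ℝ) 1)) (y : YY),
      (g • y).1 = lv (inc _ _ g) * y.1 * (g.1)⁻¹ := fun _ _ => rfl
  refine hACT (PTg (SP ⊥ e) (Set.Ico (0 : ℝ) 1)) YY ?_ ?_
  · intro S η hη
    have hD' : ∀ g : PTA, ∃ B : Finset ℝ, ∀ x, x ∈ B ↔ lv g x ≠ g.1 x := fun g =>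
      ⟨(hD g).choose, (hD g).choose_spec.1⟩
    choose B hB using hD'
    let E0 : Finset ℝ := S.biUnion fun s => (B (inc _ _ s)).image s.1
    have hE0 : ∀ s ∈ S, ∀ x ∉ E0, (lv (inc _ _ s) * (s.1)⁻¹) x = x := by
      intro s hs x hx
      by_contra hcon
      apply hx
      rw [Finset.mem_biUnion]
      refine ⟨s, hs, Finset.mem_image.2 ⟨(s.1)⁻¹ x, (hB _ _).2 ?_, by simp⟩⟩
      intro h
      apply hcon
      change lv (inc _ _ s) ((s.1)⁻¹ x) = x
      rw [h, inc_val]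
      simp
    obtain ⟨a, D, ha1, ha2, ha3, ha4⟩ := hENR e (S.image fun s => s.1) (by
      intro s hs
      obtain ⟨t, _, rfl⟩ := Finset.mem_image.1 hs
      exact t.2) E0 ((η / 4) ^ 2) (by positivity)
    obtain ⟨φ, hφ1, hφ2, hφ3, hφ4⟩ := hHEL ℝ D E0 a ha1 ha2 ha3
    obtain ⟨ψ, hψ1, hψ2⟩ := move (Psi φ) (hPSI.sup φ) (hPSI.nn φ hφ1)
    refine ⟨ψ, hψ1, ?_, ?_⟩
    · have h1 : (Finsupp.mapDomain (fun y : YY => y.1) ψ).sum (fun _ a => a) =
          ψ.sum fun _ a => a :=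
        Finsupp.sum_mapDomain_index_inj Subtype.val_injective
      rw [← h1, hψ2, hPSI.tot, hφ2]
    · intro s hs
      have h1 : nrm (Finsupp.mapDomain (fun y : YY => s • y) ψ - ψ) =
          nrm (Finsupp.mapDomain (fun σ => lv (inc _ _ s) * σ * (s.1)⁻¹) (Psi φ) - Psi φ) := by
        rw [← nrm_inj (fun y : YY => y.1) Subtype.val_injective, mapDomain_sub', hψ2,
          ← Finsupp.mapDomain_comp]
        have h2 : ((fun y : YY => y.1) ∘ fun y : YY => s • y) =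
            (fun σ => lv (inc _ _ s) * σ * (s.1)⁻¹) ∘ (fun y : YY => y.1) := by
          funext y
          exact hsm s y
        rw [h2, Finsupp.mapDomain_comp, hψ2]
      rw [h1]
      refine (hPSI.inv φ E0 s.1 (lv (inc _ _ s)) hφ3 (hE0 s hs)).trans ?_
      obtain ⟨D', hD1, hD2⟩ := ha4 s.1 (Finset.mem_image_of_mem _ hs)
      refine (hφ4 s.1 ((η / 4) ^ 2) D' hD1 hD2).trans ?_
      rw [Real.sqrt_sq (by positivity)]
      linarith
  · intro y
    have h := hSTB lv hlv ((MulAction.stabilizer (PTg (SP ⊥ e) (Set.Ico (0 : ℝ) 1)) y).map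
      (inc _ _)) y.1 y.2 (by
        intro g hg
        obtain ⟨t, ht, rfl⟩ := hg
        refine ⟨fun x hx => ?_, ?_⟩
        · exact t.2.2.2 x hx
        · have h1 : t • y = y := ht
          have h2 := hsm t y
          rw [h1] at h2
          exact h2.symm)
    exact Amen.of_injective ((MulAction.stabilizer (PTg (SP ⊥ e) (Set.Ico (0 : ℝ) 1)) y).equivMapOfInjective
      (inc _ _) (inc_inj _ _)).toMonoidHom (MulEquiv.injective _) h

end JG.MAM
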