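import Pool.Agent.Lib.MP_98125f_al.JG.Spec

/-! # Module ONE: one generic parameter -/

set_option autoImplicit false
set_option linter.deprecated false

namespace JG.ONEM

open Filter Topology Hyperreal Pool.Agent.Lib.MP98125f

theorem countable_mv (K : Subfield ℝ) [Countable K] (d : ℕ) :
    Countable (MvPolynomial (Fin d) K) := by
  have h := MvPolynomial.cardinalMk_le_max (σ := Fin d) (R := K)
  rw [← Cardinal.mk_le_aleph0_iff]
  refine h.trans ?_
  simp

/-- the parameters near a point of the field -/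
theorem near (hFIL : SpecFIL) (hRSA : SpecRSA) (K : Subfield ℝ) (hK : G3 K) {a : ℝ} (ha : a ∈ K)
    (s : MvPolynomial (Fin 1) K) (k N : ℕ) (F : Finset (Fin 3 → MvPolynomial (Fin 1) K)) (m : ℕ) :
    ∀ᶠ y in 𝓝[≠] a, (fun _ : Fin 1 => y) ∈ AK K 1 s k N F m := by
  have h := hFIL K 1 (Filter.map (fun y : ℝ => fun _ : Fin 1 => y) (𝓝[≠] a)) inferInstance ?_
    s k N F m
  · exact h
  · intro x hx
    refine ⟨K, hK, ?_⟩
    have h1 : Tendsto (fun n => x n 0) atTop (𝓝[≠] a) := by
      have h2 : Tendsto (fun z : Fin 1 → ℝ => z 0)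
          (Filter.map (fun y : ℝ => fun _ : Fin 1 => y) (𝓝[≠] a)) (𝓝[≠] a) := by
        rw [tendsto_map'_iff]
        exact tendsto_id
      exact h2.comp hx
    rw [tendsto_nhdsWithin_iff] at h1
    have hst : IsSt (ofSeq (fun n => x n 0)) a := isSt_of_tendsto h1.1
    have hne : ofSeq (fun n => x n 0) ≠ (a : ℝ*) := by
      intro h0
      have h2 : ofSeq (fun n => x n 0) = ofSeq (fun _ => a) := h0
      rw [ofSeq_eq] at h2
      have h3 : ∀ᶠ n in hyperfilter ℕ, x n 0 ∈ ({a}ᶜ : Set ℝ) := by
        have : (hyperfilter ℕ : Filter ℕ) ≤ atTop := by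
          rw [← Nat.cofinite_eq_atTop]; exact hyperfilter_le_cofinite
        exact this h1.2
      obtain ⟨n, hn1, hn2⟩ := (h2.and h3).exists
      exact hn2 hn1
    have hres := hRSA K a _ ha hst hne
    unfold FSt
    rw [Set.range_unique]
    exact hres

theorem specONE (hFIL : SpecFIL) (hRSA : SpecRSA) (hALL : SpecALL) : SpecONE := by
  intro K hKc hK
  have hdense : Dense (K : Set ℝ) := by
    apply (Rat.denseRange_cast (𝕜 := ℝ)).mono
    rintro _ ⟨q, rfl⟩
    exact SubfieldClass.ratCast_mem K q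
  have h2 : ∀ s k N F m, ∀ᶠ y in residual ℝ, (fun _ : Fin 1 => y) ∈ AK K 1 s k N F m := by
    intro s k N F m
    have h3 : Dense (interior {y : ℝ | (fun _ : Fin 1 => y) ∈ AK K 1 s k N F m}) := by
      rw [dense_iff_inter_open]
      intro U hU hUne
      obtain ⟨a, haK, haU⟩ := hdense.exists_mem_open hU hUne
      have h4 := near hFIL hRSA K hK haK s k N F m
      rw [Filter.Eventually, mem_nhdsWithin] at h4
      obtain ⟨u, hu, hau, huA⟩ := h4
      have h6 : ∀ᶠ x in 𝓝[≠] a, x ∈ U ∩ u :=
        mem_nhdsWithin_of_mem_nhds ((hU.inter hu).mem_nhds ⟨haU, hau⟩)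
      obtain ⟨x, hx1, hx2⟩ := (h6.and self_mem_nhdsWithin).exists
      refine ⟨x, hx1.1, ?_⟩
      rw [mem_interior]
      exact ⟨u ∩ {a}ᶜ, huA, hu.inter isOpen_compl_singleton, hx1.2, hx2⟩
    exact mem_of_superset (residual_of_dense_open isOpen_interior h3) interior_subset
  have := countable_mv K 1
  have h3 : ∀ᶠ y in residual ℝ, ∀ s k N F m, (fun _ : Fin 1 => y) ∈ AK K 1 s k N F m := by
    rw [eventually_countable_forall]; intro s
    rw [eventually_countable_forall]; intro k
    rw [eventually_countable_forall]; intro N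
    rw [eventually_countable_forall]; intro F
    rw [eventually_countable_forall]; intro m
    exact h2 s k N F m
  filter_upwards [h3] with y hy
  have h4 := hALL K 1 (fun _ => y) hy
  unfold KX at h4
  rwa [Set.range_const] at h4

end JG.ONEM
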