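import Pool.Agent.Lib.MP_98125f_al.JG.Spec

/-!
# MP_98125f_al, JG: a perfect algebraically independent set (module PER)
-/

set_option autoImplicit false

namespace JG.PERM

open Filter Topology Set Pool.Agent.Lib.MP98125f

/-- Algebraic independence is comeagre. -/
theorem residual_ai (d : ℕ) :
    {x : Fin d → ℝ | AlgebraicIndependent ℚ x} ∈ residual (Fin d → ℝ) := by
  have h1 : ∀ p : MvPolynomial (Fin d) ℚ, ∀ᶠ x in residual (Fin d → ℝ), p ≠ 0 →
      MvPolynomial.aeval x p ≠ 0 := by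
    intro p
    by_cases hp : p = 0
    · exact Eventually.of_forall fun x h => absurd hp h
    · set P : MvPolynomial (Fin d) ℝ := MvPolynomial.map (algebraMap ℚ ℝ) p with hP
      have hP0 : P ≠ 0 := by
        intro h0
        apply hp
        apply MvPolynomial.map_injective (algebraMap ℚ ℝ) (algebraMap ℚ ℝ).injective
        rw [map_zero]
        exact h0
      have hev : ∀ x : Fin d → ℝ, MvPolynomial.aeval x p = MvPolynomial.eval x P := by
        intro x
        rw [hP, MvPolynomial.eval_map, MvPolynomial.aeval_def]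
      have hopen : IsOpen {x : Fin d → ℝ | MvPolynomial.eval x P ≠ 0} :=
        isOpen_ne_fun (MvPolynomial.continuous_eval P) continuous_const
      have hdense : Dense {x : Fin d → ℝ | MvPolynomial.eval x P ≠ 0} := by
        rw [Metric.dense_iff]
        intro x ε hε
        by_contra hcon
        apply hP0
        apply MvPolynomial.funext_set (fun i => Metric.ball (x i) ε)
        · intro i
          rw [Real.ball_eq_Ioo]
          exact Set.Ioo_infinite (by linarith)
        · intro y hy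
          rw [map_zero]
          by_contra hne
          apply hcon
          refine ⟨y, ?_, hne⟩
          rw [Metric.mem_ball, dist_pi_lt_iff hε]
          intro i
          exact hy i (Set.mem_univ i)
      filter_upwards [residual_of_dense_open hopen hdense] with x hx _
      rw [hev]
      exact hx
  have hc : Countable (MvPolynomial (Fin d) ℚ) := by
    apply Cardinal.mk_le_aleph0_iff.mp
    refine (MvPolynomial.cardinalMk_le_max_lift (σ := Fin d) (R := ℚ)).trans ?_
    simp
  have h2 : ∀ᶠ x in residual (Fin d → ℝ), ∀ p : MvPolynomial (Fin d) ℚ, p ≠ 0 →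
      MvPolynomial.aeval x p ≠ 0 := eventually_countable_forall.2 h1
  filter_upwards [h2] with x hx
  rw [algebraicIndependent_iff]
  intro p hp
  by_contra hne
  exact hx p hne hp

theorem ai_of_fin {f : (ℕ → Bool) → ℝ} (h : ∀ (d : ℕ) (x : Fin d → (ℕ → Bool)),
    Function.Injective x → AlgebraicIndependent ℚ (fun i => f (x i))) :
    AlgebraicIndependent ℚ f := by
  rw [algebraicIndependent_iff]
  intro p hp
  obtain ⟨n, e, he, q, rfl⟩ := MvPolynomial.exists_fin_rename p
  rw [MvPolynomial.aeval_rename] at hp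
  have h1 := algebraicIndependent_iff.1 (h n e he) q hp
  rw [h1, map_zero]

theorem SP_mono {K L : Subfield ℝ} (h : K ≤ L) (e : Fin 3 → ℝ) : SP K e ≤ SP L e := by
  rintro v ⟨c, hc, rfl⟩
  exact ⟨c, fun i => h (hc i), rfl⟩

theorem mem_fin {f : (ℕ → Bool) → ℝ} {v : ℝ} (hv : v ∈ Subfield.closure (Set.range f)) :
    ∃ T : Finset (ℕ → Bool), v ∈ Subfield.closure (f '' (T : Set (ℕ → Bool))) := by
  classical
  have hm : ∀ {T T' : Finset (ℕ → Bool)}, T ⊆ T' →
      Subfield.closure (f '' (T : Set (ℕ → Bool))) ≤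
        Subfield.closure (f '' (T' : Set (ℕ → Bool))) := fun h =>
    Subfield.closure_mono (Set.image_mono (Finset.coe_subset.2 h))
  induction hv using Subfield.closure_induction with
  | mem x hx =>
    obtain ⟨y, rfl⟩ := hx
    exact ⟨{y}, Subfield.subset_closure ⟨y, by simp, rfl⟩⟩
  | one => exact ⟨∅, Subfield.one_mem _⟩
  | add x y hx hy h1 h2 =>
    obtain ⟨T1, h1⟩ := h1
    obtain ⟨T2, h2⟩ := h2
    exact ⟨T1 ∪ T2, Subfield.add_mem _ (hm Finset.subset_union_left h1)
      (hm Finset.subset_union_right h2)⟩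
  | neg x hx h1 =>
    obtain ⟨T1, h1⟩ := h1
    exact ⟨T1, Subfield.neg_mem _ h1⟩
  | inv x hx h1 =>
    obtain ⟨T1, h1⟩ := h1
    exact ⟨T1, Subfield.inv_mem _ h1⟩
  | mul x y hx hy h1 h2 =>
    obtain ⟨T1, h1⟩ := h1
    obtain ⟨T2, h2⟩ := h2
    exact ⟨T1 ∪ T2, Subfield.mul_mem _ (hm Finset.subset_union_left h1)
      (hm Finset.subset_union_right h2)⟩

theorem SP_fin {f : (ℕ → Bool) → ℝ} {e : Fin 3 → ℝ} {v : ℝ}
    (hv : v ∈ SP (Subfield.closure (Set.range f)) e) :
    ∃ T : Finset (ℕ → Bool), v ∈ SP (Subfield.closure (f '' (T : Set (ℕ → Bool)))) e := by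
  classical
  obtain ⟨c, hc, rfl⟩ := hv
  have h1 : ∀ i, ∃ T : Finset (ℕ → Bool),
      c i ∈ Subfield.closure (f '' (T : Set (ℕ → Bool))) := fun i => mem_fin (hc i)
  choose T hT using h1
  refine ⟨Finset.univ.biUnion T, c, fun i => ?_, rfl⟩
  exact Subfield.closure_mono (Set.image_mono (Finset.coe_subset.2
    (Finset.subset_biUnion_of_mem T (Finset.mem_univ i)))) (hT i)

theorem good_aux {f : (ℕ → Bool) → ℝ} (h : ∀ (d : ℕ) (x : Fin d → (ℕ → Bool)),
    Function.Injective x → G3 (KX ⊥ (fun i => f (x i)))) (e : Fin 3 → ℝ) (Lr : AddSubgroup ℝ)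
    (hLr : ∀ v ∈ Lr, ∃ T : Finset (ℕ → Bool),
      v ∈ SP (Subfield.closure (f '' (T : Set (ℕ → Bool)))) e) :
    Amen (PTg Lr (Set.Ico (0 : ℝ) 1)) := by
  classical
  apply Amen.of_locally
  intro S
  have h1 : ∀ s : PTg Lr (Set.Ico (0 : ℝ) 1), ∃ T : Finset (ℕ → Bool), ∀ y,
      s.1 y - y ∈ SP (Subfield.closure (f '' (T : Set (ℕ → Bool)))) e := by
    intro s
    obtain ⟨⟨B, hB⟩, hs2, -⟩ := mem_PTg.1 s.2
    have h2 : ∀ v : ℝ, ∃ T : Finset (ℕ → Bool), v ∈ Lr →
        v ∈ SP (Subfield.closure (f '' (T : Set (ℕ → Bool)))) e := by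
      intro v
      by_cases hv : v ∈ Lr
      · obtain ⟨T, hT⟩ := hLr v hv
        exact ⟨T, fun _ => hT⟩
      · exact ⟨∅, fun h => absurd h hv⟩
    choose T hT using h2
    refine ⟨hB.finite_range.toFinset.biUnion T, fun y => ?_⟩
    have h3 := hT _ (hs2 y)
    have h4 : T (s.1 y - y) ⊆ hB.finite_range.toFinset.biUnion T := by
      apply Finset.subset_biUnion_of_mem T
      rw [Set.Finite.mem_toFinset]
      exact ⟨y, rfl⟩
    exact SP_mono (Subfield.closure_mono (Set.image_mono (Finset.coe_subset.2 h4))) e h3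
  choose T hT using h1
  let T0 : Finset (ℕ → Bool) := S.biUnion T
  let en : Fin T0.card ≃ T0 := T0.equivFin.symm
  have h2 := h T0.card (fun i => (en i).1) (Subtype.val_injective.comp en.injective)
  have h3 : (Set.range fun i => f ((en i).1)) = f '' (T0 : Set (ℕ → Bool)) := by
    ext v
    constructor
    · rintro ⟨i, rfl⟩
      exact ⟨(en i).1, (en i).2, rfl⟩
    · rintro ⟨x, hx, rfl⟩
      exact ⟨en.symm ⟨x, hx⟩, by simp⟩
  have hV : Amen (PTg (SP (KX ⊥ (fun i => f ((en i).1))) e) (Set.Ico (0 : ℝ) 1)) := h2 e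
  set V : AddSubgroup ℝ := SP (KX ⊥ (fun i => f ((en i).1))) e with hVdef
  have h4 : Subgroup.closure (S : Set (PTg Lr (Set.Ico (0 : ℝ) 1))) ≤
      (PTg V (Set.Ico (0 : ℝ) 1)).comap (Subgroup.subtype _) := by
    rw [Subgroup.closure_le]
    intro s hs
    rw [SetLike.mem_coe, Subgroup.mem_comap, Subgroup.coe_subtype, mem_PTg]
    obtain ⟨hs1, -, hs3⟩ := mem_PTg.1 s.2
    refine ⟨hs1, fun y => ?_, hs3⟩
    have h5 := hT s y
    have h6 : T s ⊆ T0 := Finset.subset_biUnion_of_mem T hs
    have h7 : Subfield.closure (f '' (T s : Set (ℕ → Bool))) ≤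
        KX ⊥ (fun i => f ((en i).1)) := by
      unfold KX
      apply Subfield.closure_mono
      rw [h3]
      exact (Set.image_mono (Finset.coe_subset.2 h6)).trans Set.subset_union_right
    exact SP_mono h7 e h5
  have h5 : Amen ((PTg V (Set.Ico (0 : ℝ) 1)).comap
      (Subgroup.subtype (PTg Lr (Set.Ico (0 : ℝ) 1)))) := by
    let φ : (PTg V (Set.Ico (0 : ℝ) 1)).comap
        (Subgroup.subtype (PTg Lr (Set.Ico (0 : ℝ) 1))) →*
        PTg V (Set.Ico (0 : ℝ) 1) :=
      { toFun := fun g => ⟨g.1.1, g.2⟩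
        map_one' := rfl
        map_mul' := fun _ _ => rfl }
    apply Amen.of_injective φ _ hV
    intro a b hab
    apply Subtype.ext
    apply Subtype.ext
    exact congrArg (fun z => z.1) hab
  exact Amen.of_le h4 h5

theorem good {f : (ℕ → Bool) → ℝ} (h : ∀ (d : ℕ) (x : Fin d → (ℕ → Bool)),
    Function.Injective x → G3 (KX ⊥ (fun i => f (x i)))) :
    G3 (Subfield.closure (Set.range f)) :=
  fun e => good_aux h e _ fun _ hv => SP_fin hv

/-- **PER**. -/
theorem specPER : SpecPER := by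
  intro hres
  obtain ⟨f, hf, h⟩ := Perf.mycielski
    (fun d => {x : Fin d → ℝ | AlgebraicIndependent ℚ x} ∩ {x | G3 (KX ⊥ x)})
    (fun d => inter_mem (residual_ai d) (hres d))
  exact ⟨f, hf, ai_of_fin fun d x hx => (h d x hx).1, good fun d x hx => (h d x hx).2⟩

end JG.PERM
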