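import Pool.Agent.Lib.MP_98125f_al.JG.Spec

set_option autoImplicit false

namespace JG.PSIM

open JG

theorem mem_symE {X : Type} (E : Finset X) (σ : Equiv.Perm X) :
    σ ∈ symE E ↔ ∀ x ∉ E, σ x = x := by
  classical
  unfold symE
  rw [Finset.mem_image]
  constructor
  · rintro ⟨p, _, rfl⟩ x hx
    exact Equiv.Perm.ofSubtype_apply_of_not_mem p hx
  · intro h
    have h1 : ∀ x, σ x ∈ E ↔ x ∈ E := by
      intro x
      constructor
      · intro hx
        by_contra hxE
        rw [h x hxE] at hx
        exact hxE hx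
      · intro hx
        by_contra hxE
        have h2 := h (σ x) hxE
        have h3 := σ.injective h2
        rw [h3] at hxE
        exact hxE hx
    refine ⟨σ.subtypePerm h1, Finset.mem_univ _, ?_⟩
    have h4 := Equiv.Perm.ofSubtype_subtypePerm h1
      (fun x hx => by
        by_contra hxE
        exact hx (h x hxE))
    convert h4

theorem symE_pos {X : Type} (E : Finset X) : 0 < (symE E).card := by
  rw [Finset.card_pos]
  exact ⟨1, (mem_symE E 1).2 (fun x _ => rfl)⟩

theorem mapDomain_unifE {X : Type} (E E' : Finset X) (u : Equiv.Perm X → Equiv.Perm X)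
    (hu : Function.Injective u) (h1 : ∀ σ ∈ symE E, u σ ∈ symE E')
    (h2 : ∀ τ ∈ symE E', ∃ σ ∈ symE E, u σ = τ) :
    Finsupp.mapDomain u (unifE E) = unifE E' := by
  classical
  have him : (symE E).image u = symE E' := by
    ext τ
    rw [Finset.mem_image]
    constructor
    · rintro ⟨σ, hσ, rfl⟩
      exact h1 σ hσ
    · intro h
      exact h2 τ h
  unfold unifE
  rw [← him, Finset.card_image_of_injective _ hu, Finset.sum_image (fun a _ b _ hab => hu hab),
    Finsupp.mapDomain_finsetSum]
  simp only [Finsupp.mapDomain_single]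

theorem unifE_nonneg {X : Type} (E : Finset X) (σ : Equiv.Perm X) : 0 ≤ unifE E σ := by
  classical
  unfold unifE
  rw [Finsupp.finsetSum_apply]
  refine Finset.sum_nonneg (fun τ _ => ?_)
  rw [Finsupp.single_apply]
  split_ifs
  · positivity
  · exact le_refl _

theorem unifE_ne {X : Type} (E : Finset X) (σ : Equiv.Perm X) (h : unifE E σ ≠ 0) :
    σ ∈ symE E := by
  classical
  unfold unifE at h
  rw [Finsupp.finsetSum_apply] at h
  obtain ⟨τ, hτ, h1⟩ := Finset.exists_ne_zero_of_sum_ne_zero h
  rw [Finsupp.single_apply] at h1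
  split_ifs at h1 with h2
  · rw [← h2]; exact hτ
  · exact absurd rfl h1

theorem psi_eq {X : Type} (φ : Finset X →₀ ℝ) : Psi φ = ∑ E ∈ φ.support, φ E • unifE E := rfl

theorem psi_lin {X : Type} (φ : Finset X →₀ ℝ) :
    Psi φ = Finsupp.linearCombination ℝ (unifE (X := X)) φ := by
  rw [Finsupp.linearCombination_apply]
  rfl

/-- total mass -/
noncomputable def totm (α : Type) : (α →₀ ℝ) →ₗ[ℝ] ℝ := Finsupp.linearCombination ℝ (fun _ => (1 : ℝ))

theorem totm_apply {α : Type} (f : α →₀ ℝ) : totm α f = f.sum fun _ a => a := by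
  unfold totm
  rw [Finsupp.linearCombination_apply]
  simp

theorem totm_unifE {X : Type} (E : Finset X) : totm _ (unifE E) = 1 := by
  unfold unifE
  rw [map_sum]
  have h1 : ∀ σ ∈ symE E, totm _ (Finsupp.single σ (1 / ((symE E).card : ℝ))) =
      1 / ((symE E).card : ℝ) := by
    intro σ _
    unfold totm
    rw [Finsupp.linearCombination_single]
    simp
  rw [Finset.sum_congr rfl h1, Finset.sum_const, nsmul_eq_mul]
  have h2 : ((symE E).card : ℝ) ≠ 0 := by
    have := symE_pos E
    positivity
  field_simp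

theorem nrm_unifE (hNRM : SpecNRM) {X : Type} (E : Finset X) : nrm (unifE E) ≤ 1 := by
  unfold unifE
  refine (hNRM.sum _ _).trans ?_
  have h1 : ∀ σ ∈ symE E, nrm (Finsupp.single σ (1 / ((symE E).card : ℝ))) =
      1 / ((symE E).card : ℝ) := by
    intro σ _
    unfold nrm
    rw [Finsupp.sum_single_index (by simp)]
    exact abs_of_nonneg (by positivity)
  rw [Finset.sum_congr rfl h1, Finset.sum_const, nsmul_eq_mul]
  have h2 : ((symE E).card : ℝ) ≠ 0 := by
    have := symE_pos E
    positivity
  field_simp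
  exact le_refl _

theorem nrm_psi (hNRM : SpecNRM) {X : Type} (θ : Finset X →₀ ℝ) : nrm (Psi θ) ≤ nrm θ := by
  rw [psi_eq]
  refine (hNRM.sum _ _).trans ?_
  rw [hNRM.eq θ θ.support (fun x hx => Finsupp.mem_support_iff.2 hx)]
  refine Finset.sum_le_sum (fun E _ => ?_)
  rw [hNRM.smul]
  calc |θ E| * nrm (unifE E) ≤ |θ E| * 1 :=
        mul_le_mul_of_nonneg_left (nrm_unifE hNRM E) (abs_nonneg _)
    _ = |θ E| := mul_one _

theorem specPSI (hNRM : SpecNRM) : SpecPSI where
  nn := by
    intro X φ hφ σ
    rw [psi_eq, Finsupp.finsetSum_apply]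
    refine Finset.sum_nonneg (fun E _ => ?_)
    rw [Finsupp.smul_apply, smul_eq_mul]
    exact mul_nonneg (hφ E) (unifE_nonneg E σ)
  tot := by
    intro X φ
    rw [← totm_apply, psi_eq, map_sum]
    refine Finset.sum_congr rfl (fun E _ => ?_)
    rw [map_smul, totm_unifE, smul_eq_mul, mul_one]
  sup := by
    intro X φ σ h
    rw [psi_eq, Finsupp.finsetSum_apply] at h
    obtain ⟨E, _, h1⟩ := Finset.exists_ne_zero_of_sum_ne_zero h
    rw [Finsupp.smul_apply, smul_eq_mul] at h1
    have h2 := unifE_ne E σ (right_ne_zero_of_mul h1)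
    refine (Finset.finite_toSet E).subset (fun x hx => ?_)
    rw [Finset.mem_coe]
    by_contra hxE
    exact hx ((mem_symE E σ).1 h2 x hxE)
  inv := by
    classical
    intro X φ E0 g l hE hc
    obtain ⟨gφ, hgφ⟩ : ∃ gφ : Finset X →₀ ℝ,
      gφ = Finsupp.mapDomain (fun E => E.map g.toEmbedding) φ := ⟨_, rfl⟩
    have hA : Finsupp.mapDomain (fun σ => l * σ * g⁻¹) (Psi φ) =
        Finsupp.mapDomain (fun σ => (l * g⁻¹) * σ)
          (Finsupp.mapDomain (fun σ => g * σ * g⁻¹) (Psi φ)) := by
      rw [← Finsupp.mapDomain_comp]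
      congr 1
      funext σ
      simp only [Function.comp]
      group
    have hmem : ∀ (E : Finset X) (y : X), y ∈ E.map g.toEmbedding ↔ g⁻¹ y ∈ E := by
      intro E y
      rw [Finset.mem_map]
      constructor
      · rintro ⟨x, hx, rfl⟩
        simpa using hx
      · intro h
        exact ⟨g⁻¹ y, h, by simp⟩
    have hB : Finsupp.mapDomain (fun σ => g * σ * g⁻¹) (Psi φ) = Psi gφ := by
      have h1 : ∀ E : Finset X, Finsupp.mapDomain (fun σ => g * σ * g⁻¹) (unifE E) =
          unifE (E.map g.toEmbedding) := by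
        intro E
        refine mapDomain_unifE _ _ _ ?_ ?_ ?_
        · intro a b hab
          simpa using hab
        · intro σ hσ
          rw [mem_symE] at hσ ⊢
          intro y hy
          rw [hmem] at hy
          have h2 := hσ _ hy
          simp only [Equiv.Perm.mul_apply]
          rw [h2]
          simp
        · intro τ hτ
          rw [mem_symE] at hτ
          refine ⟨g⁻¹ * τ * g, ?_, by group⟩
          rw [mem_symE]
          intro x hx
          have h2 : g x ∉ E.map g.toEmbedding := by
            rw [hmem]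
            simpa using hx
          simp only [Equiv.Perm.mul_apply]
          rw [hτ _ h2]
          simp
      rw [psi_eq, Finsupp.mapDomain_finsetSum, psi_lin, hgφ, Finsupp.linearCombination_mapDomain,
        Finsupp.linearCombination_apply]
      refine Finset.sum_congr rfl (fun E _ => ?_)
      rw [Finsupp.mapDomain_smul, h1]
      rfl
    have hC : Finsupp.mapDomain (fun σ => (l * g⁻¹) * σ) (Psi φ) = Psi φ := by
      rw [psi_eq, Finsupp.mapDomain_finsetSum]
      refine Finset.sum_congr rfl (fun E hEs => ?_)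
      have h0 := hE E (Finsupp.mem_support_iff.1 hEs)
      rw [Finsupp.mapDomain_smul]
      congr 1
      have hc' : ∀ x ∉ E, (l * g⁻¹) x = x := fun x hx => hc x (fun h => hx (h0 h))
      refine mapDomain_unifE _ _ _ (mul_right_injective _) ?_ ?_
      · intro σ hσ
        rw [mem_symE] at hσ ⊢
        intro x hx
        rw [Equiv.Perm.mul_apply, hσ x hx]
        exact hc' x hx
      · intro τ hτ
        refine ⟨(l * g⁻¹)⁻¹ * τ, ?_, by group⟩
        rw [mem_symE] at hτ ⊢
        intro x hx
        rw [Equiv.Perm.mul_apply, hτ x hx, Equiv.Perm.inv_eq_iff_eq]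
        exact (hc' x hx).symm
    rw [hA, hB, ← hgφ]
    rw [← hC]
    have hD : Finsupp.mapDomain (fun σ => (l * g⁻¹) * σ) (Psi gφ) -
        Finsupp.mapDomain (fun σ => (l * g⁻¹) * σ) (Psi φ) =
        Finsupp.mapDomain (fun σ => (l * g⁻¹) * σ) (Psi (gφ - φ)) := by
      have h1 : Psi (gφ - φ) = Psi gφ - Psi φ := by
        rw [psi_lin, psi_lin, psi_lin, map_sub]
      rw [h1]
      exact (map_sub (Finsupp.mapDomain.addMonoidHom (fun σ : Equiv.Perm X => (l * g⁻¹) * σ))
        (Psi gφ) (Psi φ)).symm
    rw [hD]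
    exact (hNRM.map _ _).trans (nrm_psi hNRM _)

end JG.PSIM
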