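import Pool.Agent.Lib.MP_98125f_al.JG.Spec

/-!
# RAD: radial functions of small energy (logarithmic cut-off in dimension two)
-/

set_option autoImplicit false

namespace JG.RADM

/-- the weight -/
noncomputable def f (n : ℕ) : ℝ := 1 / (1 + (n : ℝ)) ^ 2

lemma f_nonneg (n : ℕ) : 0 ≤ f n := by
  unfold f
  positivity

lemma f_step (n : ℕ) : 0 ≤ f n - f (n + 1) ∧
    (f n - f (n + 1)) * ((n : ℝ) + 1) ^ 2 ≤ 2 / ((n : ℝ) + 2) := by
  have hn : (0 : ℝ) ≤ n := Nat.cast_nonneg n
  have h1 : (0 : ℝ) < (n : ℝ) + 1 := by linarith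
  have h2 : (0 : ℝ) < (n : ℝ) + 2 := by linarith
  constructor
  · unfold f
    push_cast
    rw [sub_nonneg]
    apply one_div_le_one_div_of_le (by positivity)
    apply pow_le_pow_left₀ (by positivity)
    linarith
  · have e : (f n - f (n + 1)) * ((n : ℝ) + 1) ^ 2 = 1 - (((n : ℝ) + 1) / ((n : ℝ) + 2)) ^ 2 := by
      unfold f
      push_cast
      have h1' : (1 + (n : ℝ)) ≠ 0 := by linarith
      have h2' : (1 + ((n : ℝ) + 1)) ≠ 0 := by linarith
      have h3' : ((n : ℝ) + 2) ≠ 0 := h2.ne'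
      field_simp
      ring
    have e2 : 1 - ((n : ℝ) + 1) / ((n : ℝ) + 2) = 1 / ((n : ℝ) + 2) := by
      field_simp
      ring
    have ht0 : 0 ≤ ((n : ℝ) + 1) / ((n : ℝ) + 2) := by positivity
    have ht1 : 0 ≤ 1 / ((n : ℝ) + 2) := by positivity
    rw [e]
    have e3 : (2 : ℝ) / ((n : ℝ) + 2) = 2 * (1 / ((n : ℝ) + 2)) := by ring
    rw [e3]
    nlinarith

/-- summation by parts -/
lemma abel {X : Type} (D : Finset X) (N : X → ℕ) (M : ℕ) :
    ∑ x ∈ D.filter (fun x => N x ≤ M), f (N x) =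
      ∑ r ∈ Finset.range M, (f r - f (r + 1)) * ((D.filter (fun x => N x ≤ r)).card : ℝ) +
        f M * ((D.filter (fun x => N x ≤ M)).card : ℝ) := by
  induction M with
  | zero =>
    rw [Finset.range_zero, Finset.sum_empty, zero_add]
    have : ∀ x ∈ D.filter (fun x => N x ≤ 0), f (N x) = f 0 := by
      intro x hx
      have := (Finset.mem_filter.1 hx).2
      rw [Nat.le_zero.1 this]
    rw [Finset.sum_congr rfl this, Finset.sum_const, nsmul_eq_mul, mul_comm]
  | succ M ih =>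
    classical
    have hsplit : D.filter (fun x => N x ≤ M + 1) =
        D.filter (fun x => N x ≤ M) ∪ D.filter (fun x => N x = M + 1) := by
      ext x
      simp only [Finset.mem_filter, Finset.mem_union]
      constructor
      · rintro ⟨h1, h2⟩
        rcases Nat.lt_or_ge M (N x) with h | h
        · exact Or.inr ⟨h1, by omega⟩
        · exact Or.inl ⟨h1, h⟩
      · rintro (⟨h1, h2⟩ | ⟨h1, h2⟩)
        · exact ⟨h1, by omega⟩
        · exact ⟨h1, by omega⟩
    have hdis : Disjoint (D.filter (fun x => N x ≤ M)) (D.filter (fun x => N x = M + 1)) := by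
      rw [Finset.disjoint_left]
      intro x hx hx'
      have h1 := (Finset.mem_filter.1 hx).2
      have h2 := (Finset.mem_filter.1 hx').2
      omega
    have hc : ((D.filter (fun x => N x ≤ M + 1)).card : ℝ) =
        (D.filter (fun x => N x ≤ M)).card + (D.filter (fun x => N x = M + 1)).card := by
      rw [hsplit, Finset.card_union_of_disjoint hdis]
      push_cast
      ring
    have hs : ∑ x ∈ D.filter (fun x => N x = M + 1), f (N x) =
        ((D.filter (fun x => N x = M + 1)).card : ℝ) * f (M + 1) := by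
      have : ∀ x ∈ D.filter (fun x => N x = M + 1), f (N x) = f (M + 1) := by
        intro x hx
        rw [(Finset.mem_filter.1 hx).2]
      rw [Finset.sum_congr rfl this, Finset.sum_const, nsmul_eq_mul]
    rw [Finset.sum_range_succ, hc]
    conv_lhs => rw [hsplit]
    rw [Finset.sum_union hdis, ih, hs]
    ring

lemma harm (M : ℕ) : ∑ r ∈ Finset.range M, 1 / ((r : ℝ) + 2) ≤ Real.log ((M : ℝ) + 1) := by
  induction M with
  | zero => simp
  | succ M ih =>
    rw [Finset.sum_range_succ]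
    have hM : (0 : ℝ) ≤ M := Nat.cast_nonneg M
    have h1 : 1 / ((M : ℝ) + 2) ≤ Real.log (((M : ℝ) + 2) / ((M : ℝ) + 1)) := by
      have h := Real.one_sub_inv_le_log_of_pos (x := ((M : ℝ) + 2) / ((M : ℝ) + 1)) (by positivity)
      refine le_trans (le_of_eq ?_) h
      rw [inv_div]
      field_simp
      ring
    rw [Real.log_div (by positivity) (by positivity)] at h1
    have e : (((M + 1 : ℕ) : ℝ) + 1) = (M : ℝ) + 2 := by
      push_cast
      ring
    rw [e]
    linarith

/-- the sum of the weights -/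
lemma total {X : Type} (D : Finset X) (N : X → ℕ) (C M : ℕ)
    (h : ∀ r : ℕ, ((D.filter (fun x => N x ≤ r)).card : ℝ) ≤ C * ((r : ℝ) + 1) ^ 2) :
    ∑ x ∈ D.filter (fun x => N x ≤ M), f (N x) ≤ C * (2 * Real.log ((M : ℝ) + 1) + 1) := by
  have hC : (0 : ℝ) ≤ C := Nat.cast_nonneg C
  rw [abel]
  have h1 : ∑ r ∈ Finset.range M, (f r - f (r + 1)) * ((D.filter (fun x => N x ≤ r)).card : ℝ) ≤
      ∑ r ∈ Finset.range M, C * (2 * (1 / ((r : ℝ) + 2))) := by
    refine Finset.sum_le_sum fun r _ => ?_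
    obtain ⟨a1, a2⟩ := f_step r
    calc (f r - f (r + 1)) * ((D.filter (fun x => N x ≤ r)).card : ℝ)
        ≤ (f r - f (r + 1)) * (C * ((r : ℝ) + 1) ^ 2) := mul_le_mul_of_nonneg_left (h r) a1
      _ = C * ((f r - f (r + 1)) * ((r : ℝ) + 1) ^ 2) := by ring
      _ ≤ C * (2 / ((r : ℝ) + 2)) := mul_le_mul_of_nonneg_left a2 hC
      _ = C * (2 * (1 / ((r : ℝ) + 2))) := by ring
  have h2 : f M * ((D.filter (fun x => N x ≤ M)).card : ℝ) ≤ C := by
    calc f M * ((D.filter (fun x => N x ≤ M)).card : ℝ)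
        ≤ f M * (C * ((M : ℝ) + 1) ^ 2) := mul_le_mul_of_nonneg_left (h M) (f_nonneg M)
      _ = C := by
        unfold f
        have : (1 + (M : ℝ)) ≠ 0 := by positivity
        field_simp
        ring
  rw [← Finset.mul_sum, ← Finset.mul_sum] at h1
  have h3 := harm M
  nlinarith [mul_le_mul_of_nonneg_left h3 hC]

lemma log_diff (C n n' : ℕ) (h1 : n' ≤ n + C) (h2 : n ≤ n' + C) :
    |Real.log (1 + (n' : ℝ)) - Real.log (1 + (n : ℝ))| ≤ (C * (1 + C) : ℝ) / (1 + (n : ℝ)) := by
  have hn : (0 : ℝ) ≤ n := Nat.cast_nonneg n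
  have hn' : (0 : ℝ) ≤ n' := Nat.cast_nonneg n'
  have hC : (0 : ℝ) ≤ C := Nat.cast_nonneg C
  have h1' : (n' : ℝ) ≤ n + C := by exact_mod_cast h1
  have h2' : (n : ℝ) ≤ n' + C := by exact_mod_cast h2
  have p1 : (0 : ℝ) < 1 + n := by linarith
  have p2 : (0 : ℝ) < 1 + n' := by linarith
  rw [abs_le]
  constructor
  · -- log (1+n) - log (1+n') ≤
    have h := Real.log_le_sub_one_of_pos (x := (1 + (n : ℝ)) / (1 + n')) (by positivity)
    rw [Real.log_div p1.ne' p2.ne'] at h
    have e : (1 + (n : ℝ)) / (1 + n') - 1 ≤ (C * (1 + C) : ℝ) / (1 + (n : ℝ)) := by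
      have e1 : (1 + (n : ℝ)) / (1 + n') - 1 = ((n : ℝ) - n') / (1 + n') := by
        field_simp
        ring
      rw [e1, div_le_div_iff₀ p2 p1]
      have q1 : ((n : ℝ) - n') * (1 + n) ≤ C * (1 + n) :=
        mul_le_mul_of_nonneg_right (by linarith) p1.le
      have q2 : (C : ℝ) * (1 + n) ≤ C * ((1 + C) * (1 + n')) := by
        apply mul_le_mul_of_nonneg_left _ hC
        nlinarith [mul_nonneg hC hn']
      nlinarith
    linarith
  · have h := Real.log_le_sub_one_of_pos (x := (1 + (n' : ℝ)) / (1 + n)) (by positivity)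
    rw [Real.log_div p2.ne' p1.ne'] at h
    have e : (1 + (n' : ℝ)) / (1 + n) - 1 ≤ (C * (1 + C) : ℝ) / (1 + (n : ℝ)) := by
      have e1 : (1 + (n' : ℝ)) / (1 + n) - 1 = ((n' : ℝ) - n) / (1 + n) := by
        field_simp
        ring
      rw [e1]
      apply div_le_div_of_nonneg_right _ p1.le
      nlinarith [mul_nonneg hC hC]
    linarith

end JG.RADM

namespace JG.RADM

theorem specRAD : JG.SpecRAD := by
  intro C η hη
  have hC : (0 : ℝ) ≤ C := Nat.cast_nonneg C
  have hlC : 0 ≤ Real.log ((C : ℝ) + 1) := Real.log_nonneg (by linarith)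
  obtain ⟨c, hc⟩ : ∃ c : ℝ, c = ((C : ℝ) * (1 + C)) ^ 2 * C * (3 + 2 * Real.log ((C : ℝ) + 1)) :=
    ⟨_, rfl⟩
  have hc0 : 0 ≤ c := by
    rw [hc]
    positivity
  obtain ⟨R, hR⟩ := exists_nat_ge (Real.exp (max 1 (c / η)))
  obtain ⟨L, hL⟩ : ∃ L : ℝ, L = Real.log (1 + (R : ℝ)) := ⟨_, rfl⟩
  have hR0 : (0 : ℝ) ≤ R := Nat.cast_nonneg R
  have hLm : max 1 (c / η) ≤ L := by
    rw [hL, Real.le_log_iff_exp_le (by linarith)]
    linarith
  have hL1 : 1 ≤ L := (le_max_left _ _).trans hLm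
  have hL2 : c ≤ η * L := by
    have := (le_max_right _ _).trans hLm
    rw [div_le_iff₀ hη] at this
    linarith
  have hL0 : 0 < L := by linarith
  refine ⟨fun n => max (1 - Real.log (1 + (n : ℝ)) / L) 0, R, ?_, ?_, ?_, ?_⟩
  · simp
  · intro n
    refine ⟨le_max_right _ _, max_le ?_ (by norm_num)⟩
    have : 0 ≤ Real.log (1 + (n : ℝ)) := Real.log_nonneg (by linarith [Nat.cast_nonneg (α := ℝ) n])
    have : 0 ≤ Real.log (1 + (n : ℝ)) / L := by positivity
    linarith
  · intro n hn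
    apply max_eq_right
    have h1 : L ≤ Real.log (1 + (n : ℝ)) := by
      rw [hL]
      apply Real.log_le_log (by linarith)
      have : (R : ℝ) ≤ n := by exact_mod_cast hn
      linarith
    have : 1 ≤ Real.log (1 + (n : ℝ)) / L := by
      rw [le_div_iff₀ hL0]
      linarith
    linarith
  · intro X D N N' hcard hNN
    have hzero : ∀ n : ℕ, R ≤ n → max (1 - Real.log (1 + (n : ℝ)) / L) 0 = 0 := by
      intro n hn
      apply max_eq_right
      have h1 : L ≤ Real.log (1 + (n : ℝ)) := by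
        rw [hL]
        apply Real.log_le_log (by linarith)
        have : (R : ℝ) ≤ n := by exact_mod_cast hn
        linarith
      have : 1 ≤ Real.log (1 + (n : ℝ)) / L := by
        rw [le_div_iff₀ hL0]
        linarith
      linarith
    have hcard' : ∀ r : ℕ, ((D.filter (fun x => N x ≤ r)).card : ℝ) ≤ C * ((r : ℝ) + 1) ^ 2 := by
      intro r
      have h := hcard r
      have e : {x | x ∈ D ∧ N x ≤ r} = ((D.filter (fun x => N x ≤ r) : Finset X) : Set X) := by
        ext x
        simp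
      rw [e, Set.ncard_coe_finset] at h
      exact_mod_cast h
    have hterm : ∀ x ∈ D, (max (1 - Real.log (1 + (N' x : ℝ)) / L) 0 -
        max (1 - Real.log (1 + (N x : ℝ)) / L) 0) ^ 2 ≤
        (((C : ℝ) * (1 + C)) / L) ^ 2 * f (N x) := by
      intro x hx
      obtain ⟨a1, a2⟩ := hNN x hx
      have b1 := abs_max_sub_max_le_abs (1 - Real.log (1 + (N' x : ℝ)) / L)
        (1 - Real.log (1 + (N x : ℝ)) / L) 0
      have b2 : (1 - Real.log (1 + (N' x : ℝ)) / L) - (1 - Real.log (1 + (N x : ℝ)) / L) =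
          -((Real.log (1 + (N' x : ℝ)) - Real.log (1 + (N x : ℝ))) / L) := by ring
      rw [b2, abs_neg, abs_div, abs_of_pos hL0] at b1
      have b3 := log_diff C (N x) (N' x) a1 a2
      have b4 : |max (1 - Real.log (1 + (N' x : ℝ)) / L) 0 -
          max (1 - Real.log (1 + (N x : ℝ)) / L) 0| ≤
          ((C : ℝ) * (1 + C)) / (1 + (N x : ℝ)) / L :=
        b1.trans (div_le_div_of_nonneg_right b3 hL0.le)
      have b5 : (((C : ℝ) * (1 + C)) / L) ^ 2 * f (N x) =
          (((C : ℝ) * (1 + C)) / (1 + (N x : ℝ)) / L) ^ 2 := by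
        unfold f
        have : (1 + (N x : ℝ)) ≠ 0 := by positivity
        field_simp
      rw [b5, ← sq_abs]
      exact pow_le_pow_left₀ (abs_nonneg _) b4 2
    have hsum : ∑ x ∈ D, (max (1 - Real.log (1 + (N' x : ℝ)) / L) 0 -
        max (1 - Real.log (1 + (N x : ℝ)) / L) 0) ^ 2 =
        ∑ x ∈ D.filter (fun x => N x ≤ R + C), (max (1 - Real.log (1 + (N' x : ℝ)) / L) 0 -
        max (1 - Real.log (1 + (N x : ℝ)) / L) 0) ^ 2 := by
      rw [Finset.sum_filter_of_ne]
      intro x hx hne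
      by_contra hc
      apply hne
      obtain ⟨a1, a2⟩ := hNN x hx
      rw [hzero (N' x) (by omega), hzero (N x) (by omega)]
      ring
    show ∑ x ∈ D, (max (1 - Real.log (1 + (N' x : ℝ)) / L) 0 -
        max (1 - Real.log (1 + (N x : ℝ)) / L) 0) ^ 2 ≤ η
    rw [hsum]
    have hle : ∑ x ∈ D.filter (fun x => N x ≤ R + C), (max (1 - Real.log (1 + (N' x : ℝ)) / L) 0 -
        max (1 - Real.log (1 + (N x : ℝ)) / L) 0) ^ 2 ≤
        (((C : ℝ) * (1 + C)) / L) ^ 2 * (C * (2 * Real.log (((R + C : ℕ) : ℝ) + 1) + 1)) := by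
      refine (Finset.sum_le_sum fun x hx => hterm x (Finset.mem_filter.1 hx).1).trans ?_
      rw [← Finset.mul_sum]
      exact mul_le_mul_of_nonneg_left (total D N C (R + C) hcard') (sq_nonneg _)
    refine hle.trans ?_
    have hlog : Real.log (((R + C : ℕ) : ℝ) + 1) ≤ L + Real.log ((C : ℝ) + 1) := by
      rw [hL, ← Real.log_mul (by positivity) (by positivity)]
      apply Real.log_le_log (by positivity)
      push_cast
      nlinarith [mul_nonneg hR0 hC]
    have h3 : 2 * Real.log (((R + C : ℕ) : ℝ) + 1) + 1 ≤ (3 + 2 * Real.log ((C : ℝ) + 1)) * L := by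
      nlinarith
    calc (((C : ℝ) * (1 + C)) / L) ^ 2 * (C * (2 * Real.log (((R + C : ℕ) : ℝ) + 1) + 1))
        ≤ (((C : ℝ) * (1 + C)) / L) ^ 2 * (C * ((3 + 2 * Real.log ((C : ℝ) + 1)) * L)) := by
          apply mul_le_mul_of_nonneg_left _ (sq_nonneg _)
          exact mul_le_mul_of_nonneg_left h3 hC
      _ = c / L := by
          rw [hc]
          field_simp
      _ ≤ η := by
          rw [div_le_iff₀ hL0]
          exact hL2

end JG.RADM
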