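import Pool.Agent.Lib.MP_98125f_al.JG.Spec

/-! MP_98125f_al, JG, module REC: recursion over the archimedean scales. -/

set_option autoImplicit false
set_option linter.deprecated false

namespace JG

namespace RECM

open Filter Topology Hyperreal Pool.Agent.Lib.MP98125f

theorem real_part {V : Submodule ℚ ℝ*} (hSCF : SpecSCF) (hGP : GP V) :
    Amen (PTg (stL V.toAddSubgroup) (Set.Ico (0 : ℝ) 1)) := by
  have h := hGP 1 one_pos
  rwa [hSCF.one V] at h

theorem amen_bot {V : Submodule ℚ ℝ*} (hSCF : SpecSCF) (hGP : GP V) (hbot : infp V = ⊥) :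
    Amen (PTg V.toAddSubgroup JJ) := by
  apply amen_PTg _ (real_part hSCF hGP)
  intro T hT
  refine ⟨V.toAddSubgroup, ε, hT, epsilon_pos, infinitesimal_epsilon, ?_⟩
  intro t ht hti
  refine ⟨0, ?_⟩
  have h1 : t ∈ infp V := ⟨ht, hti⟩
  rw [hbot, Submodule.mem_bot] at h1
  rw [h1]
  simp

theorem exists_mdat {V : Submodule ℚ ℝ*} {δ : ℝ*} (hpos : 0 < δ) (hδ : Infinitesimal δ)
    (hbd : ∀ t ∈ V, Infinitesimal t → ∃ n : ℕ, |t| ≤ n * δ) (S : Finset (Equiv.Perm ℝ*))
    (hS : ∀ s ∈ S, s ∈ PTg V.toAddSubgroup JJ ∧ ∀ x : ℝ, tau s x = 0) :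
    ∃ (P : Finset ℝ) (B : Finset ℝ*),
      MDat (Subgroup.closure (S : Set (Equiv.Perm ℝ*))) S P B V.toAddSubgroup δ := by
  classical
  -- breakpoints
  have h1 : ∀ s : Equiv.Perm ℝ*, ∃ B : Finset ℝ*, s ∈ S → Trans B s := by
    intro s
    by_cases hs : s ∈ S
    · obtain ⟨B, hB⟩ := (hS s hs).1.1
      exact ⟨B, fun _ => hB⟩
    · exact ⟨∅, fun h => absurd h hs⟩
  choose Bs hBs using h1
  let B : Finset ℝ* := S.biUnion Bs
  have hd : ∀ s ∈ S, Trans B s := fun s hs => (hBs s hs).mono (Finset.subset_biUnion_of_mem Bs hs)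
  let P : Finset ℝ := B.image st
  have hgenL : ∀ s ∈ S, ∀ y, s y - y ∈ V.toAddSubgroup := fun s hs y => (hS s hs).1.2.1 y
  have hgenP : ∀ s ∈ S, ∀ y, ¬ MM P y → s y = y := by
    intro s hs y hy
    apply support_of_tau_zero (hS s hs).1 (hS s hs).2 (hd s hs)
    rintro ⟨b, hb, hb1, hb2⟩
    apply hy
    exact ⟨st y, Finset.mem_image.2 ⟨b, hb, hb1.st_eq⟩, hb2⟩
  have hall : ∀ h ∈ Subgroup.closure (S : Set (Equiv.Perm ℝ*)),
      (∀ y, ¬ MM P y → h y = y) ∧ (∀ y, h y - y ∈ V.toAddSubgroup) ∧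
        ∃ D : Finset ℝ*, Trans D h := by
    intro h hh
    induction hh using Subgroup.closure_induction with
    | mem s hs => exact ⟨hgenP s hs, hgenL s hs, B, hd s hs⟩
    | one => exact ⟨fun y _ => rfl, fun y => by simp [V.toAddSubgroup.zero_mem], ∅, Trans.one⟩
    | mul g k _ _ ihg ihk =>
      obtain ⟨ihg1, ihg2, Dg, hDg⟩ := ihg
      obtain ⟨ihk1, ihk2, Dk, hDk⟩ := ihk
      refine ⟨fun y hy => ?_, fun y => ?_, hDg.mul hDk⟩
      · simp only [Equiv.Perm.coe_mul, Function.comp, ihk1 y hy, ihg1 y hy]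
      · have : (g * k) y - y = (g (k y) - k y) + (k y - y) := by
          simp only [Equiv.Perm.coe_mul, Function.comp]; ring
        rw [this]
        exact V.toAddSubgroup.add_mem (ihg2 _) (ihk2 _)
    | inv g _ ih =>
      obtain ⟨ih1, ih2, Dg, hDg⟩ := ih
      refine ⟨fun y hy => ?_, fun y => ?_, hDg.inv⟩
      · rw [Equiv.Perm.inv_eq_iff_eq, ih1 y hy]
      · have h1 := ih2 (g⁻¹ y)
        have h2 : g (g⁻¹ y) = y := by simp
        rw [h2] at h1
        have h3 := V.toAddSubgroup.neg_mem h1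
        rwa [neg_sub] at h3
  exact ⟨P, B,
    { hpos := hpos
      hδ := hδ
      hbd := hbd
      hSH := rfl
      ha := fun h hh => (hall h hh).1
      hb := fun h hh => (hall h hh).2.1
      hc := fun h hh => (hall h hh).2.2
      hd := hd }⟩

theorem amen_fin (hKER : SpecKER) (hBLK : SpecBLK) (hCNJ : SpecCNJ) (hSCF : SpecSCF) (n : ℕ) :
    ∀ V : Submodule ℚ ℝ*, FiniteDimensional ℚ V → Module.finrank ℚ (infp V) = n → GP V →
      Amen (PTg V.toAddSubgroup JJ) := by
  induction n using Nat.strong_induction_on with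
  | _ n ih =>
    intro V hfd hn hGP
    by_cases hbot : infp V = ⊥
    · exact amen_bot hSCF hGP hbot
    · obtain ⟨δ, hδV, hpos, hinf, hbd⟩ := hSCF.top V hfd hbot
      apply amen_PTg_of V.toAddSubgroup (real_part hSCF hGP)
      intro S hS
      obtain ⟨P, B, D⟩ := exists_mdat hpos hinf hbd S hS
      apply hKER _ S P B V.toAddSubgroup δ D
      intro Z k T hT
      obtain ⟨M, N, c, hblk, hcov⟩ := hBLK V δ hpos Z k
      apply hCNJ V δ hδV hpos hinf M N c hblk T
      · intro h hh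
        obtain ⟨h1, h2, h3⟩ := hT h hh
        refine ⟨h1, h2, fun y hy => ?_⟩
        obtain ⟨z, hz, hyz⟩ := h3 y hy
        obtain ⟨i, hi⟩ := hcov z hz
        exact ⟨i, hi y hyz⟩
      · have hq : 0 < 2 * N * M + 1 := Nat.succ_pos _
        have hqpos : (0 : ℝ*) < (((2 * N * M + 1 : ℕ) : ℝ*) * δ) :=
          mul_pos (Nat.cast_pos.2 hq) hpos
        apply ih _ _ (scl (((2 * N * M + 1 : ℕ) : ℝ*) * δ) (infp V))
          (hSCF.fin (infp V) _ hqpos.ne' (hSCF.finI V hfd)) rfl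
          (hSCF.gps (infp V) _ hqpos (hSCF.gp V (infp V) (hSCF.le V) hGP))
        rw [← hn]
        exact hSCF.drop V δ (2 * N * M + 1) hfd hδV hpos hinf hq

/-- REC -/
theorem specREC (hKER : SpecKER) (hBLK : SpecBLK) (hCNJ : SpecCNJ) (hSCF : SpecSCF) : SpecREC := by
  classical
  intro V hGP
  apply Amen.of_locally
  intro S
  -- displacements
  have h2 : ∀ s : PTg V.toAddSubgroup JJ, ∃ T : Finset ℝ*, ∀ y, s.1 y - y ∈ T := by
    intro s
    obtain ⟨B, hB⟩ := s.2.1
    refine ⟨hB.finite_range.toFinset, fun y => ?_⟩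
    rw [Set.Finite.mem_toFinset]
    exact ⟨y, rfl⟩
  choose Ts hTs using h2
  let T : Finset ℝ* := (S.biUnion Ts).filter (fun t => t ∈ V)
  let W : Submodule ℚ ℝ* := Submodule.span ℚ (T : Set ℝ*)
  have hWV : W ≤ V := Submodule.span_le.2 fun t ht => (Finset.mem_filter.1 ht).2
  have hfd : FiniteDimensional ℚ W := FiniteDimensional.span_finset ℚ T
  have hW : Amen (PTg W.toAddSubgroup JJ) :=
    amen_fin hKER hBLK hCNJ hSCF _ W hfd rfl (hSCF.gp V W hWV hGP)
  have hle : Subgroup.closure (S : Set (PTg V.toAddSubgroup JJ)) ≤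
      (PTg W.toAddSubgroup JJ).comap (PTg V.toAddSubgroup JJ).subtype := by
    rw [Subgroup.closure_le]
    intro s hs
    refine ⟨s.2.1, fun y => ?_, s.2.2.2⟩
    apply Submodule.subset_span
    have h3 : s.1 y - y ∈ T := Finset.mem_filter.2
      ⟨Finset.mem_biUnion.2 ⟨s, hs, hTs s y⟩, s.2.2.1 y⟩
    exact h3
  let φ : Subgroup.closure (S : Set (PTg V.toAddSubgroup JJ)) →* PTg W.toAddSubgroup JJ :=
    ((PTg V.toAddSubgroup JJ).subtype.comp
      (Subgroup.closure (S : Set (PTg V.toAddSubgroup JJ))).subtype).codRestrict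
      (PTg W.toAddSubgroup JJ) (fun x => hle x.2)
  have hφ : Function.Injective φ := by
    intro a b hab
    apply Subtype.ext
    apply Subtype.ext
    have h4 : (φ a : Equiv.Perm ℝ*) = (φ b : Equiv.Perm ℝ*) := by rw [hab]
    exact h4
  exact Amen.of_injective φ hφ hW

end RECM

end JG
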