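import Pool.Agent.Lib.MP_98125f_al.JG.Spec

/-!
MP_98125f_al, JG, module RSA: the standard parts of the finite elements of `K(a + ε₀)`.
-/

set_option autoImplicit false
set_option linter.deprecated false

namespace JG.RSAM

open Filter Topology Hyperreal Pool.Agent.Lib.MP98125f Polynomial

/-- Evaluation of a polynomial over `K` at a hyperreal. -/
noncomputable def ev (K : Subfield ℝ) (e : ℝ*) : Polynomial K →+* ℝ* :=
  Polynomial.eval₂RingHom ((coeRingHom : ℝ →+* ℝ*).comp K.subtype) e

lemma ev_C (K : Subfield ℝ) (e : ℝ*) (c : K) : ev K e (C c) = ((c : ℝ) : ℝ*) := by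
  unfold ev
  rw [Polynomial.coe_eval₂RingHom, Polynomial.eval₂_C]
  rfl

lemma ev_X (K : Subfield ℝ) (e : ℝ*) : ev K e X = e := by
  unfold ev
  rw [Polynomial.coe_eval₂RingHom, Polynomial.eval₂_X]

/-- The standard part of a value is the constant coefficient. -/
lemma isSt_ev (K : Subfield ℝ) (e : ℝ*) (he : Infinitesimal e) (p : Polynomial K) :
    IsSt (ev K e p) ((p.coeff 0 : K) : ℝ) := by
  induction p using Polynomial.induction_on' with
  | add p q hp hq =>
    rw [map_add, Polynomial.coeff_add]
    have h := hp.add hq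
    have h2 : (((p.coeff 0 + q.coeff 0 : K)) : ℝ) = ((p.coeff 0 : K) : ℝ) + ((q.coeff 0 : K) : ℝ) :=
      rfl
    rw [h2]
    exact h
  | monomial n c =>
    rw [← Polynomial.C_mul_X_pow_eq_monomial, map_mul, map_pow, ev_C, ev_X]
    rcases Nat.eq_zero_or_pos n with h | h
    · subst h
      rw [pow_zero, pow_zero, mul_one, mul_one, Polynomial.coeff_C_zero]
      exact isSt_refl_real _
    · obtain ⟨k, rfl⟩ := Nat.exists_eq_succ_of_ne_zero h.ne'
      have h0 : (C c * X ^ (k + 1) : Polynomial K).coeff 0 = 0 := by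
        rw [pow_succ, ← mul_assoc, Polynomial.coeff_mul_X_zero]
      rw [h0]
      have h1 : ∀ j : ℕ, IsSt (e ^ (j + 1)) 0 := by
        intro j
        induction j with
        | zero => rw [zero_add, pow_one]; exact he
        | succ j ih =>
          have h := ih.mul (show IsSt e 0 from he)
          rw [zero_mul, ← pow_succ] at h
          exact h
      have h2 := (isSt_refl_real (c : ℝ)).mul (h1 k)
      rw [mul_zero] at h2
      exact h2

/-- The key step. -/
lemma key (K : Subfield ℝ) (e : ℝ*) (he : Infinitesimal e) (he0 : e ≠ 0) (t : ℝ*)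
    (ht : ¬ Infinite t) : ∀ (n : ℕ) (p q : Polynomial K), q ≠ 0 → q.natDegree ≤ n →
      t * ev K e q = ev K e p → st t ∈ K := by
  have hst := isSt_st' ht
  intro n
  induction n with
  | zero =>
    intro p q hq hn h
    have h1 := hst.mul (isSt_ev K e he q)
    rw [h] at h1
    have h2 := h1.unique (isSt_ev K e he p)
    have hqc : q = C (q.coeff 0) := Polynomial.eq_C_of_natDegree_le_zero hn
    have hq0 : q.coeff 0 ≠ 0 := by
      intro h0
      apply hq
      rw [hqc, h0, map_zero]
    have hq0' : ((q.coeff 0 : K) : ℝ) ≠ 0 := by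
      intro h0
      apply hq0
      exact_mod_cast h0
    have h3 : st t = ((p.coeff 0 : K) : ℝ) / ((q.coeff 0 : K) : ℝ) := by
      rw [eq_div_iff hq0', h2]
    rw [h3]
    exact K.div_mem (p.coeff 0).2 (q.coeff 0).2
  | succ n ih =>
    intro p q hq hn h
    have h1 := hst.mul (isSt_ev K e he q)
    rw [h] at h1
    have h2 := h1.unique (isSt_ev K e he p)
    by_cases hq0 : q.coeff 0 = 0
    · have hp0 : p.coeff 0 = 0 := by
        rw [hq0] at h2
        have h3 : st t * ((0 : K) : ℝ) = 0 := by
          have : ((0 : K) : ℝ) = 0 := rfl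
          rw [this, mul_zero]
        rw [h3] at h2
        exact_mod_cast h2.symm
      have hqX : q = X * q.divX := by
        have := Polynomial.divX_mul_X_add q
        rw [hq0, map_zero, add_zero, mul_comm] at this
        exact this.symm
      have hpX : p = X * p.divX := by
        have := Polynomial.divX_mul_X_add p
        rw [hp0, map_zero, add_zero, mul_comm] at this
        exact this.symm
      have h4 : ev K e q = e * ev K e q.divX := by
        conv_lhs => rw [hqX]
        rw [map_mul, ev_X]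
      have h5 : ev K e p = e * ev K e p.divX := by
        conv_lhs => rw [hpX]
        rw [map_mul, ev_X]
      have h6 : t * ev K e q.divX = ev K e p.divX := by
        rw [h4, h5] at h
        have h7 : e * (t * ev K e q.divX) = e * ev K e p.divX := by
          rw [← h]; ring
        exact mul_left_cancel₀ he0 h7
      have hqd : q.divX ≠ 0 := by
        intro h0
        apply hq
        rw [hqX, h0, mul_zero]
      refine ih p.divX q.divX hqd ?_ h6
      rw [Polynomial.natDegree_divX_eq_natDegree_tsub_one]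
      omega
    · have hq0' : ((q.coeff 0 : K) : ℝ) ≠ 0 := by
        intro h0
        apply hq0
        exact_mod_cast h0
      have h3 : st t = ((p.coeff 0 : K) : ℝ) / ((q.coeff 0 : K) : ℝ) := by
        rw [eq_div_iff hq0', h2]
      rw [h3]
      exact K.div_mem (p.coeff 0).2 (q.coeff 0).2

/-- The elements of the field are quotients. -/
lemma quot (K : Subfield ℝ) (a : ℝ) (x : ℝ*) (ha : a ∈ K) (t : ℝ*)
    (ht : t ∈ Subfield.closure (((fun r : ℝ => (r : ℝ*)) '' (K : Set ℝ)) ∪ {x})) :
    ∃ p q : Polynomial K, ev K (x - (a : ℝ*)) q ≠ 0 ∧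
      t * ev K (x - (a : ℝ*)) q = ev K (x - (a : ℝ*)) p := by
  induction ht using Subfield.closure_induction with
  | mem y hy =>
    rcases hy with ⟨r, hr, rfl⟩ | hy
    · refine ⟨C ⟨r, hr⟩, 1, ?_, ?_⟩
      · rw [map_one]; exact one_ne_zero
      · rw [map_one, mul_one, ev_C]
    · have hy' : y = x := hy
      subst hy'
      refine ⟨C ⟨a, ha⟩ + X, 1, ?_, ?_⟩
      · rw [map_one]; exact one_ne_zero
      · rw [map_one, mul_one, map_add, ev_C, ev_X]
        ring
  | one =>
    refine ⟨1, 1, ?_, ?_⟩
    · rw [map_one]; exact one_ne_zero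
    · rw [map_one, mul_one]
  | add y z _ _ ihy ihz =>
    obtain ⟨p, q, hq, h⟩ := ihy
    obtain ⟨p', q', hq', h'⟩ := ihz
    refine ⟨p * q' + p' * q, q * q', ?_, ?_⟩
    · rw [map_mul]; exact mul_ne_zero hq hq'
    · rw [map_mul, map_add, map_mul, map_mul, ← h, ← h']; ring
  | neg y _ ihy =>
    obtain ⟨p, q, hq, h⟩ := ihy
    refine ⟨-p, q, hq, ?_⟩
    rw [map_neg, ← h]; ring
  | inv y _ ihy =>
    obtain ⟨p, q, hq, h⟩ := ihy
    by_cases hy : y = 0
    · refine ⟨0, 1, ?_, ?_⟩
      · rw [map_one]; exact one_ne_zero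
      · rw [hy, inv_zero, zero_mul, map_zero]
    · refine ⟨q, p, ?_, ?_⟩
      · rw [← h]; exact mul_ne_zero hy hq
      · rw [← h, ← mul_assoc, inv_mul_cancel₀ hy, one_mul]
  | mul y z _ _ ihy ihz =>
    obtain ⟨p, q, hq, h⟩ := ihy
    obtain ⟨p', q', hq', h'⟩ := ihz
    refine ⟨p * p', q * q', ?_, ?_⟩
    · rw [map_mul]; exact mul_ne_zero hq hq'
    · rw [map_mul, map_mul, ← h, ← h']; ring

theorem specRSA : SpecRSA := by
  intro K a x ha hx hne t ht hfin
  obtain ⟨p, q, hq, h⟩ := quot K a x ha t ht
  have he : Infinitesimal (x - (a : ℝ*)) := hx.infinitesimal_sub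
  have he0 : x - (a : ℝ*) ≠ 0 := sub_ne_zero.mpr hne
  have hq0 : q ≠ 0 := by
    intro h0
    apply hq
    rw [h0, map_zero]
  exact key K _ he he0 t hfin q.natDegree p q hq0 le_rfl h

end JG.RSAM
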