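import Pool.Agent.Lib.MP_98125f_al.JG.Spec

/-!
Module RSD: generic goodness in all dimensions.
-/

set_option autoImplicit false
set_option linter.deprecated false

namespace JG.RSDM

open Filter Topology Hyperreal Pool.Agent.Lib.MP98125f JG

theorem countable_mvp (d : ℕ) (K : Subfield ℝ) (hK : Countable K) :
    Countable (MvPolynomial (Fin d) K) := by
  have := hK
  rw [← Cardinal.mk_le_aleph0_iff]
  refine (MvPolynomial.cardinalMk_le_max).trans ?_
  simp [Cardinal.mk_le_aleph0]

/-- RSD -/
theorem specRSD (hFIL : SpecFIL) (hRSB : SpecRSB) (hALL : SpecALL) (hDNS : SpecDNS) :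
    SpecRSD := by
  classical
  intro d K hK hG
  have hpc : Countable (MvPolynomial (Fin d) K) := countable_mvp d K hK
  have h2 : ∀ (s : MvPolynomial (Fin d) K) (k N : ℕ)
      (F : Finset (Fin 3 → MvPolynomial (Fin d) K)) (m : ℕ),
      ∀ᶠ x in residual (Fin d → ℝ), x ∈ AK K d s k N F m := by
    intro s k N F m
    have h3 : Dense (interior (AK K d s k N F m)) := by
      apply (hDNS d K hK hG).mono
      rintro x0 ⟨hx1, hx2⟩
      rw [mem_interior_iff_mem_nhds]
      have h4 := hFIL K d (𝓝 x0) inferInstance (by
        intro x hx
        refine ⟨KX K x0, hx2, ?_⟩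
        exact hRSB K d x0 (fun i => ofSeq (fun n => x n i)) hx1 (by
          intro i
          apply isSt_of_tendsto
          exact (tendsto_pi_nhds.1 hx) i)) s k N F m
      exact h4
    exact mem_of_superset (residual_of_dense_open isOpen_interior h3) interior_subset
  have h3 : ∀ᶠ x in residual (Fin d → ℝ), ∀ s k N F m, x ∈ AK K d s k N F m := by
    rw [eventually_countable_forall]; intro s
    rw [eventually_countable_forall]; intro k
    rw [eventually_countable_forall]; intro N
    rw [eventually_countable_forall]; intro F
    rw [eventually_countable_forall]; intro m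
    exact h2 s k N F m
  filter_upwards [h3] with x hx
  exact hALL K d x hx

end JG.RSDM
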