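import Pool.Agent.Lib.MP_98125f_al.JG.Spec

/-!
# SCF: finite-dimensional bookkeeping
-/

set_option autoImplicit false
set_option linter.deprecated false

namespace JG.SCFM

open Filter Topology Hyperreal Pool.Agent.Lib.MP98125f JG

lemma smul_eq (q : ℚ) (a : ℝ*) : q • a = (q : ℝ*) * a := Rat.smul_def q a

lemma mem_infp {V : Submodule ℚ ℝ*} {t : ℝ*} : t ∈ infp V ↔ t ∈ V ∧ Infinitesimal t := Iff.rfl

lemma mem_scl {δ : ℝ*} {V : Submodule ℚ ℝ*} {t : ℝ*} : t ∈ scl δ V ↔ δ * t ∈ V := Iff.rfl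

lemma infp_le (V : Submodule ℚ ℝ*) : infp V ≤ V := fun _ ht => ht.1

lemma stL_mono {V W : Submodule ℚ ℝ*} (h : W ≤ V) :
    stL W.toAddSubgroup ≤ stL V.toAddSubgroup := by
  rintro r ⟨t, ht, hr⟩
  exact ⟨t, h ht, hr⟩

lemma scl_mono {V W : Submodule ℚ ℝ*} (δ : ℝ*) (h : W ≤ V) : scl δ W ≤ scl δ V :=
  fun _ ht => h ht

lemma gp_mono (V W : Submodule ℚ ℝ*) (h : W ≤ V) (hV : GP V) : GP W := fun δ hδ =>
  Amen.of_le (PTg_mono (stL_mono (scl_mono δ h)) _) (hV δ hδ)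

lemma scl_scl (V : Submodule ℚ ℝ*) (δ δ' : ℝ*) : scl δ' (scl δ V) = scl (δ * δ') V := by
  ext t
  rw [mem_scl, mem_scl, mem_scl, mul_assoc]

lemma scl_one (V : Submodule ℚ ℝ*) : scl 1 V = V := by
  ext t
  rw [mem_scl, one_mul]

/-- multiplication by `δ` from `scl δ V` to `V` -/
noncomputable def mulTo (δ : ℝ*) (V : Submodule ℚ ℝ*) : scl δ V →ₗ[ℚ] V where
  toFun x := ⟨δ * x.1, x.2⟩
  map_add' := by
    intro x y
    apply Subtype.ext
    simp [mul_add]
  map_smul' := by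
    intro q x
    apply Subtype.ext
    simp

lemma mulTo_inj (δ : ℝ*) (hδ : δ ≠ 0) (V : Submodule ℚ ℝ*) :
    Function.Injective (mulTo δ V) := by
  intro x y h
  apply Subtype.ext
  have h1 : δ * x.1 = δ * y.1 := congrArg Subtype.val h
  exact mul_left_cancel₀ hδ h1

lemma abs_mem {V : Submodule ℚ ℝ*} {b : ℝ*} (hb : b ∈ V) : |b| ∈ V := by
  rcases abs_choice b with h | h
  · rw [h]; exact hb
  · rw [h]; exact V.neg_mem hb

lemma abs_infinitesimal {b : ℝ*} (hb : Infinitesimal b) : Infinitesimal |b| := by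
  rcases abs_choice b with h | h
  · rw [h]; exact hb
  · rw [h]
    have := IsSt.neg hb
    rwa [neg_zero] at this

lemma abs_rat_le (q : ℚ) : ∃ n : ℕ, |(q : ℝ*)| ≤ n := by
  obtain ⟨n, hn⟩ := exists_nat_ge |q|
  refine ⟨n, ?_⟩
  have : ((|q| : ℚ) : ℝ*) ≤ ((n : ℚ) : ℝ*) := by exact_mod_cast hn
  rw [Rat.cast_abs] at this
  simpa using this

lemma top (V : Submodule ℚ ℝ*) (hV : FiniteDimensional ℚ V) (hne : infp V ≠ ⊥) :
    ∃ δ ∈ V, 0 < δ ∧ Infinitesimal δ ∧ ∀ t ∈ V, Infinitesimal t → ∃ n : ℕ, |t| ≤ n * δ := by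
  have : FiniteDimensional ℚ (infp V) := Submodule.finiteDimensional_of_le (infp_le V)
  obtain ⟨S, hS⟩ := (Submodule.fg_iff_finiteDimensional (infp V)).mpr inferInstance
  have hSne : S.Nonempty := by
    rw [Finset.nonempty_iff_ne_empty]
    rintro rfl
    apply hne
    rw [← hS]
    simp
  obtain ⟨b, hbS, hmax⟩ := S.exists_max_image (fun x => |x|) hSne
  have hbI : b ∈ infp V := by
    rw [← hS]
    exact Submodule.subset_span hbS
  have hb0 : 0 < |b| := by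
    by_contra hcon
    apply hne
    rw [← hS, Submodule.span_eq_bot]
    intro x hx
    have h1 : |x| ≤ |b| := hmax x hx
    have h2 : |x| ≤ 0 := h1.trans (not_lt.mp hcon)
    exact abs_nonpos_iff.mp h2
  refine ⟨|b|, abs_mem hbI.1, hb0, abs_infinitesimal hbI.2, ?_⟩
  intro t htV htI
  have htS : t ∈ Submodule.span ℚ (S : Set ℝ*) := by
    rw [hS]
    exact ⟨htV, htI⟩
  clear htV htI
  induction htS using Submodule.span_induction with
  | mem x hx =>
    refine ⟨1, ?_⟩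
    have := hmax x hx
    simpa using this
  | zero => exact ⟨0, by simp⟩
  | add x y _ _ hx hy =>
    obtain ⟨n, hn⟩ := hx
    obtain ⟨m, hm⟩ := hy
    refine ⟨n + m, ?_⟩
    push_cast
    calc |x + y| ≤ |x| + |y| := abs_add_le x y
      _ ≤ n * |b| + m * |b| := add_le_add hn hm
      _ = (n + m) * |b| := by ring
  | smul q x _ hx =>
    obtain ⟨n, hn⟩ := hx
    obtain ⟨m, hm⟩ := abs_rat_le q
    refine ⟨m * n, ?_⟩
    push_cast
    rw [smul_eq, abs_mul]
    calc |(q : ℝ*)| * |x| ≤ m * (n * |b|) :=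
          mul_le_mul hm hn (abs_nonneg _) (by positivity)
      _ = m * n * |b| := by ring

lemma not_inf_inv (q : ℕ) (hq : 0 < q) : ¬ Infinitesimal ((q : ℝ*)⁻¹) := by
  intro h
  have h1 : ((q : ℝ*)⁻¹) = (((q : ℝ)⁻¹ : ℝ) : ℝ*) := by
    rw [coe_inv]
    congr 1
  rw [h1] at h
  have h2 : (q : ℝ)⁻¹ = 0 := eq_of_isSt_real h
  have h3 : (0 : ℝ) < (q : ℝ)⁻¹ := by positivity
  exact absurd h2 h3.ne'

lemma drop (V : Submodule ℚ ℝ*) (δ : ℝ*) (q : ℕ) (hV : FiniteDimensional ℚ V) (hδV : δ ∈ V)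
    (hδ : 0 < δ) (hδI : Infinitesimal δ) (hq : 0 < q) :
    Module.finrank ℚ (infp (scl ((q : ℝ*) * δ) (infp V))) < Module.finrank ℚ (infp V) := by
  have hq0 : (0 : ℝ*) < q := by exact_mod_cast hq
  have hqδ : (q : ℝ*) * δ ≠ 0 := (mul_pos hq0 hδ).ne'
  have : FiniteDimensional ℚ (infp V) := Submodule.finiteDimensional_of_le (infp_le V)
  have hU : FiniteDimensional ℚ (scl ((q : ℝ*) * δ) (infp V)) :=
    FiniteDimensional.of_injective (mulTo _ (infp V)) (mulTo_inj _ hqδ _)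
  have h1 : Module.finrank ℚ (scl ((q : ℝ*) * δ) (infp V)) ≤ Module.finrank ℚ (infp V) :=
    LinearMap.finrank_le_finrank_of_injective (mulTo_inj _ hqδ (infp V))
  have h2 : infp (scl ((q : ℝ*) * δ) (infp V)) < scl ((q : ℝ*) * δ) (infp V) := by
    refine lt_of_le_of_ne (infp_le _) fun heq => ?_
    have h3 : (q : ℝ*)⁻¹ ∈ scl ((q : ℝ*) * δ) (infp V) := by
      rw [mem_scl]
      have : (q : ℝ*) * δ * (q : ℝ*)⁻¹ = δ := by
        field_simp
      rw [this]
      exact ⟨hδV, hδI⟩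
    rw [← heq] at h3
    exact not_inf_inv q hq h3.2
  exact lt_of_lt_of_le (Submodule.finrank_lt_finrank_of_lt h2) h1

/-- SCF -/
theorem specSCF : SpecSCF where
  top := top
  one := scl_one
  gp := gp_mono
  gps := by
    intro V δ hδ hV δ' hδ'
    rw [scl_scl]
    exact hV (δ * δ') (mul_pos hδ hδ')
  le := infp_le
  fin := by
    intro V δ hδ hV
    exact FiniteDimensional.of_injective (mulTo δ V) (mulTo_inj δ hδ V)
  finI := by
    intro V hV
    exact Submodule.finiteDimensional_of_le (infp_le V)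
  drop := drop

end JG.SCFM
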