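import Pool.Agent.Lib.MP_98125f_al.JG.Spec

/-!
# STB: the stabilizers are amenable
-/

set_option autoImplicit false
set_option linter.deprecated false

namespace JG.STBM

open Filter Topology Hyperreal Pool.Agent.Lib.MP98125f JG

lemma Bl_image {G : Type} [Group G] (Γ : Subgroup G) (T : Finset Γ) [DecidableEq G] (n : ℕ) :
    Subtype.val '' (Bl T n) = Bl (T.image (Subtype.val : Γ → G)) n := by
  ext g
  constructor
  · rintro ⟨h, ⟨l, hl1, hl2, hl3⟩, rfl⟩
    refine ⟨l.map Subtype.val, by simpa using hl1, ?_, ?_⟩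
    · intro x hx
      obtain ⟨y, hy, rfl⟩ := List.mem_map.mp hx
      exact Finset.mem_image_of_mem _ (hl2 y hy)
    · rw [← hl3]
      exact (map_list_prod Γ.subtype l).symm
  · rintro ⟨l, hl1, hl2, hl3⟩
    have key : ∀ l : List G, (∀ x ∈ l, x ∈ T.image (Subtype.val : Γ → G)) →
        ∃ l' : List Γ, (∀ x ∈ l', x ∈ T) ∧ l'.map Subtype.val = l := by
      intro l
      induction l with
      | nil => intro _; exact ⟨[], by simp, rfl⟩
      | cons a l ih =>
        intro h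
        obtain ⟨l', h1, h2⟩ := ih (fun x hx => h x (List.mem_cons_of_mem _ hx))
        obtain ⟨b, hb, hba⟩ := Finset.mem_image.mp (h a List.mem_cons_self)
        refine ⟨b :: l', ?_, by simp [h2, hba]⟩
        intro x hx
        rcases List.mem_cons.mp hx with rfl | hx
        · exact hb
        · exact h1 x hx
    obtain ⟨l', h1, h2⟩ := key l hl2
    refine ⟨l'.prod, ⟨l', ?_, h1, rfl⟩, ?_⟩
    · rw [← h2] at hl1
      simpa using hl1
    · rw [← hl3, ← h2]
      exact map_list_prod Γ.subtype l'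

lemma ncard_disc (lg g σ : Equiv.Perm ℝ) (hσ : {x | σ x ≠ x}.Finite)
    (h : lg * σ * g⁻¹ = σ) : {x | lg x ≠ g x}.ncard ≤ 2 * {x | σ x ≠ x}.ncard := by
  have h1 : ∀ y, lg (σ y) = σ (g y) := by
    intro y
    have h2 := congrArg (fun e : Equiv.Perm ℝ => e (g y)) h
    simpa using h2
  have hsub : {x | lg x ≠ g x} ⊆ {x | σ x ≠ x} ∪ g ⁻¹' {x | σ x ≠ x} := by
    intro y hy
    by_contra hcon
    rw [Set.mem_union, not_or] at hcon
    obtain ⟨h3, h4⟩ := hcon
    have h3' : σ y = y := by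
      by_contra h5
      exact h3 h5
    have h4' : σ (g y) = g y := by
      by_contra h5
      exact h4 h5
    apply hy
    have h6 := h1 y
    rw [h3', h4'] at h6
    exact h6
  have hfin : (g ⁻¹' {x | σ x ≠ x}).Finite := hσ.preimage g.injective.injOn
  have hle : (g ⁻¹' {x | σ x ≠ x}).ncard ≤ {x | σ x ≠ x}.ncard :=
    Set.ncard_le_ncard_of_injOn g (fun a ha => ha) g.injective.injOn hσ
  calc {x | lg x ≠ g x}.ncard ≤ ({x | σ x ≠ x} ∪ g ⁻¹' {x | σ x ≠ x}).ncard :=
        Set.ncard_le_ncard hsub (hσ.union hfin)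
    _ ≤ {x | σ x ≠ x}.ncard + (g ⁻¹' {x | σ x ≠ x}).ncard := Set.ncard_union_le _ _
    _ ≤ 2 * {x | σ x ≠ x}.ncard := by omega

/-- STB -/
theorem specSTB (_hDSC : SpecDSC) (hGRW : SpecGRW) (hCTG : SpecCTG) : SpecSTB := by
  classical
  intro lv hlv Γ σ hσ hΓ
  apply hGRW Γ
  intro T
  obtain ⟨C, k, hCk⟩ := hCTG lv hlv (T.image (Subtype.val : Γ → PTA))
    (2 * {x | σ x ≠ x}.ncard) (by
      intro g hg
      obtain ⟨g', _, rfl⟩ := Finset.mem_image.mp hg
      exact (hΓ g'.1 g'.2).1) (by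
      intro n g hg
      rw [← Bl_image Γ T n] at hg
      obtain ⟨g', _, rfl⟩ := hg
      exact ncard_disc _ _ σ hσ (hΓ g'.1 g'.2).2)
  refine ⟨C, k, fun n => ?_⟩
  have h1 := hCk n
  rw [← Bl_image Γ T n, Set.ncard_image_of_injective _ Subtype.val_injective] at h1
  exact h1

end JG.STBM
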