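import Pool.Agent.Lib.MP_98125f_al.JG.NRM
import Pool.Agent.Lib.MP_98125f_al.JG.AC1
import Pool.Agent.Lib.MP_98125f_al.JG.AC2
import Pool.Agent.Lib.MP_98125f_al.JG.AC3
import Pool.Agent.Lib.MP_98125f_al.JG.ACT
import Pool.Agent.Lib.MP_98125f_al.JG.PSI
import Pool.Agent.Lib.MP_98125f_al.JG.HEL
import Pool.Agent.Lib.MP_98125f_al.JG.RAD
import Pool.Agent.Lib.MP_98125f_al.JG.CNT
import Pool.Agent.Lib.MP_98125f_al.JG.ENR
import Pool.Agent.Lib.MP_98125f_al.JG.LV
import Pool.Agent.Lib.MP_98125f_al.JG.DSC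
import Pool.Agent.Lib.MP_98125f_al.JG.GRW
import Pool.Agent.Lib.MP_98125f_al.JG.CTG
import Pool.Agent.Lib.MP_98125f_al.JG.STB
import Pool.Agent.Lib.MP_98125f_al.JG.MA
import Pool.Agent.Lib.MP_98125f_al.JG.KER
import Pool.Agent.Lib.MP_98125f_al.JG.BLK
import Pool.Agent.Lib.MP_98125f_al.JG.CNJ
import Pool.Agent.Lib.MP_98125f_al.JG.SCF
import Pool.Agent.Lib.MP_98125f_al.JG.REC
import Pool.Agent.Lib.MP_98125f_al.JG.GPF
import Pool.Agent.Lib.MP_98125f_al.JG.RSA
import Pool.Agent.Lib.MP_98125f_al.JG.RSB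
import Pool.Agent.Lib.MP_98125f_al.JG.EXA
import Pool.Agent.Lib.MP_98125f_al.JG.FIL
import Pool.Agent.Lib.MP_98125f_al.JG.ALL
import Pool.Agent.Lib.MP_98125f_al.JG.ONE
import Pool.Agent.Lib.MP_98125f_al.JG.DNS
import Pool.Agent.Lib.MP_98125f_al.JG.RSD
import Pool.Agent.Lib.MP_98125f_al.JG.PER
import Pool.Agent.Lib.MP_98125f_al.JG.FIN

/-!
# JG: assembly
-/

set_option autoImplicit false

namespace JG.MainM

open Filter

theorem nrm' : SpecNRM := NRMM.specNRM
theorem ac1 : SpecAC1 := AC1M.specAC1 nrm'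
theorem ac2 : SpecAC2 := AC2M.specAC2 ac1
theorem ac3 : SpecAC3 := AC3M.specAC3
theorem act' : SpecACT := ACTM.specACT ac2 ac3
theorem psi : SpecPSI := PSIM.specPSI nrm'
theorem hel : SpecHEL := HELM.specHEL nrm'
theorem rad : SpecRAD := RADM.specRAD
theorem cnt : SpecCNT := CNTM.specCNT
theorem enr : SpecENR := ENRM.specENR rad cnt
theorem lv : SpecLV := LVM.specLV
theorem dsc : SpecDSC := DSCM.specDSC
theorem grw : SpecGRW := GRWM.specGRW
theorem ctg : SpecCTG := CTGM.specCTG dsc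
theorem stb : SpecSTB := STBM.specSTB dsc grw ctg
/-- the rational case -/
theorem ma : G3 ⊥ := MAM.specMA act' psi hel enr lv dsc stb

theorem ker : SpecKER := KERM.specKER
theorem blk : SpecBLK := BLKM.specBLK
theorem cnj : SpecCNJ := CNJM.specCNJ
theorem scf : SpecSCF := SCFM.specSCF
theorem rec' : SpecREC := RECM.specREC ker blk cnj scf

theorem gpf : SpecGPF := GPFM.specGPF
theorem rsa : SpecRSA := RSAM.specRSA
theorem rsb : SpecRSB := RSBM.specRSB
theorem exa : SpecEXA := EXAM.specEXA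
theorem fil : SpecFIL := FILM.specFIL rec' gpf exa
theorem all' : SpecALL := ALLM.specALL
theorem one' : SpecONE := ONEM.specONE fil rsa all'
theorem dns : SpecDNS := DNSM.specDNS one'
theorem rsd : SpecRSD := RSDM.specRSD fil rsb all' dns
theorem per : SpecPER := PERM.specPER
theorem fin' : SpecFIN := FINM.specFIN

theorem countable_bot : Countable (⊥ : Subfield ℝ) := by
  have h : ((⊥ : Subfield ℝ) : Set ℝ) ⊆ Set.range (fun q : ℚ => (q : ℝ)) := by
    intro x hx
    have h1 : (⊥ : Subfield ℝ) ≤ (algebraMap ℚ ℝ).fieldRange := bot_le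
    obtain ⟨q, hq⟩ := h1 hx
    exact ⟨q, hq⟩
  exact Set.countable_coe_iff.2 ((Set.countable_range _).mono h)

theorem KX_bot {d : ℕ} (g : Fin d → ℝ) : KX ⊥ g = Subfield.closure (Set.range g) := by
  apply le_antisymm
  · rw [KX, Subfield.closure_le]
    rintro x (hx | hx)
    · exact (bot_le : (⊥ : Subfield ℝ) ≤ Subfield.closure (Set.range g)) hx
    · exact Subfield.subset_closure hx
  · rw [Subfield.closure_le]
    intro x hx
    exact Subfield.subset_closure (Or.inr hx)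

theorem generic (d : ℕ) : ∀ᶠ g in residual (Fin d → ℝ), G3 (Subfield.closure (Set.range g)) := by
  filter_upwards [rsd d ⊥ countable_bot ma] with g hg
  rw [← KX_bot]
  exact hg

theorem perfect : ∃ f : (ℕ → Bool) → ℝ, Continuous f ∧ AlgebraicIndependent ℚ f ∧
    G3 (Subfield.closure (Set.range f)) :=
  per (fun d => rsd d ⊥ countable_bot ma)

end JG.MainM
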