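import Pool.Agent.Lib.MP_98125f_al.JG.SpecE

set_option autoImplicit false
set_option linter.deprecated false

namespace JG.P2IM

open Filter Topology Pool.Agent.Lib.MP98125f

theorem specP2I : SpecP2I := by
  intro h
  have hV : GoodV (⊤ : Submodule ℚ ℝ) := by
    have e : (⊤ : Submodule ℚ ℝ).toAddSubgroup = (⊤ : AddSubgroup ℝ) := by
      ext x
      exact ⟨fun _ => AddSubgroup.mem_top x,
        fun _ => (Submodule.mem_top : x ∈ (⊤ : Submodule ℚ ℝ))⟩
    unfold GoodV
    rw [e]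
    exact h
  have e2 : IetSetA = IetSet (⊤ : Submodule ℚ ℝ) := by
    ext f
    constructor
    · rintro ⟨n, a, h1, h2, h3, t, ht⟩
      exact ⟨n, a, h1, h2, h3, t, fun _ => Submodule.mem_top, ht⟩
    · rintro ⟨n, a, h1, h2, h3, t, -, ht⟩
      exact ⟨n, a, h1, h2, h3, t, ht⟩
  rw [e2]
  exact amen_iet hV

end JG.P2IM
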