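import Pool.Agent.Lib.MP_98125f_al.JG.SpecE

/-!
MP_98125f_al, JG, module R2F: uniform Foelner sets of permutations of the line give uniform Foelner
sets of permutations of finite intervals.
-/

set_option autoImplicit false
set_option linter.deprecated false

namespace JG.R2FM

open Finset Pool.Agent.Lib.MP98125f

theorem core {G H : Type*} [Group G] [Group H] [DecidableEq G] [DecidableEq H] (φ : H →* G)
    (hφ : Function.Injective φ) (S : Finset H) (m : ℕ) (F : Finset G) (hF : F.Nonempty)
    (hFS : ∀ g ∈ S, m * (S.card + 1) * (F.filter (fun x => φ g * x ∉ F)).card ≤ F.card) :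
    ∃ F' : Finset H, F'.Nonempty ∧ F'.card ≤ F.card ∧
      ∀ g ∈ S, m * (F'.filter (fun x => g * x ∉ F')).card ≤ F'.card := by
  classical
  -- right cosets
  let r : Setoid G := QuotientGroup.rightRel φ.range
  let cl : G → Quotient r := fun x => Quotient.mk r x
  have hcl : ∀ (g : H) (x : G), cl (φ g * x) = cl x := by
    intro g x
    apply Quotient.sound
    change r _ _
    rw [QuotientGroup.rightRel_apply]
    refine ⟨g⁻¹, ?_⟩
    simp
  -- sum over classes
  have hsum : ∑ c ∈ F.image cl, ∑ g ∈ S, m * ((F.filter (fun x => cl x = c)).filter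
      (fun x => φ g * x ∉ F)).card ≤ ∑ c ∈ F.image cl, (F.filter (fun x => cl x = c)).card := by
    rw [← Finset.card_eq_sum_card_image, Finset.sum_comm]
    have h1 : ∀ g ∈ S, (∑ c ∈ F.image cl, m * ((F.filter (fun x => cl x = c)).filter
      (fun x => φ g * x ∉ F)).card) * (S.card + 1) ≤ F.card := by
      intro g hg
      have h2 : ∑ c ∈ F.image cl, ((F.filter (fun x => cl x = c)).filter
          (fun x => φ g * x ∉ F)).card = (F.filter (fun x => φ g * x ∉ F)).card := by
        rw [Finset.card_eq_sum_card_fiberwise (f := cl) (s := F.filter (fun x => φ g * x ∉ F))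
          (t := F.image cl)]
        · apply Finset.sum_congr rfl
          intro c _
          congr 1
          ext x
          simp only [Finset.mem_filter]
          tauto
        · intro x hx
          simp only [Finset.coe_filter, Set.mem_ofPred_eq] at hx
          exact Finset.mem_coe.2 (Finset.mem_image_of_mem _ hx.1)
      rw [← Finset.mul_sum, h2]
      calc _ = m * (S.card + 1) * (F.filter (fun x => φ g * x ∉ F)).card := by ring
        _ ≤ _ := hFS g hg
    have h3 : (∑ g ∈ S, ∑ c ∈ F.image cl, m * ((F.filter (fun x => cl x = c)).filter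
      (fun x => φ g * x ∉ F)).card) * (S.card + 1) ≤ F.card * (S.card + 1) := by
      rw [Finset.sum_mul]
      calc _ ≤ ∑ g ∈ S, F.card := Finset.sum_le_sum h1
        _ = S.card * F.card := by simp
        _ ≤ _ := by nlinarith [Nat.zero_le F.card, Nat.zero_le S.card]
    exact Nat.le_of_mul_le_mul_right h3 (Nat.succ_pos _)
  -- choose a good class
  obtain ⟨c, hc, hcle⟩ : ∃ c ∈ F.image cl, ∑ g ∈ S, m * ((F.filter (fun x => cl x = c)).filter
      (fun x => φ g * x ∉ F)).card ≤ (F.filter (fun x => cl x = c)).card := by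
    by_contra hcon
    push Not at hcon
    have := Finset.sum_lt_sum_of_nonempty (s := F.image cl) (hF.image _) hcon
    omega
  obtain ⟨x0, hx0, hx0c⟩ := Finset.mem_image.1 hc
  -- pull back
  have hinj : Function.Injective (fun g : H => φ g * x0) :=
    fun a b hab => hφ (mul_right_cancel hab)
  obtain ⟨F', hF'⟩ : ∃ F' : Finset H, ∀ g, g ∈ F' ↔ φ g * x0 ∈ F :=
    ⟨F.preimage (fun g : H => φ g * x0) hinj.injOn, fun g => Finset.mem_preimage⟩
  have hcard : F'.card = (F.filter (fun x => cl x = c)).card := by
    have himg : F.filter (fun x => cl x = c) = F'.image (fun g : H => φ g * x0) := by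
      ext y
      simp only [Finset.mem_filter, Finset.mem_image, hF']
      constructor
      · rintro ⟨hy, hyc⟩
        rw [← hx0c] at hyc
        have h4 := Quotient.exact hyc
        change r _ _ at h4
        rw [QuotientGroup.rightRel_apply] at h4
        obtain ⟨g, hg⟩ := h4
        refine ⟨g⁻¹, ?_, ?_⟩
        · rw [map_inv, hg]; simpa using hy
        · rw [map_inv, hg]; simp
      · rintro ⟨g, hg, rfl⟩
        exact ⟨hg, by rw [hcl, hx0c]⟩
    rw [himg, Finset.card_image_of_injective _ hinj]
  refine ⟨F', ⟨1, by simp [hF', hx0]⟩, ?_, fun g hg => ?_⟩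
  · rw [hcard]
    exact Finset.card_le_card (Finset.filter_subset _ _)
  have hle1 : (F'.filter (fun x => g * x ∉ F')).card ≤
      ((F.filter (fun x => cl x = c)).filter (fun x => φ g * x ∉ F)).card := by
    apply Finset.card_le_card_of_injOn (fun g : H => φ g * x0)
    · intro y hy
      simp only [Finset.coe_filter, Set.mem_ofPred_eq, hF'] at hy
      simp only [Finset.coe_filter, Finset.mem_filter, Set.mem_ofPred_eq]
      refine ⟨⟨hy.1, by rw [hcl, hx0c]⟩, ?_⟩
      have h5 := hy.2
      rwa [map_mul, mul_assoc] at h5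
    · exact hinj.injOn
  calc m * (F'.filter (fun x => g * x ∉ F')).card
      ≤ m * ((F.filter (fun x => cl x = c)).filter (fun x => φ g * x ∉ F)).card :=
        Nat.mul_le_mul_left _ hle1
    _ ≤ ∑ g ∈ S, m * ((F.filter (fun x => cl x = c)).filter (fun x => φ g * x ∉ F)).card :=
        Finset.single_le_sum (f := fun g => m * ((F.filter (fun x => cl x = c)).filter
          (fun x => φ g * x ∉ F)).card) (fun _ _ => Nat.zero_le _) hg
    _ ≤ _ := hcle
    _ = F'.card := hcard.symm

theorem specR2F (hGRD : SpecGRD) : SpecR2F := by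
  classical
  intro hUR k N m
  obtain ⟨u, hu⟩ := hGRD
  obtain ⟨R, hR⟩ := hUR k (N + 2) (m * (k + 1))
  refine ⟨R, fun q g hg => ?_⟩
  obtain ⟨F, hF, hFR, hFg⟩ := hR (fun j => u q (g j))
    (fun j => ⟨hu.out q (g j), hu.tr q (g j) N (hg j)⟩)
  have hS : (Finset.univ.image g).card ≤ k := by
    have := Finset.card_image_le (s := (Finset.univ : Finset (Fin k))) (f := g)
    simpa using this
  obtain ⟨F', h1, h2, h3⟩ := core (u q) (hu.inj q) (Finset.univ.image g) m F hF (by
    intro h hh
    obtain ⟨j, -, rfl⟩ := Finset.mem_image.1 hh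
    have h4 := hFg j
    rw [ncard_filter] at h4
    refine le_trans (Nat.mul_le_mul_right _ (Nat.mul_le_mul_left _ ?_)) h4
    omega)
  refine ⟨F', h1, h2.trans hFR, fun j => ?_⟩
  rw [ncard_filter]
  exact h3 (g j) (Finset.mem_image_of_mem _ (Finset.mem_univ _))

end JG.R2FM
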