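import Mathlib
import Pool.Agent.Lib.MP_98125f_al.Cont

/-!
MP_98125f_al, JG: interval exchanges with translations in a space of dimension at most 3 over a
generic field.

Main results.  `G3 K` (`K` a subfield of the reals): for every 3-generated `K`-subspace of the reals
the group of piecewise translations of `[0,1)` with displacements in it is amenable.
  (1) `G3 ⊥` (the prime field; Juschenko, Matte Bon, Monod, de la Salle).
  (2) for comeagre `x` in `ℝ^d`: `G3 (ℚ(x_1, ..., x_d))`.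
  (3) `G3 (ℚ(P))` for some perfect algebraically independent set `P`.

Module `XXX` = file `JG/XXX.lean`, imports `JG.Spec` only, theorem
`specXXX (hypotheses named in the docstring) : SpecXXX` in the namespace `JG.XXXM`.
Library: `Trans`, `PTg`, `Amen` and its closure properties (files PT, Amen, Amen2), the hyperreal
part (RealPart, Kern, Kern2, Transfer), `ASet` (Baire).
-/

set_option autoImplicit false
set_option linter.deprecated false

namespace JG

open Filter Topology Hyperreal Pool.Agent.Lib.MP98125f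

/-! ### Basic definitions -/

/-- The `K`-subspace of the reals generated by `e 0, e 1, e 2`. -/
noncomputable def SP (K : Subfield ℝ) (e : Fin 3 → ℝ) : AddSubgroup ℝ where
  carrier := {v | ∃ c : Fin 3 → ℝ, (∀ i, c i ∈ K) ∧ v = ∑ i, c i * e i}
  zero_mem' := ⟨0, fun _ => K.zero_mem, by simp⟩
  add_mem' := by
    rintro a b ⟨c, hc, rfl⟩ ⟨d, hd, rfl⟩
    exact ⟨c + d, fun i => K.add_mem (hc i) (hd i), by
      simp [add_mul, Finset.sum_add_distrib]⟩
  neg_mem' := by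
    rintro a ⟨c, hc, rfl⟩
    exact ⟨-c, fun i => K.neg_mem (hc i), by simp⟩

/-- All 3-generated `K`-subspaces are good. -/
def G3 (K : Subfield ℝ) : Prop := ∀ e : Fin 3 → ℝ, Amen (PTg (SP K e) (Set.Ico (0 : ℝ) 1))

/-- `K(x_1, ..., x_d)` -/
noncomputable def KX (K : Subfield ℝ) {d : ℕ} (x : Fin d → ℝ) : Subfield ℝ :=
  Subfield.closure ((K : Set ℝ) ∪ Set.range x)

/-! ### Part A: the rational case -/

/-! #### amenability from an action -/

/-- the l1 norm -/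
noncomputable def nrm {α : Type} (f : α →₀ ℝ) : ℝ := f.sum fun _ a => |a|

/-- NRM.  Elementary (supports are finite; `Finsupp.sum` over a larger finite set). -/
structure SpecNRM : Prop where
  nn : ∀ {α : Type} (f : α →₀ ℝ), 0 ≤ nrm f
  add : ∀ {α : Type} (f g : α →₀ ℝ), nrm (f + g) ≤ nrm f + nrm g
  smul : ∀ {α : Type} (c : ℝ) (f : α →₀ ℝ), nrm (c • f) = |c| * nrm f
  map : ∀ {α β : Type} (u : α → β) (f : α →₀ ℝ), nrm (Finsupp.mapDomain u f) ≤ nrm f
  sum : ∀ {α ι : Type} (s : Finset ι) (f : ι → α →₀ ℝ), nrm (∑ i ∈ s, f i) ≤ ∑ i ∈ s, nrm (f i)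
  /-- the norm as a sum over any finite set containing the support -/
  eq : ∀ {α : Type} (f : α →₀ ℝ) (D : Finset α), (∀ x, f x ≠ 0 → x ∈ D) → nrm f = ∑ x ∈ D, |f x|

/-- Reiter's condition for the action of `G` on `Y`. -/
def Reit (G Y : Type) [Group G] [MulAction G Y] : Prop :=
  ∀ (S : Finset G) (η : ℝ), 0 < η → ∃ ψ : Y →₀ ℝ, (∀ y, 0 ≤ ψ y) ∧ (ψ.sum fun _ a => a) = 1 ∧
    ∀ s ∈ S, nrm (Finsupp.mapDomain (fun y => s • y) ψ - ψ) ≤ η

/-- AC1 (from NRM).  Integer approximation.  Take `ε = 1/(2m)` (or smaller), `ψ` from `Reit`, `D` a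
finite set containing the support of `ψ` and its images under the `s` in `S`.  For `N` large put
`F = {(y,j) : y ∈ supp ψ, j < ⌊N ψ(y)⌋}`.  `|F| ≥ N - |supp ψ|`.  `(y,j) ∈ F`, `(s y, j) ∉ F` means
`⌊N ψ(s y)⌋ ≤ j < ⌊N ψ(y)⌋`, so their number is at most `∑_y (⌊Nψ(y)⌋ - ⌊Nψ(sy)⌋)^+
≤ N ∑_y |ψ(y) - ψ(sy)| + |supp ψ|`, and `∑_y |ψ(y) - ψ(s y)| = nrm (mapDomain s ψ - ψ) ≤ ε`
(substitute `y = s⁻¹ z`; `mapDomain s ψ` at `z` is `ψ(s⁻¹ z)`). -/
def SpecAC1 : Prop := ∀ (G Y : Type) [Group G] [MulAction G Y], Reit G Y →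
  ∀ (S : Finset G) (m : ℕ), ∃ F : Finset (Y × ℕ), F.Nonempty ∧
    ∀ s ∈ S, m * Set.ncard {z : Y × ℕ | z ∈ F ∧ ((s • z.1, z.2) : Y × ℕ) ∉ F} ≤ F.card

/-- AC2 (from AC1).  Selection of an orbit.  Apply AC1 with `m' = m (|S| + 1)`.  Sum over `s`:
`∑_s m |bad_s| ≤ |F|` (`m(|S|+1) |bad_s| ≤ |F|`).  The set `F` is the disjoint union of its parts in
the classes `(orbit of y, j)`; both sides are additive over the classes (`s` preserves classes), so
there is a class (with nonempty part `F₀`) with `∑_s m |bad_s ∩ F₀| ≤ |F₀|`.  Project `F₀` to `Y` (the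
second coordinate is constant on it).  Cf. the proof of `Amen.of_local_injective`. -/
def SpecAC2 : Prop := ∀ (G Y : Type) [Group G] [MulAction G Y], Reit G Y →
  ∀ (S : Finset G) (m : ℕ), ∃ (y0 : Y) (F : Finset Y), F.Nonempty ∧
    (∀ y ∈ F, y ∈ MulAction.orbit G y0) ∧
    ∀ s ∈ S, m * Set.ncard {y : Y | y ∈ F ∧ s • y ∉ F} ≤ F.card

/-- AC3.  Choose `a(y)` with `a(y) • y0 = y` for `y ∈ F`; for `s ∈ S`, `y ∈ F`, `s y ∈ F` let
`h(s,y) = a(sy)⁻¹ s a(y)`, in the stabilizer of `y0`.  `K` = a finite set in the stabilizer with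
`2m |{k ∈ K : h k ∉ K}| ≤ |K|` for all these (finitely many) `h`.  `F' = {a(y) k : y ∈ F, k ∈ K}`, the
map `(y,k) ↦ a(y)k` is injective (`a(y)k • y0 = y`), so `|F'| = |F||K|`.  `s a(y) k = a(sy) (h(s,y) k)` is
in `F'` unless `s y ∉ F` or `h(s,y) k ∉ K`: at most `|F||K|/(2m) + |F||K|/(2m)` pairs. -/
def SpecAC3 : Prop := ∀ (G Y : Type) [Group G] [MulAction G Y] (S : Finset G) (m : ℕ) (y0 : Y)
  (F : Finset Y), Amen (MulAction.stabilizer G y0) → F.Nonempty →
  (∀ y ∈ F, y ∈ MulAction.orbit G y0) →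
  (∀ s ∈ S, (2 * m) * Set.ncard {y : Y | y ∈ F ∧ s • y ∉ F} ≤ F.card) →
  ∃ F' : Finset G, F'.Nonempty ∧ ∀ s ∈ S, m * Set.ncard {x : G | x ∈ F' ∧ s * x ∉ F'} ≤ F'.card

/-- ACT (from AC2, AC3).  Immediate. -/
def SpecACT : Prop := ∀ (G Y : Type) [Group G] [MulAction G Y], Reit G Y →
  (∀ y : Y, Amen (MulAction.stabilizer G y)) → Amen G

/-! #### from finite sets to finitary permutations -/

open Classical in
/-- the permutations of `E`, extended by the identity -/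
noncomputable def symE {X : Type} (E : Finset X) : Finset (Equiv.Perm X) :=
  Finset.univ.image (fun p : Equiv.Perm {x // x ∈ E} => Equiv.Perm.ofSubtype p)

/-- the uniform probability on `symE E` -/
noncomputable def unifE {X : Type} (E : Finset X) : Equiv.Perm X →₀ ℝ :=
  ∑ σ ∈ symE E, Finsupp.single σ (1 / ((symE E).card : ℝ))

noncomputable def Psi {X : Type} (φ : Finset X →₀ ℝ) : Equiv.Perm X →₀ ℝ :=
  φ.sum fun E a => a • unifE E

/-- PSI (from NRM).  `σ ∈ symE E` iff `σ` fixes all `x ∉ E`.  `inv`: `l σ g⁻¹ = c (g σ g⁻¹)`,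
`c = l g⁻¹ ∈ symE E0`.  `mapDomain (g · g⁻¹) (unifE E) = unifE (g E)`; for `E ⊇ E0`
`mapDomain (c * ·) (unifE E) = unifE E`, so `mapDomain (c * ·) (Psi φ) = Psi φ`.  Hence
`mapDomain (l · g⁻¹) (Psi φ) - Psi φ = mapDomain (c * ·) (Psi (g φ - φ))` with
`g φ = mapDomain (map g) φ` (`Psi` is linear), and `nrm (Psi θ) ≤ nrm θ`. -/
structure SpecPSI : Prop where
  nn : ∀ {X : Type} (φ : Finset X →₀ ℝ), (∀ E, 0 ≤ φ E) → ∀ σ, 0 ≤ Psi φ σ
  tot : ∀ {X : Type} (φ : Finset X →₀ ℝ), ((Psi φ).sum fun _ a => a) = φ.sum fun _ a => a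
  sup : ∀ {X : Type} (φ : Finset X →₀ ℝ) (σ : Equiv.Perm X), Psi φ σ ≠ 0 → {x | σ x ≠ x}.Finite
  inv : ∀ {X : Type} (φ : Finset X →₀ ℝ) (E0 : Finset X) (g l : Equiv.Perm X),
    (∀ E, φ E ≠ 0 → E0 ⊆ E) → (∀ x ∉ E0, (l * g⁻¹) x = x) →
    nrm (Finsupp.mapDomain (fun σ => l * σ * g⁻¹) (Psi φ) - Psi φ) ≤
      nrm (Finsupp.mapDomain (fun E => E.map g.toEmbedding) φ - φ)

/-- HEL (from NRM).  Put `θ x = (π/2) a x` and `φ(E) = ∏_{x ∈ D} (x ∈ E ? sin² θ x : cos² θ x)` for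
`E ⊆ D`, 0 otherwise.  `∑ φ = ∏ (sin² + cos²) = 1` (`Finset.prod_add`); `φ(E) ≠ 0` implies `E0 ⊆ E` as
`cos(π/2) = 0`.  Let `u = √φ` (`u(E) = ∏ (sin θ or cos θ) ≥ 0`), `gφ = mapDomain (map g) φ`,
`(gφ)(E) = φ(g⁻¹E)`.  For any finite `D''` containing `D` and `gD`, both `φ` and `gφ` are the products
over `D''`, so `∑_E √φ(E) √(gφ)(E) = ∏_{x ∈ D''} cos(θ(x) - θ(g⁻¹x)) ≥ 1 - (1/2) ∑ (θ(x) - θ(g⁻¹x))²
≥ 1 - (π²/8) η`.  So `∑ (√φ - √(gφ))² ≤ (π²/4) η`, and Cauchy-Schwarz: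
`∑ |φ - gφ| ≤ (∑(√φ-√gφ)²)^(1/2) (∑(√φ+√gφ)²)^(1/2) ≤ (π/2)√η · 2 ≤ 4√η`. -/
def SpecHEL : Prop := ∀ (X : Type) (D E0 : Finset X) (a : X → ℝ),
  (∀ x, 0 ≤ a x ∧ a x ≤ 1) → (∀ x ∉ D, a x = 0) → (∀ x ∈ E0, a x = 1) →
  ∃ φ : Finset X →₀ ℝ, (∀ E, 0 ≤ φ E) ∧ (φ.sum fun _ t => t) = 1 ∧ (∀ E, φ E ≠ 0 → E0 ⊆ E) ∧
    ∀ (g : Equiv.Perm X) (η : ℝ) (D' : Finset X), (∀ x ∉ D', a x = 0 ∧ a (g x) = 0) →
      (∑ x ∈ D', (a (g x) - a x) ^ 2 ≤ η) →
      nrm (Finsupp.mapDomain (fun E => E.map g.toEmbedding) φ - φ) ≤ 4 * Real.sqrt η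

/-! #### small energy (recurrence) -/

/-- RAD.  `h n = max 0 (1 - log(1+n)/log(1+R))`.  `|log(1+n') - log(1+n)| ≤ C(1+C)/(1+n)` if
`|n' - n| ≤ C`.  Terms with `N x > R + C` vanish.  With `L = log(1+R)` the sum is at most
`(C(1+C)/L)² ∑_{N x ≤ R+C} (1 + N x)^(-2)`, and the last sum is `≤ ∑_{j ≤ J} C 4^(j+1) / 4^j ≤ 4 C (J+1)`,
`J = log2 (R + C + 1)` (dyadic classes `2^j ≤ 1 + N x < 2^(j+1)`, each of size `≤ C 4^(j+1)`); this is
`O(L)`, so the total is `O(1/L)`. -/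
def SpecRAD : Prop := ∀ (C : ℕ) (η : ℝ), 0 < η → ∃ (h : ℕ → ℝ) (R : ℕ), h 0 = 1 ∧
  (∀ n, 0 ≤ h n ∧ h n ≤ 1) ∧ (∀ n ≥ R, h n = 0) ∧
  ∀ (X : Type) (D : Finset X) (N N' : X → ℕ),
    (∀ r : ℕ, Set.ncard {x | x ∈ D ∧ N x ≤ r} ≤ C * (r + 1) ^ 2) →
    (∀ x ∈ D, N' x ≤ N x + C ∧ N x ≤ N' x + C) → ∑ x ∈ D, (h (N' x) - h (N x)) ^ 2 ≤ η

/-- The points of `[0,1)` at distance at most `r` from `P` in the lattice coordinates `β`. -/
def Bx (β : Fin 3 → ℝ) (P : Finset ℝ) (r : ℕ) : Set ℝ :=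
  {x : ℝ | 0 ≤ x ∧ x < 1 ∧ ∃ p ∈ P, ∃ n : Fin 3 → ℤ, (∀ i, |n i| ≤ r) ∧
    x = p + ∑ i, (n i : ℝ) * β i}

/-- CNT.  If `β = 0`: at most `|P|` points.  Otherwise say `β i ≠ 0` (three symmetric cases): given
`p` and the two other coordinates, `n i` lies in an interval of length `1/|β i|`, so there are at most
`1/|β i| + 2` values; total `≤ |P| (2r+1)² (1/|β i| + 2)`. -/
def SpecCNT : Prop := ∀ (β : Fin 3 → ℝ) (P : Finset ℝ), ∃ C : ℕ, ∀ r : ℕ,
  (Bx β P r).Finite ∧ (Bx β P r).ncard ≤ C * (r + 1) ^ 2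

/-- ENR (from RAD, CNT).  The displacements of the elements of `S` form a finite subset of
`ℚ e_0 + ℚ e_1 + ℚ e_2` (`Trans.finite_range`; elements of `⊥` are rational), so for a common
denominator `q` and `β i = e i / q` all of them are `∑ n_i β_i` with integers `|n_i| ≤ C₁`.  For
`x ∈ [0,1)` in `⋃_r Bx β E0 r` let `N x` be the least `r` with `x ∈ Bx β E0 r`.  With `h, R` from RAD
(`C` = max of `C₁` and the constant of CNT) put `a x = h (N x)` on these points, `a x = 1` on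
`E0 \ [0,1)`, `a x = 0` elsewhere.  `D = Bx β E0 R ∪ E0`.  `s` preserves `[0,1)` and fixes the other
points; it preserves `⋃ Bx` and `|N (s x) - N x| ≤ C₁`.  `D'` = `Bx β E0 (R + C) ∪ E0`. -/
def SpecENR : Prop := ∀ (e : Fin 3 → ℝ) (S : Finset (Equiv.Perm ℝ)),
  (∀ s ∈ S, s ∈ PTg (SP ⊥ e) (Set.Ico (0 : ℝ) 1)) → ∀ (E0 : Finset ℝ) (η : ℝ), 0 < η →
  ∃ (a : ℝ → ℝ) (D : Finset ℝ), (∀ x, 0 ≤ a x ∧ a x ≤ 1) ∧ (∀ x ∉ D, a x = 0) ∧
    (∀ x ∈ E0, a x = 1) ∧ ∀ s ∈ S, ∃ D' : Finset ℝ, (∀ x ∉ D', a x = 0 ∧ a (s x) = 0) ∧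
      ∑ x ∈ D', (a (s x) - a x) ^ 2 ≤ η

/-! #### the left-continuous version -/

/-- the group of all piecewise translations of the line -/
noncomputable abbrev PTA : Subgroup (Equiv.Perm ℝ) := PTg (⊤ : AddSubgroup ℝ) (Set.univ : Set ℝ)

/-- displacement just to the left of `x` -/
def LD (g : Equiv.Perm ℝ) (x t : ℝ) : Prop := ∀ᶠ a in 𝓝[<] x, g a - a = t

structure LVP (lv : PTA →* Equiv.Perm ℝ) : Prop where
  ld : ∀ (g : PTA) (x : ℝ), LD g.1 x (lv g x - x)
  /-- no difference outside breakpoints -/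
  nb : ∀ (g : PTA) (B : Finset ℝ) (x : ℝ), Trans B g.1 → x ∉ B → lv g x = g.1 x

/-- LV.  As for `tau` in RealPart.lean: from `Trans B g` the displacement is constant on
`[max {b ∈ B : b < x}, x)`; uniqueness as `𝓝[<] x` is not trivial; `LD h x t`, `LD g (x+t) u` imply
`LD (g h) x (t+u)` (`a ↦ a + t` maps `𝓝[<] x` to `𝓝[<] (x+t)`).  So `x ↦ x + (left displacement)` is
multiplicative and `MonoidHom.toHomPerm` gives `lv`.  `nb`: no breakpoint in `(a, x]` for `a < x` near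
`x`. -/
def SpecLV : Prop := ∃ lv : PTA →* Equiv.Perm ℝ, LVP lv

/-- DSC.  The true discontinuities.  Let `Trans C g`; `B` = the `x ∈ C` with `lv g x ≠ g x`.
`Trans B g`: induct on the number of points of `C` in `(x, y]`; at a point `c` with `lv g c = g c` the
displacement left of `c` (LVP.ld) is the displacement at `c`.  (Or: remove the points of `C \ B` one
by one.) -/
def SpecDSC : Prop := ∀ lv : PTA →* Equiv.Perm ℝ, LVP lv → ∀ g : PTA,
  ∃ B : Finset ℝ, (∀ x, x ∈ B ↔ lv g x ≠ g.1 x) ∧ Trans B g.1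

/-- products of at most `n` elements of `T` -/
def Bl {G : Type} [Group G] (T : Finset G) (n : ℕ) : Set G :=
  {g | ∃ l : List G, l.length ≤ n ∧ (∀ x ∈ l, x ∈ T) ∧ l.prod = g}

/-- GRW.  Polynomial growth implies Foelner.  Given `S`, `m ≥ 1`: `Bl S n` is finite, contains 1, and
increases.  If `m (|Bl S (n+1)| - |Bl S n|) > |Bl S n|` for all `n` then `|Bl S n| ≥ (1+1/m)^n`,
contradicting the polynomial bound.  For `n` with the opposite inequality take `F = Bl S n`: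
`s F ⊆ Bl S (n+1)`, so the `x ∈ F` with `s x ∉ F` inject into `Bl S (n+1) \ Bl S n`. -/
def SpecGRW : Prop := ∀ (G : Type) [Group G],
  (∀ T : Finset G, ∃ C k : ℕ, ∀ n : ℕ, (Bl T n).ncard ≤ C * (n + 1) ^ k) → Amen G

/-- CTG (from DSC).  Let `A` = the finite set of displacements of the elements of `T` (with 0),
`A_n` = the sums of at most `n` elements of `A`, `|A_n| ≤ (n+1)^|A|`.  Displacements of elements of
`Bl T n` are in `A_n`.  Let `B₀` be the union of the discontinuity sets of the elements of `T`.  The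
discontinuities of `g ∈ Bl T n` are in `{b - a : b ∈ B₀, a ∈ A_n}`: `lv (g h) x ≠ g (h x)` implies
`lv h x ≠ h x` or `lv g (h x) ≠ g (h x)`.  `g` is determined by the set of pairs
`(x, g x - x)`, `x` a discontinuity: a subset with at most `M` elements of a set with
`Q ≤ |B₀| (n+1)^(2|A|)` elements (`g` is the identity left of 0 and the displacement changes only at
discontinuities, by `Trans B g` with `B` from DSC).  At most `(Q+1)^M` possibilities. -/
def SpecCTG : Prop := ∀ lv : PTA →* Equiv.Perm ℝ, LVP lv → ∀ (T : Finset PTA) (M : ℕ),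
  (∀ g ∈ T, ∀ x ∉ Set.Ico (0 : ℝ) 1, g.1 x = x) →
  (∀ n, ∀ g ∈ Bl T n, {x | lv g x ≠ g.1 x}.ncard ≤ M) →
  ∃ C k : ℕ, ∀ n, (Bl T n).ncard ≤ C * (n + 1) ^ k

/-- STB (from DSC, GRW, CTG).  `lv g = σ g σ⁻¹`.  If `x ∉ supp σ` and `g x ∉ supp σ` then
`lv g x = σ (g (σ⁻¹ x)) = g x`.  So there are at most `2 |supp σ|` discontinuities for every `g ∈ Γ`.
Now CTG (for `T ⊆ Γ` mapped to `PTA`) and GRW. -/
def SpecSTB : Prop := ∀ lv : PTA →* Equiv.Perm ℝ, LVP lv → ∀ (Γ : Subgroup PTA)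
  (σ : Equiv.Perm ℝ), {x | σ x ≠ x}.Finite →
  (∀ g ∈ Γ, (∀ x ∉ Set.Ico (0 : ℝ) 1, (g : PTA).1 x = x) ∧ lv g * σ * (g.1 : Equiv.Perm ℝ)⁻¹ = σ) →
  Amen Γ

/-- MA (from ACT, PSI, HEL, ENR, LV, DSC, STB).  `G = PTg (SP ⊥ e) [0,1)` acts on
`Y = {σ : Perm ℝ // finite support}` by `g • σ = lv g * σ * g⁻¹` (finite support since
`lv g * g⁻¹` has finite support, by DSC or `LVP.nb`).  Stabilizers: STB (transport along
`G ≤ PTA`; `Amen.of_injective`).  `Reit`: for `S`, `ε` let `E0` contain the supports of `lv s * s⁻¹`,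
`s ∈ S`; `a` from ENR with `ε' = (ε/4)²`, `φ` from HEL, `ψ` = `Psi φ` (PSI) moved to the subtype `Y`
(`Finsupp.comapDomain`/`subtypeDomain`; all the mass is on finite supports). -/
def SpecMA : Prop := G3 ⊥

/-! ### Part B: groups of piecewise translations of the hyperreals -/

/-- `V / δ` -/
noncomputable def scl (δ : ℝ*) (V : Submodule ℚ ℝ*) : Submodule ℚ ℝ* :=
  V.comap (LinearMap.mulLeft ℚ δ)

/-- All the real parts, at all scales, are good. -/
def GP (V : Submodule ℚ ℝ*) : Prop :=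
  ∀ δ : ℝ*, 0 < δ → Amen (PTg (stL (scl δ V).toAddSubgroup) (Set.Ico (0 : ℝ) 1))

/-- the infinitesimal elements of `V` -/
def infp (V : Submodule ℚ ℝ*) : Submodule ℚ ℝ* where
  carrier := {t | t ∈ V ∧ Infinitesimal t}
  zero_mem' := ⟨V.zero_mem, isSt_zero_zero⟩
  add_mem' := by
    rintro a b ⟨ha, ha'⟩ ⟨hb, hb'⟩
    exact ⟨V.add_mem ha hb, ha'.add hb'⟩
  smul_mem' := by
    rintro q a ⟨ha, ha'⟩
    refine ⟨V.smul_mem q ha, ?_⟩
    have h1 : IsSt (((q : ℝ) : ℝ*) * a) ((q : ℝ) * 0) := (isSt_refl_real (q : ℝ)).mul ha'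
    rw [mul_zero] at h1
    have h2 : q • a = ((q : ℝ) : ℝ*) * a := by
      rw [Rat.smul_def]
      congr 1
      exact (map_ratCast coeRingHom q).symm
    rw [h2]
    exact h1

/-- As `MData` in Kern2.lean, with `hcyc` replaced by `hbd`. -/
structure MDat (H : Subgroup (Equiv.Perm ℝ*)) (S : Finset (Equiv.Perm ℝ*)) (P : Finset ℝ)
    (B : Finset ℝ*) (L' : AddSubgroup ℝ*) (δ : ℝ*) : Prop where
  hpos : 0 < δ
  hδ : Infinitesimal δ
  hbd : ∀ t ∈ L', Infinitesimal t → ∃ n : ℕ, |t| ≤ n * δ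
  hSH : H = Subgroup.closure (S : Set (Equiv.Perm ℝ*))
  ha : ∀ h ∈ H, ∀ y, ¬ MM P y → h y = y
  hb : ∀ h ∈ H, ∀ y, h y - y ∈ L'
  hc : ∀ h ∈ H, ∃ D : Finset ℝ*, Trans D h
  hd : ∀ s ∈ S, Trans B s

/-- supported near `Z` at scale `δ` -/
def NearZ (L' : AddSubgroup ℝ*) (δ : ℝ*) (Z : Finset ℝ*) (n : ℕ) (h : Equiv.Perm ℝ*) : Prop :=
  (∀ y, h y - y ∈ L') ∧ (∃ D : Finset ℝ*, Trans D h) ∧ ∀ y, h y ≠ y → ∃ z ∈ Z, |y - z| ≤ n * δ

/-- KER.  Copy `exists_reps` (Kern.lean) and Kern2.lean up to `amen_of_mdata` with `hbd` in place of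
`hcyc` (`hcyc` is used there only to see that two points whose difference is in `L'` and infinitesimal
are at distance `O(δ)`); in `amen_of_mdata` the finiteness of `closure (T.image ψ)` is replaced by its
amenability, which is the second hypothesis (`exists_bound_support` gives an `n` for each element, take
the maximum). -/
def SpecKER : Prop := ∀ (H : Subgroup (Equiv.Perm ℝ*)) (S : Finset (Equiv.Perm ℝ*)) (P : Finset ℝ)
  (B : Finset ℝ*) (L' : AddSubgroup ℝ*) (δ : ℝ*), MDat H S P B L' δ →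
  (∀ (Z : Finset ℝ*) (n : ℕ) (T : Finset (Equiv.Perm ℝ*)), (∀ h ∈ T, NearZ L' δ Z n h) →
    Amen (Subgroup.closure (T : Set (Equiv.Perm ℝ*)))) → Amen H

/-- A system of blocks `[c i - N δ, c i + N δ)`. -/
structure Blk (V : Submodule ℚ ℝ*) (δ : ℝ*) (M N : ℕ) (c : Fin M → ℝ*) : Prop where
  pos : 0 < N
  /-- far from each other -/
  far : ∀ i j, i ≠ j → ¬ NB δ (c i) (c j)
  /-- related blocks differ by an element of `V` -/
  rel : ∀ i j, (∃ t ∈ V, NB δ (c i + t) (c j)) → c j - c i ∈ V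

/-- BLK.  Choose `Z₀ ⊆ Z` maximal with pairwise `¬ NB δ`; every `z ∈ Z` is at distance `≤ n₁ δ` from
some element of `Z₀`.  On `Z₀` the relation `∃ t ∈ V, NB δ (z + t) z'` is an equivalence; choose class
representatives `r(z)` and `t_z ∈ V` with `NB δ (r(z) + t_z) z`, and put `c = r(z) + t_z`
(`z ∈ Z₀`, enumerated by `Fin M`), which is at distance `≤ n₂ δ` from `z`.  If the blocks `i, j` are
related then so are `z_i, z_j`, so `r(z_i) = r(z_j)` and `c j - c i = t_j - t_i ∈ V`.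
`N = n + n₁ + n₂ + 1`. -/
def SpecBLK : Prop := ∀ (V : Submodule ℚ ℝ*) (δ : ℝ*), 0 < δ → ∀ (Z : Finset ℝ*) (n : ℕ),
  ∃ (M N : ℕ) (c : Fin M → ℝ*), Blk V δ M N c ∧
    ∀ z ∈ Z, ∃ i, ∀ y, |y - z| ≤ n * δ → c i - N * δ ≤ y ∧ y < c i + N * δ

/-- CNJ.  `W` = the union of the blocks, `q = 2 N M + 1`.  `Θ : W → [0, 1)`,
`Θ y = (y - c i + N δ + 2 N i δ) / (q δ)` on block `i`: an injection onto `[0, 2NM/q)`.  Every `h` in
`closure T` preserves `W`, is the identity outside, has displacements in `V` and a finite set of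
breakpoints.  `h' = Θ h Θ⁻¹` on `[0, 2NM/q)`, the identity elsewhere.  `h ↦ h'` is an injective
homomorphism to `PTg (scl (q δ) (infp V)) JJ`:
* displacements: `y` in block `i`, `h y` in block `j`:
  `q δ (h' Θy - Θy) = (h y - y) - (c j - c i) + 2 N (j - i) δ`; here `h y - y = t ∈ V` with
  `NB δ (c i + t) (c j)` (`|y - c i| ≤ Nδ`, `|h y - c j| ≤ N δ`), so `c j - c i ∈ V` by `rel`; `δ ∈ V`; and
  the total is infinitesimal as it is at most `2 q δ` in absolute value.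
* breakpoints: images under `Θ` of the breakpoints of `h` in `W`, the left end points of the blocks,
  and the end `2NM/q`.  If `y ≤ y'` are in the same block with no breakpoint of `h` in `(y, y']` then
  `h` translates both by the same amount, `|h y - h y'| ≤ 2 N δ`, so `h y`, `h y'` are in the same
  block (`far`), and the displacement of `h'` is the same. -/
def SpecCNJ : Prop := ∀ (V : Submodule ℚ ℝ*) (δ : ℝ*), δ ∈ V → 0 < δ → Infinitesimal δ →
  ∀ (M N : ℕ) (c : Fin M → ℝ*), Blk V δ M N c → ∀ T : Finset (Equiv.Perm ℝ*),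
  (∀ h ∈ T, (∀ y, h y - y ∈ V) ∧ (∃ D : Finset ℝ*, Trans D h) ∧
    ∀ y, h y ≠ y → ∃ i, c i - N * δ ≤ y ∧ y < c i + N * δ) →
  Amen (PTg (scl (((2 * N * M + 1 : ℕ) : ℝ*) * δ) (infp V)).toAddSubgroup JJ) →
  Amen (Subgroup.closure (T : Set (Equiv.Perm ℝ*)))

/-- SCF.  Finite-dimensional bookkeeping.  `top`: `δ = |b|`, `b` the largest element (in absolute
value) of a finite basis of `infp V`.  `sc1`: direct.  `drop`: multiplication by `q δ` is an isomorphism
from `scl (qδ) (infp V)` onto `infp V`; `1/q` is in `scl (qδ) (infp V)` and not infinitesimal. -/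
structure SpecSCF : Prop where
  top : ∀ V : Submodule ℚ ℝ*, FiniteDimensional ℚ V → infp V ≠ ⊥ →
    ∃ δ ∈ V, 0 < δ ∧ Infinitesimal δ ∧ ∀ t ∈ V, Infinitesimal t → ∃ n : ℕ, |t| ≤ n * δ
  one : ∀ V : Submodule ℚ ℝ*, scl 1 V = V
  gp : ∀ (V W : Submodule ℚ ℝ*), W ≤ V → GP V → GP W
  gps : ∀ (V : Submodule ℚ ℝ*) (δ : ℝ*), 0 < δ → GP V → GP (scl δ V)
  le : ∀ V : Submodule ℚ ℝ*, infp V ≤ V
  fin : ∀ (V : Submodule ℚ ℝ*) (δ : ℝ*), δ ≠ 0 → FiniteDimensional ℚ V →
    FiniteDimensional ℚ (scl δ V)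
  finI : ∀ (V : Submodule ℚ ℝ*), FiniteDimensional ℚ V → FiniteDimensional ℚ (infp V)
  drop : ∀ (V : Submodule ℚ ℝ*) (δ : ℝ*) (q : ℕ), FiniteDimensional ℚ V → δ ∈ V → 0 < δ →
    Infinitesimal δ → 0 < q →
    Module.finrank ℚ (infp (scl ((q : ℝ*) * δ) (infp V))) < Module.finrank ℚ (infp V)

/-- REC (from KER, BLK, CNJ, SCF).  First `V` finite-dimensional, induction on `finrank (infp V)` (for all
`V`).  If `infp V = ⊥`: `amen_PTg` (Kern2.lean) with `L' = V`, `δ = ε` (`HL`: an infinitesimal element of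
`V` is `0 = 0 * ε`).  Otherwise `amen_PTg_of` (RealPart.lean), `h1` = `GP V` at `δ = 1`; for `h2` proceed
as in `amen_closure` (Kern2.lean) to get the data `MDat` with `L' = V` and `δ` from SCF.top; then KER,
BLK, CNJ and the induction hypothesis for `scl (q δ) (infp V)`.
In general: `Amen.of_locally`: a finite subset of `PTg V JJ` has finitely many displacements; they span
a finite-dimensional `V' ≤ V`. -/
def SpecREC : Prop := ∀ V : Submodule ℚ ℝ*, GP V → Amen (PTg V.toAddSubgroup JJ)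

/-! ### Part C: fields and Baire category -/

/-- The `F`-subspace of the hyperreals generated by `e 0, e 1, e 2`. -/
noncomputable def SPs (F : Subfield ℝ*) (e : Fin 3 → ℝ*) : Submodule ℚ ℝ* where
  carrier := {v | ∃ c : Fin 3 → ℝ*, (∀ i, c i ∈ F) ∧ v = ∑ i, c i * e i}
  zero_mem' := ⟨0, fun _ => F.zero_mem, by simp⟩
  add_mem' := by
    rintro a b ⟨c, hc, rfl⟩ ⟨d, hd, rfl⟩
    exact ⟨c + d, fun i => F.add_mem (hc i) (hd i), by
      simp [add_mul, Finset.sum_add_distrib]⟩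
  smul_mem' := by
    rintro q a ⟨c, hc, rfl⟩
    exact ⟨fun i => q • c i, fun i => SubfieldClass.qsmul_mem F q (hc i), by
      simp [Finset.smul_sum]⟩

/-- the finite elements of `F` have standard parts in `K` -/
def Res (F : Subfield ℝ*) (K : Subfield ℝ) : Prop := ∀ t ∈ F, ¬ Infinite t → st t ∈ K

/-- GPF.  Fix `δ > 0` and let `R = stL (scl δ (SPs F e))`, i.e. `r ∈ R` iff `IsSt t r` for some `t` with
`δ t ∈ SPs F e`.  Any four elements `r_i` of `R` are linearly dependent over `K`: the `δ t_i` are in a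
3-generated `F`-space, so `∑ c_i t_i = 0` with `c_i ∈ F` not all 0; divide by a `c_j` of maximal absolute
value; `c_i / c_j ∈ F` is finite with standard part `k_i ∈ K`, `k_j = 1`, and `∑ k_i r_i = 0`.  Hence `R`
is contained in `SP K e'` for some `e'` (a maximal independent family in `R`, padded by 0; or rank of
the `K`-span).  `PTg_mono`, `Amen.of_le`. -/
def SpecGPF : Prop := ∀ (F : Subfield ℝ*) (K : Subfield ℝ), Res F K → G3 K →
  ∀ e : Fin 3 → ℝ*, GP (SPs F e)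

/-- RSA.  `x = a + ε₀`, `ε₀ ≠ 0` infinitesimal.  Elements of the closure are quotients `p/q`,
`p, q ∈ K[ε₀]` (`Subfield.mem_closure_iff`; the subring closure is the set of values of polynomials over
`K` at `ε₀`).  `p = ε₀^r (a_r + infinitesimal)` with `a_r ≠ 0` the lowest nonzero coefficient; same for
`q = ε₀^s (b_s + ...)`.  If `r = s` the standard part is `a_r / b_s`, if `r > s` it is 0, if `r < s` the
quotient is infinite. -/
def SpecRSA : Prop := ∀ (K : Subfield ℝ) (a : ℝ) (x : ℝ*), a ∈ K → IsSt x a → x ≠ (a : ℝ*) →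
  Res (Subfield.closure (((fun r : ℝ => (r : ℝ*)) '' (K : Set ℝ)) ∪ {x})) K

/-- No nonzero polynomial over `K` vanishes at `x`. -/
def AI (K : Subfield ℝ) {d : ℕ} (x : Fin d → ℝ) : Prop :=
  ∀ p : MvPolynomial (Fin d) K, MvPolynomial.aeval x p = 0 → p = 0

/-- RSB.  Elements of the closure are `p(x)/q(x)` with `p, q` polynomials over `K`, `q(x) ≠ 0`, so
`q ≠ 0`, so `q(x0) ≠ 0`; `st (p(x)/q(x)) = p(x0)/q(x0)` (polynomials are compatible with `IsSt`). -/
def SpecRSB : Prop := ∀ (K : Subfield ℝ) (d : ℕ) (x0 : Fin d → ℝ) (x : Fin d → ℝ*), AI K x0 →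
  (∀ i, IsSt (x i) (x0 i)) →
  Res (Subfield.closure (((fun r : ℝ => (r : ℝ*)) '' (K : Set ℝ)) ∪ Set.range x)) (KX K x0)

/-- EXA.  The proof of `exists_mem_ASet` (Baire.lean), where `amen_PTg hL hA` is replaced by the
hypothesis. -/
def SpecEXA : Prop := ∀ (X E : Type) [AddCommGroup E] (ev : E →+ (X → ℝ)) (x : ℕ → X),
  Amen (PTg (evStar ev x).range JJ) → ∀ (k N : ℕ) (F : Finset E) (m : ℕ),
  ∃ n, x n ∈ ASet ev k N F m

/-- Forms `(∑ f_i(x) e_i) / s(x)`. -/
noncomputable def evK (K : Subfield ℝ) (d : ℕ) (s : MvPolynomial (Fin d) K) :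
    (Fin 3 → MvPolynomial (Fin d) K) →+ ((Fin d → ℝ) × (Fin 3 → ℝ) → ℝ) where
  toFun f := fun p => (∑ i, MvPolynomial.aeval p.1 (f i) * p.2 i) / MvPolynomial.aeval p.1 s
  map_zero' := by
    funext p
    simp
  map_add' := by
    intro f g
    funext p
    simp only [Pi.add_apply, map_add, add_mul, Finset.sum_add_distrib, add_div]

/-- the parameters for which the forms with denominator `s` are good for all `e` -/
def AK (K : Subfield ℝ) (d : ℕ) (s : MvPolynomial (Fin d) K) (k N : ℕ)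
    (F : Finset (Fin 3 → MvPolynomial (Fin d) K)) (m : ℕ) : Set (Fin d → ℝ) :=
  {x | ∀ e : Fin 3 → ℝ, (x, e) ∈ ASet (evK K d s) k N F m}

/-- the field generated by `K` and a sequence of parameters -/
noncomputable def FSt (K : Subfield ℝ) {d : ℕ} (x : ℕ → Fin d → ℝ) : Subfield ℝ* :=
  Subfield.closure (((fun r : ℝ => (r : ℝ*)) '' (K : Set ℝ)) ∪
    Set.range (fun i => ofSeq (fun n => x n i)))

/-- FIL (from REC, GPF, EXA).  Otherwise there is a sequence `x n → 𝓕` with `x n ∉ AK` (as in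
`ASet_mem_nhds`), so `e n` with `(x n, e n) ∉ ASet`.  The values of the forms along the sequence
`(x n, e n)` are in `SPs (FSt K x) e*`, `e* i = ofSeq (e · i)` (the value of a polynomial over `K` along the
sequence is in `FSt K x`, by induction on the polynomial; quotient).  GPF and REC: the group over
`SPs (FSt K x) e*` is amenable; `PTg_mono`; EXA contradicts `(x n, e n) ∉ ASet`. -/
def SpecFIL : Prop := ∀ (K : Subfield ℝ) (d : ℕ) (f : Filter (Fin d → ℝ)),
  f.IsCountablyGenerated → (∀ x : ℕ → Fin d → ℝ, Tendsto x atTop f →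
    ∃ K0 : Subfield ℝ, G3 K0 ∧ Res (FSt K x) K0) →
  ∀ (s : MvPolynomial (Fin d) K) (k N : ℕ) (F : Finset (Fin 3 → MvPolynomial (Fin d) K)) (m : ℕ),
    ∀ᶠ x in f, x ∈ AK K d s k N F m

/-- ALL.  Proof of `amen_of_forall_ASet` (Baire.lean), where for a finite set of group elements, with
finitely many displacements `v = ∑ c_i e_i`, `c_i ∈ KX K x`, one takes `s` = a common denominator:
`c_i = p_i(x)/q_i(x)` (`Subfield.mem_closure_iff`, and the subring closure is the set of values of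
polynomials), `s(x) ≠ 0`. -/
def SpecALL : Prop := ∀ (K : Subfield ℝ) (d : ℕ) (x : Fin d → ℝ),
  (∀ s k N F m, x ∈ AK K d s k N F m) → G3 (KX K x)

/-- ONE (from FIL, RSA, ALL).  As `residual_one` (Baire.lean).  Work in `Fin 1 → ℝ` (constant
functions): near every `a ∈ K`, `a` excluded, all parameters are in `AK K 1 s k N F m` (FIL for the image
of `𝓝[≠] a`, RSA with `K0 = K`); `K` is dense; countable intersection over `s, k, N, F, m` (`K` countable,
so the polynomials are countable); ALL. -/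
def SpecONE : Prop := ∀ K : Subfield ℝ, Countable K → G3 K →
  ∀ᶠ y in residual ℝ, G3 (Subfield.closure ((K : Set ℝ) ∪ {y}))

/-- DNS (from ONE).  Induction on `d`.  Given a box, take by induction a tail `x' ∈ ℝ^d` with `AI K x'`,
`G3 (KX K x')`; `KX K x'` is countable; by ONE, for comeagre `y`: `G3 (closure (KX K x' ∪ {y}))` and
`y` is not algebraic over `KX K x'` (countably many polynomials, each with finitely many roots).  Take
`x = Fin.cons y x'`.  `AI K x`: `MvPolynomial.finSuccEquiv` writes `p = ∑ c_j(X_1..X_d) X_0^j`; if `p ≠ 0`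
some `c_j ≠ 0`, so `c_j(x') ≠ 0`, so the polynomial `∑ c_j(x') X^j` over `KX K x'` is nonzero and does
not vanish at `y`. -/
def SpecDNS : Prop := ∀ (d : ℕ) (K : Subfield ℝ), Countable K → G3 K →
  Dense {x : Fin d → ℝ | AI K x ∧ G3 (KX K x)}

/-- RSD (from FIL, RSB, ALL, DNS).  As `residual_good` (Baire.lean): near a point `x0` with `AI K x0`,
`G3 (KX K x0)` all parameters are in `AK` (FIL for `𝓝 x0`, RSB with `K0 = KX K x0`). -/
def SpecRSD : Prop := ∀ (d : ℕ) (K : Subfield ℝ), Countable K → G3 K →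
  ∀ᶠ x in residual (Fin d → ℝ), G3 (KX K x)

/-- PER.  `mycielski` (Perfect.lean) for the comeagre sets `{x | G3 (KX ⊥ x) ∧ x algebraically
independent}` (the second condition is comeagre: countably many nonzero polynomials, the zero set of
each is closed and nowhere dense) gives `f` continuous such that for all `d` and all injective
`x : Fin d → (ℕ → Bool)` the tuple `f ∘ x` is in these sets (cf. `exists_cantor`, Cont.lean).
`AlgebraicIndependent ℚ f`: enough for finite subfamilies.  `G3 (closure (range f))`: by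
`Amen.of_locally` (or `Amen.of_local_injective`): finitely many displacements `∑ c_i e_i`; all
coefficients are in `closure (f '' T)`, `T` finite (the union of the `closure (f '' T)` is a field:
directed union), and `closure (f '' T) ≤ KX ⊥ (f ∘ enumeration of T)`. -/
def SpecPER : Prop := (∀ d : ℕ, ∀ᶠ x in residual (Fin d → ℝ), G3 (KX ⊥ x)) →
  ∃ f : (ℕ → Bool) → ℝ, Continuous f ∧ AlgebraicIndependent ℚ f ∧
    G3 (Subfield.closure (Set.range f))

/-- the group of interval exchanges with translations in `Λ` has an invariant mean -/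
def IetMean (Λ : Set ℝ) : Prop := ∀ H : Subgroup (Equiv.Perm (Set.Ico (0 : ℝ) 1)),
  H = Subgroup.closure
    {g : Equiv.Perm (Set.Ico (0 : ℝ) 1) |
      ∃ n : ℕ, ∃ a : Fin (n + 1) → ℝ, StrictMono a ∧ a 0 = 0 ∧ a (Fin.last n) = 1 ∧
        ∃ t : Fin n → ℝ, (∀ i, t i ∈ Λ) ∧
          ∀ i : Fin n, ∀ x : Set.Ico (0 : ℝ) 1,
            a i.castSucc ≤ x.1 → x.1 < a i.succ → (g x).1 = x.1 + t i} →
  ∃ m : Set H → ℝ,
    (∀ A : Set H, 0 ≤ m A) ∧
    m Set.univ = 1 ∧
    (∀ A B : Set H, Disjoint A B → m (A ∪ B) = m A + m B) ∧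
    (∀ (g : H) (A : Set H), m ((fun x => g * x) '' A) = m A)

/-- FIN.  `amen_iet`, `Amen.exists_mean` (Iet.lean, Amen2.lean; see Results/ContinuumRank.lean).  `Λ` of
dimension `≤ 3` over `K` is contained in `SP K e`: a spanning family of 3 elements. -/
def SpecFIN : Prop := ∀ K : Subfield ℝ, G3 K → ∀ Λ : Submodule K ℝ, Module.rank K Λ ≤ 3 →
  IetMean (Λ : Set ℝ)

end JG
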