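import Mathlib
import Pool.Agent.Lib.MP_98125f_al.JG.Spec

/-!
MP_98125f_al, JG part E: the group of interval exchanges is amenable if and only if permutations of
finite intervals with a bounded number of pieces are uniformly amenable (`UF`).

Module `XXX` = file `JG/XXX.lean`, imports `JG.SpecE` only, theorem
`specXXX (hypotheses named in the docstring) : SpecXXX` in the namespace `JG.XXXM`.
-/

set_option autoImplicit false
set_option linter.deprecated false

namespace JG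

open Filter Topology Hyperreal Pool.Agent.Lib.MP98125f

/-- `g` is a translation on each of at most `N + 1` consecutive intervals of `{0, ..., q-1}`. -/
def IPF (q N : ℕ) (g : Equiv.Perm (Fin q)) : Prop :=
  ∃ B : Finset (Fin q), B.card ≤ N ∧ ∀ x y : Fin q, x ≤ y → (∀ b ∈ B, ¬ (x < b ∧ b ≤ y)) →
    ((g y : ℕ) : ℤ) - ((y : ℕ) : ℤ) = ((g x : ℕ) : ℤ) - ((x : ℕ) : ℤ)

/-- Uniform amenability of interval exchange permutations. -/
def UF : Prop := ∀ k N m : ℕ, ∃ R : ℕ, ∀ (q : ℕ) (g : Fin k → Equiv.Perm (Fin q)),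
  (∀ j, IPF q N (g j)) →
  ∃ F : Finset (Equiv.Perm (Fin q)), F.Nonempty ∧ F.card ≤ R ∧
    ∀ j, m * Set.ncard {z | z ∈ F ∧ g j * z ∉ F} ≤ F.card

/-- Foelner form of the amenability of the group of interval exchanges -/
def AmI : Prop := Amen (PTg (⊤ : AddSubgroup ℝ) (Set.Ico (0 : ℝ) 1))

/-- the interval exchange transformations -/
def IetSetA : Set (Equiv.Perm (Set.Ico (0 : ℝ) 1)) :=
  {f : Equiv.Perm (Set.Ico (0:ℝ) 1) |
    ∃ n : ℕ, ∃ a : Fin (n + 1) → ℝ, StrictMono a ∧ a 0 = 0 ∧ a (Fin.last n) = 1 ∧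
      ∃ t : Fin n → ℝ, ∀ i : Fin n, ∀ x : Set.Ico (0:ℝ) 1,
        a i.castSucc ≤ x.1 → x.1 < a i.succ → (f x).1 = x.1 + t i}

/-- invariant means -/
def Mean (G : Type) [Group G] : Prop := ∃ m : Set G → ℝ,
  (∀ A : Set G, 0 ≤ m A) ∧ m Set.univ = 1 ∧
  (∀ A B : Set G, Disjoint A B → m (A ∪ B) = m A + m B) ∧
  (∀ (g : G) (A : Set G), m ((fun x => g * x) '' A) = m A)

/-- M2F.  Not Foelner: there are `S` and `m` with: for every finite nonempty `F` some `g ∈ S` has
`m |{x ∈ F : g x ∉ F}| > |F|`.  With `T = S ∪ {1}`: `|T F| ≥ (1 + 1/m)|F|`, so for some `j` and `K = T^j`: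
`|K F| ≥ 2 |F|` for all finite `F`.  Hall's theorem
(`Finset.all_card_le_biUnion_card_iff_exists_injective`, index set `G × Bool`, sets
`t (x,i) = {k x : k ∈ K}`): an injective `f : G × Bool → G` with `f(x,i) ∈ K x`.  For `i` fixed the sets
`A_k = {x : f(x,i) = k x}`, `k ∈ K`, form a partition of `G`, so
`1 = ∑ m(A_k) = ∑ m(k A_k) = m(f(G × {i}))`; the two images are disjoint: `m(G) ≥ 2`. -/
def SpecM2F : Prop := ∀ (G : Type) [Group G], Mean G → Amen G

/-- I2P.  `g ∈ PTg ⊤ [0,1)` preserves `[0,1)`; its restriction (`Equiv.Perm.subtypePerm`) is an interval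
exchange: `a` = increasing enumeration of `{0,1} ∪ (B ∩ (0,1))` (`Finset.orderEmbOfFin`),
`t i = g (a i) - a i`.  The restriction is an injective homomorphism. -/
def SpecI2P : Prop := Amen (Subgroup.closure IetSetA) → AmI

/-- P2I.  `amen_iet` (Iet.lean) for `V = ⊤`. -/
def SpecP2I : Prop := AmI → Amen (Subgroup.closure IetSetA)

/-- Uniform version over the reals. -/
def UR : Prop := ∀ k N m : ℕ, ∃ R : ℕ, ∀ g : Fin k → Equiv.Perm ℝ,
  (∀ j, (∀ y ∉ Set.Ico (0:ℝ) 1, g j y = y) ∧ ∃ B : Finset ℝ, B.card ≤ N ∧ Trans B (g j)) →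
  ∃ F : Finset (Equiv.Perm ℝ), F.Nonempty ∧ F.card ≤ R ∧
    ∀ j, m * Set.ncard {z | z ∈ F ∧ g j * z ∉ F} ≤ F.card

/-- UNI (from REC).  `GP ⊤` holds (`stL _ ≤ ⊤`, `PTg_mono`), so by REC `PTg ⊤ JJ` is amenable.  If `UR`
fails for `k, N, m` there are `g R` for all `R`; the germ of `g` is in `PTg ⊤ JJ` (the proof of
`star_mem_PTg`, Transfer.lean, only the part on breakpoints and the support is needed).  The proof of
`transfer`: a Foelner set `F` of the group over the hyperreals gives for ultrafilter-many `n` a Foelner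
set of `g n` of cardinality `|F|`; take such an `n ≥ |F|`: contradiction. -/
def SpecUNI : Prop := AmI → UR

/-- The action of permutations of `{0, ..., q-1}` on `[0,1)` by a grid. -/
structure GRDP (u : ∀ q : ℕ, Equiv.Perm (Fin q) →* Equiv.Perm ℝ) : Prop where
  inj : ∀ q, Function.Injective (u q)
  out : ∀ q g, ∀ y ∉ Set.Ico (0:ℝ) 1, u q g y = y
  inn : ∀ q g (i : Fin q) (y : ℝ), ((i : ℕ) : ℝ) / q ≤ y → y < (((i : ℕ) : ℝ) + 1) / q →
    u q g y = y + (((g i : ℕ) : ℝ) - ((i : ℕ) : ℝ)) / q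
  tr : ∀ q g N, IPF q N g → ∃ B : Finset ℝ, B.card ≤ N + 2 ∧ Trans B (u q g)

/-- GRD.  `y ∈ [0,1)` is in the cell `i = ⌊q y⌋`.  (`q = 0`: the trivial homomorphism.) -/
def SpecGRD : Prop := ∃ u : ∀ q : ℕ, Equiv.Perm (Fin q) →* Equiv.Perm ℝ, GRDP u

/-- R2F (from GRD).  Given `k, N, m` take `R` from `UR` for `k, N+2, m (k+1)`.  For `g` in `Perm (Fin q)`
let `F` be the set of `UR` for `u q (g j)`.  The right cosets of the image of `u q`: as in the proof of
`Amen.of_local_injective` some coset part `F₀ = F ∩ (image * x)` is nonempty with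
`m |{z ∈ F₀ : g_j z ∉ F₀}| ≤ |F₀|` for all `j`; `F₀ = u(F') x` with `F' ⊆ Perm (Fin q)`,
`|F'| = |F₀| ≤ R`. -/
def SpecR2F : Prop := UR → UF

/-! ### from finite to infinite -/

/-- APX.  Take a basis of `V` containing 1 and rational approximations of the other basis vectors. -/
def SpecAPX : Prop := ∀ (V : Submodule ℚ ℝ) (h1 : (1 : ℝ) ∈ V), FiniteDimensional ℚ V →
  ∃ φ : ℕ → V →ₗ[ℚ] ℚ, (∀ n, φ n ⟨1, h1⟩ = 1) ∧
    ∀ v : V, Tendsto (fun n => ((φ n v : ℚ) : ℝ)) atTop (𝓝 (v : ℝ))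

/-- `[0,1)` in `V` -/
def JV (V : Submodule ℚ ℝ) : Set V := {v | (0 : ℝ) ≤ v ∧ (v : ℝ) < 1}

/-- piecewise translations of `V`, trivial outside `[0,1)` -/
noncomputable abbrev PV (V : Submodule ℚ ℝ) : Subgroup (Equiv.Perm V) := PTg (⊤ : AddSubgroup V) (JV V)

structure STVP (V : Submodule ℚ ℝ) (f : V →+ ℝ*) (p : PV V →* Equiv.Perm ℝ*) : Prop where
  inj : Function.Injective p
  neg : ∀ g x, x < 0 → p g x = x
  pos : ∀ (g : PV V) (B : Finset V) (x : ℝ*) (v : V), Trans B g.1 → f v ≤ x →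
    (∀ b ∈ B, ¬ (v < b ∧ f b ≤ x)) → p g x = x + f (g.1 v - v)

/-- STV.  As `tau` in RealPart.lean.  For `g ∈ PV V` and `x ∈ ℝ*` let `D g x t` mean: there is `v ∈ V`,
`f v ≤ x`, with `g w - w = t` for all `w ≥ v` with `f w ≤ x`; or `x < 0` and `t = 0`.  Existence: the
greatest breakpoint with `f b ≤ x` (or `v = 0`); uniqueness (compare at the larger `v`; for `x < 0`:
`w < 0`, `g w = w`); `D h x t`, `D g (x + f t) u` imply `D (g h) x (t + u)`: for `w ≥ max v (v' - t)`,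
`f w ≤ x`: `h w = w + t`, `f (w + t) ≤ x + f t`, `w + t ≥ v'`.  (If `x ≥ 0` then `x + f t ≥ 0` since
`g` preserves `[0,1)`: `x ≥ f w` and `w + t ≥ 0` for a `w ≥ 0`.)  So `x ↦ x + f (D g x)` is an action of
`PV V` on `ℝ*` (`MonoidHom.toHomPerm`).  `inj`: on `f V` it is `f v ↦ f (g v)`, and `f` is injective. -/
def SpecSTV : Prop := ∀ (V : Submodule ℚ ℝ), (1 : ℝ) ∈ V → ∀ f : V →+ ℝ*,
  (∀ v : V, (0 : ℝ) < v → 0 < f v) → ∃ p : PV V →* Equiv.Perm ℝ*, STVP V f p

/-- the germ of a sequence of grid permutations, acting on the hyperreals -/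
noncomputable def gst (u : ∀ q : ℕ, Equiv.Perm (Fin q) →* Equiv.Perm ℝ) (q : ℕ → ℕ)
    (g : ∀ n, Equiv.Perm (Fin (q n))) : Equiv.Perm ℝ* :=
  starHom ((fun n => u (q n) (g n) : ℕ → Equiv.Perm ℝ) : Pool.Agent.Lib.MP98125f.GP)

/-- SEQ.  Let `q n` be a common denominator of the `φ n b`, `φ n t` for the breakpoints `b ∈ B g` and the
displacements `t` of the `g ∈ T`.  For `g ∈ T` define `c n : Fin (q n) → ℤ` by
`c i = i + q φ n (t)`, `t` the displacement of `g` at the greatest breakpoint `b` with `φ n b ≤ i/q` (or at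
`0`).  For ultrafilter-many `n` this is an injection into `{0, ..., q-1}`: otherwise choose
`x n ≠ y n` in the grid with the same image, or `x n` with image outside; the germs contradict that
`p g` is a permutation preserving `[0,1)` (`STVP`).  So it is a permutation `ĝ n` for these `n`; put
`ĝ n = 1` for the others.  `IPF (q n) N (ĝ n)`: breakpoints `q φ n b`.  `p g = gst`: compare at
`x = ofSeq x`: in the cell `i = ⌊q x⌋` the breakpoints `φ n b ≤ x` are those with `φ n b ≤ i/q`. -/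
def SpecSEQ : Prop := ∀ (V : Submodule ℚ ℝ) (h1 : (1 : ℝ) ∈ V) (φ : ℕ → V →ₗ[ℚ] ℚ),
  (∀ n, φ n ⟨1, h1⟩ = 1) → (∀ v : V, Tendsto (fun n => ((φ n v : ℚ) : ℝ)) atTop (𝓝 (v : ℝ))) →
  ∀ (f : V →+ ℝ*), (∀ v, f v = ofSeq (fun n => ((φ n v : ℚ) : ℝ))) →
  ∀ (p : PV V →* Equiv.Perm ℝ*), STVP V f p →
  ∀ (u : ∀ q : ℕ, Equiv.Perm (Fin q) →* Equiv.Perm ℝ), GRDP u →
  ∀ (T : Finset (PV V)) (N : ℕ), (∀ g ∈ T, ∃ B : Finset V, B.card ≤ N ∧ Trans B g.1) →
  ∃ q : ℕ → ℕ, ∀ g ∈ T, ∃ c : ∀ n, Equiv.Perm (Fin (q n)), (∀ n, IPF (q n) N (c n)) ∧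
    p g = gst u q c

/-- GRM.  For each `n` the set `F n` of `UF` for `c n`, `|F n| ≤ R`; for ultrafilter-many `n` the
cardinality is constant `= r ≥ 1`; enumerate `F n = {z n i : i < r}` (any enumeration for the other
`n`), `F` = the germs of `u (q n) (z n i)`, moved to `Perm ℝ*` by `starHom` (injective).  They are
distinct, and `gst u q c_j * [z i]` is in `F` if and only if `c_j n * z n i ∈ F n` for
ultrafilter-many `n` (finite choice).  So the number of bad elements is the (constant) number for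
ultrafilter-many `n`. -/
def SpecGRM : Prop := UF → ∀ (u : ∀ q : ℕ, Equiv.Perm (Fin q) →* Equiv.Perm ℝ), GRDP u →
  ∀ (k N m : ℕ) (q : ℕ → ℕ) (c : ∀ n, Fin k → Equiv.Perm (Fin (q n))),
  (∀ n j, IPF (q n) N (c n j)) →
  ∃ F : Finset (Equiv.Perm ℝ*), F.Nonempty ∧
    ∀ j, m * Set.ncard {z | z ∈ F ∧ gst u q (fun n => c n j) * z ∉ F} ≤ F.card

/-- RST.  `V` = the span of 1, the breakpoints and the displacements (`Trans.finite_range`) of the
elements of `S`.  The `h ∈ Perm ℝ` which preserve `V` and whose restriction to `V` is in `PV V` form a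
subgroup containing `S`.  Injective on `closure S`: `h ∈ PTg ⊤ [0,1)`; if `h` is trivial on `V` (dense) then
for `x ∈ ℝ` and `v ∈ V`, `v > x` close to `x`: `h x - x = h v - v = 0`. -/
def SpecRST : Prop := ∀ S : Finset (Equiv.Perm ℝ),
  (∀ s ∈ S, s ∈ PTg (⊤ : AddSubgroup ℝ) (Set.Ico (0 : ℝ) 1)) →
  ∃ V : Submodule ℚ ℝ, (1 : ℝ) ∈ V ∧ FiniteDimensional ℚ V ∧
    ∃ r : Subgroup.closure (S : Set (Equiv.Perm ℝ)) →* PV V, Function.Injective r

/-- F2A (from GRD, APX, STV, SEQ, GRM, RST).  `Amen.of_locally`: a finite subset `S` of the group;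
`V`, `r` from RST, `φ` from APX, `f v` = germ of `φ n v` (positive on positive elements), `p` from STV.
`Amen.of_local_injective` for `p ∘ r`: finitely many elements of `closure S` go to a finite subset `T` of
`PV V`; SEQ and GRM give the Foelner set in `Perm ℝ*`. -/
def SpecF2A : Prop := UF → AmI

/-- EQV (from M2F, I2P, P2I, UNI, R2F, F2A).  The amenability of the group of interval exchange
transformations (statement S02411) is equivalent to `UF`. -/
def SpecEQV : Prop := (∀ H : Subgroup (Equiv.Perm (Set.Ico (0:ℝ) 1)),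
      H = Subgroup.closure
        {f : Equiv.Perm (Set.Ico (0:ℝ) 1) |
          ∃ n : ℕ, ∃ a : Fin (n + 1) → ℝ, StrictMono a ∧ a 0 = 0 ∧ a (Fin.last n) = 1 ∧
            ∃ t : Fin n → ℝ, ∀ i : Fin n, ∀ x : Set.Ico (0:ℝ) 1,
              a i.castSucc ≤ x.1 → x.1 < a i.succ → (f x).1 = x.1 + t i} →
      ∃ m : Set H → ℝ,
        (∀ A : Set H, 0 ≤ m A) ∧
        m Set.univ = 1 ∧
        (∀ A B : Set H, Disjoint A B → m (A ∪ B) = m A + m B) ∧
        (∀ (g : H) (A : Set H), m ((fun x => g * x) '' A) = m A)) ↔ UF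

end JG
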