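import Mathlib
import Pool.Agent.Lib.MP_98125f_al.JG.SpecE

/-!
MP_98125f_al, JG, module SEQ: piecewise translations of `V` as germs of grid permutations.
-/

set_option autoImplicit false
set_option linter.deprecated false

namespace JG

open Filter Topology Hyperreal Pool.Agent.Lib.MP98125f

namespace SEQM

/-- the breakpoints (and `0`) which are at most `x` for `ψ` -/
noncomputable def Sx {V : Submodule ℚ ℝ} (ψ : V →ₗ[ℚ] ℚ) (B : Finset V) (x : ℝ) : Finset V :=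
  (insert 0 B).filter (fun b => ((ψ b : ℚ) : ℝ) ≤ x)

/-- the greatest element -/
noncomputable def tp {V : Submodule ℚ ℝ} (S : Finset V) : V :=
  if h : S.Nonempty then S.max' h else 0

/-- the displacement at the greatest breakpoint which is at most `x` -/
noncomputable def dsp {V : Submodule ℚ ℝ} (g : Equiv.Perm V) (ψ : V →ₗ[ℚ] ℚ) (B : Finset V) (x : ℝ) : V :=
  g (tp (Sx ψ B x)) - tp (Sx ψ B x)

lemma mem_Sx {V : Submodule ℚ ℝ} (ψ : V →ₗ[ℚ] ℚ) (B : Finset V) (x : ℝ) (b : V) :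
    b ∈ Sx ψ B x ↔ (b = 0 ∨ b ∈ B) ∧ ((ψ b : ℚ) : ℝ) ≤ x := by
  unfold Sx
  rw [Finset.mem_filter, Finset.mem_insert]

lemma tp_mem {V : Submodule ℚ ℝ} (S : Finset V) (h : S.Nonempty) : tp S ∈ S := by
  unfold tp
  rw [dif_pos h]
  exact S.max'_mem h

lemma le_tp {V : Submodule ℚ ℝ} (S : Finset V) {b : V} (hb : b ∈ S) : b ≤ tp S := by
  unfold tp
  rw [dif_pos ⟨b, hb⟩]
  exact S.le_max' b hb

lemma Sx_nonempty {V : Submodule ℚ ℝ} (ψ : V →ₗ[ℚ] ℚ) (B : Finset V) {x : ℝ} (hx : 0 ≤ x) :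
    (Sx ψ B x).Nonempty := ⟨0, (mem_Sx ψ B x 0).2 ⟨Or.inl rfl, by simpa using hx⟩⟩

/-- The main formula. -/
lemma formula {V : Submodule ℚ ℝ} (φ : ℕ → V →ₗ[ℚ] ℚ) (f : V →+ ℝ*)
    (hf : ∀ v, f v = ofSeq (fun n => ((φ n v : ℚ) : ℝ))) (p : PV V →* Equiv.Perm ℝ*)
    (hp : STVP V f p) (g : PV V) (B : Finset V) (hB : Trans B g.1) (x : ℕ → ℝ)
    (hx : ∀ᶠ n in hyperfilter ℕ, 0 ≤ x n) :
    p g (ofSeq x) = ofSeq (fun n => x n + ((φ n (dsp g.1 (φ n) B (x n)) : ℚ) : ℝ)) := by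
  classical
  have h1 : ∀ᶠ n in hyperfilter ℕ, ∃ v ∈ ((insert 0 B : Finset V) : Set V),
      tp (Sx (φ n) B (x n)) = v := by
    filter_upwards [hx] with n hn
    have h2 := tp_mem _ (Sx_nonempty (φ n) B hn)
    have h3 := (mem_Sx _ _ _ _).1 h2
    exact ⟨_, by simpa using h3.1, rfl⟩
  rw [Ultrafilter.eventually_exists_mem_iff (Finset.finite_toSet _)] at h1
  obtain ⟨v, hv, hev⟩ := h1
  have h2 : f v ≤ ofSeq x := by
    rw [hf]
    apply ofSeq_le_ofSeq.2
    filter_upwards [hx, hev] with n hn hn2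
    rw [← hn2]
    exact ((mem_Sx _ _ _ _).1 (tp_mem _ (Sx_nonempty (φ n) B hn))).2
  have h3 : ∀ b ∈ B, ¬ (v < b ∧ f b ≤ ofSeq x) := by
    rintro b hb ⟨h4, h5⟩
    rw [hf] at h5
    have h6 := ofSeq_le_ofSeq.1 h5
    obtain ⟨n, hn1, hn2⟩ := (h6.and hev).exists
    have h7 : b ∈ Sx (φ n) B (x n) := (mem_Sx _ _ _ _).2 ⟨Or.inr hb, hn1⟩
    have h8 := le_tp _ h7
    rw [hn2] at h8
    exact absurd h4 (not_lt.2 h8)
  rw [hp.pos g B (ofSeq x) v hB h2 h3, hf]
  have h4 : ofSeq x + ofSeq (fun n => ((φ n (g.1 v - v) : ℚ) : ℝ)) =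
    ofSeq (fun n => x n + ((φ n (g.1 v - v) : ℚ) : ℝ)) := rfl
  rw [h4]
  apply ofSeq_eq.2
  filter_upwards [hev] with n hn
  unfold dsp
  rw [hn]

/-- Above `1` the permutation is trivial. -/
lemma triv {V : Submodule ℚ ℝ} (h1 : (1 : ℝ) ∈ V) (f : V →+ ℝ*) (hf1 : f ⟨1, h1⟩ = 1)
    (p : PV V →* Equiv.Perm ℝ*) (hp : STVP V f p) (g : PV V) (B : Finset V) (hB : Trans B g.1)
    (y : ℝ*) (hy : 1 ≤ y) : p g y = y := by
  classical
  let S : Finset V := (insert ⟨1, h1⟩ B).filter (fun b => f b ≤ y)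
  have hS : S.Nonempty := ⟨⟨1, h1⟩, Finset.mem_filter.2 ⟨Finset.mem_insert_self _ _, by
    rw [hf1]; exact hy⟩⟩
  have h2 := Finset.mem_filter.1 (tp_mem S hS)
  have h3 : (⟨1, h1⟩ : V) ≤ tp S := le_tp S (Finset.mem_filter.2 ⟨Finset.mem_insert_self _ _, by
    rw [hf1]; exact hy⟩)
  have h4 : g.1 (tp S) = tp S := by
    apply g.2.2.2
    rintro ⟨-, h5⟩
    have h6 : (1 : ℝ) ≤ ((tp S : V) : ℝ) := h3
    exact absurd h5 (not_lt.2 h6)
  rw [hp.pos g B y (tp S) hB h2.2 (by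
    rintro b hb ⟨h5, h6⟩
    have h7 : b ∈ S := Finset.mem_filter.2 ⟨Finset.mem_insert_of_mem hb, h6⟩
    exact absurd h5 (not_lt.2 (le_tp S h7)))]
  rw [h4, sub_self, map_zero, add_zero]

/-- `[0,1)` is preserved. -/
lemma pres {V : Submodule ℚ ℝ} (h1 : (1 : ℝ) ∈ V) (f : V →+ ℝ*) (hf1 : f ⟨1, h1⟩ = 1)
    (p : PV V →* Equiv.Perm ℝ*) (hp : STVP V f p) (g : PV V) (B : Finset V) (hB : Trans B g.1)
    (x : ℝ*) (hx0 : 0 ≤ x) (hx1 : x < 1) : 0 ≤ p g x ∧ p g x < 1 := by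
  constructor
  · by_contra h
    push Not at h
    have h2 := hp.neg g _ h
    have h3 := (p g).injective h2
    rw [h3] at h
    exact absurd h (not_lt.2 hx0)
  · by_contra h
    push Not at h
    have h2 := triv h1 f hf1 p hp g B hB _ h
    have h3 := (p g).injective h2
    rw [h3] at h
    exact absurd hx1 (not_lt.2 h)

/-- the image of the grid point `i` -/
noncomputable def KK {V : Submodule ℚ ℝ} (g : Equiv.Perm V) (ψ : V →ₗ[ℚ] ℚ) (B : Finset V) (q : ℕ)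
    (i : Fin q) : ℤ := ((i : ℕ) : ℤ) + ⌊(q : ℚ) * ψ (dsp g ψ B (((i : ℕ) : ℝ) / q))⌋

/-- `q` is a common denominator -/
def Den {V : Submodule ℚ ℝ} (g : Equiv.Perm V) (ψ : V →ₗ[ℚ] ℚ) (B : Finset V) (q : ℕ) : Prop :=
  ∀ b ∈ insert (0 : V) B, (∃ z : ℤ, (q : ℚ) * ψ b = z) ∧ ∃ z : ℤ, (q : ℚ) * ψ (g b - b) = z

lemma KK_eq {V : Submodule ℚ ℝ} (g : Equiv.Perm V) (ψ : V →ₗ[ℚ] ℚ) (B : Finset V) (q : ℕ)
    (hq : 0 < q) (hD : Den g ψ B q) (i : Fin q) : ((KK g ψ B q i : ℤ) : ℝ) / q =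
      ((i : ℕ) : ℝ) / q + ((ψ (dsp g ψ B (((i : ℕ) : ℝ) / q)) : ℚ) : ℝ) := by
  have hq' : (0 : ℝ) < q := by exact_mod_cast hq
  have hi : (0 : ℝ) ≤ ((i : ℕ) : ℝ) / q := by positivity
  have h1 := tp_mem _ (Sx_nonempty ψ B hi)
  have h2 := (mem_Sx _ _ _ _).1 h1
  obtain ⟨-, z, hz⟩ := hD (tp (Sx ψ B (((i : ℕ) : ℝ) / q))) (by simpa using h2.1)
  have h3 : (q : ℚ) * ψ (dsp g ψ B (((i : ℕ) : ℝ) / q)) = z := hz
  have h4 : (q : ℝ) * ((ψ (dsp g ψ B (((i : ℕ) : ℝ) / q)) : ℚ) : ℝ) = z := by exact_mod_cast h3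
  unfold KK
  rw [h3, Int.floor_intCast]
  push_cast
  rw [← h4]
  field_simp

/-- One step: a permutation of the grid. -/
lemma step {V : Submodule ℚ ℝ} (g : Equiv.Perm V) (ψ : V →ₗ[ℚ] ℚ) (B : Finset V) (q : ℕ)
    (hq : 0 < q) (hD : Den g ψ B q) (N : ℕ) (hN : B.card ≤ N) :
    ∃ c : Equiv.Perm (Fin q), IPF q N c ∧
      ((∀ i, 0 ≤ KK g ψ B q i ∧ KK g ψ B q i < q) → Function.Injective (KK g ψ B q) →
        ∀ i, ((c i : ℕ) : ℤ) = KK g ψ B q i) := by
  classical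
  have hq' : (0 : ℝ) < q := by exact_mod_cast hq
  by_cases hgood : (∀ i, 0 ≤ KK g ψ B q i ∧ KK g ψ B q i < q) ∧ Function.Injective (KK g ψ B q)
  · obtain ⟨h1, h2⟩ := hgood
    let c0 : Fin q → Fin q := fun i => ⟨(KK g ψ B q i).toNat, by
      have := h1 i
      omega⟩
    have hc0 : ∀ i, ((c0 i : ℕ) : ℤ) = KK g ψ B q i := by
      intro i
      show (((KK g ψ B q i).toNat : ℕ) : ℤ) = _
      exact Int.toNat_of_nonneg (h1 i).1
    have hinj : Function.Injective c0 := by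
      intro i j hij
      apply h2
      rw [← hc0, ← hc0, hij]
    let c : Equiv.Perm (Fin q) := Equiv.ofBijective c0 (Finite.injective_iff_bijective.1 hinj)
    have hc : ∀ i, ((c i : ℕ) : ℤ) = KK g ψ B q i := hc0
    refine ⟨c, ?_, fun _ _ => hc⟩
    let toF : V → Fin q := fun b => ⟨(⌊(q : ℚ) * ψ b⌋.toNat) % q, Nat.mod_lt _ hq⟩
    refine ⟨B.image toF, Finset.card_image_le.trans hN, ?_⟩
    intro x y hxy hno
    have hS : Sx ψ B (((x : ℕ) : ℝ) / q) = Sx ψ B (((y : ℕ) : ℝ) / q) := by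
      have hxy' : ((x : ℕ) : ℝ) / q ≤ ((y : ℕ) : ℝ) / q := by
        have : ((x : ℕ) : ℝ) ≤ ((y : ℕ) : ℝ) := by exact_mod_cast hxy
        exact div_le_div_of_nonneg_right this hq'.le
      apply Finset.Subset.antisymm
      · intro b hb
        rw [mem_Sx] at hb ⊢
        exact ⟨hb.1, hb.2.trans hxy'⟩
      · intro b hb
        rw [mem_Sx] at hb ⊢
        refine ⟨hb.1, ?_⟩
        by_contra hcon
        push Not at hcon
        obtain ⟨⟨z, hz⟩, -⟩ := hD b (by simpa using hb.1)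
        have hz' : (q : ℝ) * ((ψ b : ℚ) : ℝ) = z := by exact_mod_cast hz
        have e1 : (((x : ℕ) : ℤ) : ℝ) < (z : ℝ) := by
          rw [← hz']
          rw [div_lt_iff₀ hq'] at hcon
          push_cast
          linarith
        have e2 : (z : ℝ) ≤ (((y : ℕ) : ℤ) : ℝ) := by
          rw [← hz']
          have := hb.2
          rw [le_div_iff₀ hq'] at this
          push_cast
          linarith
        have e1' : ((x : ℕ) : ℤ) < z := by exact_mod_cast e1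
        have e2' : z ≤ ((y : ℕ) : ℤ) := by exact_mod_cast e2
        have hbB : b ∈ B := by
          rcases hb.1 with h | h
          · subst h
            rw [map_zero, mul_zero] at hz
            have : z = 0 := by exact_mod_cast hz.symm
            omega
          · exact h
        have hy := y.2
        have hval : ((toF b : Fin q) : ℕ) = z.toNat := by
          show (⌊(q : ℚ) * ψ b⌋.toNat) % q = z.toNat
          rw [hz, Int.floor_intCast]
          apply Nat.mod_eq_of_lt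
          omega
        apply hno (toF b) (Finset.mem_image_of_mem _ hbB)
        rw [Fin.lt_def, Fin.le_def, hval]
        omega
    rw [hc, hc]
    unfold KK
    have hd : dsp g ψ B (((x : ℕ) : ℝ) / q) = dsp g ψ B (((y : ℕ) : ℝ) / q) := by
      unfold dsp
      rw [hS]
    rw [hd]
    ring
  · refine ⟨1, ⟨∅, by simp, fun x y _ _ => by simp⟩, fun h1 h2 => absurd ⟨h1, h2⟩ hgood⟩

/-- A common denominator for finitely many vectors. -/
lemma exists_den {V : Submodule ℚ ℝ} (ψ : V →ₗ[ℚ] ℚ) (S : Finset V) :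
    ∃ q : ℕ, 0 < q ∧ ∀ s ∈ S, ∃ z : ℤ, (q : ℚ) * ψ s = z := by
  classical
  induction S using Finset.induction_on with
  | empty => exact ⟨1, one_pos, by simp⟩
  | insert a S ha ih =>
    obtain ⟨q, hq, h⟩ := ih
    refine ⟨q * (ψ a).den, Nat.mul_pos hq (ψ a).den_pos, ?_⟩
    intro s hs
    rcases Finset.mem_insert.1 hs with rfl | hs
    · refine ⟨(q : ℤ) * (ψ s).num, ?_⟩
      have := Rat.mul_den_eq_num (ψ s)
      push_cast
      rw [← this]
      ring
    · obtain ⟨z, hz⟩ := h s hs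
      refine ⟨z * (ψ a).den, ?_⟩
      push_cast
      rw [← hz]
      ring

end SEQM

open SEQM in
theorem SEQM.specSEQ : SpecSEQ := by
  classical
  intro V h1 φ hφ1 hφ f hf p hp u hu T N hT
  choose! B hBN hB using hT
  -- the denominators
  let Sig : Finset V := T.biUnion fun g => (insert 0 (B g)) ∪ (insert 0 (B g)).image (fun b => g.1 b - b)
  choose q hq hden using fun n => exists_den (φ n) Sig
  have hD : ∀ n, ∀ g ∈ T, Den g.1 (φ n) (B g) (q n) := by
    intro n g hg b hb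
    constructor
    · apply hden n
      exact Finset.mem_biUnion.2 ⟨g, hg, Finset.mem_union_left _ hb⟩
    · apply hden n
      exact Finset.mem_biUnion.2 ⟨g, hg, Finset.mem_union_right _ (Finset.mem_image_of_mem _ hb)⟩
  have hf1 : f ⟨1, h1⟩ = 1 := by
    rw [hf]
    have : (fun n => ((φ n ⟨1, h1⟩ : ℚ) : ℝ)) = fun _ => (1 : ℝ) := by
      funext n
      rw [hφ1]
      simp
    rw [this]
    rfl
  refine ⟨q, fun g hg => ?_⟩
  choose c hcI hcK using fun n => step g.1 (φ n) (B g) (q n) (hq n) (hD n g hg) N (hBN g hg)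
  refine ⟨c, hcI, ?_⟩
  have hqr : ∀ n, (0 : ℝ) < q n := fun n => by exact_mod_cast hq n
  -- the values are in the grid for almost all `n`
  have hA : ∀ᶠ n in hyperfilter ℕ, ∀ i, 0 ≤ KK g.1 (φ n) (B g) (q n) i ∧
      KK g.1 (φ n) (B g) (q n) i < q n := by
    by_contra hcon
    rw [← Ultrafilter.eventually_not] at hcon
    have h2 : ∀ n, ∃ i : Fin (q n), (¬ ∀ i, 0 ≤ KK g.1 (φ n) (B g) (q n) i ∧
      KK g.1 (φ n) (B g) (q n) i < q n) → ¬ (0 ≤ KK g.1 (φ n) (B g) (q n) i ∧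
      KK g.1 (φ n) (B g) (q n) i < q n) := by
      intro n
      by_cases h3 : ∀ i, 0 ≤ KK g.1 (φ n) (B g) (q n) i ∧ KK g.1 (φ n) (B g) (q n) i < q n
      · exact ⟨⟨0, hq n⟩, fun h4 => absurd h3 h4⟩
      · push Not at h3
        obtain ⟨i, hi⟩ := h3
        exact ⟨i, fun _ h5 => absurd h5.2 (not_lt.2 (hi h5.1))⟩
    choose i hi using h2
    have hx0 : ∀ n, (0 : ℝ) ≤ ((i n : ℕ) : ℝ) / q n := fun n => div_nonneg (by positivity) (hqr n).le
    have hx1 : ∀ n, ((i n : ℕ) : ℝ) / q n < 1 := by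
      intro n
      rw [div_lt_one (hqr n)]
      exact_mod_cast (i n).2
    have h3 := formula φ f hf p hp g (B g) (hB g hg) (fun n => ((i n : ℕ) : ℝ) / q n)
      (Eventually.of_forall hx0)
    have h4 : (fun n => ((i n : ℕ) : ℝ) / q n +
        ((φ n (dsp g.1 (φ n) (B g) (((i n : ℕ) : ℝ) / q n)) : ℚ) : ℝ)) =
        fun n => ((KK g.1 (φ n) (B g) (q n) (i n) : ℤ) : ℝ) / q n := by
      funext n
      rw [KK_eq g.1 (φ n) (B g) (q n) (hq n) (hD n g hg) (i n)]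
    rw [h4] at h3
    have h5 := pres h1 f hf1 p hp g (B g) (hB g hg) (ofSeq fun n => ((i n : ℕ) : ℝ) / q n)
      (by
        have : ofSeq (fun _ => (0 : ℝ)) ≤ ofSeq (fun n => ((i n : ℕ) : ℝ) / q n) :=
          ofSeq_le_ofSeq.2 (Eventually.of_forall hx0)
        exact this)
      (by
        have : ofSeq (fun n => ((i n : ℕ) : ℝ) / q n) < ofSeq (fun _ => (1 : ℝ)) :=
          ofSeq_lt_ofSeq.2 (Eventually.of_forall hx1)
        exact this)
    rw [h3] at h5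
    have h6 : ∀ᶠ n in hyperfilter ℕ, (0 : ℝ) ≤ ((KK g.1 (φ n) (B g) (q n) (i n) : ℤ) : ℝ) / q n := by
      have : ofSeq (fun _ => (0 : ℝ)) ≤
        ofSeq (fun n => ((KK g.1 (φ n) (B g) (q n) (i n) : ℤ) : ℝ) / q n) := h5.1
      exact ofSeq_le_ofSeq.1 this
    have h7 : ∀ᶠ n in hyperfilter ℕ, ((KK g.1 (φ n) (B g) (q n) (i n) : ℤ) : ℝ) / q n < 1 := by
      have : ofSeq (fun n => ((KK g.1 (φ n) (B g) (q n) (i n) : ℤ) : ℝ) / q n) <
        ofSeq (fun _ => (1 : ℝ)) := h5.2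
      exact ofSeq_lt_ofSeq.1 this
    obtain ⟨n, ⟨hn1, hn2⟩, hn3⟩ := ((hcon.and h6).and h7).exists
    apply hi n hn1
    constructor
    · have h8 : (0 : ℝ) ≤ ((KK g.1 (φ n) (B g) (q n) (i n) : ℤ) : ℝ) := by
        by_contra h9
        push Not at h9
        exact absurd hn2 (not_le.2 (div_neg_of_neg_of_pos h9 (hqr n)))
      exact_mod_cast h8
    · rw [div_lt_one (hqr n)] at hn3
      exact_mod_cast hn3
  have hI : ∀ᶠ n in hyperfilter ℕ, Function.Injective (KK g.1 (φ n) (B g) (q n)) := by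
    by_contra hcon
    rw [← Ultrafilter.eventually_not] at hcon
    have h2 : ∀ n, ∃ i j : Fin (q n), (¬ Function.Injective (KK g.1 (φ n) (B g) (q n))) →
      KK g.1 (φ n) (B g) (q n) i = KK g.1 (φ n) (B g) (q n) j ∧ i ≠ j := by
      intro n
      by_cases h3 : Function.Injective (KK g.1 (φ n) (B g) (q n))
      · exact ⟨⟨0, hq n⟩, ⟨0, hq n⟩, fun h4 => absurd h3 h4⟩
      · rw [Function.not_injective_iff] at h3
        obtain ⟨i, j, hij, hne⟩ := h3
        exact ⟨i, j, fun _ => ⟨hij, hne⟩⟩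
    choose i j hij using h2
    have key : ∀ i : ∀ n, Fin (q n), p g (ofSeq fun n => ((i n : ℕ) : ℝ) / q n) =
        ofSeq fun n => ((KK g.1 (φ n) (B g) (q n) (i n) : ℤ) : ℝ) / q n := by
      intro i
      have hx0 : ∀ n, (0 : ℝ) ≤ ((i n : ℕ) : ℝ) / q n := fun n => div_nonneg (by positivity) (hqr n).le
      rw [formula φ f hf p hp g (B g) (hB g hg) (fun n => ((i n : ℕ) : ℝ) / q n)
        (Eventually.of_forall hx0)]
      congr 1
      funext n
      rw [KK_eq g.1 (φ n) (B g) (q n) (hq n) (hD n g hg) (i n)]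
    have h3 : p g (ofSeq fun n => ((i n : ℕ) : ℝ) / q n) = p g (ofSeq fun n => ((j n : ℕ) : ℝ) / q n) := by
      rw [key i, key j]
      apply ofSeq_eq.2
      filter_upwards [hcon] with n hn
      rw [(hij n hn).1]
    have h4 := ofSeq_eq.1 ((p g).injective h3)
    obtain ⟨n, hn1, hn2⟩ := (hcon.and h4).exists
    apply (hij n hn1).2
    have h5 : ((i n : ℕ) : ℝ) = ((j n : ℕ) : ℝ) := by
      have := (hqr n).ne'
      field_simp at hn2
      exact hn2
    exact Fin.ext (by exact_mod_cast h5)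
  -- comparison
  apply Equiv.ext
  intro X
  obtain ⟨x, rfl⟩ := ofSeq_surjective X
  have hgst : gst u q c (ofSeq x) = ofSeq (fun n => u (q n) (c n) (x n)) := rfl
  rw [hgst]
  rcases lt_or_ge (ofSeq x) 0 with h0 | h0
  · rw [hp.neg g _ h0]
    apply ofSeq_eq.2
    have h2 : ofSeq x < ofSeq (fun _ => (0 : ℝ)) := h0
    filter_upwards [ofSeq_lt_ofSeq.1 h2] with n hn
    exact (hu.out (q n) (c n) (x n) (fun h3 => absurd hn (not_lt.2 h3.1))).symm
  · rcases le_or_gt 1 (ofSeq x) with h2 | h2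
    · rw [triv h1 f hf1 p hp g (B g) (hB g hg) _ h2]
      apply ofSeq_eq.2
      have h3 : ofSeq (fun _ => (1 : ℝ)) ≤ ofSeq x := h2
      filter_upwards [ofSeq_le_ofSeq.1 h3] with n hn
      exact (hu.out (q n) (c n) (x n) (fun h3 => absurd h3.2 (not_lt.2 hn))).symm
    · have h3 : ofSeq (fun _ => (0 : ℝ)) ≤ ofSeq x := h0
      have h4 : ofSeq x < ofSeq (fun _ => (1 : ℝ)) := h2
      have h5 := ofSeq_le_ofSeq.1 h3
      have h6 := ofSeq_lt_ofSeq.1 h4
      rw [formula φ f hf p hp g (B g) (hB g hg) x h5]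
      apply ofSeq_eq.2
      filter_upwards [h5, h6, hA, hI] with n hn0 hn1 hnA hnI
      have hK := hcK n hnA hnI
      have hxq : 0 ≤ (q n : ℝ) * x n := mul_nonneg (hqr n).le hn0
      have hlt : ⌊(q n : ℝ) * x n⌋₊ < q n := by
        rw [Nat.floor_lt hxq]
        nlinarith [hqr n]
      set i : Fin (q n) := ⟨⌊(q n : ℝ) * x n⌋₊, hlt⟩ with hi
      have hi1 : ((i : ℕ) : ℝ) / q n ≤ x n := by
        rw [div_le_iff₀ (hqr n)]
        have := Nat.floor_le hxq
        calc ((i : ℕ) : ℝ) ≤ (q n : ℝ) * x n := this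
          _ = x n * q n := by ring
      have hi2 : x n < (((i : ℕ) : ℝ) + 1) / q n := by
        rw [lt_div_iff₀ (hqr n)]
        have := Nat.lt_floor_add_one ((q n : ℝ) * x n)
        calc x n * q n = (q n : ℝ) * x n := by ring
          _ < ((i : ℕ) : ℝ) + 1 := this
      rw [hu.inn (q n) (c n) i (x n) hi1 hi2]
      have hSx : Sx (φ n) (B g) (((i : ℕ) : ℝ) / q n) = Sx (φ n) (B g) (x n) := by
        apply Finset.Subset.antisymm
        · intro b hb
          rw [mem_Sx] at hb ⊢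
          exact ⟨hb.1, hb.2.trans hi1⟩
        · intro b hb
          rw [mem_Sx] at hb ⊢
          refine ⟨hb.1, ?_⟩
          obtain ⟨⟨z, hz⟩, -⟩ := hD n g hg b (by simpa using hb.1)
          have hz' : (q n : ℝ) * ((φ n b : ℚ) : ℝ) = z := by exact_mod_cast hz
          rw [le_div_iff₀ (hqr n)]
          have e1 : (z : ℝ) ≤ (q n : ℝ) * x n := by
            rw [← hz']
            exact mul_le_mul_of_nonneg_left hb.2 (hqr n).le
          have e2 : (z : ℝ) < ((i : ℕ) : ℝ) + 1 := lt_of_le_of_lt e1 (Nat.lt_floor_add_one _)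
          have e3 : z < ((i : ℕ) : ℤ) + 1 := by exact_mod_cast e2
          have e4 : z ≤ ((i : ℕ) : ℤ) := by omega
          have e5 : (z : ℝ) ≤ ((i : ℕ) : ℝ) := by exact_mod_cast e4
          calc ((φ n b : ℚ) : ℝ) * q n = (q n : ℝ) * ((φ n b : ℚ) : ℝ) := by ring
            _ = z := hz'
            _ ≤ ((i : ℕ) : ℝ) := e5
      have hds : dsp g.1 (φ n) (B g) (x n) = dsp g.1 (φ n) (B g) (((i : ℕ) : ℝ) / q n) := by
        unfold dsp
        rw [hSx]
      rw [hds]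
      have hKe := KK_eq g.1 (φ n) (B g) (q n) (hq n) (hD n g hg) i
      have hKi : ((c n i : ℕ) : ℝ) = ((KK g.1 (φ n) (B g) (q n) i : ℤ) : ℝ) := by
        rw [← hK i]
        push_cast
        rfl
      rw [hKi, sub_div, hKe]
      ring

end JG
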