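import Pool.Agent.Lib.MP_98125f_al.JG.SpecE

/-!
# STV: piecewise translations of a dense group act on the hyperreals
-/

set_option autoImplicit false
set_option linter.deprecated false

namespace JG

namespace STVM

open Filter Topology Hyperreal Pool.Agent.Lib.MP98125f

section

variable {V : Submodule ℚ ℝ} {f : V →+ ℝ*}

theorem f_mono (hf : ∀ v : V, (0 : ℝ) < v → 0 < f v) : StrictMono f := by
  intro v w h
  have h1 : (v : ℝ) < w := h
  have h2 : (0 : ℝ) < ((w - v : V) : ℝ) := by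
    rw [Submodule.coe_sub]
    linarith
  have h3 := hf _ h2
  rw [map_sub] at h3
  linarith

/-- the displacement at `x` is `t` -/
def Dp (f : V →+ ℝ*) (g : Equiv.Perm V) (x : ℝ*) (t : V) : Prop :=
  (x < 0 ∧ t = 0) ∨ (0 ≤ x ∧ ∃ v : V, f v ≤ x ∧ ∀ w : V, v ≤ w → f w ≤ x → g w - w = t)

theorem f_max (hf : ∀ v : V, (0 : ℝ) < v → 0 < f v) {v w : V} {x : ℝ*} (hv : f v ≤ x)
    (hw : f w ≤ x) : f (max v w) ≤ x := by
  rcases le_total v w with h | h
  · rwa [max_eq_right h]
  · rwa [max_eq_left h]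

theorem Dp.unique (hf : ∀ v : V, (0 : ℝ) < v → 0 < f v) {g : Equiv.Perm V} {x : ℝ*} {t t' : V}
    (h : Dp f g x t) (h' : Dp f g x t') : t = t' := by
  rcases h with ⟨hx, rfl⟩ | ⟨hx, v, hv, h⟩
  · rcases h' with ⟨_, rfl⟩ | ⟨hx', _⟩
    · rfl
    · exact absurd hx (not_lt.mpr hx')
  · rcases h' with ⟨hx', _⟩ | ⟨_, v', hv', h'⟩
    · exact absurd hx' (not_lt.mpr hx)
    · have hm := f_max hf hv hv'
      rw [← h _ (le_max_left v v') hm, h' _ (le_max_right v v') hm]

theorem Dp.mk (hf : ∀ v : V, (0 : ℝ) < v → 0 < f v) {g : Equiv.Perm V} {B : Finset V}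
    (hB : Trans B g) {x : ℝ*} (hx : 0 ≤ x) {v : V} (hv : f v ≤ x)
    (hno : ∀ b ∈ B, ¬ (v < b ∧ f b ≤ x)) : Dp f g x (g v - v) := by
  refine Or.inr ⟨hx, v, hv, fun w hw hwx => ?_⟩
  refine hB v w hw fun b hb hcon => hno b hb ⟨hcon.1, ?_⟩
  exact ((f_mono hf).monotone hcon.2).trans hwx

theorem Dp.exists (hf : ∀ v : V, (0 : ℝ) < v → 0 < f v) {g : Equiv.Perm V} {B : Finset V}
    (hB : Trans B g) (x : ℝ*) : ∃ t, Dp f g x t := by
  classical
  rcases lt_or_ge x 0 with hx | hx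
  · exact ⟨0, Or.inl ⟨hx, rfl⟩⟩
  · set S : Finset V := insert 0 (B.filter (fun b => f b ≤ x)) with hS
    obtain ⟨v, hvS, hmax⟩ := S.exists_max_image id ⟨0, Finset.mem_insert_self _ _⟩
    have hv : f v ≤ x := by
      rcases Finset.mem_insert.mp hvS with h | h
      · rw [h, map_zero]
        exact hx
      · exact (Finset.mem_filter.mp h).2
    refine ⟨_, Dp.mk hf hB hx hv fun b hb hcon => ?_⟩
    have h1 := hmax b (Finset.mem_insert_of_mem (Finset.mem_filter.mpr ⟨hb, hcon.2⟩))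
    exact absurd hcon.1 (not_lt.mpr h1)

theorem nonneg_apply {h : Equiv.Perm V} (hh : h ∈ PV V) {w : V} (hw : 0 ≤ w) : 0 ≤ h w := by
  by_cases hJ : w ∈ JV V
  · have h1 : h w ∈ JV V := PTg.mapsTo hh hJ
    have h2 : (0 : ℝ) ≤ (h w : ℝ) := h1.1
    exact h2
  · rw [hh.2.2 w hJ]
    exact hw

/-- composition -/
theorem Dp.comp (hf : ∀ v : V, (0 : ℝ) < v → 0 < f v) {g h : Equiv.Perm V} (hh : h ∈ PV V)
    {x : ℝ*} {t u : V} (h1 : Dp f h x t) (h2 : Dp f g (x + f t) u) : Dp f (g * h) x (t + u) := by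
  rcases h1 with ⟨hx, rfl⟩ | ⟨hx, v, hv, h1⟩
  · rw [map_zero, add_zero] at h2
    rcases h2 with ⟨_, rfl⟩ | ⟨hx', _⟩
    · exact Or.inl ⟨hx, add_zero 0⟩
    · exact absurd hx (not_lt.mpr hx')
  · have hnn : 0 ≤ x + f t := by
      have hm : f (max v 0) ≤ x := f_max hf hv (by rw [map_zero]; exact hx)
      have h3 := h1 _ (le_max_left v 0) hm
      have h4 := nonneg_apply hh (le_max_right v 0)
      have h5 : h (max v 0) = max v 0 + t := by
        rw [sub_eq_iff_eq_add] at h3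
        rw [h3, add_comm]
      rw [h5] at h4
      have h6 := (f_mono hf).monotone h4
      rw [map_zero, map_add] at h6
      linarith
    rcases h2 with ⟨hx', _⟩ | ⟨_, v', hv', h2⟩
    · exact absurd hx' (not_lt.mpr hnn)
    · refine Or.inr ⟨hx, max v (v' - t), f_max hf hv ?_, fun w hw hwx => ?_⟩
      · rw [map_sub]
        linarith
      · have h3 := h1 w ((le_max_left _ _).trans hw) hwx
        have h4 : h w = w + t := by
          rw [sub_eq_iff_eq_add] at h3
          rw [h3, add_comm]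
        have h5 : v' ≤ w + t := by
          have := (le_max_right v (v' - t)).trans hw
          rwa [sub_le_iff_le_add] at this
        have h6 : f (w + t) ≤ x + f t := by
          rw [map_add]
          linarith
        have h7 := h2 (w + t) h5 h6
        rw [Equiv.Perm.coe_mul, Function.comp_apply, h4]
        have h8 : g (w + t) = u + (w + t) := by
          rwa [sub_eq_iff_eq_add] at h7
        rw [h8]
        abel

open Classical in
/-- the displacement -/
noncomputable def dsp (f : V →+ ℝ*) (g : Equiv.Perm V) (x : ℝ*) : V :=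
  if h : ∃ t, Dp f g x t then h.choose else 0

theorem dsp_eq (hf : ∀ v : V, (0 : ℝ) < v → 0 < f v) {g : Equiv.Perm V} {x : ℝ*} {t : V}
    (h : Dp f g x t) : dsp f g x = t := by
  have h1 : ∃ t, Dp f g x t := ⟨t, h⟩
  unfold dsp
  rw [dif_pos h1]
  exact h1.choose_spec.unique hf h

theorem dsp_one (hf : ∀ v : V, (0 : ℝ) < v → 0 < f v) (x : ℝ*) : dsp f 1 x = 0 := by
  apply dsp_eq hf
  rcases lt_or_ge x 0 with hx | hx
  · exact Or.inl ⟨hx, rfl⟩
  · refine Or.inr ⟨hx, 0, by rw [map_zero]; exact hx, fun w _ _ => ?_⟩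
    simp

theorem dsp_spec (hf : ∀ v : V, (0 : ℝ) < v → 0 < f v) {g : Equiv.Perm V} (hg : g ∈ PV V)
    (x : ℝ*) : Dp f g x (dsp f g x) := by
  obtain ⟨B, hB⟩ := hg.1
  obtain ⟨t, ht⟩ := Dp.exists hf hB x
  rw [dsp_eq hf ht]
  exact ht

/-- the action -/
noncomputable def act (f : V →+ ℝ*) (hf : ∀ v : V, (0 : ℝ) < v → 0 < f v) :
    PV V →* Equiv.Perm ℝ* :=
  MonoidHom.toHomPerm
    { toFun := fun g => (fun x => x + f (dsp f g.1 x) : ℝ* → ℝ*)
      map_one' := by
        funext x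
        change x + f (dsp f ((1 : PV V) : Equiv.Perm V) x) = x
        rw [Subgroup.coe_one, dsp_one hf, map_zero, add_zero]
      map_mul' := by
        intro g h
        funext x
        change x + f (dsp f ((g * h : PV V) : Equiv.Perm V) x) =
          (x + f (dsp f h.1 x)) + f (dsp f g.1 (x + f (dsp f h.1 x)))
        rw [Subgroup.coe_mul,
          dsp_eq hf ((dsp_spec hf h.2 x).comp hf h.2 (dsp_spec hf g.2 (x + f (dsp f h.1 x)))),
          map_add, add_assoc] }

theorem act_apply (hf : ∀ v : V, (0 : ℝ) < v → 0 < f v) (g : PV V) (x : ℝ*) :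
    act f hf g x = x + f (dsp f g.1 x) := rfl

theorem act_neg (hf : ∀ v : V, (0 : ℝ) < v → 0 < f v) (g : PV V) (x : ℝ*) (hx : x < 0) :
    act f hf g x = x := by
  rw [act_apply, dsp_eq hf (Or.inl ⟨hx, rfl⟩ : Dp f g.1 x 0), map_zero, add_zero]

theorem act_pos (hf : ∀ v : V, (0 : ℝ) < v → 0 < f v) (g : PV V) (B : Finset V) (x : ℝ*) (v : V)
    (hB : Trans B g.1) (hv : f v ≤ x) (hno : ∀ b ∈ B, ¬ (v < b ∧ f b ≤ x)) :
    act f hf g x = x + f (g.1 v - v) := by
  rcases lt_or_ge x 0 with hx | hx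
  · have h1 : v < 0 := by
      by_contra h
      have := (f_mono hf).monotone (not_lt.mp h)
      rw [map_zero] at this
      linarith
    have h2 : v ∉ JV V := by
      intro h
      have h3 : (0 : ℝ) ≤ (v : ℝ) := h.1
      have h4 : (v : ℝ) < 0 := h1
      linarith
    rw [act_neg hf g x hx, g.2.2.2 v h2, sub_self, map_zero, add_zero]
  · rw [act_apply, dsp_eq hf (Dp.mk hf hB hx hv hno)]

end

end STVM

open Filter Topology Hyperreal Pool.Agent.Lib.MP98125f STVM in
/-- **STV** -/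
theorem STVM.specSTV : SpecSTV := by
  intro V _ f hf
  refine ⟨act f hf, ?_, fun g x hx => act_neg hf g x hx, fun g B x v hB hv hno =>
    act_pos hf g B x v hB hv hno⟩
  rw [injective_iff_map_eq_one]
  intro g hg
  apply Subtype.ext
  apply Equiv.ext
  intro v
  obtain ⟨B, hB⟩ := g.2.1
  have h1 := act_pos hf g B (f v) v hB le_rfl (fun b _ hcon =>
    absurd hcon.2 (not_le.mpr (f_mono hf hcon.1)))
  rw [hg] at h1
  have h2 : f (g.1 v - v) = 0 := by
    have h3 : (1 : Equiv.Perm ℝ*) (f v) = f v := rfl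
    rw [h3] at h1
    linarith
  have h3 : g.1 v - v = 0 := by
    apply (f_mono hf).injective
    rw [h2, map_zero]
  exact sub_eq_zero.mp h3

end JG
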