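import Pool.Agent.Lib.MP_98125f_al.JG.SpecE

/-!
MP_98125f_al, JG part E: uniform Foelner sets for interval exchanges, from the amenability of the
group of interval exchanges.
-/

set_option autoImplicit false
set_option linter.deprecated false

namespace JG.UNIM

open Filter Topology Hyperreal Pool.Agent.Lib.MP98125f

theorem mem_top (g : ℕ → Equiv.Perm ℝ) (N : ℕ)
    (hJ : ∀ n, ∀ x ∉ Set.Ico (0 : ℝ) 1, g n x = x)
    (hB : ∀ n, ∃ B : Finset ℝ, B.card ≤ N ∧ Trans B (g n)) :
    starHom (g : Pool.Agent.Lib.MP98125f.GP) ∈ PTg (⊤ : AddSubgroup ℝ*) JJ := by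
  classical
  refine ⟨?_, fun x => AddSubgroup.mem_top _, ?_⟩
  · choose B hBN hBT using hB
    choose e he using fun n => exists_enum (B n) N (hBN n)
    refine ⟨(Finset.range N).image (fun i => ofSeq (fun n => e n i)), ?_⟩
    intro x y hxy hno
    obtain ⟨x, rfl⟩ := ofSeq_surjective x
    obtain ⟨y, rfl⟩ := ofSeq_surjective y
    rw [ofSeq_le_ofSeq] at hxy
    have h1 : ∀ᶠ n in hyperfilter ℕ, ∀ i ∈ Finset.range N, ¬ (x n < e n i ∧ e n i ≤ y n) := by
      rw [Filter.eventually_all_finset]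
      intro i hi
      have h2 := hno _ (Finset.mem_image_of_mem _ hi)
      rw [ofSeq_lt_ofSeq, ofSeq_le_ofSeq, ← Filter.eventually_and] at h2
      exact Ultrafilter.eventually_not.2 h2
    rw [starHom_coe, starHom_coe]
    have h3 : ofSeq (fun n => g n (y n)) - ofSeq y = ofSeq (fun n => g n (y n) - y n) := rfl
    have h4 : ofSeq (fun n => g n (x n)) - ofSeq x = ofSeq (fun n => g n (x n) - x n) := rfl
    rw [h3, h4, ofSeq_eq]
    filter_upwards [hxy, h1] with n hn1 hn2
    apply hBT n _ _ hn1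
    intro b hb hcon
    obtain ⟨i, hi, hib⟩ := he n b hb
    rw [← hib] at hcon
    exact hn2 i (Finset.mem_range.2 hi) hcon
  · intro x hx
    obtain ⟨x, rfl⟩ := ofSeq_surjective x
    rw [starHom_coe, ofSeq_eq]
    have h8 : ¬ ∀ᶠ n in hyperfilter ℕ, 0 ≤ x n ∧ x n < 1 := by
      intro h9
      apply hx
      constructor
      · have : ofSeq (fun _ => (0 : ℝ)) ≤ ofSeq x := ofSeq_le_ofSeq.2 (h9.mono fun n hn => hn.1)
        exact this
      · have : ofSeq x < ofSeq (fun _ => (1 : ℝ)) := ofSeq_lt_ofSeq.2 (h9.mono fun n hn => hn.2)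
        exact this
    rw [← Ultrafilter.eventually_not] at h8
    filter_upwards [h8] with n hn
    exact hJ n _ hn

/-- Transfer of Foelner sets to arbitrarily late indices, with a fixed cardinality. -/
theorem transfer_card {L : AddSubgroup ℝ*} (hA : Amen (PTg L JJ)) (k : ℕ)
    (g : ℕ → Fin k → Equiv.Perm ℝ)
    (hg : ∀ j, starHom ((fun n => g n j : ℕ → Equiv.Perm ℝ) : Pool.Agent.Lib.MP98125f.GP)
      ∈ PTg L JJ) (m : ℕ) :
    ∃ n, ∃ F : Finset (Equiv.Perm ℝ), F.Nonempty ∧ F.card ≤ n ∧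
      ∀ j, m * Set.ncard {x | x ∈ F ∧ g n j * x ∉ F} ≤ F.card := by
  classical
  let K : Subgroup Pool.Agent.Lib.MP98125f.GP := (PTg L JJ).comap starHom
  have hK : Amen K := by
    let φ : K →* PTg L JJ := (starHom.comp K.subtype).codRestrict (PTg L JJ) (fun x => x.2)
    apply Amen.of_injective φ _ hA
    intro a b hab
    apply Subtype.ext
    apply starHom_injective
    exact congrArg Subtype.val hab
  rw [amen_iff] at hK
  let G : Fin k → K := fun j =>
    ⟨((fun n => g n j : ℕ → Equiv.Perm ℝ) : Pool.Agent.Lib.MP98125f.GP), hg j⟩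
  obtain ⟨F, hF, h1⟩ := hK (Finset.univ.image G) m
  let r : K → ℕ → Equiv.Perm ℝ := fun x => Quotient.out x.1
  have hr : ∀ x : K, ((r x : ℕ → Equiv.Perm ℝ) : Pool.Agent.Lib.MP98125f.GP) = x.1 :=
    fun x => Quotient.out_eq x.1
  have h2 : ∀ᶠ n in hyperfilter ℕ, ∀ a ∈ F, ∀ b ∈ F, a ≠ b → r a n ≠ r b n := by
    rw [Filter.eventually_all_finset]
    intro a _
    rw [Filter.eventually_all_finset]
    intro b _
    by_cases hab : a = b
    · exact Eventually.of_forall fun n h => absurd hab h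
    · have h3 : ¬ ∀ᶠ n in hyperfilter ℕ, r a n = r b n := by
        intro h4
        apply hab
        apply Subtype.ext
        rw [← hr a, ← hr b]
        exact Germ.coe_eq.2 h4
      rw [← Ultrafilter.eventually_not] at h3
      filter_upwards [h3] with n hn _
      exact hn
  have h3 : ∀ᶠ n in hyperfilter ℕ, ∀ j ∈ (Finset.univ : Finset (Fin k)), ∀ a ∈ F,
      g n j * r a n = r (G j * a) n := by
    rw [Filter.eventually_all_finset]
    intro j _
    rw [Filter.eventually_all_finset]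
    intro a _
    have h4 : ((fun n => g n j * r a n : ℕ → Equiv.Perm ℝ) : Pool.Agent.Lib.MP98125f.GP) =
        (r (G j * a) : Pool.Agent.Lib.MP98125f.GP) := by
      rw [hr]
      have h5 : ((fun n => g n j * r a n : ℕ → Equiv.Perm ℝ) : Pool.Agent.Lib.MP98125f.GP) =
        ((fun n => g n j : ℕ → Equiv.Perm ℝ) : Pool.Agent.Lib.MP98125f.GP) *
          ((r a : ℕ → Equiv.Perm ℝ) : Pool.Agent.Lib.MP98125f.GP) := rfl
      rw [h5, hr]
      rfl
    exact Germ.coe_eq.1 h4
  have h4 : ∀ᶠ n in hyperfilter ℕ, F.card ≤ n := by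
    have h5 : ∀ᶠ n in (cofinite : Filter ℕ), F.card ≤ n := by
      rw [Nat.cofinite_eq_atTop]
      exact eventually_ge_atTop _
    exact hyperfilter_le_cofinite h5
  obtain ⟨n, ⟨hn1, hn2⟩, hn3⟩ := ((h2.and h3).and h4).exists
  have hinj : Set.InjOn (fun a => r a n) (F : Set K) := by
    intro a ha b hb hab
    by_contra hne
    exact hn1 a ha b hb hne hab
  refine ⟨n, F.image (fun a => r a n), hF.image _, ?_, fun j => ?_⟩
  · rw [Finset.card_image_of_injOn hinj]
    exact hn3
  rw [Finset.card_image_of_injOn hinj]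
  refine le_trans (Nat.mul_le_mul_left _ ?_) (h1 (G j) (Finset.mem_image_of_mem _
    (Finset.mem_univ j)))
  rw [ncard_filter]
  have hsub : ((F.image (fun a => r a n)).filter
      (fun x => g n j * x ∉ F.image (fun a => r a n))) ⊆
      (F.filter (fun x => G j * x ∉ F)).image (fun a => r a n) := by
    intro x hx
    rw [Finset.mem_filter] at hx
    obtain ⟨a, ha, rfl⟩ := Finset.mem_image.1 hx.1
    refine Finset.mem_image.2 ⟨a, Finset.mem_filter.2 ⟨ha, fun h => hx.2 ?_⟩, rfl⟩
    have h6 := hn2 j (Finset.mem_univ j) a ha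
    simp only [h6]
    exact Finset.mem_image.2 ⟨_, h, rfl⟩
  exact (Finset.card_le_card hsub).trans Finset.card_image_le

theorem specUNI (hREC : SpecREC) : SpecUNI := by
  classical
  intro hAm k N m
  have hGP : JG.GP (⊤ : Submodule ℚ ℝ*) := by
    intro δ _
    exact Amen.of_le (PTg_mono le_top _) hAm
  have hA := hREC ⊤ hGP
  have htop : (⊤ : Submodule ℚ ℝ*).toAddSubgroup = (⊤ : AddSubgroup ℝ*) := by
    ext x
    simp
  rw [htop] at hA
  by_contra hcon
  push Not at hcon
  choose g hg hbad using hcon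
  have hmem : ∀ j, starHom ((fun n => g n j : ℕ → Equiv.Perm ℝ) :
      Pool.Agent.Lib.MP98125f.GP) ∈ PTg (⊤ : AddSubgroup ℝ*) JJ := by
    intro j
    exact mem_top (fun n => g n j) N (fun n => (hg n j).1) (fun n => (hg n j).2)
  obtain ⟨n, F, hF, hFn, hFg⟩ := transfer_card hA k g hmem m
  obtain ⟨j, hj⟩ := hbad n F hF hFn
  exact absurd (hFg j) (not_le.2 hj)

end JG.UNIM
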