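import Pool.Agent.Lib.MP_98125f_al.JG.Main
import Pool.Agent.Lib.MP_98125f_al.JG.M2F
import Pool.Agent.Lib.MP_98125f_al.JG.I2P
import Pool.Agent.Lib.MP_98125f_al.JG.P2I
import Pool.Agent.Lib.MP_98125f_al.JG.UNI
import Pool.Agent.Lib.MP_98125f_al.JG.GRD
import Pool.Agent.Lib.MP_98125f_al.JG.R2F
import Pool.Agent.Lib.MP_98125f_al.JG.APX
import Pool.Agent.Lib.MP_98125f_al.JG.STV
import Pool.Agent.Lib.MP_98125f_al.JG.SEQ
import Pool.Agent.Lib.MP_98125f_al.JG.GRM
import Pool.Agent.Lib.MP_98125f_al.JG.RST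
import Pool.Agent.Lib.MP_98125f_al.JG.F2A
import Pool.Agent.Lib.MP_98125f_al.JG.EQV

/-!
# JG part E: assembly
-/

set_option autoImplicit false

namespace JG.MainEM

theorem m2f : SpecM2F := M2FM.specM2F
theorem i2p : SpecI2P := I2PM.specI2P
theorem p2i : SpecP2I := P2IM.specP2I
theorem uni : SpecUNI := UNIM.specUNI MainM.rec'
theorem grd : SpecGRD := GRDM.specGRD
theorem r2f : SpecR2F := R2FM.specR2F grd
theorem apx : SpecAPX := APXM.specAPX
theorem stv : SpecSTV := STVM.specSTV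
theorem seq' : SpecSEQ := SEQM.specSEQ
theorem grm : SpecGRM := GRMM.specGRM
theorem rst : SpecRST := RSTM.specRST
theorem f2a : SpecF2A := F2AM.specF2A grd apx stv seq' grm rst
theorem eqv : SpecEQV := EQVM.specEQV m2f i2p p2i uni r2f f2a

end JG.MainEM
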