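import Pool.Agent.Lib.MP_98125f_al.JG.SpecG

/-!
MP_98125f_al, JG, module QG: real parts of spaces of dimension `d + 1`.
-/

set_option autoImplicit false
set_option linter.deprecated false

namespace JG

namespace QGM

open Filter Topology Hyperreal Pool.Agent.Lib.MP98125f

lemma smul_eq (q : ℚ) (a : ℝ*) : q • a = ((q : ℝ) : ℝ*) * a := by
  rw [Rat.smul_def]
  congr 1
  exact (map_ratCast coeRingHom q).symm

lemma isSt_comb {n : ℕ} (q : Fin n → ℚ) (t : Fin n → ℝ*) (r : Fin n → ℝ)
    (h : ∀ i, IsSt (t i) (r i)) : IsSt (∑ i, q i • t i) (∑ i, q i • r i) := by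
  classical
  have h0 : ∀ s : Finset (Fin n), IsSt (∑ i ∈ s, q i • t i) (∑ i ∈ s, q i • r i) := by
    intro s
    induction s using Finset.induction_on with
    | empty => simpa using isSt_refl_real 0
    | insert a s ha ih =>
      rw [Finset.sum_insert ha, Finset.sum_insert ha]
      refine IsSt.add ?_ ih
      rw [smul_eq, Rat.smul_def]
      exact (isSt_refl_real _).mul (h a)
  exact h0 _

/-- the standard parts of a rational subspace, as a rational subspace -/
def stQ (V : Submodule ℚ ℝ*) : Submodule ℚ ℝ where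
  carrier := {r | ∃ t ∈ V, IsSt t r}
  zero_mem' := ⟨0, V.zero_mem, by simpa using isSt_refl_real 0⟩
  add_mem' := by
    rintro a b ⟨s, hs, hsa⟩ ⟨t, ht, htb⟩
    exact ⟨s + t, V.add_mem hs ht, hsa.add htb⟩
  smul_mem' := by
    rintro q a ⟨t, ht, hta⟩
    refine ⟨q • t, V.smul_mem q ht, ?_⟩
    rw [smul_eq, Rat.smul_def]
    exact (isSt_refl_real _).mul hta

/-- a space without `d + 1` independent elements has `d` generators -/
lemma gens (W : Submodule ℚ ℝ) (d : ℕ)
    (h : ∀ r : Fin (d + 1) → ℝ, (∀ i, r i ∈ W) → ¬ LinearIndependent ℚ r) :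
    ∃ e : Fin d → ℝ, W ≤ Submodule.span ℚ (Set.range e) := by
  classical
  have b := Module.Basis.ofVectorSpace ℚ W
  have hcard : Cardinal.mk (Module.Basis.ofVectorSpaceIndex ℚ W) ≤ Cardinal.mk (Fin d) := by
    by_contra hc
    have hc' := lt_of_not_ge hc
    have h1 : Cardinal.mk (Fin (d + 1)) ≤ Cardinal.mk (Module.Basis.ofVectorSpaceIndex ℚ W) := by
      rw [Cardinal.mk_fin] at hc' ⊢
      have h2 := Cardinal.add_one_le_of_lt hc'
      push_cast
      exact h2
    obtain ⟨f⟩ := h1
    apply h (fun i => ((b (f i) : W) : ℝ)) (fun i => (b (f i)).2)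
    have h2 : LinearIndependent ℚ (fun i => b (f i)) := b.linearIndependent.comp f f.injective
    exact h2.map' W.subtype (Submodule.ker_subtype W)
  obtain ⟨f⟩ := hcard
  have hfin : Fintype (Module.Basis.ofVectorSpaceIndex ℚ W) := Fintype.ofInjective f f.injective
  refine ⟨Function.extend f (fun i => ((b i : W) : ℝ)) 0, fun v hv => ?_⟩
  have h2 : v = ∑ i, (b.repr ⟨v, hv⟩ i) • ((b i : W) : ℝ) := by
    have h3 := congrArg (Submodule.subtype W) (b.sum_repr ⟨v, hv⟩)
    rw [map_sum] at h3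
    exact h3.symm
  rw [h2]
  refine Submodule.sum_mem _ fun i _ => Submodule.smul_mem _ _ (Submodule.subset_span ⟨f i, ?_⟩)
  exact f.injective.extend_apply _ _ _

theorem specQG : SpecQG := by
  classical
  intro d hP V e hV hcase δ hδ
  have hclaim : ∀ r : Fin (d + 1) → ℝ, (∀ i, r i ∈ stQ (scl δ V)) → ¬ LinearIndependent ℚ r := by
    intro r hr hli
    choose t ht hst using hr
    have ht' : ∀ i, δ * t i ∈ V := ht
    have hLI : LinearIndependent ℚ (fun i => δ * t i) := by
      rw [Fintype.linearIndependent_iff]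
      intro q hq
      have h1 : δ * ∑ i, q i • t i = 0 := by
        rw [Finset.mul_sum, ← hq]
        exact Finset.sum_congr rfl fun i _ => by rw [mul_smul_comm]
      have h2 : ∑ i, q i • t i = 0 := (mul_eq_zero.mp h1).resolve_left hδ.ne'
      have h3 := isSt_comb q t r hst
      rw [h2] at h3
      have h4 : (∑ i, q i • r i) = 0 := h3.unique (by simpa using isSt_refl_real 0)
      exact Fintype.linearIndependent_iff.1 hli q h4
    have hVfin : FiniteDimensional ℚ V := by
      rw [hV]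
      exact FiniteDimensional.span_of_finite ℚ (Set.finite_range e)
    have hsub : Submodule.span ℚ (Set.range fun i => δ * t i) ≤ V := by
      rw [Submodule.span_le]
      rintro _ ⟨i, rfl⟩
      exact ht' i
    have hf1 : Module.finrank ℚ (Submodule.span ℚ (Set.range fun i => δ * t i)) = d + 1 := by
      rw [finrank_span_eq_card hLI, Fintype.card_fin]
    have hf2 : Module.finrank ℚ V ≤ d + 1 := by
      have h1 := finrank_range_le_card (R := ℚ) e
      rw [Fintype.card_fin] at h1
      rw [hV]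
      exact h1
    have hf3 : d + 1 ≤ Module.finrank ℚ V := by
      rw [← hf1]
      exact Submodule.finrank_mono hsub
    have hspan : Submodule.span ℚ (Set.range fun i => δ * t i) = V :=
      Submodule.eq_of_le_of_finrank_eq hsub (by omega)
    rcases hcase with hne | ⟨u, hu, v, hv, hu0, hlt⟩
    · apply hne
      rw [linearIndependent_iff_card_eq_finrank_span, Fintype.card_fin]
      show d + 1 = Module.finrank ℚ (Submodule.span ℚ (Set.range e))
      rw [← hV]
      omega
    · rw [← hspan] at hu hv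
      obtain ⟨q, hq⟩ := (Submodule.mem_span_range_iff_exists_fun ℚ).1 hu
      obtain ⟨p, hp⟩ := (Submodule.mem_span_range_iff_exists_fun ℚ).1 hv
      have hq' : u = δ * ∑ i, q i • t i := by
        rw [← hq, Finset.mul_sum]
        exact Finset.sum_congr rfl fun i _ => by rw [mul_smul_comm]
      have hp' : v = δ * ∑ i, p i • t i := by
        rw [← hp, Finset.mul_sum]
        exact Finset.sum_congr rfl fun i _ => by rw [mul_smul_comm]
      have hs := isSt_comb q t r hst
      have hs' := isSt_comb p t r hst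
      set s : ℝ* := ∑ i, q i • t i with hsdef
      set s' : ℝ* := ∑ i, p i • t i with hs'def
      set ρ : ℝ := ∑ i, q i • r i with hρdef
      set ρ' : ℝ := ∑ i, p i • r i with hρ'def
      have hρ : ρ ≠ 0 := by
        intro h
        have h1 := Fintype.linearIndependent_iff.1 hli q h
        apply hu0
        rw [hq', hsdef]
        have h2 : ∑ i, q i • t i = 0 := Finset.sum_eq_zero fun i _ => by rw [h1 i, zero_smul]
        rw [h2, mul_zero]
      have hρp : 0 < |ρ| / 2 := by
        have := abs_pos.2 hρ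
        linarith
      have h1 := (isSt_iff_abs_sub_lt_delta.1 hs) (|ρ| / 2) hρp
      have h2 := (isSt_iff_abs_sub_lt_delta.1 hs') 1 one_pos
      obtain ⟨n, hn⟩ := exists_nat_gt ((|ρ'| + 1) / (|ρ| / 2))
      have h3 := hlt n
      rw [hq', hp', abs_mul, abs_mul] at h3
      have hδa : 0 < |δ| := abs_pos.2 hδ.ne'
      have h4 : (n : ℝ*) * |s| < |s'| := by
        have h5 : |δ| * ((n : ℝ*) * |s|) < |δ| * |s'| := by
          calc |δ| * ((n : ℝ*) * |s|) = (n : ℝ*) * (|δ| * |s|) := by ring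
            _ < |δ| * |s'| := h3
        exact lt_of_mul_lt_mul_left h5 hδa.le
      have h5 : |ρ'| + 1 < (n : ℝ) * (|ρ| / 2) := (div_lt_iff₀ hρp).1 hn
      have h5' : ((|ρ'| + 1 : ℝ) : ℝ*) < (((n : ℝ) * (|ρ| / 2) : ℝ) : ℝ*) := coe_lt_coe.2 h5
      have h6 : ((|ρ| / 2 : ℝ) : ℝ*) < |s| := by
        have h7 : |((ρ : ℝ) : ℝ*)| ≤ |s| + |s - (ρ : ℝ*)| := by
          have h8 : ((ρ : ℝ) : ℝ*) = s - (s - (ρ : ℝ*)) := by ring
          calc |((ρ : ℝ) : ℝ*)| = |s - (s - (ρ : ℝ*))| := by rw [← h8]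
            _ ≤ |s| + |s - (ρ : ℝ*)| := abs_sub _ _
        have h9 : |((ρ : ℝ) : ℝ*)| = ((|ρ| / 2 : ℝ) : ℝ*) + ((|ρ| / 2 : ℝ) : ℝ*) := by
          rw [← coe_abs, ← coe_add]
          congr 1
          ring
        rw [h9] at h7
        linarith
      have h7 : |s'| < ((|ρ'| + 1 : ℝ) : ℝ*) := by
        have h8 : |s'| ≤ |s' - (ρ' : ℝ*)| + |((ρ' : ℝ) : ℝ*)| := by
          have h9 : s' = (s' - (ρ' : ℝ*)) + (ρ' : ℝ*) := by ring
          calc |s'| = |(s' - (ρ' : ℝ*)) + (ρ' : ℝ*)| := by rw [← h9]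
            _ ≤ _ := abs_add_le _ _
        have h9 : ((|ρ'| + 1 : ℝ) : ℝ*) = |((ρ' : ℝ) : ℝ*)| + ((1 : ℝ) : ℝ*) := by
          rw [← coe_abs, ← coe_add]
        rw [h9]
        linarith
      have h8 : (((n : ℝ) * (|ρ| / 2) : ℝ) : ℝ*) ≤ (n : ℝ*) * |s| := by
        have h10 : (((n : ℝ) * (|ρ| / 2) : ℝ) : ℝ*) = (n : ℝ*) * ((|ρ| / 2 : ℝ) : ℝ*) := by
          rw [coe_mul]
          congr 1
        rw [h10]
        exact mul_le_mul_of_nonneg_left h6.le (Nat.cast_nonneg n)
      exact absurd (h8.trans_lt (h4.trans (h7.trans h5'))) (lt_irrefl _)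
  obtain ⟨e', he'⟩ := gens (stQ (scl δ V)) d hclaim
  refine Amen.of_le (PTg_mono ?_ _) (hP e')
  intro r hr
  exact he' hr

end QGM

end JG
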