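import Pool.Agent.Lib.MP_98125f_al.JG.Main
import Pool.Agent.Lib.MP_98125f_al.JG.QG
import Pool.Agent.Lib.MP_98125f_al.JG.NBG
import Pool.Agent.Lib.MP_98125f_al.JG.DIG
import Pool.Agent.Lib.MP_98125f_al.JG.LCL
import Pool.Agent.Lib.MP_98125f_al.JG.I2V
import Pool.Agent.Lib.MP_98125f_al.JG.M2F

/-!
# JG part G: assembly
-/

set_option autoImplicit false
set_option linter.deprecated false

namespace JG.MainGM

open Pool.Agent.Lib.MP98125f

theorem lcl : SpecLCL := LCLM.specLCL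
theorem qg : SpecQG := QGM.specQG
theorem nbg : SpecNBG := NBGM.specNBG MainM.rec' qg MainM.exa
theorem dig : SpecDIG := DIGM.specDIG nbg
theorem pg3 : PG 3 := lcl.three MainM.ma

/-- one sequence of functions for all dimensions -/
theorem funs : ∃ f : ℕ → ℕ → ℝ, (∀ d M, 0 < f d M) ∧ ∀ d : ℕ, PG d → ∀ a : Fin (d + 1) → ℝ,
    {n : Fin (d + 1) → ℤ | |∑ i, (n i : ℝ) * a i| < f (d + 1) (nmG n)}.Infinite →
    Amen (PTg (Submodule.span ℚ (Set.range a)).toAddSubgroup (Set.Ico (0 : ℝ) 1)) := by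
  classical
  have h : ∀ d : ℕ, ∃ g : ℕ → ℝ, (∀ M, 0 < g M) ∧ (PG d → ∀ a : Fin (d + 1) → ℝ,
      {n : Fin (d + 1) → ℤ | |∑ i, (n i : ℝ) * a i| < g (nmG n)}.Infinite →
      Amen (PTg (Submodule.span ℚ (Set.range a)).toAddSubgroup (Set.Ico (0 : ℝ) 1))) := by
    intro d
    by_cases hd : PG d
    · obtain ⟨g, h1, h2⟩ := dig d hd
      exact ⟨g, h1, fun _ => h2⟩
    · exact ⟨fun _ => 1, fun _ => one_pos, fun h => absurd h hd⟩
  choose g h1 h2 using h
  refine ⟨fun d M => g (d - 1) M, fun d M => h1 _ M, fun d hd a ha => h2 d hd a ?_⟩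
  exact ha

/-- the reduction to badly approximable tuples -/
theorem reduction {f : ℕ → ℕ → ℝ} (hf : ∀ d : ℕ, PG d → ∀ a : Fin (d + 1) → ℝ,
    {n : Fin (d + 1) → ℤ | |∑ i, (n i : ℝ) * a i| < f (d + 1) (nmG n)}.Infinite →
    Amen (PTg (Submodule.span ℚ (Set.range a)).toAddSubgroup (Set.Ico (0 : ℝ) 1)))
    (h : ∀ d : ℕ, 4 ≤ d → ∀ a : Fin d → ℝ,
      {n : Fin d → ℤ | |∑ i, (n i : ℝ) * a i| < f d (nmG n)}.Finite →
      Amen (PTg (Submodule.span ℚ (Set.range a)).toAddSubgroup (Set.Ico (0 : ℝ) 1))) :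
    Amen (PTg (⊤ : AddSubgroup ℝ) (Set.Ico (0 : ℝ) 1)) := by
  apply lcl.all
  intro d
  induction d with
  | zero => exact lcl.mono 0 3 (by omega) pg3
  | succ d ih =>
    by_cases hd : 4 ≤ d + 1
    · intro a
      by_cases ha : {n : Fin (d + 1) → ℤ | |∑ i, (n i : ℝ) * a i| < f (d + 1) (nmG n)}.Finite
      · exact h (d + 1) hd a ha
      · exact hf d ih a ha
    · exact lcl.mono (d + 1) 3 (by omega) pg3

end JG.MainGM
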