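import Pool.Agent.Lib.MP_98125f_al.JG.SpecH

/-!
MP_98125f_al, JG, module NBH: parameters with a chain of good approximations are good.
-/

set_option autoImplicit false
set_option linter.deprecated false

namespace JG

namespace NBHM

open Filter Topology Hyperreal Pool.Agent.Lib.MP98125f

theorem qsmul_eq (q : ℚ) (x : ℝ*) : q • x = ((q : ℝ) : ℝ*) * x := by
  rw [Rat.smul_def]
  congr 1
  exact (map_ratCast coeRingHom q).symm

/-- the value of a form along a sequence -/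
theorem ofSeq_form {d : ℕ} (f : Fin d → ℚ) (a : ℕ → Fin d → ℝ) :
    ofSeq (fun j => ∑ i, (f i : ℝ) * a j i) = ∑ i, f i • ofSeq (fun j => a j i) := by
  let φ : (ℕ → ℝ) →+ ℝ* :=
    { toFun := ofSeq
      map_zero' := rfl
      map_add' := fun _ _ => rfl }
  have h1 : (fun j => ∑ i, (f i : ℝ) * a j i) = ∑ i, fun j => (f i : ℝ) * a j i := by
    funext j
    rw [Finset.sum_apply]
  have h2 : φ (fun j => ∑ i, (f i : ℝ) * a j i) = ∑ i, φ (fun j => (f i : ℝ) * a j i) := by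
    rw [h1, map_sum]
  refine h2.trans (Finset.sum_congr rfl fun i _ => ?_)
  rw [qsmul_eq]
  rfl

lemma abs_ofSeq (f : ℕ → ℝ) : |ofSeq f| = ofSeq (fun j => |f j|) := Filter.Germ.abs_def _

lemma ofSeq_ne_zero {f : ℕ → ℝ} (h : ∀ j, f j ≠ 0) : ofSeq f ≠ 0 := by
  intro h0
  have h1 : ofSeq f = ofSeq (fun _ => 0) := h0
  have h2 : ∀ᶠ j in hyperfilter ℕ, f j = 0 := Filter.Germ.coe_eq.1 h1
  obtain ⟨j, hj⟩ := h2.exists
  exact h j hj

lemma nat_mul_ofSeq (n : ℕ) (f : ℕ → ℝ) : (n : ℝ*) * ofSeq f = ofSeq (fun j => (n : ℝ) * f j) := by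
  have h : ((n : ℝ) : ℝ*) = (n : ℝ*) := map_natCast coeRingHom n
  rw [← h]
  rfl

/-- sequences with quotients tending to zero -/
lemma ofSeq_ll {f g : ℕ → ℝ} (h : ∀ j : ℕ, |f j| < 1 / ((j : ℝ) + 1) * |g j|) (n : ℕ) :
    (n : ℝ*) * |ofSeq f| < |ofSeq g| := by
  rw [abs_ofSeq, abs_ofSeq, nat_mul_ofSeq]
  refine ofSeq_lt_ofSeq.2 ?_
  have h1 : ∀ᶠ j : ℕ in hyperfilter ℕ, n ≤ j :=
    Nat.hyperfilter_le_atTop (eventually_ge_atTop n)
  filter_upwards [h1] with j hj
  have h2 := h j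
  have h3 : (0 : ℝ) < (j : ℝ) + 1 := by positivity
  have h4 : |f j| * ((j : ℝ) + 1) < |g j| := by
    have h5 := mul_lt_mul_of_pos_right h2 h3
    have h6 : 1 / ((j : ℝ) + 1) * |g j| * ((j : ℝ) + 1) = |g j| := by
      field_simp
    rwa [h6] at h5
  have h5 : (n : ℝ) ≤ (j : ℝ) + 1 := by
    have h6 : (n : ℝ) ≤ (j : ℝ) := by exact_mod_cast hj
    linarith
  calc (n : ℝ) * |f j| ≤ ((j : ℝ) + 1) * |f j| := mul_le_mul_of_nonneg_right h5 (abs_nonneg _)
    _ = |f j| * ((j : ℝ) + 1) := mul_comm _ _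
    _ < |g j| := h4

end NBHM

open Filter Topology Hyperreal Pool.Agent.Lib.MP98125f NBHM in
/-- **NBH** -/
theorem NBHM.specNBH (hREC : SpecREC) (hQH : SpecQH) (hEXA : SpecEXA) : SpecNBH := by
  intro c k hG n l N m F
  by_contra hcon
  push Not at hcon
  have h1 : ∀ j : ℕ, ∃ a : Fin (c + k) → ℝ, Chn (1 / ((j : ℝ) + 1)) k n a ∧
      a ∉ ASet (evG (c + k)) l N F m := fun j => hcon (1 / ((j : ℝ) + 1)) (by positivity)
  choose a ha1 ha2 using h1
  set e : Fin (c + k) → ℝ* := fun i => ofSeq (fun j => a j i) with he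
  set V : Submodule ℚ ℝ* := Submodule.span ℚ (Set.range e) with hV
  have heV : ∀ i, e i ∈ V := fun i => Submodule.subset_span ⟨i, rfl⟩
  -- the chain
  let n' : ℕ → Fin (c + k) → ℤ := fun j => n ⟨min j k, by omega⟩
  let u : ℕ → ℝ* := fun r => ofSeq (fun j => ∑ i, (n' r i : ℝ) * a j i)
  have huV : ∀ r, u r ∈ V := by
    intro r
    have h2 := ofSeq_form (fun i => (n' r i : ℚ)) a
    have h3 : u r = ∑ i, ((n' r i : ℚ)) • e i := by
      rw [← h2]
      show ofSeq _ = ofSeq _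
      congr 1
    rw [h3]
    exact V.sum_mem fun i _ => V.smul_mem _ (heV i)
  have huk : u k ≠ 0 := by
    apply ofSeq_ne_zero
    intro j
    have h2 := (ha1 j).1
    have h3 : n' k = n (Fin.last k) := by
      show n _ = n _
      congr 1
      apply Fin.ext
      simp
    rw [h3]
    exact h2
  have hul : ∀ r < k, ∀ p : ℕ, (p : ℝ*) * |u (r + 1)| < |u r| := by
    intro r hr p
    refine ofSeq_ll (fun j => ?_) p
    have h2 := (ha1 j).2 ⟨r, hr⟩
    have h3 : n' (r + 1) = n (Fin.succ ⟨r, hr⟩) := by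
      show n _ = n _
      congr 1
      apply Fin.ext
      simp
      omega
    have h4 : n' r = n (Fin.castSucc ⟨r, hr⟩) := by
      show n _ = n _
      congr 1
      apply Fin.ext
      simp
      omega
    rw [h3, h4]
    exact h2
  have hGP : GP V := hQH c k hG V e rfl u (fun j _ => huV j) huk hul
  have hA := hREC V hGP
  have hle : (evStar (evG (c + k)) a).range ≤ V.toAddSubgroup := by
    rintro _ ⟨f, rfl⟩
    have h2 : evStar (evG (c + k)) a f = ∑ i, f i • e i := ofSeq_form f a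
    rw [h2]
    exact V.sum_mem fun i _ => V.smul_mem _ (heV i)
  obtain ⟨j, hj⟩ := hEXA (Fin (c + k) → ℝ) (Fin (c + k) → ℚ) (evG (c + k)) a
    (Amen.of_le (PTg_mono hle JJ) hA) l N F m
  exact ha2 j hj

end JG
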