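import Pool.Agent.Lib.MP_98125f_al.JG.SpecH
import Pool.Agent.Lib.MP_98125f_al.JG.QG

/-!
MP_98125f_al, JG, module QH: real parts of spaces with elements of many archimedean classes.
-/

set_option autoImplicit false
set_option linter.deprecated false

namespace JG

namespace QHM

open Filter Topology Hyperreal Pool.Agent.Lib.MP98125f QGM

/-- sums of elements much smaller than `U` -/
lemma small_sum {ι : Type*} (S : Finset ι) (g : ι → ℝ*) (U : ℝ*) (hU : 0 ≤ U)
    (h : ∀ j ∈ S, ∀ N : ℕ, (N : ℝ*) * |g j| ≤ U) (N : ℕ) : (N : ℝ*) * |∑ j ∈ S, g j| ≤ U := by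
  classical
  induction S using Finset.induction_on generalizing N with
  | empty => simpa using hU
  | insert a S ha ih =>
    rw [Finset.sum_insert ha]
    have h1 := h a (Finset.mem_insert_self a S) (2 * N)
    have h2 := ih (fun j hj => h j (Finset.mem_insert_of_mem hj)) (2 * N)
    push_cast at h1 h2
    have h3 : (N : ℝ*) * |g a + ∑ j ∈ S, g j| ≤ N * (|g a| + |∑ j ∈ S, g j|) :=
      mul_le_mul_of_nonneg_left (abs_add_le _ _) (Nat.cast_nonneg N)
    rw [mul_add] at h3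
    linarith

lemma chain_lt {u : ℕ → ℝ*} {k : ℕ} (h : ∀ j < k, ∀ n : ℕ, (n : ℝ*) * |u (j + 1)| < |u j|)
    (i m : ℕ) (hj : i + m + 1 ≤ k) (n : ℕ) : (n : ℝ*) * |u (i + m + 1)| < |u i| := by
  induction m generalizing n with
  | zero => exact h i (by omega) n
  | succ m ih =>
    have h1 := ih (by omega) 1
    have h2 := h (i + m + 1) (by omega) n
    rw [Nat.cast_one, one_mul] at h1
    exact h2.trans h1

lemma abs_smul' (q : ℚ) (y : ℝ*) : |q • y| = |(q : ℝ*)| * |y| := by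
  rw [Rat.smul_def, abs_mul]

lemma abs_rat_le (q : ℚ) : ∃ n : ℕ, |(q : ℝ*)| ≤ n := by
  obtain ⟨n, hn⟩ := exists_nat_ge |q|
  refine ⟨n, ?_⟩
  have : ((|q| : ℚ) : ℝ*) ≤ ((n : ℚ) : ℝ*) := by exact_mod_cast hn
  rw [Rat.cast_abs] at this
  simpa using this

lemma exists_nat_mul_gt (q : ℚ) (hq : q ≠ 0) (K : ℕ) :
    ∃ N : ℕ, (K : ℝ*) < (N : ℝ*) * |(q : ℝ*)| := by
  obtain ⟨N, hN⟩ := exists_nat_gt ((K : ℚ) / |q|)
  have h1 : (K : ℚ) < N * |q| := (div_lt_iff₀ (abs_pos.2 hq)).1 hN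
  refine ⟨N, ?_⟩
  have h2 : ((K : ℚ) : ℝ*) < ((N * |q| : ℚ) : ℝ*) := by exact_mod_cast h1
  rw [Rat.cast_mul, Rat.cast_abs] at h2
  simpa using h2

/-- a finite hyperreal is bounded by a natural number -/
lemma isSt_bdd {x : ℝ*} {ρ : ℝ} (h : IsSt x ρ) : ∃ C : ℕ, |x| ≤ (C : ℝ*) := by
  obtain ⟨C, hC⟩ := exists_nat_gt (|ρ| + 1)
  refine ⟨C, ?_⟩
  have h1 := (isSt_iff_abs_sub_lt_delta.1 h) 1 one_pos
  have h2 : |x| ≤ |x - (ρ : ℝ*)| + |((ρ : ℝ) : ℝ*)| := by
    have h3 : x = (x - (ρ : ℝ*)) + (ρ : ℝ*) := by ring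
    calc |x| = |(x - (ρ : ℝ*)) + (ρ : ℝ*)| := by rw [← h3]
      _ ≤ _ := abs_add_le _ _
  have h3 : ((|ρ| + 1 : ℝ) : ℝ*) < ((C : ℝ) : ℝ*) := coe_lt_coe.2 hC
  have h4 : ((|ρ| + 1 : ℝ) : ℝ*) = |((ρ : ℝ) : ℝ*)| + ((1 : ℝ) : ℝ*) := by
    rw [← coe_abs, ← coe_add]
  have h5 : ((C : ℝ) : ℝ*) = (C : ℝ*) := map_natCast coeRingHom C
  rw [h4, h5] at h3
  linarith

/-- `N |x| < 1` for all `N` -/
lemma isSt_zero_of {x : ℝ*} (h : ∀ N : ℕ, (N : ℝ*) * |x| < 1) : IsSt x 0 := by
  rw [isSt_iff_abs_sub_lt_delta]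
  intro zz hzz
  obtain ⟨N, hN⟩ := exists_nat_gt (1 / zz)
  have h1 : 1 < (N : ℝ) * zz := (div_lt_iff₀ hzz).1 hN
  have h2 : ((1 : ℝ) : ℝ*) < (((N : ℝ) * zz : ℝ) : ℝ*) := coe_lt_coe.2 h1
  have h3 : (((N : ℝ) * zz : ℝ) : ℝ*) = (N : ℝ*) * (zz : ℝ*) := by
    rw [coe_mul]
    congr 1
  rw [h3] at h2
  have h4 : (N : ℝ*) * |x| < (N : ℝ*) * (zz : ℝ*) := (h N).trans h2
  have h5 := lt_of_mul_lt_mul_left h4 (Nat.cast_nonneg N)
  simpa using h5

/-- The key independence: a nonzero combination of elements of different classes, all different from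
the class of `δ`, plus `δ x` with `x` finite. -/
lemma comb {ι : Type*} [DecidableEq ι] (S : Finset ι) (w : ι → ℝ*) (Q : ι → ℚ) (a0 : ι) (ha0 : a0 ∈ S)
    (hQ : Q a0 ≠ 0) (hw : 0 < |w a0|)
    (hlt : ∀ a ∈ S, a ≠ a0 → Q a ≠ 0 → ∀ N : ℕ, (N : ℝ*) * |w a| < |w a0|)
    (δ x : ℝ*) (ρ : ℝ) (hδ : 0 < δ) (hx : IsSt x ρ)
    (hsum : ∑ a ∈ S, Q a • w a + δ * x = 0) (hρ : ρ = 0 → x = 0)
    (hcl : (∀ n : ℕ, (n : ℝ*) * δ < |w a0|) ∨ (∀ n : ℕ, (n : ℝ*) * |w a0| < δ)) : False := by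
  have hstar : ∀ N : ℕ, (N : ℝ*) * |∑ a ∈ S, Q a • w a - Q a0 • w a0| ≤ |w a0| := by
    intro N
    have h1 : ∑ a ∈ S, Q a • w a - Q a0 • w a0 = ∑ a ∈ S.erase a0, Q a • w a := by
      rw [← Finset.add_sum_erase S _ ha0]
      ring
    rw [h1]
    refine small_sum _ _ _ hw.le ?_ N
    intro a ha N
    have ha1 := Finset.ne_of_mem_erase ha
    have ha2 := Finset.mem_of_mem_erase ha
    by_cases h0 : Q a = 0
    · rw [h0, zero_smul, abs_zero, mul_zero]
      exact hw.le
    · obtain ⟨B, hB⟩ := abs_rat_le (Q a)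
      rw [abs_smul']
      have h2 := hlt a ha2 ha1 h0 (N * B)
      have h3 : (N : ℝ*) * (|(Q a : ℝ*)| * |w a|) ≤ ((N * B : ℕ) : ℝ*) * |w a| := by
        push_cast
        have h4 : |(Q a : ℝ*)| * |w a| ≤ (B : ℝ*) * |w a| :=
          mul_le_mul_of_nonneg_right hB (abs_nonneg _)
        calc (N : ℝ*) * (|(Q a : ℝ*)| * |w a|) ≤ (N : ℝ*) * ((B : ℝ*) * |w a|) :=
              mul_le_mul_of_nonneg_left h4 (Nat.cast_nonneg N)
          _ = (N : ℝ*) * (B : ℝ*) * |w a| := by ring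
      exact h3.trans h2.le
  set T : ℝ* := ∑ a ∈ S, Q a • w a with hT
  have hTx : T = -(δ * x) := by linear_combination hsum
  have hTa : |T| = δ * |x| := by rw [hTx, abs_neg, abs_mul, abs_of_pos hδ]
  have hq : |Q a0 • w a0| ≤ |T - Q a0 • w a0| + |T| := by
    have h1 : Q a0 • w a0 = T - (T - Q a0 • w a0) := by ring
    calc |Q a0 • w a0| = |T - (T - Q a0 • w a0)| := by rw [← h1]
      _ ≤ |T| + |T - Q a0 • w a0| := abs_sub _ _
      _ = _ := add_comm _ _
  rcases hcl with hcl | hcl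
  · obtain ⟨C, hC⟩ := isSt_bdd hx
    obtain ⟨N, hN⟩ := exists_nat_mul_gt (Q a0) hQ 2
    have h1 := hstar N
    have h2 := hcl (N * C)
    push_cast at h2
    have h3 : (N : ℝ*) * |T| ≤ (N : ℝ*) * (C : ℝ*) * δ := by
      rw [hTa]
      have h4 : δ * |x| ≤ δ * (C : ℝ*) := mul_le_mul_of_nonneg_left hC hδ.le
      calc (N : ℝ*) * (δ * |x|) ≤ (N : ℝ*) * (δ * (C : ℝ*)) :=
            mul_le_mul_of_nonneg_left h4 (Nat.cast_nonneg N)
        _ = (N : ℝ*) * (C : ℝ*) * δ := by ring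
    have h4 : (N : ℝ*) * |Q a0 • w a0| ≤ (N : ℝ*) * |T - Q a0 • w a0| + (N : ℝ*) * |T| := by
      rw [← mul_add]
      exact mul_le_mul_of_nonneg_left hq (Nat.cast_nonneg N)
    rw [abs_smul', ← mul_assoc] at h4
    have h5 : ((2 : ℕ) : ℝ*) * |w a0| < (N : ℝ*) * |(Q a0 : ℝ*)| * |w a0| :=
      mul_lt_mul_of_pos_right hN hw
    push_cast at h5
    linarith
  · have hx0 : x = 0 := by
      apply hρ
      have h1 : IsSt x 0 := by
        apply isSt_zero_of
        intro N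
        obtain ⟨B, hB⟩ := abs_rat_le (Q a0)
        have h2 := hcl (1 + N * B)
        push_cast at h2
        have h3 := hstar N
        have h4 : |T| ≤ |T - Q a0 • w a0| + |Q a0 • w a0| := by
          have h5 : T = (T - Q a0 • w a0) + Q a0 • w a0 := by ring
          calc |T| = |(T - Q a0 • w a0) + Q a0 • w a0| := by rw [← h5]
            _ ≤ _ := abs_add_le _ _
        have h5 : (N : ℝ*) * |T| ≤ (N : ℝ*) * |T - Q a0 • w a0| + (N : ℝ*) * |Q a0 • w a0| := by
          rw [← mul_add]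
          exact mul_le_mul_of_nonneg_left h4 (Nat.cast_nonneg N)
        have h6 : (N : ℝ*) * |Q a0 • w a0| ≤ (N : ℝ*) * (B : ℝ*) * |w a0| := by
          rw [abs_smul', mul_assoc]
          exact mul_le_mul_of_nonneg_left (mul_le_mul_of_nonneg_right hB (abs_nonneg _))
            (Nat.cast_nonneg N)
        have h7 : δ * ((N : ℝ*) * |x|) < δ * 1 := by
          calc δ * ((N : ℝ*) * |x|) = (N : ℝ*) * |T| := by rw [hTa]; ring
            _ ≤ |w a0| + (N : ℝ*) * (B : ℝ*) * |w a0| := by linarith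
            _ = (1 + (N : ℝ*) * (B : ℝ*)) * |w a0| := by ring
            _ < δ * 1 := by rw [mul_one]; exact h2
        exact lt_of_mul_lt_mul_left h7 hδ.le
      exact hx.unique h1
    have hT0 : |T| = 0 := by rw [hTa, hx0, abs_zero, mul_zero]
    obtain ⟨N, hN⟩ := exists_nat_mul_gt (Q a0) hQ 1
    have h1 := hstar N
    have h4 : (N : ℝ*) * |Q a0 • w a0| ≤ (N : ℝ*) * |T - Q a0 • w a0| + (N : ℝ*) * |T| := by
      rw [← mul_add]
      exact mul_le_mul_of_nonneg_left hq (Nat.cast_nonneg N)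
    rw [hT0, mul_zero, add_zero, abs_smul', ← mul_assoc] at h4
    have h5 : ((1 : ℕ) : ℝ*) * |w a0| < (N : ℝ*) * |(Q a0 : ℝ*)| * |w a0| :=
      mul_lt_mul_of_pos_right hN hw
    rw [Nat.cast_one, one_mul] at h5
    linarith

theorem specQH : SpecQH := by
  classical
  intro c k hP V e hV u huV huk hch δ hδ
  have hpos : ∀ j ≤ k, 0 < |u j| := by
    intro j hj
    rcases hj.lt_or_eq with h | h
    · have h1 := hch j h 0
      simpa using h1
    · rw [h]
      exact abs_pos.2 huk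
  have hlt : ∀ i j, i < j → j ≤ k → ∀ n : ℕ, (n : ℝ*) * |u j| < |u i| := by
    intro i j hij hj n
    obtain ⟨m, rfl⟩ := Nat.exists_eq_add_of_lt hij
    exact chain_lt hch i m hj n
  let P : ℕ → Prop := fun j =>
    (∀ n : ℕ, (n : ℝ*) * δ < |u j|) ∨ (∀ n : ℕ, (n : ℝ*) * |u j| < δ)
  have htwo : ∀ i j, i < j → j ≤ k → ¬ P i → ¬ P j → False := by
    intro i j hij hj hi hj'
    have h1 : ∃ n : ℕ, |u i| ≤ (n : ℝ*) * δ := by
      by_contra h
      push Not at h
      exact hi (Or.inl h)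
    have h2 : ∃ n : ℕ, δ ≤ (n : ℝ*) * |u j| := by
      by_contra h
      push Not at h
      exact hj' (Or.inr h)
    obtain ⟨n, hn⟩ := h1
    obtain ⟨m, hm⟩ := h2
    have h3 := hlt i j hij hj (n * m)
    push_cast at h3
    have h4 : (n : ℝ*) * δ ≤ (n : ℝ*) * ((m : ℝ*) * |u j|) :=
      mul_le_mul_of_nonneg_left hm (Nat.cast_nonneg n)
    rw [← mul_assoc] at h4
    exact absurd (hn.trans (h4.trans h3.le)) (not_le.2 (lt_of_le_of_lt (hn.trans h4) h3)).elim
  have hclaim : ∀ r : Fin (c + 1) → ℝ, (∀ i, r i ∈ stQ (scl δ V)) → ¬ LinearIndependent ℚ r := by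
    intro r hr hli
    choose t ht hst using hr
    have ht' : ∀ i, δ * t i ∈ V := ht
    let J : Finset ℕ := (Finset.range (k + 1)).filter P
    have hJk : ∀ j ∈ J, j ≤ k := by
      intro j hj
      have := Finset.mem_range.1 (Finset.mem_filter.1 hj).1
      omega
    have hJcard : k ≤ J.card := by
      have h1 : ((Finset.range (k + 1)).filter fun j => ¬ P j).card ≤ 1 := by
        rw [Finset.card_le_one]
        intro i hi j hj
        by_contra hne
        have hi1 := Finset.mem_filter.1 hi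
        have hj1 := Finset.mem_filter.1 hj
        have hi2 := Finset.mem_range.1 hi1.1
        have hj2 := Finset.mem_range.1 hj1.1
        rcases lt_or_gt_of_ne hne with h | h
        · exact htwo i j h (by omega) hi1.2 hj1.2
        · exact htwo j i h (by omega) hj1.2 hi1.2
      have h2 := Finset.card_filter_add_card_filter_not (s := Finset.range (k + 1)) P
      rw [Finset.card_range] at h2
      have h3 : J.card = ((Finset.range (k + 1)).filter P).card := rfl
      omega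
    have hVfin : FiniteDimensional ℚ V := by
      rw [hV]
      exact FiniteDimensional.span_of_finite ℚ (Set.finite_range e)
    have hf2 : Module.finrank ℚ V ≤ c + k := by
      have h1 := finrank_range_le_card (R := ℚ) e
      rw [Fintype.card_fin] at h1
      rw [hV]
      exact h1
    let g : J ⊕ Fin (c + 1) → V :=
      Sum.elim (fun j => ⟨u j.1, huV j.1 (hJk j.1 j.2)⟩) (fun i => ⟨δ * t i, ht' i⟩)
    have hLI : LinearIndependent ℚ g := by
      rw [Fintype.linearIndependent_iff]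
      intro q hq
      have h1 : ∑ x, q x • ((g x : V) : ℝ*) = 0 := by
        have h2 := congrArg V.subtype hq
        rw [map_sum, map_zero] at h2
        rw [← h2]
        exact Finset.sum_congr rfl fun x _ => rfl
      rw [Fintype.sum_sum_type] at h1
      set x : ℝ* := ∑ i, q (Sum.inr i) • t i with hx
      have h2 : ∑ i, q (Sum.inr i) • ((g (Sum.inr i) : V) : ℝ*) = δ * x := by
        rw [hx, Finset.mul_sum]
        exact Finset.sum_congr rfl fun i _ => by
          show q (Sum.inr i) • (δ * t i) = δ * (q (Sum.inr i) • t i)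
          rw [mul_smul_comm]
      rw [h2] at h1
      have hxst : IsSt x (∑ i, q (Sum.inr i) • r i) := isSt_comb _ t r hst
      have hρ : (∑ i, q (Sum.inr i) • r i) = 0 → ∀ i, q (Sum.inr i) = 0 := fun h =>
        Fintype.linearIndependent_iff.1 hli (fun i => q (Sum.inr i)) h
      have hρx : (∑ i, q (Sum.inr i) • r i) = 0 → x = 0 := by
        intro h
        rw [hx]
        exact Finset.sum_eq_zero fun i _ => by rw [hρ h i, zero_smul]
      have hQ0 : ∀ a : J, q (Sum.inl a) = 0 := by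
        by_contra hcon
        push Not at hcon
        have hD : (Finset.univ.filter fun a : J => q (Sum.inl a) ≠ 0).Nonempty := by
          obtain ⟨a, ha⟩ := hcon
          exact ⟨a, Finset.mem_filter.2 ⟨Finset.mem_univ _, ha⟩⟩
        obtain ⟨a0, ha0, hmin⟩ := Finset.exists_min_image _ (fun a : J => (a : ℕ)) hD
        have ha0' := (Finset.mem_filter.1 ha0).2
        refine comb (Finset.univ : Finset J) (fun a => u a.1) (fun a => q (Sum.inl a)) a0
          (Finset.mem_univ _) ha0' (hpos _ (hJk _ a0.2)) ?_ δ x _ hδ hxst h1 hρx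
          (Finset.mem_filter.1 a0.2).2
        intro a _ hne hqa N
        have h3 := hmin a (Finset.mem_filter.2 ⟨Finset.mem_univ _, hqa⟩)
        have h4 : (a0 : ℕ) ≠ (a : ℕ) := fun h => hne (Subtype.ext h.symm)
        exact hlt a0.1 a.1 (lt_of_le_of_ne h3 h4) (hJk _ a.2) N
      have h3 : ∑ a : J, q (Sum.inl a) • ((g (Sum.inl a) : V) : ℝ*) = 0 :=
        Finset.sum_eq_zero fun a _ => by rw [hQ0 a, zero_smul]
      rw [h3, zero_add] at h1
      have hx0 : x = 0 := (mul_eq_zero.mp h1).resolve_left hδ.ne'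
      have h4 : (∑ i, q (Sum.inr i) • r i) = 0 := by
        rw [hx0] at hxst
        exact hxst.unique (by simpa using isSt_refl_real 0)
      intro y
      rcases y with a | i
      · exact hQ0 a
      · exact hρ h4 i
    have hcard := hLI.fintype_card_le_finrank
    rw [Fintype.card_sum, Fintype.card_coe, Fintype.card_fin] at hcard
    omega
  obtain ⟨e', he'⟩ := gens (stQ (scl δ V)) c hclaim
  refine Amen.of_le (PTg_mono ?_ _) (hP e')
  intro r hr
  exact he' hr

end QHM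

end JG
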