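import Pool.Agent.Lib.MP_98125f_al.JG.MainG
import Pool.Agent.Lib.MP_98125f_al.JG.QH
import Pool.Agent.Lib.MP_98125f_al.JG.NBH
import Pool.Agent.Lib.MP_98125f_al.JG.DIH

/-!
# JG part H: assembly
-/

set_option autoImplicit false
set_option linter.deprecated false

namespace JG.MainHM

open Pool.Agent.Lib.MP98125f

theorem qh : SpecQH := QHM.specQH
theorem nbh : SpecNBH := NBHM.specNBH MainM.rec' qh MainM.exa
theorem dih : SpecDIH := DIHM.specDIH nbh

/-- one sequence of functions for all dimensions -/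
theorem funs : ∃ f : ℕ → ℕ → ℝ, (∀ d M, 0 < f d M) ∧ ∀ c k : ℕ, PG c → ∀ a : Fin (c + k) → ℝ,
    {M : ℕ | ∃ n : Fin (k + 1) → Fin (c + k) → ℤ, (∀ j, nmG (n j) ≤ M) ∧
      Chn (f (c + k) M) k n a}.Infinite →
    Amen (PTg (Submodule.span ℚ (Set.range a)).toAddSubgroup (Set.Ico (0 : ℝ) 1)) := by
  classical
  have h : ∀ c k : ℕ, ∃ g : ℕ → ℝ, (∀ M, 0 < g M) ∧ (PG c → ∀ a : Fin (c + k) → ℝ,
      {M : ℕ | ∃ n : Fin (k + 1) → Fin (c + k) → ℤ, (∀ j, nmG (n j) ≤ M) ∧
        Chn (g M) k n a}.Infinite →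
      Amen (PTg (Submodule.span ℚ (Set.range a)).toAddSubgroup (Set.Ico (0 : ℝ) 1))) := by
    intro c k
    by_cases hd : PG c
    · obtain ⟨g, h1, h2⟩ := dih c k hd
      exact ⟨g, h1, fun _ => h2⟩
    · exact ⟨fun _ => 1, fun _ => one_pos, fun h => absurd h hd⟩
  choose g h1 h2 using h
  have h3 : ∀ d M : ℕ, ∃ t : ℝ, 0 < t ∧ ∀ c ∈ Finset.range (d + 1), t ≤ g c (d - c) M :=
    fun d M => DIHM.low (Finset.range (d + 1)) (fun c => g c (d - c) M) (fun c => h1 c (d - c) M)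
  choose f hf0 hf using h3
  refine ⟨f, hf0, fun c k hc a ha => h2 c k hc a (ha.mono ?_)⟩
  rintro M ⟨n, hn, hch⟩
  have h4 := hf (c + k) M c (Finset.mem_range.2 (by omega))
  rw [Nat.add_sub_cancel_left] at h4
  exact ⟨n, hn, DIHM.chn_mono h4 hch⟩

/-- a dependent tuple of `d + 1` numbers spans a space with `d` generators -/
lemma dep {d : ℕ} (hP : PG d) (a : Fin (d + 1) → ℝ) (ha : ¬ LinearIndependent ℚ a) :
    Amen (PTg (Submodule.span ℚ (Set.range a)).toAddSubgroup (Set.Ico (0 : ℝ) 1)) := by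
  classical
  have hfin : FiniteDimensional ℚ (Submodule.span ℚ (Set.range a)) :=
    FiniteDimensional.span_of_finite ℚ (Set.finite_range a)
  have h1 : ∀ r : Fin (d + 1) → ℝ, (∀ i, r i ∈ Submodule.span ℚ (Set.range a)) →
      ¬ LinearIndependent ℚ r := by
    intro r hr hli
    apply ha
    have h2 : Submodule.span ℚ (Set.range r) ≤ Submodule.span ℚ (Set.range a) := by
      rw [Submodule.span_le]
      rintro _ ⟨i, rfl⟩
      exact hr i
    have h3 := Submodule.finrank_mono h2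
    rw [finrank_span_eq_card hli, Fintype.card_fin] at h3
    have h4 := finrank_range_le_card (R := ℚ) a
    rw [Fintype.card_fin] at h4
    have h5 : (Set.range a).finrank ℚ = Module.finrank ℚ (Submodule.span ℚ (Set.range a)) := rfl
    rw [linearIndependent_iff_card_eq_finrank_span, Fintype.card_fin]
    omega
  obtain ⟨e', he'⟩ := QGM.gens _ d h1
  exact Amen.of_le (PTg_mono (fun v hv => he' hv) _) (hP e')

/-- the reduction to badly approximable tuples -/
theorem reduction {f : ℕ → ℕ → ℝ} (hf : ∀ c k : ℕ, PG c → ∀ a : Fin (c + k) → ℝ,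
      {M : ℕ | ∃ n : Fin (k + 1) → Fin (c + k) → ℤ, (∀ j, nmG (n j) ≤ M) ∧
        Chn (f (c + k) M) k n a}.Infinite →
      Amen (PTg (Submodule.span ℚ (Set.range a)).toAddSubgroup (Set.Ico (0 : ℝ) 1)))
    (h : ∀ d : ℕ, 4 ≤ d → ∀ a : Fin d → ℝ, LinearIndependent ℚ a →
      ¬ {M : ℕ | ∃ n : Fin (1 + 1) → Fin d → ℤ, (∀ j, nmG (n j) ≤ M) ∧
        Chn (f d M) 1 n a}.Infinite →
      Amen (PTg (Submodule.span ℚ (Set.range a)).toAddSubgroup (Set.Ico (0 : ℝ) 1))) :
    Amen (PTg (⊤ : AddSubgroup ℝ) (Set.Ico (0 : ℝ) 1)) := by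
  apply MainGM.lcl.all
  intro d
  induction d with
  | zero => exact MainGM.lcl.mono 0 3 (by omega) MainGM.pg3
  | succ d ih =>
    by_cases hd : 4 ≤ d + 1
    · intro a
      by_cases hli : LinearIndependent ℚ a
      · by_cases ha : {M : ℕ | ∃ n : Fin (1 + 1) → Fin (d + 1) → ℤ, (∀ j, nmG (n j) ≤ M) ∧
            Chn (f (d + 1) M) 1 n a}.Infinite
        · exact hf d 1 ih a ha
        · exact h (d + 1) hd a hli ha
      · exact dep ih a hli
    · exact MainGM.lcl.mono (d + 1) 3 (by omega) MainGM.pg3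

end JG.MainHM
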