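import Pool.Agent.Lib.MP_98125f_al.JG.SpecF

/-!
# NBF: parameters with a small value of an integral form are good
-/

set_option autoImplicit false
set_option linter.deprecated false

namespace JG

namespace NBFM

open Filter Topology Hyperreal Pool.Agent.Lib.MP98125f

theorem qsmul_eq (q : ℚ) (x : ℝ*) : q • x = ((q : ℝ) : ℝ*) * x := by
  rw [Rat.smul_def]
  congr 1
  exact (map_ratCast coeRingHom q).symm

theorem ofSeq_add (u v : ℕ → ℝ) : ofSeq (fun j => u j + v j) = ofSeq u + ofSeq v := rfl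

theorem ofSeq_mul_const (r : ℝ) (u : ℕ → ℝ) : ofSeq (fun j => r * u j) = (r : ℝ*) * ofSeq u := rfl

/-- the value of a form along a sequence -/
theorem ofSeq_form (f : Fin 4 → ℚ) (a : ℕ → Fin 4 → ℝ) :
    ofSeq (fun j => ∑ i, (f i : ℝ) * a j i) = ∑ i, f i • ofSeq (fun j => a j i) := by
  simp only [Fin.sum_univ_four, qsmul_eq]
  rfl

end NBFM

open Filter Topology Hyperreal Pool.Agent.Lib.MP98125f NBFM in
/-- **NBF** -/
theorem NBFM.specNBF (hREC : SpecREC) (hQF : SpecQF) (hEXA : SpecEXA) : SpecNBF := by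
  intro hG n k N m M F hn
  rcases Nat.eq_zero_or_pos M with hM0 | hM
  · exact ⟨1, one_pos, fun a _ _ h _ => absurd hM0 h.ne'⟩
  by_contra hcon
  push Not at hcon
  have h1 : ∀ j : ℕ, ∃ a : Fin 4 → ℝ, (∃ i, 1 / (M : ℝ) ≤ |a i|) ∧
      |∑ i, (n i : ℝ) * a i| < 1 / ((j : ℝ) + 1) ∧ a ∉ ASet evF k N F m := by
    intro j
    obtain ⟨a, _, h2, _, h4, h5⟩ := hcon (1 / ((j : ℝ) + 1)) (by positivity)
    exact ⟨a, h2, h4, h5⟩
  choose a ha1 ha2 ha3 using h1
  set e : Fin 4 → ℝ* := fun i => ofSeq (fun j => a j i) with he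
  set V : Submodule ℚ ℝ* := Submodule.span ℚ (Set.range e) with hV
  have heV : ∀ i, e i ∈ V := fun i => Submodule.subset_span ⟨i, rfl⟩
  -- the small vector
  set nq : Fin 4 → ℚ := fun i => (n i : ℚ) with hnq
  set w : ℝ* := ∑ i, nq i • e i with hw
  have hwe : w = ofSeq (fun j => ∑ i, (nq i : ℝ) * a j i) := (ofSeq_form nq a).symm
  have hwV : w ∈ V := V.sum_mem fun i _ => V.smul_mem _ (heV i)
  have hcast : ∀ i, ((nq i : ℚ) : ℝ) = (n i : ℝ) := fun i => by
    rw [hnq]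
    push_cast
    rfl
  have hws : ∀ r : ℝ, 0 < r → |w| < (r : ℝ*) := by
    intro r hr
    have h2 : ∀ᶠ j : ℕ in hyperfilter ℕ, |∑ i, (nq i : ℝ) * a j i| < r := by
      have h3 : ∀ᶠ j : ℕ in atTop, 1 / ((j : ℝ) + 1) < r :=
        (tendsto_one_div_add_atTop_nhds_zero_nat (𝕜 := ℝ)).eventually (gt_mem_nhds hr)
      have h4 : ∀ᶠ j : ℕ in hyperfilter ℕ, 1 / ((j : ℝ) + 1) < r :=
        Nat.hyperfilter_le_atTop h3
      filter_upwards [h4] with j hj
      have h5 : ∑ i, (nq i : ℝ) * a j i = ∑ i, (n i : ℝ) * a j i :=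
        Finset.sum_congr rfl fun i _ => by rw [hcast]
      rw [h5]
      exact (ha2 j).trans hj
    rw [abs_lt]
    constructor
    · have h3 : ofSeq (fun _ => -r) < ofSeq (fun j => ∑ i, (nq i : ℝ) * a j i) :=
        ofSeq_lt_ofSeq.2 (h2.mono fun j hj => (abs_lt.mp hj).1)
      rw [hwe]
      exact h3
    · have h3 : ofSeq (fun j => ∑ i, (nq i : ℝ) * a j i) < ofSeq (fun _ => r) :=
        ofSeq_lt_ofSeq.2 (h2.mono fun j hj => (abs_lt.mp hj).2)
      rw [hwe]
      exact h3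
  -- a large vector
  have hbig : ∃ i, ((1 / (M : ℝ) : ℝ) : ℝ*) ≤ |e i| := by
    have h2 : ∀ᶠ j : ℕ in hyperfilter ℕ, ∃ i ∈ (Set.univ : Set (Fin 4)), 1 / (M : ℝ) ≤ |a j i| :=
      Eventually.of_forall fun j => by
        obtain ⟨i, hi⟩ := ha1 j
        exact ⟨i, Set.mem_univ i, hi⟩
    rw [Ultrafilter.eventually_exists_mem_iff Set.finite_univ] at h2
    obtain ⟨i, _, h3⟩ := h2
    have h4 : ∀ᶠ j : ℕ in hyperfilter ℕ, 1 / (M : ℝ) ≤ a j i ∨ 1 / (M : ℝ) ≤ -a j i :=
      h3.mono fun j hj => le_abs.mp hj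
    rw [Ultrafilter.eventually_or] at h4
    refine ⟨i, le_abs.mpr ?_⟩
    rcases h4 with h4 | h4
    · left
      have h5 : ofSeq (fun _ => 1 / (M : ℝ)) ≤ ofSeq (fun j => a j i) := ofSeq_le_ofSeq.2 h4
      exact h5
    · right
      have h5 : ofSeq (fun _ => 1 / (M : ℝ)) ≤ ofSeq (fun j => -a j i) := ofSeq_le_ofSeq.2 h4
      exact h5
  have hGP : GP V := by
    refine hQF hG V e rfl ?_
    by_cases hw0 : w = 0
    · left
      intro hli
      rw [Fintype.linearIndependent_iff] at hli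
      have h2 := hli nq hw0
      apply hn
      funext i
      have h3 := h2 i
      have h4 : (n i : ℚ) = 0 := h3
      exact_mod_cast h4
    · right
      obtain ⟨i, hi⟩ := hbig
      refine ⟨w, hwV, e i, heV i, hw0, fun p => ?_⟩
      refine lt_of_lt_of_le ?_ hi
      have hMr : (0 : ℝ) < M := by exact_mod_cast hM
      rcases Nat.eq_zero_or_pos p with hp | hp
      · rw [hp, Nat.cast_zero, zero_mul]
        have h2 : (0 : ℝ) < 1 / (M : ℝ) := by positivity
        exact_mod_cast h2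
      · have hpr : (0 : ℝ) < p := by exact_mod_cast hp
        have hps : (0 : ℝ*) < (p : ℝ*) := by exact_mod_cast hp
        have h2 := hws (1 / ((p : ℝ) * M)) (by positivity)
        have h3 := mul_lt_mul_of_pos_left h2 hps
        have h4 : (p : ℝ*) * ((1 / ((p : ℝ) * M) : ℝ) : ℝ*) = ((1 / (M : ℝ) : ℝ) : ℝ*) := by
          have h5 : ((p : ℝ) : ℝ*) = (p : ℝ*) := map_natCast coeRingHom p
          rw [← h5, ← coe_mul]
          congr 1
          field_simp
        rwa [h4] at h3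
  have hA := hREC V hGP
  have hle : (evStar evF a).range ≤ V.toAddSubgroup := by
    rintro _ ⟨f, rfl⟩
    have h2 : evStar evF a f = ∑ i, f i • e i := ofSeq_form f a
    rw [h2]
    exact V.sum_mem fun i _ => V.smul_mem _ (heV i)
  obtain ⟨j, hj⟩ := hEXA (Fin 4 → ℝ) (Fin 4 → ℚ) evF a (Amen.of_le (PTg_mono hle JJ) hA) k N F m
  exact ha3 j hj

end JG
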