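import Pool.Agent.Lib.MP_98125f_al.JG.Spec

/-!
# MP_98125f_al, JG: module NRM (the l1 norm of finitely supported functions)
-/

set_option autoImplicit false

namespace JG.NRMM

open JG

theorem nn {α : Type} (f : α →₀ ℝ) : 0 ≤ nrm f :=
  Finset.sum_nonneg fun _ _ => abs_nonneg _

theorem eq {α : Type} (f : α →₀ ℝ) (D : Finset α) (h : ∀ x, f x ≠ 0 → x ∈ D) :
    nrm f = ∑ x ∈ D, |f x| :=
  Finsupp.sum_of_support_subset f (fun x hx => h x (Finsupp.mem_support_iff.1 hx)) _
    (fun _ _ => abs_zero)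

theorem zero {α : Type} : nrm (0 : α →₀ ℝ) = 0 := Finsupp.sum_zero_index

theorem single {α : Type} (a : α) (b : ℝ) : nrm (Finsupp.single a b) = |b| :=
  Finsupp.sum_single_index abs_zero

theorem add {α : Type} (f g : α →₀ ℝ) : nrm (f + g) ≤ nrm f + nrm g := by
  classical
  have hf : ∀ x, f x ≠ 0 → x ∈ f.support ∪ g.support := fun x hx =>
    Finset.mem_union_left _ (Finsupp.mem_support_iff.2 hx)
  have hg : ∀ x, g x ≠ 0 → x ∈ f.support ∪ g.support := fun x hx =>
    Finset.mem_union_right _ (Finsupp.mem_support_iff.2 hx)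
  have hfg : ∀ x, (f + g) x ≠ 0 → x ∈ f.support ∪ g.support := by
    intro x hx
    by_cases h : f x = 0
    · refine hg x fun h' => hx ?_
      rw [Finsupp.add_apply, h, h', add_zero]
    · exact hf x h
  rw [eq f _ hf, eq g _ hg, eq (f + g) _ hfg, ← Finset.sum_add_distrib]
  refine Finset.sum_le_sum fun x _ => ?_
  rw [Finsupp.add_apply]
  exact abs_add_le _ _

theorem smul {α : Type} (c : ℝ) (f : α →₀ ℝ) : nrm (c • f) = |c| * nrm f := by
  have h : ∀ x, (c • f) x ≠ 0 → x ∈ f.support := by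
    intro x hx
    rw [Finsupp.mem_support_iff]
    intro h0
    refine hx ?_
    rw [Finsupp.smul_apply, h0, smul_zero]
  rw [eq (c • f) _ h, eq f f.support (fun x hx => Finsupp.mem_support_iff.2 hx), Finset.mul_sum]
  refine Finset.sum_congr rfl fun x _ => ?_
  rw [Finsupp.smul_apply, smul_eq_mul, abs_mul]

theorem sum {α ι : Type} (s : Finset ι) (f : ι → α →₀ ℝ) :
    nrm (∑ i ∈ s, f i) ≤ ∑ i ∈ s, nrm (f i) := by
  classical
  induction s using Finset.induction_on with
  | empty =>
    rw [Finset.sum_empty, Finset.sum_empty, zero]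
  | insert a s ha ih =>
    rw [Finset.sum_insert ha, Finset.sum_insert ha]
    exact (add _ _).trans (add_le_add le_rfl ih)

theorem map {α β : Type} (u : α → β) (f : α →₀ ℝ) : nrm (Finsupp.mapDomain u f) ≤ nrm f := by
  have h1 : Finsupp.mapDomain u f = ∑ a ∈ f.support, Finsupp.single (u a) (f a) := rfl
  rw [h1]
  refine (sum _ _).trans (le_of_eq ?_)
  have h2 : nrm f = ∑ a ∈ f.support, |f a| := rfl
  rw [h2]
  exact Finset.sum_congr rfl fun a _ => single _ _

theorem specNRM : SpecNRM where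
  nn := nn
  add := add
  smul := smul
  map := map
  sum := sum
  eq := eq

end JG.NRMM
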