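import Pool.Agent.Lib.MP_98125f_al.JG.Spec

/-!
Module RSB: finite elements of `K(x)`, `x` infinitely close to a point algebraically independent
over `K`, have standard parts in `K(x0)`.
-/

set_option autoImplicit false
set_option linter.deprecated false

namespace JG.RSBM

open Filter Topology Hyperreal Pool.Agent.Lib.MP98125f

/-- evaluation of polynomials over `K` at a hyperreal point -/
noncomputable def hv (K : Subfield ℝ) {d : ℕ} (x : Fin d → ℝ*) :
    MvPolynomial (Fin d) K →+* ℝ* :=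
  MvPolynomial.eval₂Hom
    (((coeRingHom : ℝ →+*o ℝ*) : ℝ →+* ℝ*).comp K.subtype) x

theorem hv_C (K : Subfield ℝ) {d : ℕ} (x : Fin d → ℝ*) (a : K) :
    hv K x (MvPolynomial.C a) = ((a : ℝ) : ℝ*) := by
  unfold hv
  rw [MvPolynomial.coe_eval₂Hom, MvPolynomial.eval₂_C]
  rfl

theorem hv_X (K : Subfield ℝ) {d : ℕ} (x : Fin d → ℝ*) (i : Fin d) :
    hv K x (MvPolynomial.X i) = x i := by
  unfold hv
  rw [MvPolynomial.coe_eval₂Hom, MvPolynomial.eval₂_X]

theorem hv_isSt (K : Subfield ℝ) {d : ℕ} (x0 : Fin d → ℝ) (x : Fin d → ℝ*)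
    (hx : ∀ i, IsSt (x i) (x0 i)) (p : MvPolynomial (Fin d) K) :
    IsSt (hv K x p) (MvPolynomial.aeval x0 p) := by
  induction p using MvPolynomial.induction_on with
  | C a =>
    rw [hv_C, MvPolynomial.aeval_C]
    exact isSt_refl_real _
  | add p q hp hq =>
    rw [map_add, map_add]
    exact hp.add hq
  | mul_X p i hp =>
    rw [map_mul, map_mul, hv_X, MvPolynomial.aeval_X]
    exact hp.mul (hx i)

theorem aeval_mem (K : Subfield ℝ) {d : ℕ} (x0 : Fin d → ℝ) (p : MvPolynomial (Fin d) K) :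
    MvPolynomial.aeval x0 p ∈ KX K x0 := by
  induction p using MvPolynomial.induction_on with
  | C a =>
    rw [MvPolynomial.aeval_C]
    exact Subfield.subset_closure (Or.inl a.2)
  | add p q hp hq =>
    rw [map_add]
    exact add_mem hp hq
  | mul_X p i hp =>
    rw [map_mul, MvPolynomial.aeval_X]
    exact mul_mem hp (Subfield.subset_closure (Or.inr ⟨i, rfl⟩))

/-- elements of the closure are quotients of values of polynomials -/
theorem quot (K : Subfield ℝ) {d : ℕ} (x : Fin d → ℝ*) (t : ℝ*)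
    (ht : t ∈ Subfield.closure (((fun r : ℝ => (r : ℝ*)) '' (K : Set ℝ)) ∪ Set.range x)) :
    ∃ p q : MvPolynomial (Fin d) K, hv K x q ≠ 0 ∧ t * hv K x q = hv K x p := by
  induction ht using Subfield.closure_induction with
  | mem t h =>
    rcases h with ⟨r, hr, rfl⟩ | ⟨i, rfl⟩
    · exact ⟨MvPolynomial.C ⟨r, hr⟩, 1, by rw [map_one]; exact one_ne_zero, by
        rw [map_one, mul_one, hv_C]⟩
    · exact ⟨MvPolynomial.X i, 1, by rw [map_one]; exact one_ne_zero, by
        rw [map_one, mul_one, hv_X]⟩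
  | one => exact ⟨1, 1, by rw [map_one]; exact one_ne_zero, by rw [map_one, mul_one]⟩
  | add s t _ _ hs ht =>
    obtain ⟨p, q, hq, h⟩ := hs
    obtain ⟨p', q', hq', h'⟩ := ht
    refine ⟨p * q' + p' * q, q * q', ?_, ?_⟩
    · rw [map_mul]
      exact mul_ne_zero hq hq'
    · rw [map_add, map_mul, map_mul, map_mul, ← h, ← h']
      ring
  | neg t _ ht =>
    obtain ⟨p, q, hq, h⟩ := ht
    exact ⟨-p, q, hq, by rw [map_neg, ← h, neg_mul]⟩
  | inv t _ ht =>
    obtain ⟨p, q, hq, h⟩ := ht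
    by_cases h0 : t = 0
    · exact ⟨0, 1, by rw [map_one]; exact one_ne_zero, by rw [h0, inv_zero, zero_mul, map_zero]⟩
    · refine ⟨q, p, ?_, ?_⟩
      · rw [← h]
        exact mul_ne_zero h0 hq
      · rw [← h, ← mul_assoc, inv_mul_cancel₀ h0, one_mul]
  | mul s t _ _ hs ht =>
    obtain ⟨p, q, hq, h⟩ := hs
    obtain ⟨p', q', hq', h'⟩ := ht
    refine ⟨p * p', q * q', ?_, ?_⟩
    · rw [map_mul]
      exact mul_ne_zero hq hq'
    · rw [map_mul, map_mul, ← h, ← h']
      ring

theorem specRSB : SpecRSB := by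
  intro K d x0 x hAI hx t ht hfin
  obtain ⟨p, q, hq, h⟩ := quot K x t ht
  have hq0 : q ≠ 0 := by
    rintro rfl
    exact hq (map_zero _)
  have hqx : MvPolynomial.aeval x0 q ≠ 0 := fun h0 => hq0 (hAI q h0)
  have h1 : IsSt (t * hv K x q) (st t * MvPolynomial.aeval x0 q) :=
    (isSt_st' hfin).mul (hv_isSt K x0 x hx q)
  rw [h] at h1
  have h2 : st t * MvPolynomial.aeval x0 q = MvPolynomial.aeval x0 p :=
    h1.unique (hv_isSt K x0 x hx p)
  have h3 : st t = MvPolynomial.aeval x0 p / MvPolynomial.aeval x0 q := by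
    rw [← h2, mul_div_assoc, div_self hqx, mul_one]
  rw [h3]
  exact div_mem (aeval_mem K x0 p) (aeval_mem K x0 q)

end JG.RSBM
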