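import Pool.Agent.Lib.MP_98125f_al.JG.SpecE

/-! # Module RST: restriction to a finite-dimensional rational space. -/

set_option autoImplicit false
set_option linter.deprecated false

namespace JG.RSTM

open Filter Topology Pool.Agent.Lib.MP98125f

variable {V : Submodule ℚ ℝ}

theorem mem_iff {g : Equiv.Perm ℝ} (hg : g ∈ PTg V.toAddSubgroup (Set.Ico (0 : ℝ) 1)) (x : ℝ) :
    g x ∈ V ↔ x ∈ V := by
  have h1 : g x - x ∈ V := hg.2.1 x
  constructor
  · intro h
    have h2 := V.sub_mem h h1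
    rwa [sub_sub_cancel] at h2
  · intro h
    have h2 := V.add_mem h1 h
    rwa [sub_add_cancel] at h2

/-- the restriction to `V` -/
noncomputable def res (H : Subgroup (Equiv.Perm ℝ))
    (hH : H ≤ PTg V.toAddSubgroup (Set.Ico (0 : ℝ) 1)) : H →* Equiv.Perm V where
  toFun g := Equiv.Perm.subtypePerm g.1 (fun x => mem_iff (hH g.2) x)
  map_one' := by
    ext x
    rfl
  map_mul' := by
    intro a b
    ext x
    rfl

theorem res_apply (H : Subgroup (Equiv.Perm ℝ))
    (hH : H ≤ PTg V.toAddSubgroup (Set.Ico (0 : ℝ) 1)) (g : H) (v : V) :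
    ((res H hH g v : V) : ℝ) = g.1 (v : ℝ) := rfl

open Classical in
theorem specRST : SpecRST := by
  intro S hS
  choose! B hB using fun s (hs : s ∈ S) => (hS s hs).1
  have hfin : (({(1 : ℝ)} : Set ℝ) ∪ ⋃ s ∈ S, ((B s : Set ℝ) ∪ Set.range fun x => s x - x)).Finite := by
    refine (Set.finite_singleton _).union (Set.Finite.biUnion S.finite_toSet fun s hs => ?_)
    exact (B s).finite_toSet.union (hB s hs).finite_range
  set W : Set ℝ := ({(1 : ℝ)} : Set ℝ) ∪ ⋃ s ∈ S, ((B s : Set ℝ) ∪ Set.range fun x => s x - x) with hW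
  set V : Submodule ℚ ℝ := Submodule.span ℚ W with hV
  have hWV : W ⊆ V := Submodule.subset_span
  have h1V : (1 : ℝ) ∈ V := hWV (Or.inl rfl)
  have hBV : ∀ s ∈ S, ∀ b ∈ B s, b ∈ V := fun s hs b hb =>
    hWV (Or.inr (Set.mem_iUnion₂.mpr ⟨s, hs, Or.inl hb⟩))
  have hdV : ∀ s ∈ S, ∀ x, s x - x ∈ V := fun s hs x =>
    hWV (Or.inr (Set.mem_iUnion₂.mpr ⟨s, hs, Or.inr ⟨x, rfl⟩⟩))
  have hle : Subgroup.closure (S : Set (Equiv.Perm ℝ)) ≤
      PTg V.toAddSubgroup (Set.Ico (0 : ℝ) 1) := by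
    rw [Subgroup.closure_le]
    intro s hs
    exact ⟨(hS s hs).1, fun x => hdV s hs x, (hS s hs).2.2⟩
  let ρ := res (Subgroup.closure (S : Set (Equiv.Perm ℝ))) hle
  have hρ : ∀ g (hg : g ∈ Subgroup.closure (S : Set (Equiv.Perm ℝ))), ρ ⟨g, hg⟩ ∈ PV V := by
    intro g hg
    induction hg using Subgroup.closure_induction with
    | mem s hs =>
      refine ⟨⟨(B s).attach.image fun b => ⟨b.1, hBV s hs b.1 b.2⟩, ?_⟩, fun _ => trivial, ?_⟩
      · intro v w hvw hno
        apply Subtype.ext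
        show s (w : ℝ) - (w : ℝ) = s (v : ℝ) - (v : ℝ)
        refine hB s hs (v : ℝ) (w : ℝ) hvw ?_
        intro b hb hcon
        refine hno ⟨b, hBV s hs b hb⟩ ?_ ⟨hcon.1, hcon.2⟩
        exact Finset.mem_image.mpr ⟨⟨b, hb⟩, Finset.mem_attach _ _, rfl⟩
      · intro v hv
        apply Subtype.ext
        show s (v : ℝ) = (v : ℝ)
        exact (hS s hs).2.2 (v : ℝ) hv
    | one => exact (PV V).one_mem
    | mul x y hx hy ihx ihy => exact (PV V).mul_mem ihx ihy
    | inv x hx ih => exact (PV V).inv_mem ih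
  refine ⟨V, h1V, FiniteDimensional.span_of_finite ℚ hfin,
    ρ.codRestrict (PV V) (fun g => hρ g.1 g.2), ?_⟩
  rw [injective_iff_map_eq_one]
  intro g hg
  have h2 : ρ g = 1 := congrArg Subtype.val hg
  have h3 : ∀ v ∈ V, g.1 v = v := by
    intro v hv
    have h4 := congrArg (fun p : Equiv.Perm V => ((p ⟨v, hv⟩ : V) : ℝ)) h2
    exact h4
  apply Subtype.ext
  refine Equiv.ext fun x => ?_
  show g.1 x = x
  obtain ⟨⟨C, hC⟩, _, _⟩ := hle g.2
  have h5 : ∀ᶠ a in 𝓝[>] x, ∀ b ∈ C, ¬ (x < b ∧ b ≤ a) := by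
    rw [Filter.eventually_all_finset]
    intro b _
    rcases le_or_gt b x with h | h
    · exact Eventually.of_forall fun a hcon => absurd hcon.1 (not_lt.2 h)
    · have : ∀ᶠ a in 𝓝[>] x, a < b := mem_nhdsWithin_of_mem_nhds (Iio_mem_nhds h)
      filter_upwards [this] with a ha hcon
      exact absurd hcon.2 (not_le.2 ha)
  obtain ⟨a0, ha0, hxa0⟩ := (h5.and self_mem_nhdsWithin).exists
  replace hxa0 : x < a0 := hxa0
  obtain ⟨t, ht1, ht2⟩ := exists_rat_btwn hxa0
  have htV : (t : ℝ) ∈ V := by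
    have h6 := V.smul_mem t h1V
    rwa [Rat.smul_def, mul_one] at h6
  have h7 := hC x t ht1.le (fun b hb hcon => ha0 b hb ⟨hcon.1, hcon.2.trans ht2.le⟩)
  rw [h3 t htV, sub_self] at h7
  linarith

end JG.RSTM
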