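import Mathlib
import Pool.Agent.Lib.MP_98125f_al.JG.Spec

/-!
MP_98125f_al, JG part F: the first open case (spaces of dimension 4 over the rationals): amenability
for all spaces whose linear form is sufficiently well approximable.

Module `XXX` = file `JG/XXX.lean`, imports `JG.SpecF` only, theorem
`specXXX (hypotheses named in the docstring) : SpecXXX` in the namespace `JG.XXXM`.
-/

set_option autoImplicit false
set_option linter.deprecated false

namespace JG

open Filter Topology Hyperreal Pool.Agent.Lib.MP98125f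

/-- QF.  Let `δ > 0`, `R = stL (scl δ V)` (a rational subspace of the reals).  Claim: four elements `r_i`
of `R` are linearly dependent over the rationals; then `R ≤ SP ⊥ e'` for some `e'` (maximal independent
family, padded by 0), `PTg_mono`, `Amen.of_le`.  Suppose they are independent, `IsSt (t i) (r i)`,
`δ t_i ∈ V`.  A relation `∑ q_i δ t_i = 0` gives `∑ q_i r_i = 0`; so the `δ t_i` are a basis of `V`
(`V` is spanned by four elements) and `e` is linearly independent.  Every `w ∈ V`, `w ≠ 0` is
`δ ∑ q_i t_i` with `q ≠ 0`, so `w / δ` is finite with standard part `∑ q_i r_i ≠ 0`.  This contradicts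
`n |u| < |v|` for all `n`. -/
def SpecQF : Prop := G3 ⊥ → ∀ (V : Submodule ℚ ℝ*) (e : Fin 4 → ℝ*),
  V = Submodule.span ℚ (Set.range e) →
  (¬ LinearIndependent ℚ e ∨ ∃ u ∈ V, ∃ v ∈ V, u ≠ 0 ∧ ∀ n : ℕ, (n : ℝ*) * |u| < |v|) → GP V

/-- forms in four variables -/
noncomputable def evF : (Fin 4 → ℚ) →+ ((Fin 4 → ℝ) → ℝ) where
  toFun f := fun a => ∑ i, (f i : ℝ) * a i
  map_zero' := by
    funext a
    simp
  map_add' := by
    intro f g
    funext a
    simp only [Pi.add_apply, Rat.cast_add, add_mul, Finset.sum_add_distrib]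

/-- NBF (from REC, QF, EXA).  Otherwise for every `j` there is `a j` with all the properties for
`1/(j+1)` and `a j ∉ ASet`.  Let `e i = ofSeq (a · i)`, `V` = span of the `e i` = range of `evStar evF a`.
`w = ∑ n_i e_i` is infinitesimal; for some `i` the `|e i| ≥ 1/M` (finite choice along the
ultrafilter).  If `w = 0` then `e` is linearly dependent (`n ≠ 0`); otherwise `u = w`, `v = e i`.
So `GP V` (QF), the group over `V` is amenable (REC), and EXA gives a contradiction. -/
def SpecNBF : Prop := G3 ⊥ → ∀ (n : Fin 4 → ℤ) (k N m M : ℕ) (F : Finset (Fin 4 → ℚ)), n ≠ 0 →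
  ∃ η : ℝ, 0 < η ∧ ∀ a : Fin 4 → ℝ, (∀ i, |a i| ≤ M) → (∃ i, 1 / (M : ℝ) ≤ |a i|) → 0 < M →
    |∑ i, (n i : ℝ) * a i| < η → a ∈ ASet evF k N F m

/-- sup norm of an integer vector -/
def nm (n : Fin 4 → ℤ) : ℕ := Finset.univ.sup fun i => (n i).natAbs

/-- DIO (from NBF).  Enumerate the countable set of the quadruples `(k, N, F, m)` as `c 0, c 1, ...`;
`f M` = the minimum of 1 and of the `η(n, c j, M)` over `j ≤ M` and the finitely many `n ≠ 0` with
`nm n = M`.  Let `a ≠ 0` with infinitely many `n`.  For every `j` there is an `n ≠ 0` in the set with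
`nm n = M ≥ j`, `M ≥ |a i|` for all `i` and `1/M ≤ |a i|` for some `i` (there are finitely many `n` of
bounded norm); so `a ∈ ASet evF (c j)`.  Hence `amen_of_forall_ASet` (Baire.lean).  For `a = 0` the group
is trivial. -/
def SpecDIO : Prop := G3 ⊥ → ∃ f : ℕ → ℝ, (∀ M, 0 < f M) ∧ ∀ a : Fin 4 → ℝ,
  {n : Fin 4 → ℤ | |∑ i, (n i : ℝ) * a i| < f (nm n)}.Infinite →
  Amen (PTg (Submodule.span ℚ (Set.range a)).toAddSubgroup (Set.Ico (0 : ℝ) 1))

end JG
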