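import Mathlib
import Pool.Agent.Lib.MP_98125f_al.JG.SpecF

/-!
MP_98125f_al, JG part G: part F in all dimensions.  If the group is amenable for all spaces with `d`
generators, it is amenable for all sufficiently well approximable spaces with `d + 1` generators.  So
Q1 is reduced to badly approximable tuples.

Module `XXX` = file `JG/XXX.lean`, imports `JG.SpecG` only, theorem
`specXXX (hypotheses named in the docstring) : SpecXXX` in the namespace `JG.XXXM`.
-/

set_option autoImplicit false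
set_option linter.deprecated false

namespace JG

open Filter Topology Hyperreal Pool.Agent.Lib.MP98125f

/-- All rational spaces with `d` generators are good. -/
def PG (d : ℕ) : Prop := ∀ e : Fin d → ℝ,
  Amen (PTg (Submodule.span ℚ (Set.range e)).toAddSubgroup (Set.Ico (0 : ℝ) 1))

/-- QG = QF in dimension `d + 1`.  Let `δ > 0`, `R = stL (scl δ V)` (a rational subspace of the reals).
Claim: `d + 1` elements `r_i` of `R` are linearly dependent over the rationals; then `R ≤ span (range e')`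
for some `e' : Fin d → ℝ` (`R` has dimension at most `d`), `PTg_mono`, `Amen.of_le`.  Suppose they are
independent, `IsSt (t i) (r i)`, `δ t_i ∈ V`.  A relation `∑ q_i δ t_i = 0` gives `∑ q_i r_i = 0`; so the
`δ t_i` are a basis of `V` (`V` is spanned by `d + 1` elements) and `e` is linearly independent.  Every
`w ∈ V`, `w ≠ 0` is `δ ∑ q_i t_i` with `q ≠ 0`, so `w / δ` is finite with standard part
`∑ q_i r_i ≠ 0`.  This contradicts `n |u| < |v|` for all `n`. -/
def SpecQG : Prop := ∀ d : ℕ, PG d → ∀ (V : Submodule ℚ ℝ*) (e : Fin (d + 1) → ℝ*),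
  V = Submodule.span ℚ (Set.range e) →
  (¬ LinearIndependent ℚ e ∨ ∃ u ∈ V, ∃ v ∈ V, u ≠ 0 ∧ ∀ n : ℕ, (n : ℝ*) * |u| < |v|) → GP V

/-- forms in `d` variables -/
noncomputable def evG (d : ℕ) : (Fin d → ℚ) →+ ((Fin d → ℝ) → ℝ) where
  toFun f := fun a => ∑ i, (f i : ℝ) * a i
  map_zero' := by
    funext a
    simp
  map_add' := by
    intro f g
    funext a
    simp only [Pi.add_apply, Rat.cast_add, add_mul, Finset.sum_add_distrib]

/-- NBG (from REC, QG, EXA) = NBF in dimension `d + 1`. -/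
def SpecNBG : Prop := ∀ d : ℕ, PG d → ∀ (n : Fin (d + 1) → ℤ) (k N m M : ℕ)
  (F : Finset (Fin (d + 1) → ℚ)), n ≠ 0 →
  ∃ η : ℝ, 0 < η ∧ ∀ a : Fin (d + 1) → ℝ, (∀ i, |a i| ≤ M) → (∃ i, 1 / (M : ℝ) ≤ |a i|) → 0 < M →
    |∑ i, (n i : ℝ) * a i| < η → a ∈ ASet (evG (d + 1)) k N F m

/-- sup norm of an integer vector -/
def nmG {d : ℕ} (n : Fin d → ℤ) : ℕ := Finset.univ.sup fun i => (n i).natAbs

/-- DIG (from NBG) = DIO in dimension `d + 1`. -/
def SpecDIG : Prop := ∀ d : ℕ, PG d → ∃ f : ℕ → ℝ, (∀ M, 0 < f M) ∧ ∀ a : Fin (d + 1) → ℝ,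
  {n : Fin (d + 1) → ℤ | |∑ i, (n i : ℝ) * a i| < f (nmG n)}.Infinite →
  Amen (PTg (Submodule.span ℚ (Set.range a)).toAddSubgroup (Set.Ico (0 : ℝ) 1))

/-- LCL.  `zero`: `PG 0` (the group is trivial).  `three`: `G3 ⊥ → PG 3` (`SP ⊥ e` is the rational span of
`e`).  `mono`: `PG d → PG c` for `c ≤ d`.  `all`: amenability is a local property: finitely many
elements of the group of all piecewise translations have finitely many displacements, which are in the
span of some `e : Fin d → ℝ`. -/
structure SpecLCL : Prop where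
  three : G3 ⊥ → PG 3
  mono : ∀ c d : ℕ, c ≤ d → PG d → PG c
  all : (∀ d, PG d) → Amen (PTg (⊤ : AddSubgroup ℝ) (Set.Ico (0 : ℝ) 1))

end JG
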