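import Mathlib
import Pool.Agent.Lib.MP_98125f_al.JG.SpecG

/-!
MP_98125f_al, JG part H: part G with chains of approximations.  If the group is amenable for all spaces
with `c` generators, it is amenable for all spaces with `c + k` generators which have, for infinitely
many `M`, a chain `n_0, ..., n_k` of integer vectors of norm at most `M` such that the numbers
`|n_j · a|` decrease by factors less than `f M`.
-/

set_option autoImplicit false
set_option linter.deprecated false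

namespace JG

open Filter Topology Hyperreal Pool.Agent.Lib.MP98125f

/-- QH.  Real parts of a space with `c + k` generators that contains `k + 1` nonzero elements of
different archimedean classes have dimension at most `c`. -/
def SpecQH : Prop := ∀ c k : ℕ, PG c → ∀ (V : Submodule ℚ ℝ*) (e : Fin (c + k) → ℝ*),
  V = Submodule.span ℚ (Set.range e) → ∀ u : ℕ → ℝ*, (∀ j ≤ k, u j ∈ V) → u k ≠ 0 →
  (∀ j < k, ∀ n : ℕ, (n : ℝ*) * |u (j + 1)| < |u j|) → GP V

/-- An `η`-chain of length `k + 1` for `a`. -/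
def Chn {d : ℕ} (η : ℝ) (k : ℕ) (n : Fin (k + 1) → Fin d → ℤ) (a : Fin d → ℝ) : Prop :=
  ∑ i, (n (Fin.last k) i : ℝ) * a i ≠ 0 ∧
    ∀ j : Fin k, |∑ i, (n j.succ i : ℝ) * a i| < η * |∑ i, (n j.castSucc i : ℝ) * a i|

/-- NBH (from REC, QH, EXA). -/
def SpecNBH : Prop := ∀ c k : ℕ, PG c → ∀ (n : Fin (k + 1) → Fin (c + k) → ℤ) (l N m : ℕ)
  (F : Finset (Fin (c + k) → ℚ)),
  ∃ η : ℝ, 0 < η ∧ ∀ a : Fin (c + k) → ℝ, Chn η k n a → a ∈ ASet (evG (c + k)) l N F m

/-- DIH (from NBH). -/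
def SpecDIH : Prop := ∀ c k : ℕ, PG c → ∃ f : ℕ → ℝ, (∀ M, 0 < f M) ∧ ∀ a : Fin (c + k) → ℝ,
  {M : ℕ | ∃ n : Fin (k + 1) → Fin (c + k) → ℤ, (∀ j, nmG (n j) ≤ M) ∧ Chn (f M) k n a}.Infinite →
  Amen (PTg (Submodule.span ℚ (Set.range a)).toAddSubgroup (Set.Ico (0 : ℝ) 1))

end JG
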