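import Mathlib
import Pool.Agent.Lib.MP_98125f_al.JG.PER

/-!
MP_98125f_al, JG, module TWO: two good fields of transcendence degree continuum with sum `ℝ`.

The set of the continuous functions `f` on the Cantor set with Mycielski's property is comeagre in
`C(K, ℝ)`; `f ↦ s - f` is a homeomorphism of `C(K, ℝ)`; so for comeagre `f` both `f` and `s - f` have the
property.  Here `s` is a continuous map of the Cantor set onto `[0, 1]`.
-/

set_option autoImplicit false

namespace JG.TWOM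

open Filter Topology Set Pool.Agent.Lib.MP98125f

/-- Mycielski's theorem, residual form. -/
theorem mycielski_residual (R : ∀ d : ℕ, Set (Fin d → ℝ))
    (hR : ∀ d, R d ∈ residual (Fin d → ℝ)) :
    ∀ᶠ f in residual C(ℕ → Bool, ℝ), ∀ (d : ℕ) (x : Fin d → (ℕ → Bool)), Function.Injective x →
      (fun i => f (x i)) ∈ R d := by
  have h0 : ∀ d, ∃ S : Set (Set (Fin d → ℝ)), (∀ t ∈ S, IsOpen t) ∧ (∀ t ∈ S, Dense t) ∧
      S.Countable ∧ ⋂₀ S ⊆ R d := fun d => mem_residual_iff.1 (hR d)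
  choose S hS1 hS2 hS3 hS4 using h0
  have h1 : ∀ᶠ f in residual C(ℕ → Bool, ℝ), ∀ d n, ∀ U ∈ S d, f ∈ Perf.O d n U := by
    rw [eventually_countable_forall]; intro d
    rw [eventually_countable_forall]; intro n
    rw [eventually_countable_ball (hS3 d)]; intro U hU
    exact residual_of_dense_open (Perf.isOpen_O d n (hS1 d U hU))
      (Perf.dense_O d n (hS1 d U hU) (hS2 d U hU))
  filter_upwards [h1] with f hf
  intro d x hx
  have h2 : ∃ n, x ∈ Perf.Z d n := by
    have h3 : ∀ p : Fin d × Fin d, ∃ m : ℕ, p.1 ≠ p.2 → x p.1 m ≠ x p.2 m := by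
      intro p
      by_cases hp : p.1 = p.2
      · exact ⟨0, fun h => absurd hp h⟩
      · have h4 : x p.1 ≠ x p.2 := fun h => hp (hx h)
        obtain ⟨m, hm⟩ := Function.ne_iff.1 h4
        exact ⟨m, fun _ => hm⟩
    choose m hm using h3
    refine ⟨Finset.univ.sup m + 1, ?_⟩
    intro i j hij
    by_contra hne
    have h5 : m (i, j) < Finset.univ.sup m + 1 :=
      Nat.lt_succ_of_le (Finset.le_sup (f := m) (Finset.mem_univ (i, j)))
    exact hm (i, j) hne (congrFun hij ⟨m (i, j), h5⟩)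
  obtain ⟨n, hn⟩ := h2
  apply hS4 d
  rw [mem_sInter]
  intro U hU
  exact hf d n U hU x hn

/-- the homeomorphism `f ↦ s - f` -/
def refl (s : C(ℕ → Bool, ℝ)) : C(ℕ → Bool, ℝ) ≃ₜ C(ℕ → Bool, ℝ) where
  toFun f := s - f
  invFun f := s - f
  left_inv f := by simp
  right_inv f := by simp
  continuous_toFun := continuous_const.sub continuous_id
  continuous_invFun := continuous_const.sub continuous_id

theorem residual_refl (s : C(ℕ → Bool, ℝ)) {p : C(ℕ → Bool, ℝ) → Prop}
    (h : ∀ᶠ f in residual C(ℕ → Bool, ℝ), p f) : ∀ᶠ f in residual C(ℕ → Bool, ℝ), p (s - f) :=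
  (tendsto_residual_of_isOpenMap (refl s).continuous (refl s).isOpenMap).eventually h

/-- Two good families with prescribed sum. -/
theorem two (hres : ∀ d : ℕ, ∀ᶠ x in residual (Fin d → ℝ), G3 (KX ⊥ x)) (s : C(ℕ → Bool, ℝ)) :
    ∃ f g : (ℕ → Bool) → ℝ, Continuous f ∧ Continuous g ∧ AlgebraicIndependent ℚ f ∧
      AlgebraicIndependent ℚ g ∧ G3 (Subfield.closure (Set.range f)) ∧
      G3 (Subfield.closure (Set.range g)) ∧ ∀ x, f x + g x = s x := by
  have h1 := mycielski_residual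
    (fun d => {x : Fin d → ℝ | AlgebraicIndependent ℚ x} ∩ {x | G3 (KX ⊥ x)})
    (fun d => inter_mem (PERM.residual_ai d) (hres d))
  obtain ⟨f, hf, hg⟩ := (dense_of_mem_residual (h1.and (residual_refl s h1))).nonempty
  refine ⟨f, (s - f : C(ℕ → Bool, ℝ)), f.continuous, (s - f).continuous,
    PERM.ai_of_fin fun d x hx => (hf d x hx).1, PERM.ai_of_fin fun d x hx => (hg d x hx).1,
    PERM.good fun d x hx => (hf d x hx).2, PERM.good fun d x hx => (hg d x hx).2, fun x => ?_⟩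
  simp

/-- Two good fields with sum `ℝ`. -/
theorem sum (hres : ∀ d : ℕ, ∀ᶠ x in residual (Fin d → ℝ), G3 (KX ⊥ x)) :
    ∃ f g : (ℕ → Bool) → ℝ, Continuous f ∧ Continuous g ∧ AlgebraicIndependent ℚ f ∧
      AlgebraicIndependent ℚ g ∧ G3 (Subfield.closure (Set.range f)) ∧
      G3 (Subfield.closure (Set.range g)) ∧
      (∀ t : ℝ, 0 ≤ t → t ≤ 1 → ∃ x, t = f x + g x) := by
  obtain ⟨s, hs, hsurj⟩ :=
    exists_nat_bool_continuous_surjective_of_compact (Set.Icc (0 : ℝ) 1)
  obtain ⟨f, g, hf, hg, h1, h2, h3, h4, h5⟩ :=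
    two hres ⟨fun x => (s x : ℝ), continuous_subtype_val.comp hs⟩
  refine ⟨f, g, hf, hg, h1, h2, h3, h4, fun t ht0 ht1 => ?_⟩
  obtain ⟨x, hx⟩ := hsurj ⟨t, ht0, ht1⟩
  refine ⟨x, ?_⟩
  rw [h5 x]
  show t = (s x : ℝ)
  rw [hx]

end JG.TWOM
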